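import Pool.Agent.Helper120_Alt.Basic

set_option autoImplicit false

namespace Pool.Agent.Helper120_Alt

open Pool.Agent.Helper895.Alt

noncomputable section

variable {F : Type} [Field F]

theorem single_mul_single' {M : Type} [Mul M] (a b : M) :
    (MonoidAlgebra.single (a * b) 1 : MonoidAlgebra F M) =
      MonoidAlgebra.single a 1 * MonoidAlgebra.single b 1 := by
  rw [MonoidAlgebra.single_mul_single, one_mul]

theorem single_eq_smul {M : Type} (a : M) (c : F) :
    (MonoidAlgebra.single a c : MonoidAlgebra F M) = c • MonoidAlgebra.single a 1 := by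
  simp

/-- forgetting the brackets -/
def psi (F X : Type) [Field F] : NA F X →ₙₐ[F] AS F X :=
  MonoidAlgebra.mapDomainNonUnitalAlgHom F F (FreeMagma.toFreeSemigroup (α := X))

theorem psi_single {X : Type} (m : FreeMagma X) (c : F) :
    psi F X (MonoidAlgebra.single m c) = MonoidAlgebra.single (FreeMagma.toFreeSemigroup m) c := by
  simp [psi]

theorem psi_alts {X : Type} {p : NA F X} (hp : p ∈ alts F X) : psi F X p = 0 := by
  obtain ⟨a, b, rfl | rfl⟩ := hp
  · rw [map_sub, map_mul, map_mul, map_mul, map_mul, mul_assoc, sub_self]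
  · rw [map_sub, map_mul, map_mul, map_mul, map_mul, mul_assoc, sub_self]

/-- the left-normed bracketing of a word -/
def lnl {X : Type} (m : FreeMagma X) (l : List X) : FreeMagma X :=
  l.foldl (fun m x => m * FreeMagma.of x) m

/-- the left-normed bracketing of a word -/
def ln {X : Type} (w : FreeSemigroup X) : FreeMagma X := lnl (FreeMagma.of w.head) w.tail

theorem flat_lnl {X : Type} (l : List X) : ∀ m : FreeMagma X,
    FreeMagma.toFreeSemigroup (lnl m l) =
      ⟨(FreeMagma.toFreeSemigroup m).head, (FreeMagma.toFreeSemigroup m).tail ++ l⟩ := by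
  induction l with
  | nil => intro m; simp [lnl]
  | cons x l ih =>
    intro m
    show FreeMagma.toFreeSemigroup (lnl (m * FreeMagma.of x) l) = _
    rw [ih]
    simp

theorem flat_ln {X : Type} (w : FreeSemigroup X) : FreeMagma.toFreeSemigroup (ln w) = w := by
  unfold ln
  rw [flat_lnl]
  simp

/-- the section of `psi` -/
def sec (F X : Type) [Field F] : AS F X →ₗ[F] NA F X :=
  MonoidAlgebra.mapDomainLinearMap F F ln

theorem sec_single {X : Type} (w : FreeSemigroup X) (c : F) :
    sec F X (MonoidAlgebra.single w c) = MonoidAlgebra.single (ln w) c := by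
  simp [sec]

/-- the alternative laws modulo the ideal, for the two letter algebra -/
theorem words2 (a b c : FreeMagma (Fin 2)) :
    (MonoidAlgebra.single ((a * b) * c) 1 - MonoidAlgebra.single (a * (b * c)) 1 : NA F (Fin 2)) ∈
      idl F (alts F (Fin 2)) := by
  let I : TwoSidedIdeal (NA F (Fin 2)) := TwoSidedIdeal.mk' (idl F (alts F (Fin 2)) : Set _)
    (Submodule.zero_mem _) (fun h h' => Submodule.add_mem _ h h') (fun h => Submodule.neg_mem _ h)
    (fun {x y} h => (idl_mul x y h).1) (fun {x y} h => (idl_mul y x h).2)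
  have hI : ∀ x, x ∈ I ↔ x ∈ idl F (alts F (Fin 2)) := fun x =>
    TwoSidedIdeal.mem_mk' _ _ _ _ _ _ _
  have halt : AltRing I.ringCon.Quotient :=
    { altl := by
        rintro ⟨a⟩ ⟨b⟩
        show ((a * a * b : NA F (Fin 2)) : I.ringCon.Quotient) =
          ((a * (a * b) : NA F (Fin 2)) : I.ringCon.Quotient)
        rw [RingCon.eq, TwoSidedIdeal.rel_iff, hI]
        exact subset_idl _ ⟨a, b, Or.inl rfl⟩
      altr := by
        rintro ⟨a⟩ ⟨b⟩
        show ((b * a * a : NA F (Fin 2)) : I.ringCon.Quotient) =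
          ((b * (a * a) : NA F (Fin 2)) : I.ringCon.Quotient)
        rw [RingCon.eq, TwoSidedIdeal.rel_iff, hI]
        exact subset_idl _ ⟨a, b, Or.inr rfl⟩ }
  let q : FreeMagma (Fin 2) → I.ringCon.Quotient := fun m =>
    ((MonoidAlgebra.single m 1 : NA F (Fin 2)) : I.ringCon.Quotient)
  let t : Fin 3 → Fin 2 := ![0, 1, 1]
  let e : Fin 3 → I.ringCon.Quotient := fun i => q (FreeMagma.of (t i))
  have hq : ∀ m m' : FreeMagma (Fin 2), q (m * m') = q m * q m' := by
    intro m m'
    show ((MonoidAlgebra.single (m * m') 1 : NA F (Fin 2)) : I.ringCon.Quotient) =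
      ((MonoidAlgebra.single m 1 * MonoidAlgebra.single m' 1 : NA F (Fin 2)) :
        I.ringCon.Quotient)
    rw [single_mul_single']
  have hw : ∀ m : FreeMagma (Fin 2), ∃ n, Wd e n (q m) := by
    intro m
    induction m with
    | ih1 i =>
      have : ∃ j, t j = i := by
        fin_cases i
        · exact ⟨0, rfl⟩
        · exact ⟨1, rfl⟩
      obtain ⟨j, rfl⟩ := this
      exact ⟨1, Wd.l j⟩
    | ih2 x y hx hy =>
      obtain ⟨n, hn⟩ := hx
      obtain ⟨n', hn'⟩ := hy
      refine ⟨n + n', ?_⟩
      rw [hq]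
      exact Wd.m hn hn'
  have hbot : IsId (⊥ : AddSubgroup I.ringCon.Quotient) := by
    intro x p hp
    rw [AddSubgroup.mem_bot] at hp
    subst hp
    simp
  have h0 : asc (e 0) (e 1) (e 2) ∈ (⊥ : AddSubgroup I.ringCon.Quotient) := by
    rw [AddSubgroup.mem_bot]
    exact asc_yxx _ _
  obtain ⟨na, ha⟩ := hw a
  obtain ⟨nb, hb⟩ := hw b
  obtain ⟨nc, hc⟩ := hw c
  have := artin_words hbot h0 _ _ _ _ _ _ _ ha hb hc rfl
  rw [AddSubgroup.mem_bot] at this
  unfold asc at this
  rw [← hq, ← hq, ← hq, ← hq, sub_eq_zero] at this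
  have h2 : ((MonoidAlgebra.single (a * b * c) 1 : NA F (Fin 2)) : I.ringCon.Quotient) =
    ((MonoidAlgebra.single (a * (b * c)) 1 : NA F (Fin 2)) : I.ringCon.Quotient) := this
  rw [RingCon.eq, TwoSidedIdeal.rel_iff, hI] at h2
  exact h2

/-- congruence of monomials modulo the alternative laws -/
def Cg (a b : FreeMagma (Fin 2)) : Prop :=
  (MonoidAlgebra.single a 1 - MonoidAlgebra.single b 1 : NA F (Fin 2)) ∈ idl F (alts F (Fin 2))

theorem Cg.refl (a : FreeMagma (Fin 2)) : Cg (F := F) a a := by
  unfold Cg; rw [sub_self]; exact Submodule.zero_mem _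

theorem Cg.symm {a b : FreeMagma (Fin 2)} (h : Cg (F := F) a b) : Cg (F := F) b a := by
  unfold Cg at *
  rw [← neg_sub]; exact Submodule.neg_mem _ h

theorem Cg.trans {a b c : FreeMagma (Fin 2)} (h : Cg (F := F) a b) (h' : Cg (F := F) b c) :
    Cg (F := F) a c := by
  unfold Cg at *
  have := Submodule.add_mem _ h h'
  rwa [sub_add_sub_cancel] at this

theorem Cg.mul {a b c d : FreeMagma (Fin 2)} (h : Cg (F := F) a b) (h' : Cg (F := F) c d) :
    Cg (F := F) (a * c) (b * d) := by
  unfold Cg at *
  have h1 := (idl_mul (F := F) (MonoidAlgebra.single c 1 : NA F (Fin 2)) _ h).2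
  have h2 := (idl_mul (F := F) (MonoidAlgebra.single b 1 : NA F (Fin 2)) _ h').1
  rw [sub_mul, ← single_mul_single', ← single_mul_single'] at h1
  rw [mul_sub, ← single_mul_single', ← single_mul_single'] at h2
  have := Submodule.add_mem _ h1 h2
  rwa [sub_add_sub_cancel] at this

theorem Cg.assoc (a b c : FreeMagma (Fin 2)) : Cg (F := F) ((a * b) * c) (a * (b * c)) :=
  words2 a b c

theorem cg_lnl (a : FreeMagma (Fin 2)) (l : List (Fin 2)) : ∀ m : FreeMagma (Fin 2),
    Cg (F := F) (a * lnl m l) (lnl (a * m) l) := by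
  induction l with
  | nil => intro m; exact Cg.refl _
  | cons x l ih =>
    intro m
    show Cg (a * lnl (m * FreeMagma.of x) l) (lnl (a * m * FreeMagma.of x) l)
    refine (ih (m * FreeMagma.of x)).trans ?_
    have : ∀ (l : List (Fin 2)) (p q : FreeMagma (Fin 2)), Cg (F := F) p q →
        Cg (F := F) (lnl p l) (lnl q l) := by
      intro l
      induction l with
      | nil => intro p q h; exact h
      | cons y l ih => intro p q h; exact ih _ _ (h.mul (Cg.refl _))
    exact this l _ _ (Cg.assoc _ _ _).symm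

theorem cg_ln_mul (u v : FreeSemigroup (Fin 2)) : Cg (F := F) (ln u * ln v) (ln (u * v)) := by
  have h1 : ln (u * v) = lnl (ln u * FreeMagma.of v.head) v.tail := by
    unfold ln lnl
    simp
  rw [h1]
  exact cg_lnl (ln u) v.tail (FreeMagma.of v.head)

theorem cg_flat (m : FreeMagma (Fin 2)) :
    Cg (F := F) m (ln (FreeMagma.toFreeSemigroup m)) := by
  induction m with
  | ih1 i => exact Cg.refl _
  | ih2 x y hx hy =>
    rw [map_mul]
    exact (hx.mul hy).trans (cg_ln_mul _ _)

/-- every polynomial is congruent to the left-normed form of its associative image -/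
theorem sub_sec_psi (g : NA F (Fin 2)) :
    g - sec F (Fin 2) (psi F (Fin 2) g) ∈ idl F (alts F (Fin 2)) := by
  induction g using MonoidAlgebra.induction_linear with
  | zero => simp
  | add a b ha hb =>
    rw [map_add, map_add, add_sub_add_comm]
    exact Submodule.add_mem _ ha hb
  | single m c =>
    rw [psi_single, sec_single, single_eq_smul m, single_eq_smul (ln _), ← smul_sub]
    exact Submodule.smul_mem _ _ (cg_flat m)

/-- Artin: with two letters, membership in the ideal can be tested without brackets. -/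
theorem mem_altIdeal_iff (E : Set (NA F (Fin 2))) (g : NA F (Fin 2)) :
    g ∈ altIdeal F (Fin 2) E ↔ psi F (Fin 2) g ∈ idl F (psi F (Fin 2) '' E) := by
  constructor
  · intro hg
    refine map_idl (psi F (Fin 2)) ?_ hg
    rintro x (hx | hx)
    · rw [psi_alts hx]; exact Submodule.zero_mem _
    · exact subset_idl _ ⟨x, hx, rfl⟩
  · intro hg
    have hs : Function.Surjective (psi F (Fin 2)) := by
      intro y
      refine ⟨sec F (Fin 2) y, ?_⟩
      induction y using MonoidAlgebra.induction_linear with
      | zero => simp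
      | add a b ha hb => rw [map_add, map_add, ha, hb]
      | single m c => rw [sec_single, psi_single, flat_ln]
    obtain ⟨h, hh, he⟩ := lift_idl (psi F (Fin 2)) hs hg
    have h1 : idl F E ≤ altIdeal F (Fin 2) E := idl_mono Set.subset_union_right
    have h2 : idl F (alts F (Fin 2)) ≤ altIdeal F (Fin 2) E := idl_mono Set.subset_union_left
    have h3 := h2 (sub_sec_psi g)
    have h4 := h2 (sub_sec_psi h)
    rw [he] at h4
    have h5 : g = (g - sec F (Fin 2) (psi F (Fin 2) g))
        - (h - sec F (Fin 2) (psi F (Fin 2) g)) + h := by abel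
    rw [h5]
    exact Submodule.add_mem _ (Submodule.sub_mem _ h3 h4) (h1 hh)

end

end Pool.Agent.Helper120_Alt
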