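import Pool.Agent.Helper120_Alt.Wt4

set_option autoImplicit false

/-! Change of generators. -/

namespace Pool.Agent.Helper120_Alt

noncomputable section

variable {F X : Type} [Field F]

/-- the image of a letter -/
def lt1 (θ : AS F X →ₙₐ[F] AS F X) (x : X) : List X →₀ F :=
  cof (θ (MonoidAlgebra.single (FreeSemigroup.of x) 1))

/-- the image of a word -/
def tw (θ : AS F X →ₙₐ[F] AS F X) : List X → (List X →₀ F)
  | [] => wd F []
  | x :: P => mm (lt1 θ x) (tw θ P)

/-- the linear extension -/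
def Th (θ : AS F X →ₙₐ[F] AS F X) : (List X →₀ F) →ₗ[F] (List X →₀ F) :=
  Finsupp.linearCombination F (tw θ)

theorem Th_wd (θ : AS F X →ₙₐ[F] AS F X) (P : List X) : Th θ (wd F P) = tw θ P := by
  unfold Th wd
  rw [Finsupp.linearCombination_single, one_smul]

theorem tw_append (θ : AS F X →ₙₐ[F] AS F X) (P Q : List X) :
    tw θ (P ++ Q) = mm (tw θ P) (tw θ Q) := by
  induction P with
  | nil =>
    rw [List.nil_append]
    show _ = mm (wd F []) _
    rw [one_mm]
  | cons x P ih =>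
    show mm (lt1 θ x) (tw θ (P ++ Q)) = mm (mm (lt1 θ x) (tw θ P)) (tw θ Q)
    rw [ih, mm_assoc]

theorem mm_wd_wd (P Q : List X) : mm (wd F P) (wd F Q) = wd F (P ++ Q) := by
  rw [mm_wd]
  unfold wd
  rw [shW_single]
  simp

theorem Th_mm (θ : AS F X →ₙₐ[F] AS F X) (g h : List X →₀ F) :
    Th θ (mm g h) = mm (Th θ g) (Th θ h) := by
  have h1 : ∀ P, Th θ (mm (wd F P) h) = mm (Th θ (wd F P)) (Th θ h) := by
    intro P
    refine lin_ext_eq (Th θ ∘ₗ mm (wd F P)) (mm (Th θ (wd F P)) ∘ₗ Th θ) (fun Q => ?_) h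
    show Th θ (mm (wd F P) (wd F Q)) = mm (Th θ (wd F P)) (Th θ (wd F Q))
    rw [mm_wd_wd, Th_wd, Th_wd, Th_wd, tw_append]
  exact lin_ext_eq (Th θ ∘ₗ mm.flip h) (mm.flip (Th θ h) ∘ₗ Th θ) h1 g

theorem Th_cof (θ : AS F X →ₙₐ[F] AS F X) (g : AS F X) : Th θ (cof g) = cof (θ g) := by
  have h1 : ∀ m : FreeSemigroup X, tw θ (lets m) = cof (θ (MonoidAlgebra.single m 1)) := by
    intro m
    induction m using FreeSemigroup.recOnMul with
    | ih1 x =>
      rw [lets_of]
      show mm (lt1 θ x) (wd F []) = _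
      rw [mm_one]
      rfl
    | ih2 x w h1 h2 =>
      have e : (MonoidAlgebra.single (FreeSemigroup.of x * w) 1 : AS F X) =
          MonoidAlgebra.single (FreeSemigroup.of x) 1 * MonoidAlgebra.single w 1 := by
        rw [MonoidAlgebra.single_mul_single, one_mul]
      rw [lets_mul, tw_append, h1, h2, e, map_mul, cof_mul]
  have h2 : ∀ g : AS F X, Th θ (cofL g) = cofL (θ g) := by
    intro g
    induction g using MonoidAlgebra.induction_linear with
    | zero => simp
    | add a b ha hb => rw [map_add, map_add, map_add, map_add, ha, hb]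
    | single m c =>
      have e : (MonoidAlgebra.single m c : AS F X) = c • MonoidAlgebra.single m 1 := by
        rw [MonoidAlgebra.smul_single, smul_eq_mul, mul_one]
      rw [e, map_smul, map_smul, map_smul, map_smul, cofL_single]
      congr 1
      have h3 := Th_wd θ (lets m)
      unfold wd at h3
      rw [h3, h1]
      rfl
  exact h2 g

theorem Th_inv {θ θ' : AS F X →ₙₐ[F] AS F X} (hθ : ∀ x, θ' (θ x) = x) (g : List X →₀ F) :
    Th θ' (Th θ g) = g := by
  refine lin_ext_eq (Th θ' ∘ₗ Th θ) LinearMap.id (fun P => ?_) g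
  show Th θ' (Th θ (wd F P)) = wd F P
  rw [Th_wd]
  induction P with
  | nil => show Th θ' (wd F []) = _; rw [Th_wd]; rfl
  | cons x P ih =>
    show Th θ' (mm (lt1 θ x) (tw θ P)) = _
    rw [Th_mm, ih]
    unfold lt1
    rw [Th_cof, hθ]
    have : cof (MonoidAlgebra.single (FreeSemigroup.of x) 1 : AS F X) = wd F [x] := by
      have h1 := cofL_single (F := F) (FreeSemigroup.of x) 1
      rw [lets_of] at h1
      exact h1
    rw [this, mm_wd_wd]
    rfl

/-- the map of the tensor squares -/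
def Th2 (θ : AS F X →ₙₐ[F] AS F X) :
    ((List X × List X) →₀ F) →ₗ[F] ((List X × List X) →₀ F) :=
  Finsupp.linearCombination F fun y => ten (tw θ y.1) (tw θ y.2)

theorem Th2_single (θ : AS F X →ₙₐ[F] AS F X) (P Q : List X) (c : F) :
    Th2 θ (Finsupp.single (P, Q) c) = c • ten (tw θ P) (tw θ Q) := by
  unfold Th2
  rw [Finsupp.linearCombination_single]

theorem Th2_ten (θ : AS F X →ₙₐ[F] AS F X) (g h : List X →₀ F) :
    Th2 θ (ten g h) = ten (Th θ g) (Th θ h) := by
  have h1 : ∀ P, Th2 θ (ten (wd F P) h) = ten (Th θ (wd F P)) (Th θ h) := by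
    intro P
    refine lin_ext_eq (Th2 θ ∘ₗ ten (wd F P)) (ten (Th θ (wd F P)) ∘ₗ Th θ) (fun Q => ?_) h
    show Th2 θ (ten (wd F P) (wd F Q)) = ten (Th θ (wd F P)) (Th θ (wd F Q))
    rw [ten_wd, Th_wd, Th_wd, Th2_single, one_smul]
  exact lin_ext_eq (Th2 θ ∘ₗ ten.flip h) (ten.flip (Th θ h) ∘ₗ Th θ) h1 g

/-- linear extension for the tensor square -/
theorem lin_ext2 {V : Type} [AddCommGroup V] [Module F V]
    (φ φ' : ((List X × List X) →₀ F) →ₗ[F] V)
    (h : ∀ P Q, φ (ten (wd F P) (wd F Q)) = φ' (ten (wd F P) (wd F Q)))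
    (s : (List X × List X) →₀ F) : φ s = φ' s := by
  induction s using Finsupp.induction_linear with
  | zero => simp
  | add s t hs ht => rw [map_add, map_add, hs, ht]
  | single y a =>
    obtain ⟨P, Q⟩ := y
    have e : (Finsupp.single (P, Q) a : (List X × List X) →₀ F) = a • ten (wd F P) (wd F Q) := by
      rw [ten_wd, Finsupp.smul_single, smul_eq_mul, mul_one]
    rw [e, map_smul, map_smul, h]

theorem syW_Th2 (θ : AS F X →ₙₐ[F] AS F X) (w : List X →₀ F) (s : (List X × List X) →₀ F) :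
    syW (Th θ w) (Th2 θ s) = Th θ (syW w s) := by
  refine lin_ext2 (syW (Th θ w) ∘ₗ Th2 θ) (Th θ ∘ₗ syW w) (fun P Q => ?_) s
  show syW (Th θ w) (Th2 θ (ten (wd F P) (wd F Q))) = Th θ (syW w (ten (wd F P) (wd F Q)))
  rw [Th2_ten, syW_ten, syW_ten, Th_mm, Th_mm]

theorem Th2_inv {θ θ' : AS F X →ₙₐ[F] AS F X} (hθ : ∀ x, θ' (θ x) = x)
    (s : (List X × List X) →₀ F) : Th2 θ' (Th2 θ s) = s := by
  refine lin_ext2 (Th2 θ' ∘ₗ Th2 θ) LinearMap.id (fun P Q => ?_) s
  show Th2 θ' (Th2 θ (ten (wd F P) (wd F Q))) = ten (wd F P) (wd F Q)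
  rw [Th2_ten, Th2_ten, Th_inv hθ, Th_inv hθ]

theorem Th2_TrW (θ : AS F X →ₙₐ[F] AS F X) (w : List X →₀ F) {s : (List X × List X) →₀ F}
    (hs : s ∈ TrW w) : Th2 θ s ∈ TrW (Th θ w) := by
  have : TrW w ≤ (TrW (Th θ w)).comap (Th2 θ) := by
    unfold TrW
    rw [Submodule.span_le]
    rintro _ ⟨P, V, Q, rfl⟩
    show Th2 θ (tsW w P V Q) ∈ TrW (Th θ w)
    rw [tsW_ten, map_sub, Th2_ten, Th2_ten, Th_mm, Th_mm, Th_mm, Th_mm]
    exact ten_TrW _ _ _ _
  exact this hs

/-- the two-sided action on the tensor square -/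
def act : (List X →₀ F) →ₗ[F] (List X →₀ F) →ₗ[F]
    (((List X × List X) →₀ F) →ₗ[F] ((List X × List X) →₀ F)) :=
  Finsupp.linearCombination F fun A => Finsupp.linearCombination F fun B => shL F A B

theorem act_wd (A B : List X) (t : (List X × List X) →₀ F) :
    act (wd F A) (wd F B) t = shL F A B t := by
  unfold act wd
  rw [Finsupp.linearCombination_single, one_smul, Finsupp.linearCombination_single, one_smul]

theorem act_mem (g h : List X →₀ F) (t : (List X × List X) →₀ F) :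
    act g h t ∈ Submodule.span F {z | ∃ A B : List X, z = shL F A B t} := by
  have h1 : ∀ A, act (wd F A) h t ∈
      Submodule.span F {z | ∃ A B : List X, z = shL F A B t} := by
    intro A
    refine lin_ext _ ((act (wd F A)).flip t) (fun B => ?_) h
    show act (wd F A) (wd F B) t ∈ _
    rw [act_wd]
    exact Submodule.subset_span ⟨A, B, rfl⟩
  exact lin_ext _ (((LinearMap.flip act) h).flip t) h1 g

theorem act_ten (g h p q : List X →₀ F) : act g h (ten p q) = ten (mm g p) (mm q h) := by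
  have h1 : ∀ A, act (wd F A) h (ten p q) = ten (mm (wd F A) p) (mm q h) := by
    intro A
    refine lin_ext_eq ((act (wd F A)).flip (ten p q)) (ten (mm (wd F A) p) ∘ₗ mm q)
      (fun B => ?_) h
    show act (wd F A) (wd F B) (ten p q) = ten (mm (wd F A) p) (mm q (wd F B))
    rw [act_wd, shL_ten]
  exact lin_ext_eq (((LinearMap.flip act) h).flip (ten p q))
    (ten.flip (mm q h) ∘ₗ mm.flip p) h1 g

theorem Th2_shL (θ : AS F X →ₙₐ[F] AS F X) (A B : List X) (t : (List X × List X) →₀ F) :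
    Th2 θ (shL F A B t) = act (tw θ A) (tw θ B) (Th2 θ t) := by
  refine lin_ext2 (Th2 θ ∘ₗ shL F A B) (act (tw θ A) (tw θ B) ∘ₗ Th2 θ) (fun P Q => ?_) t
  show Th2 θ (shL F A B (ten (wd F P) (wd F Q))) =
    act (tw θ A) (tw θ B) (Th2 θ (ten (wd F P) (wd F Q)))
  rw [shL_ten, Th2_ten, Th2_ten, act_ten, Th_mm, Th_mm, Th_wd θ A, Th_wd θ B]

/-- finite generation of the syzygies does not depend on the generators -/
theorem finSyz_aut {θ θ' : AS F X →ₙₐ[F] AS F X} (hθ : ∀ x, θ' (θ x) = x) {u : AS F X}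
    (h : FinSyz (θ u)) : FinSyz u := by
  classical
  obtain ⟨S, hS, h1⟩ := h
  have hcof : Th θ' (cof (θ u)) = cof u := by rw [Th_cof, hθ]
  refine ⟨S.image (Th2 θ'), ?_, fun s hs => ?_⟩
  · intro σ hσ
    obtain ⟨τ, hτ, rfl⟩ := Finset.mem_image.mp hσ
    have h2 : syW (cof (θ u)) τ = 0 := hS τ hτ
    show syW (cof u) (Th2 θ' τ) = 0
    rw [← hcof, syW_Th2, h2, map_zero]
  · have hs' : syW (cof u) s = 0 := hs
    have h2 : syW (cof (θ u)) (Th2 θ s) = 0 := by
      rw [← Th_cof, syW_Th2, hs', map_zero]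
    have h3 := h1 (Th2 θ s) h2
    have h4 : Submodule.span F ({t | ∃ P V Q : List X, t = tsy (θ u) P V Q} ∪
        {t | ∃ σ ∈ S, ∃ A B : List X, t = shf A B σ}) ≤
        (Submodule.span F ({t | ∃ P V Q : List X, t = tsy u P V Q} ∪
          {t | ∃ σ ∈ S.image (Th2 θ'), ∃ A B : List X, t = shf A B σ})).comap (Th2 θ') := by
      rw [Submodule.span_le]
      rintro t (⟨P, V, Q, rfl⟩ | ⟨σ, hσ, A, B, rfl⟩)
      · have h5 : Th2 θ' (tsW (cof (θ u)) P V Q) ∈ TrW (Th θ' (cof (θ u))) :=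
          Th2_TrW θ' _ (Submodule.subset_span ⟨P, V, Q, rfl⟩)
        rw [hcof] at h5
        have h6 : TrW (cof u) ≤ Submodule.span F ({t | ∃ P V Q : List X, t = tsy u P V Q} ∪
            {t | ∃ σ ∈ S.image (Th2 θ'), ∃ A B : List X, t = shf A B σ}) :=
          Submodule.span_mono Set.subset_union_left
        exact h6 h5
      · have key : Th2 θ' (shL F A B σ) ∈ Submodule.span F
            ({t | ∃ P V Q : List X, t = tsy u P V Q} ∪
            {t | ∃ σ ∈ S.image (Th2 θ'), ∃ A B : List X, t = shf A B σ}) := by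
          rw [Th2_shL]
          refine (Submodule.span_mono ?_) (act_mem (tw θ' A) (tw θ' B) (Th2 θ' σ))
          rintro _ ⟨A', B', rfl⟩
          right
          exact ⟨Th2 θ' σ, Finset.mem_image_of_mem _ hσ, A', B', rfl⟩
        exact key
    have h5 := h4 h3
    rw [Submodule.mem_comap, Th2_inv hθ] at h5
    exact h5

section bdd

variable [Fintype X]

theorem tw_len (θ : AS F X →ₙₐ[F] AS F X) : ∃ C : ℕ, 0 < C ∧ ∀ P W : List X, tw θ P W ≠ 0 →
    W.length ≤ C * P.length := by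
  classical
  let C := (Finset.univ.sup fun x : X => (lt1 θ x).support.sup List.length) + 1
  refine ⟨C, Nat.succ_pos _, ?_⟩
  have hC : ∀ x W, lt1 θ x W ≠ 0 → W.length ≤ C := by
    intro x W hW
    have h1 : W.length ≤ (lt1 θ x).support.sup List.length :=
      Finset.le_sup (f := List.length) (Finsupp.mem_support_iff.mpr hW)
    have h2 : (lt1 θ x).support.sup List.length ≤
        Finset.univ.sup fun x : X => (lt1 θ x).support.sup List.length :=
      Finset.le_sup (f := fun x : X => (lt1 θ x).support.sup List.length) (Finset.mem_univ x)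
    omega
  intro P
  induction P with
  | nil =>
    intro W hW
    have := wd_len (K := F) [] W hW
    simpa using this
  | cons x P ih =>
    intro W hW
    have h1 := mm_len (hC x) ih W hW
    rw [List.length_cons, Nat.mul_succ]
    omega

omit [Fintype X] in
theorem Th_len {θ : AS F X →ₙₐ[F] AS F X} {C : ℕ} (hC0 : 0 < C)
    (hC : ∀ P W : List X, tw θ P W ≠ 0 → W.length ≤ C * P.length) {g : List X →₀ F} {N : ℕ}
    (hN : ∀ W, g W ≠ 0 → W.length < N) (W : List X) (hW : Th θ g W ≠ 0) : W.length < C * N := by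
  unfold Th at hW
  rw [Finsupp.linearCombination_apply, Finsupp.sum, Finsupp.finsetSum_apply] at hW
  obtain ⟨P, hP, h1⟩ := Finset.exists_ne_zero_of_sum_ne_zero hW
  have h2 : tw θ P W ≠ 0 := by
    intro h3; apply h1; rw [Finsupp.smul_apply, h3, smul_zero]
  have h3 := hC P W h2
  have h4 := hN P (Finsupp.mem_support_iff.mp hP)
  exact lt_of_le_of_lt h3 ((Nat.mul_lt_mul_left hC0).mpr h4)

theorem bddk_aut {θ θ' : AS F X →ₙₐ[F] AS F X} (hθ : ∀ x, θ' (θ x) = x) {u : AS F X} {k : ℕ}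
    (h : Bddk k (cof (θ u))) : ∃ k', Bddk k' (cof u) := by
  obtain ⟨C, hC0, hC⟩ := tw_len θ
  obtain ⟨C', hC0', hC'⟩ := tw_len θ'
  have hcof : Th θ' (cof (θ u)) = cof u := by rw [Th_cof, hθ]
  refine ⟨C' * (k * C), ?_⟩
  intro g hg N hN
  have h1 : Th θ g ∈ IW (cof (θ u)) := by
    obtain ⟨s, rfl⟩ := hg
    refine ⟨Th2 θ s, ?_⟩
    rw [← Th_cof, syW_Th2]
  obtain ⟨s, e, hs⟩ := h _ h1 (C * N) (fun W hW => Th_len hC0 hC hN W hW)
  refine ⟨Th2 θ' s, ?_, ?_⟩
  · rw [← hcof, syW_Th2, e, Th_inv hθ]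
  · intro z hz
    unfold Th2 at hz
    rw [Finsupp.linearCombination_apply, Finsupp.sum, Finsupp.finsetSum_apply] at hz
    obtain ⟨y, hy, h2⟩ := Finset.exists_ne_zero_of_sum_ne_zero hz
    have h3 : ten (tw θ' y.1) (tw θ' y.2) z ≠ 0 := by
      intro h4; apply h2; rw [Finsupp.smul_apply, h4, smul_zero]
    obtain ⟨h4, h5⟩ := ten_ne h3
    have h6 := hC' _ _ h4
    have h7 := hC' _ _ h5
    have h8 := hs y (Finsupp.mem_support_iff.mp hy)
    calc z.1.length + z.2.length ≤ C' * (y.1.length + y.2.length) := by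
          rw [Nat.mul_add]; omega
      _ < C' * (k * (C * N)) := (Nat.mul_lt_mul_left hC0').mpr h8
      _ = C' * (k * C) * N := by ring

end bdd

end

end Pool.Agent.Helper120_Alt
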