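import Pool.Agent.Helper120_Alt.Defs

set_option autoImplicit false

/-! Definitions: syzygies of an associative polynomial. -/

namespace Pool.Agent.Helper120_Alt

noncomputable section

variable {F X : Type} [Field F]

/-- The coefficients of an associative polynomial, indexed by the lists of letters. -/
def cof (u : AS F X) : List X →₀ F :=
  Finsupp.mapDomain (fun w : FreeSemigroup X => w.head :: w.tail) u.coeff

/-- The value of the formal sum `s` of pairs of words at `u`: the sum of the `s (P, Q) • P u Q`,
as a combination of lists of letters. -/
def syv (u : AS F X) (s : (List X × List X) →₀ F) : List X →₀ F :=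
  s.sum fun x c => c • Finsupp.mapDomain (fun W => x.1 ++ W ++ x.2) (cof u)

/-- The trivial syzygies: `(P, V u Q) - (P u V, Q)` for words `P`, `V`, `Q`. -/
def tsy (u : AS F X) (P V Q : List X) : (List X × List X) →₀ F :=
  (cof u).sum fun W c => c • (Finsupp.single (P, V ++ W ++ Q) 1 - Finsupp.single (P ++ W ++ V, Q) 1)

/-- The multiple `A s B` of a formal sum `s` of pairs of words. -/
def shf (A B : List X) (s : (List X × List X) →₀ F) : (List X × List X) →₀ F :=
  Finsupp.mapDomain (fun x => (A ++ x.1, x.2 ++ B)) s

/-- The bimodule of the syzygies of `u` (formal sums `s` of pairs of words, that is, elements of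
the tensor square of the free algebra, such that the sum of the `s (P, Q) • P u Q` is zero) is
finitely generated modulo the trivial syzygies. -/
def FinSyz (u : AS F X) : Prop :=
  ∃ S : Finset ((List X × List X) →₀ F), (∀ σ ∈ S, syv u σ = 0) ∧
    ∀ s : (List X × List X) →₀ F, syv u s = 0 →
      s ∈ Submodule.span F ({t | ∃ P V Q : List X, t = tsy u P V Q} ∪
        {t | ∃ σ ∈ S, ∃ A B : List X, t = shf A B σ})

end

end Pool.Agent.Helper120_Alt
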