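import Pool.Agent.Helper120_Alt.Aut1
import Pool.Agent.Helper120_Alt.R4.Syz3

set_option autoImplicit false

/-! Relators that are, after a change of generators, polynomials in an element with a strongly free
initial component. -/

namespace Pool.Agent.Helper120_Alt

noncomputable section

variable {F X : Type} [Field F]

theorem OT_of_strFree {v : AS F X} (h : StrFree v) : ∃ (wt : X → ℕ) (D : ℕ), (∀ x, 0 < wt x) ∧
    0 < D ∧ (∀ W, cof v W ≠ 0 → Wt.wl wt W ≤ D) ∧ OT (Wt.tp wt D (cof v)) := by
  obtain ⟨wt, D, hw, h1, h2⟩ := h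
  have hO : OT (Wt.tp wt D (cof v)) := fun s hs => h2 s hs
  refine ⟨wt, D, hw, ?_, h1, hO⟩
  rcases Nat.eq_zero_or_pos D with h0 | h0
  · exfalso
    have e : Wt.tp wt D (cof v) = 0 := by
      ext W
      rw [h0]
      unfold Wt.tp
      by_cases h3 : Wt.wl wt W = 0
      · have h4 : W = [] := by
          have := Wt.len_le_wl hw W
          exact List.length_eq_zero_iff.mp (by omega)
        rw [Finsupp.filter_apply_pos (fun W : List X => Wt.wl wt W = 0) _ h3, h4, cof_empty]
        rfl
      · rw [Finsupp.filter_apply_neg (fun W : List X => Wt.wl wt W = 0) _ h3]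
        rfl
    rw [e] at hO
    have h4 := hO (Finsupp.single ([], []) 1) (by rw [syW_single, map_zero, smul_zero])
    have h5 : TrW (0 : List X →₀ F) ≤ ⊥ := by
      unfold TrW
      rw [Submodule.span_le]
      rintro _ ⟨P, V, Q, rfl⟩
      unfold tsW
      simp
    have h6 : (Finsupp.single (([] : List X), ([] : List X)) (1 : F)) = 0 := h5 h4
    rw [Finsupp.single_eq_zero] at h6
    exact one_ne_zero h6
  · exact h0

theorem finSyz_zero : FinSyz (0 : AS F X) := by
  refine ⟨{Finsupp.single ([], []) 1}, ?_, fun s hs0 => ?_⟩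
  · intro σ hσ
    rw [Finset.mem_singleton] at hσ
    subst hσ
    show syW (cof (0 : AS F X)) (Finsupp.single ([], []) 1) = 0
    have : cof (0 : AS F X) = 0 := map_zero (cofL : AS F X →ₗ[F] _)
    rw [this, syW_single, map_zero, smul_zero]
  · clear hs0
    induction s using Finsupp.induction_linear with
    | zero => exact zero_mem _
    | add s t hs ht => exact add_mem hs ht
    | single y a =>
      obtain ⟨P, Q⟩ := y
      have e : (Finsupp.single (P, Q) a : (List X × List X) →₀ F) =
          a • shL F P Q (Finsupp.single ([], []) 1) := by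
        rw [shL_single, Finsupp.smul_single, smul_eq_mul, mul_one]
        simp
      rw [e]
      refine Submodule.smul_mem _ _ (Submodule.subset_span (Or.inr
        ⟨_, Finset.mem_singleton_self _, P, Q, rfl⟩))

theorem bddk_zero : Bddk 1 (cof (0 : AS F X)) := by
  have h0 : cof (0 : AS F X) = 0 := map_zero (cofL : AS F X →ₗ[F] _)
  rw [h0]
  intro g hg N _
  refine ⟨0, ?_, ?_⟩
  · obtain ⟨s, rfl⟩ := hg
    have : ∀ s, syW (0 : List X →₀ F) s = 0 := by
      intro s
      induction s using Finsupp.induction_linear with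
      | zero => simp
      | add s t hs ht => rw [map_add, hs, ht, add_zero]
      | single y a =>
        obtain ⟨P, Q⟩ := y
        rw [syW_single, map_zero, smul_zero]
    rw [this, this]
  · intro y hy
    exact absurd rfl hy

variable [Encodable X] [DecidableEq X] [Fintype X]

theorem nice_top {v : AS F X} (h : StrFree v) {c : ℕ → F} {r : ℕ} (hr : c r ≠ 0) :
    FinSyz (∑ j ∈ Finset.range (r + 1), c j • pow1 v j) ∧
      ∃ k, Bddk k (cof (∑ j ∈ Finset.range (r + 1), c j • pow1 v j)) := by
  obtain ⟨wt, D, hw, hD, hv, hO⟩ := OT_of_strFree h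
  constructor
  · refine ⟨{s0 (cof v)}, ?_, fun s hs => ?_⟩
    · intro σ hσ
      rw [Finset.mem_singleton] at hσ
      subst hσ
      show syW (cof (∑ j ∈ Finset.range (r + 1), c j • pow1 v j)) (s0 (cof v)) = 0
      rw [cof_pu, s0_val]
    · have hs' : syW (cof (∑ j ∈ Finset.range (r + 1), c j • pow1 v j)) s = 0 := hs
      rw [cof_pu] at hs'
      have h1 := Wt.syz_pu hw hv hO hD (cof_empty v) hr hs'
      suffices key : Sp (cof v) c r ≤ _ from key h1
      unfold Sp
      refine sup_le ?_ ?_
      · unfold TrW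
        refine Submodule.span_mono ?_
        rintro _ ⟨P, V, Q, rfl⟩
        left
        refine ⟨P, V, Q, ?_⟩
        rw [← cof_pu]
        rfl
      · refine Submodule.span_mono ?_
        rintro _ ⟨A, B, rfl⟩
        right
        exact ⟨s0 (cof v), Finset.mem_singleton_self _, A, B, rfl⟩
  · let M := Finset.univ.sup wt + 1
    have hM : ∀ x, wt x ≤ M := by
      intro x
      have : wt x ≤ Finset.univ.sup wt := Finset.le_sup (Finset.mem_univ x)
      omega
    refine ⟨M, fun g hg N hN => ?_⟩
    rw [cof_pu] at hg ⊢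
    obtain ⟨s, e, hs⟩ := Wt.bdd_pu hw hv hO hD (cof_empty v) hr hg (N := M * N) (by
      intro W hW
      have h1 := hN W hW
      have h2 := Wt.wl_le hM W
      exact lt_of_le_of_lt h2 ((Nat.mul_lt_mul_left (Nat.succ_pos _)).mpr h1))
    refine ⟨s, e, fun y hy => ?_⟩
    have h1 := hs y hy
    have h2 := Wt.len_le_wl hw y.1
    have h3 := Wt.len_le_wl hw y.2
    omega

theorem nice_pow {v : AS F X} (h : StrFree v) (c : ℕ → F) (r : ℕ) :
    FinSyz (∑ j ∈ Finset.range r, c j • pow1 v j) ∧
      ∃ k, Bddk k (cof (∑ j ∈ Finset.range r, c j • pow1 v j)) := by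
  induction r with
  | zero =>
    rw [Finset.range_zero, Finset.sum_empty]
    exact ⟨finSyz_zero, 1, bddk_zero⟩
  | succ r ih =>
    by_cases hr : c r = 0
    · rw [Finset.sum_range_succ, hr, zero_smul, add_zero]
      exact ih
    · exact nice_top h hr

end

noncomputable section

variable {F : Type} [Field F]

/-- alternative algebras of rank three with a relator whose associative image is, after a change of
generators, a polynomial in an element with strongly free initial component -/
theorem altDecidable_of_strFree [Primcodable F] (hadd : Computable₂ fun a b : F => a + b)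
    (hmul : Computable₂ fun a b : F => a * b) (f : NA F (Fin 3))
    (θ θ' : AS F (Fin 3) →ₙₐ[F] AS F (Fin 3)) (hθ : ∀ x, θ' (θ x) = x)
    (v : AS F (Fin 3)) (hv : StrFree v) (c : ℕ → F) (r : ℕ)
    (hf : θ (psi F (Fin 3) f) = ∑ j ∈ Finset.range r, c j • pow1 v j) :
    AltDecidable F (Fin 3) {f} := by
  obtain ⟨h1, k, h2⟩ := nice_pow hv c r
  rw [← hf] at h1 h2
  obtain ⟨k', h3⟩ := bddk_aut hθ h2
  exact R4.main5 hadd hmul (finSyz_aut hθ h1) (assDecidable_of_bddk hadd hmul h3)

end

end Pool.Agent.Helper120_Alt
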