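import Pool.Agent.Helper120_Alt.Top4

set_option autoImplicit false

/-! Polynomials whose top component has end rank at least two. -/

namespace Pool.Agent.Helper120_Alt

noncomputable section

variable {F K X : Type} [Field F] [Field K] [Algebra F K]

theorem evL_bc (l : List (X → K)) (g : List X →₀ F) :
    evL K l (bc K g) = g.sum fun W c => algebraMap F K c * mo l W := by
  induction g using Finsupp.induction_linear with
  | zero => rw [bc_zero, map_zero, Finsupp.sum_zero_index]
  | add s t hs ht =>
    rw [bc_add, map_add, hs, ht, Finsupp.sum_add_index' (by simp) (by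
      intro a b c; rw [map_add, add_mul])]
  | single W c =>
    rw [bc_single, evL_single, Finsupp.sum_single_index (by simp), smul_eq_mul]

theorem mo_len {R : Type} [CommRing R] (l : List (X → R)) (W : List X)
    (h : W.length ≠ l.length) : mo l W = 0 := by
  induction l generalizing W with
  | nil =>
    cases W with
    | nil => simp at h
    | cons x W => rfl
  | cons φ l ih =>
    cases W with
    | nil => rfl
    | cons x W =>
      simp only [mo]
      rw [ih W (by simpa using h), mul_zero]

theorem evL_tp (l : List (X → K)) (g : List X →₀ F) :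
    evL K l (bc K (tp l.length g)) = g.sum fun W c => algebraMap F K c * mo l W := by
  rw [evL_bc]
  unfold tp
  rw [Finsupp.sum, Finsupp.sum]
  have h1 : (g.filter fun W => W.length = l.length).support ⊆ g.support := by
    intro W hW
    rw [Finsupp.mem_support_iff] at hW ⊢
    intro h0
    apply hW
    by_cases h2 : W.length = l.length
    · rw [Finsupp.filter_apply_pos (fun W : List X => W.length = l.length) g h2, h0]
    · rw [Finsupp.filter_apply_neg (fun W : List X => W.length = l.length) g h2]
  have h3 : ∀ W, algebraMap F K ((g.filter fun W => W.length = l.length) W) * mo l W =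
      algebraMap F K (g W) * mo l W := by
    intro W
    by_cases h2 : W.length = l.length
    · rw [Finsupp.filter_apply_pos (fun W : List X => W.length = l.length) g h2]
    · rw [mo_len l W h2, mul_zero, mul_zero]
  rw [Finset.sum_congr rfl fun W _ => h3 W]
  apply Finset.sum_subset h1
  intro W _ hW
  rw [← h3, Finsupp.notMem_support_iff.mp hW, map_zero, zero_mul]

theorem mev_ext {K' : Type} [Field K'] [Algebra K K'] [Algebra F K'] [IsScalarTower F K K']
    (u : AS F X) (l : List (X → K)) :
    algebraMap K K' (mev u l) = mev u (l.map fun φ x => algebraMap K K' (φ x)) := by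
  unfold mev
  rw [Finsupp.sum, map_sum, Finsupp.sum]
  refine Finset.sum_congr rfl fun W _ => ?_
  rw [map_mul, ← IsScalarTower.algebraMap_apply, mo_map]

/-- only trivial syzygies of the top component -/
theorem OT_of_endRank [Fintype X] [DecidableEq X] {u : AS F X} (h : EndRank u) :
    ∃ D, (∀ W, cof u W ≠ 0 → W.length ≤ D) ∧ OT (tp D (cof u)) := by
  obtain ⟨K₀, _, _, v, p, p', q, q', hD, hr⟩ := h
  refine ⟨v.length + 2, hD, ?_⟩
  let K := AlgebraicClosure K₀
  let g : (X → K₀) → X → K := fun φ x => algebraMap K₀ K (φ x)
  have : Infinite K := inferInstance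
  apply OT_descent (K := K)
  have hHom : Hom (v.length + 2) (bc K (tp (v.length + 2) (cof u))) := by
    intro W hW
    apply tp_hom (v.length + 2) (cof u) W
    intro h0
    apply hW
    show algebraMap F K (tp (v.length + 2) (cof u) W) = 0
    rw [h0, map_zero]
  have hev : ∀ l : List (X → K₀), l.length = v.length + 2 →
      evL K (l.map g) (bc K (tp (v.length + 2) (cof u))) = algebraMap K₀ K (mev u l) := by
    intro l hl
    have h1 := evL_tp (F := F) (l.map g) (cof u)
    rw [List.length_map, hl] at h1
    rw [h1, mev_ext]
    rfl
  apply OT_of_path hHom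
  intro N
  have hr' : evL K (g p :: (v.map g ++ [g q])) (bc K (tp (v.length + 2) (cof u))) *
      evL K (g p' :: (v.map g ++ [g q'])) (bc K (tp (v.length + 2) (cof u))) ≠
      evL K (g p :: (v.map g ++ [g q'])) (bc K (tp (v.length + 2) (cof u))) *
      evL K (g p' :: (v.map g ++ [g q])) (bc K (tp (v.length + 2) (cof u))) := by
    have e1 : ∀ a b : X → K₀, g a :: (v.map g ++ [g b]) = (a :: (v ++ [b])).map g := by
      intro a b; simp
    rw [e1, e1, e1, e1, hev _ (by simp), hev _ (by simp), hev _ (by simp), hev _ (by simp),
      ← map_mul, ← map_mul]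
    intro h0
    exact hr ((algebraMap K₀ K).injective h0)
  obtain ⟨ε, h1, _⟩ := exists_path (e := v.length) (by simp) hr' N (1 : MvPolynomial (ℕ × X) K)
    one_ne_zero
  obtain ⟨lam, hl⟩ := path_of_ev hHom h1
  exact ⟨ε, lam, hl⟩

end

end Pool.Agent.Helper120_Alt
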