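import Pool.Agent.Helper120_Alt.Aut2
import Pool.Agent.Helper120_Alt.Top6

set_option autoImplicit false

/-! Elements whose top component has end rank at least two have a strongly free initial
component. -/

namespace Pool.Agent.Helper120_Alt

noncomputable section

variable {F X : Type} [Field F]

theorem wgt_one (W : List X) : wgt (fun _ => 1) W = W.length := by
  induction W with
  | nil => rfl
  | cons a W ih =>
    show 1 + wgt (fun _ => 1) W = W.length + 1
    rw [ih, add_comm]

theorem wcomp_one (D : ℕ) (v : AS F X) : wcomp (fun _ => 1) D v = tp D (cof v) := by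
  unfold wcomp tp
  refine Finsupp.ext fun W => ?_
  by_cases h : W.length = D
  · rw [Finsupp.filter_apply_pos (fun W : List X => W.length = D) _ h,
      Finsupp.filter_apply_pos (fun W : List X => wgt (fun _ => 1) W = D) _ (by
        rw [wgt_one]; exact h)]
  · rw [Finsupp.filter_apply_neg (fun W : List X => W.length = D) _ h,
      Finsupp.filter_apply_neg (fun W : List X => wgt (fun _ => 1) W = D) _ (by
        rw [wgt_one]; exact h)]

theorem strFree_of_OT {v : AS F X} {D : ℕ} (hD : ∀ W, cof v W ≠ 0 → W.length ≤ D)
    (hO : OT (tp D (cof v))) : StrFree v := by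
  refine ⟨fun _ => 1, D, fun _ => Nat.one_pos, fun W hW => ?_, fun s hs => ?_⟩
  · rw [wgt_one]; exact hD W hW
  · rw [wcomp_one] at hs ⊢
    exact hO s hs

theorem strFree_of_endRank [Fintype X] [DecidableEq X] {v : AS F X} (h : EndRank v) :
    StrFree v := by
  obtain ⟨D, hD, hO⟩ := OT_of_endRank h
  exact strFree_of_OT hD hO

end

end Pool.Agent.Helper120_Alt
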