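import Pool.Agent.Helper120_Alt.Gb3
import Pool.Agent.Helper120_Alt.R3.Raw4

set_option autoImplicit false

/-! Finite Groebner bases: ideals, decidability of membership. -/

namespace Pool.Agent.Helper120_Alt

noncomputable section

section gen

variable {F X : Type} [Field F]

/-- `cof` as a linear map -/
def cofL : AS F X →ₗ[F] (List X →₀ F) :=
  (Finsupp.lmapDomain F F (fun w : FreeSemigroup X => w.head :: w.tail)) ∘ₗ
    ((MonoidAlgebra.coeffLinearEquiv F : MonoidAlgebra F (FreeSemigroup X) ≃ₗ[F]
      (FreeSemigroup X →₀ F)) : AS F X →ₗ[F] (FreeSemigroup X →₀ F))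

theorem cofL_apply (g : AS F X) : cofL g = cof g := rfl

theorem lets_injective : Function.Injective (lets : FreeSemigroup X → List X) := by
  rintro ⟨a, b⟩ ⟨c, d⟩ h
  simp only [lets, List.cons.injEq] at h
  rw [h.1, h.2]

theorem cof_injective : Function.Injective (cofL : AS F X → (List X →₀ F)) := by
  intro a b h
  have h2 : Finsupp.mapDomain lets a.coeff = Finsupp.mapDomain lets b.coeff := h
  have h3 := Finsupp.mapDomain_injective lets_injective h2
  exact MonoidAlgebra.coeff_injective h3

theorem cofL_single (m : FreeSemigroup X) (c : F) :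
    cofL (MonoidAlgebra.single m c : AS F X) = Finsupp.single (lets m) c := by
  show Finsupp.mapDomain lets (MonoidAlgebra.single m c : AS F X).coeff = _
  rw [MonoidAlgebra.coeff_single, Finsupp.mapDomain_single]

theorem cofL_mul_left (m : FreeSemigroup X) (c : F) (g : AS F X) :
    cofL (MonoidAlgebra.single m c * g) = c • shW F (lets m) [] (cofL g) := by
  induction g using MonoidAlgebra.induction_linear with
  | zero => simp
  | add a b ha hb => rw [mul_add, map_add, ha, hb, map_add, map_add, smul_add]
  | single m' c' =>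
    rw [MonoidAlgebra.single_mul_single, cofL_single, cofL_single, shW_single, lets_mul,
      Finsupp.smul_single, smul_eq_mul]
    simp

theorem cofL_mul_right (m : FreeSemigroup X) (c : F) (g : AS F X) :
    cofL (g * MonoidAlgebra.single m c) = c • shW F [] (lets m) (cofL g) := by
  induction g using MonoidAlgebra.induction_linear with
  | zero => simp
  | add a b ha hb => rw [add_mul, map_add, ha, hb, map_add, map_add, smul_add]
  | single m' c' =>
    rw [MonoidAlgebra.single_mul_single, cofL_single, cofL_single, shW_single, lets_mul,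
      Finsupp.smul_single, smul_eq_mul, mul_comm c c']
    simp

theorem idl_syv {u g : AS F X} (hg : g ∈ idl F {u}) : ∃ s, syvL u s = cofL g := by
  have : idl F {u} ≤ (LinearMap.range (syvL u)).comap cofL := by
    apply idl_le
    · rintro x rfl
      refine ⟨Finsupp.single ([], []) 1, ?_⟩
      rw [syvL_single, one_smul]
      show shW F [] [] (cofL x) = cofL x
      unfold shW
      have e : (fun W : List X => ([] : List X) ++ W ++ ([] : List X)) = id := by funext W; simp
      rw [Finsupp.lmapDomain_apply, e, Finsupp.mapDomain_id]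
    · intro a x hx
      induction a using MonoidAlgebra.induction_linear with
      | zero => rw [zero_mul, mul_zero]; exact ⟨zero_mem _, zero_mem _⟩
      | add a b ha hb =>
        rw [add_mul, mul_add]
        exact ⟨add_mem ha.1 hb.1, add_mem ha.2 hb.2⟩
      | single m c =>
        obtain ⟨s, hs⟩ := hx
        constructor
        · refine ⟨c • shL F (lets m) [] s, ?_⟩
          rw [map_smul, syvL_shL, hs, cofL_mul_left]
        · refine ⟨c • shL F [] (lets m) s, ?_⟩
          rw [map_smul, syvL_shL, hs, cofL_mul_right]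
  obtain ⟨s, hs⟩ := this hg
  exact ⟨s, hs⟩

theorem idl_shW {u g : AS F X} (hg : g ∈ idl F {u}) (P Q : List X) :
    ∃ g' ∈ idl F {u}, cofL g' = shW F P Q (cofL g) := by
  have h1 : ∃ g' ∈ idl F {u}, cofL g' = shW F P [] (cofL g) := by
    cases P with
    | nil =>
      refine ⟨g, hg, ?_⟩
      unfold shW
      have e : (fun W : List X => ([] : List X) ++ W ++ ([] : List X)) = id := by funext W; simp
      rw [Finsupp.lmapDomain_apply, e, Finsupp.mapDomain_id]
    | cons a P =>
      refine ⟨_, (idl_mul (MonoidAlgebra.single ⟨a, P⟩ 1) g hg).1, ?_⟩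
      rw [cofL_mul_left, one_smul]
      rfl
  obtain ⟨g1, hg1, e1⟩ := h1
  cases Q with
  | nil => exact ⟨g1, hg1, e1⟩
  | cons a Q =>
    refine ⟨_, (idl_mul (MonoidAlgebra.single ⟨a, Q⟩ 1) g1 hg1).2, ?_⟩
    rw [cofL_mul_right, one_smul, e1, shW_shW]
    have : lets (⟨a, Q⟩ : FreeSemigroup X) = a :: Q := rfl
    rw [this]
    simp

theorem syv_idl (u : AS F X) (s : (List X × List X) →₀ F) :
    ∃ g ∈ idl F {u}, cofL g = syvL u s := by
  induction s using Finsupp.induction_linear with
  | zero => exact ⟨0, zero_mem _, by simp⟩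
  | add s t hs ht =>
    obtain ⟨g, hg, e⟩ := hs
    obtain ⟨g', hg', e'⟩ := ht
    exact ⟨g + g', add_mem hg hg', by rw [map_add, map_add, e, e']⟩
  | single x c =>
    obtain ⟨P, Q⟩ := x
    obtain ⟨g, hg, e⟩ := idl_shW (subset_idl (F := F) {u} rfl) P Q
    exact ⟨c • g, Submodule.smul_mem _ _ hg, by rw [map_smul, e, syvL_single]; rfl⟩

/-- the data of a finite Groebner basis -/
theorem exists_GBd {u : AS F X} {lt : List X → List X → Prop}
    (hwf : WellFounded lt)
    (hcomp : ∀ a b c d : List X, lt a b → lt (c ++ a ++ d) (c ++ b ++ d)) {S : Finset (List X)}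
    (h1 : ∀ T ∈ S, ∃ g ∈ idl F {u}, IsLead lt g T)
    (h2 : ∀ g ∈ idl F {u}, ∀ T : List X, IsLead lt g T → ∃ T' ∈ S, T' <:+: T) :
    ∃ γ, GBd u lt S γ := by
  have hex : ∀ T : List X, ∃ s, T ∈ S → syvL u s T = 1 ∧
      ∀ W, syvL u s W ≠ 0 → W ≠ T → lt W T := by
    intro T
    by_cases hT : T ∈ S
    · obtain ⟨g, hg, hl⟩ := h1 T hT
      obtain ⟨s, hs⟩ := idl_syv hg
      refine ⟨(cof g T)⁻¹ • s, fun _ => ⟨?_, ?_⟩⟩
      · rw [map_smul, hs, Finsupp.smul_apply, smul_eq_mul]
        exact inv_mul_cancel₀ hl.1
      · intro W hW hne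
        rw [map_smul, hs, Finsupp.smul_apply, smul_eq_mul] at hW
        exact hl.2 W (right_ne_zero_of_mul hW) hne
    · exact ⟨0, fun h => absurd h hT⟩
  choose γ hγ using hex
  refine ⟨γ, hwf, hcomp, fun T hT => (hγ T hT).1, fun T hT => (hγ T hT).2, ?_⟩
  intro s T hT hm
  obtain ⟨g, hg, e⟩ := syv_idl u s
  rw [← e] at hT hm
  exact h2 g hg T ⟨hT, hm⟩

theorem finSyz_of_finGB [Finite X] {u : AS F X} (h : FinGB u) : FinSyz u := by
  obtain ⟨lt, hto, hwf, hcomp, S, h1, h2⟩ := h
  obtain ⟨γ, hγ⟩ := exists_GBd hwf hcomp h1 h2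
  exact finSyz_of_GBd hγ

end gen

section dec

open R3

variable {F : Type} [Field F]

/-- the word of a list -/
def ofL : List (Fin 3) → FreeSemigroup (Fin 3)
  | [] => FreeSemigroup.of 0
  | a :: l => ⟨a, l⟩

theorem lets_ofL {W : List (Fin 3)} (hW : W ≠ []) : lets (ofL W) = W := by
  cases W with
  | nil => exact absurd rfl hW
  | cons a W => rfl

theorem ofL_lets (w : FreeSemigroup (Fin 3)) : ofL (lets w) = w := rfl

/-- reading a word -/
def parseA (m : Pw) : FreeSemigroup (Fin 3) := ofL (m.filterMap fun x => x)

/-- normalization of a word -/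
def repA (m : Pw) : Pw :=
  (List.casesOn (m.filterMap fun x => x) [0] fun a l => a :: l : List (Fin 3)).map some

theorem repA_eq (m : Pw) : repA m = (lets (parseA m)).map some := by
  unfold repA parseA
  cases m.filterMap fun x => x <;> rfl

theorem parseA_some (W : List (Fin 3)) : parseA (W.map some) = ofL W := by
  unfold parseA
  congr 1
  simp

theorem parseA_iff (a b : Pw) : parseA a = parseA b ↔ repA a = repA b := by
  rw [repA_eq, repA_eq]
  constructor
  · intro h; rw [h]
  · intro h
    exact lets_injective (List.map_injective_iff.mpr (Option.some_injective _) h)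

theorem primrec_repA : Primrec repA := by
  have h1 : Primrec (fun w : Pw => w.filterMap fun x => x) :=
    Primrec.listFilterMap Primrec.id Primrec.snd.to₂
  have h2 : Primrec (fun w : Pw =>
      (List.casesOn (w.filterMap fun x => x) [0] fun a l => a :: l : List (Fin 3))) := by
    have h3 : Primrec₂ (fun (_ : Pw) (y : Fin 3 × List (Fin 3)) => y.1 :: y.2) :=
      Primrec.list_cons.comp (Primrec.fst.comp Primrec.snd) (Primrec.snd.comp Primrec.snd)
    exact Primrec.list_casesOn h1 (Primrec.const [(0 : Fin 3)]) h3
  exact Primrec.list_map h2 (Primrec.option_some.comp Primrec.snd).to₂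

/-- multiples of a raw polynomial by words -/
def HA (ur : Raw F) (x : List (Fin 3) × List (Fin 3)) : Raw F :=
  ur.map fun y => (y.1, x.1.map some ++ repA y.2 ++ x.2.map some)

theorem cofL_Val_HA (ur : Raw F) (P Q : List (Fin 3)) :
    cofL (Val parseA (HA ur (P, Q))) = shW F P Q (cofL (Val parseA ur)) := by
  induction ur with
  | nil =>
    show cofL (Val parseA []) = _
    rw [Val_nil, map_zero, map_zero]
  | cons y ur ih =>
    show cofL (Val parseA ((y.1, P.map some ++ repA y.2 ++ Q.map some) :: HA ur (P, Q))) = _
    rw [Val_cons, Val_cons, map_add, map_add, ih, map_add, cofL_single, cofL_single, shW_single]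
    congr 2
    rw [repA_eq, ← List.map_append, ← List.map_append, parseA_some, lets_ofL]
    simp [lets]

theorem primrec_HA [Primcodable F] (ur : Raw F) : Primrec (HA ur) := by
  unfold HA
  refine Primrec.list_map (Primrec.const ur) ?_
  have e1 : Primrec (fun w : List (Fin 3) => w.map some) :=
    Primrec.list_map Primrec.id (Primrec.option_some.comp Primrec.snd).to₂
  exact (Primrec.fst.comp Primrec.snd).pair (Primrec.list_append.comp
    (Primrec.list_append.comp (e1.comp (Primrec.fst.comp Primrec.fst))
      (primrec_repA.comp (Primrec.snd.comp Primrec.snd)))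
    (e1.comp (Primrec.snd.comp Primrec.fst)))

theorem idl_span (ur : Raw F) :
    idl F {Val parseA ur} = Submodule.span F (Set.range fun k => Val parseA (HA ur k)) := by
  apply le_antisymm
  · intro g hg
    obtain ⟨s, hs⟩ := idl_syv hg
    have h1 : g = s.sum fun x c => c • Val parseA (HA ur x) := by
      apply cof_injective
      rw [← hs, Finsupp.sum, map_sum]
      unfold syvL
      rw [Finsupp.linearCombination_apply, Finsupp.sum]
      refine Finset.sum_congr rfl fun x _ => ?_
      obtain ⟨P, Q⟩ := x
      rw [map_smul, cofL_Val_HA]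
      rfl
    rw [h1]
    exact Submodule.sum_mem _ fun x _ => Submodule.smul_mem _ _ (Submodule.subset_span ⟨x, rfl⟩)
  · rw [Submodule.span_le]
    rintro _ ⟨⟨P, Q⟩, rfl⟩
    obtain ⟨g, hg, e⟩ := idl_shW (subset_idl (F := F) {Val parseA ur} rfl) P Q
    have : g = Val parseA (HA ur (P, Q)) := by
      apply cof_injective
      rw [e, cofL_Val_HA]
    show Val parseA (HA ur (P, Q)) ∈ _
    rw [← this]; exact hg

/-- raw words -/
def wA (F : Type) [Field F] (W : List (Fin 3)) : Raw F :=
  List.casesOn W [] fun a l => [(1, (a :: l).map some)]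

theorem cofL_wA {W : List (Fin 3)} (hW : W ≠ []) :
    cofL (Val parseA (wA F W)) = Finsupp.single W 1 := by
  cases W with
  | nil => exact absurd rfl hW
  | cons a W =>
    show cofL (Val parseA [((1 : F), (a :: W).map some)]) = _
    rw [Val_cons, Val_nil, add_zero, cofL_single, parseA_some]
    rfl

theorem primrec_wA [Primcodable F] : Primrec (wA F) := by
  have e1 : Primrec₂ (fun (_ : List (Fin 3)) (y : Fin 3 × List (Fin 3)) =>
      [((1 : F), (y.1 :: y.2).map some)]) := by
    apply primrec_sing
    refine (Primrec.const 1).pair ?_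
    exact Primrec.list_map (Primrec.list_cons.comp (Primrec.fst.comp Primrec.snd)
      (Primrec.snd.comp Primrec.snd)) (Primrec.option_some.comp Primrec.snd).to₂
  exact Primrec.list_casesOn Primrec.id (Primrec.const []) e1

/-- irreducible words -/
def okA (S : List (List (Fin 3))) (W : List (Fin 3)) : Bool :=
  !(W.isEmpty) && S.all fun T => !(isInf T W)

theorem comp_okA (S : List (List (Fin 3))) : Primrec (okA S) := by
  have e2 : Primrec (fun W : List (Fin 3) => W.isEmpty) := by
    refine (Primrec.list_casesOn (f := fun l : List (Fin 3) => l) (g := fun _ => true)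
      (h := fun _ _ => false) Primrec.id (Primrec.const true)
      (Primrec.const false).to₂).of_eq fun l => ?_
    cases l <;> rfl
  have e3 : Primrec (fun W : List (Fin 3) => S.all fun T => !(isInf T W)) := by
    induction S with
    | nil => exact (Primrec.const true).of_eq fun l => by simp
    | cons T S ih =>
      exact (Primrec.and.comp (Primrec.not.comp (primrec_isInf T)) ih).of_eq fun l => by simp
  exact Primrec.and.comp (Primrec.not.comp e2) e3

theorem cof_nil (g : AS F (Fin 3)) : cofL g [] = 0 := by
  show Finsupp.mapDomain lets g.coeff [] = 0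
  apply Finsupp.mapDomain_of_notMem_range
  rintro ⟨w, hw⟩
  simp [lets] at hw

theorem sum_wA (g : AS F (Fin 3)) :
    ((cofL g).sum fun W c => c • Val parseA (wA F W)) = g := by
  apply cof_injective
  rw [Finsupp.sum, map_sum]
  conv_rhs => rw [← Finsupp.sum_single (cofL g)]
  rw [Finsupp.sum]
  refine Finset.sum_congr rfl fun W hW => ?_
  have hne : W ≠ [] := by
    rintro rfl
    exact (Finsupp.mem_support_iff.mp hW) (cof_nil g)
  rw [map_smul, cofL_wA hne, Finsupp.smul_single, smul_eq_mul, mul_one]

theorem cof_sum_wA (c : List (Fin 3) →₀ F) {T : List (Fin 3)} (hT : T ≠ []) :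
    cofL (c.sum fun W a => a • Val parseA (wA F W)) T = c T := by
  rw [Finsupp.sum, map_sum, Finsupp.finsetSum_apply]
  have h3 : ∀ i ∈ c.support, (cofL (c i • Val parseA (wA F i))) T = if i = T then c T else 0 := by
    intro i _
    by_cases hi : i = []
    · subst hi
      have : Val parseA (wA F ([] : List (Fin 3))) = 0 := rfl
      rw [this, smul_zero, map_zero, if_neg (fun h => hT h.symm)]
      rfl
    · rw [map_smul, cofL_wA hi, Finsupp.smul_single, smul_eq_mul, mul_one,
        Finsupp.single_apply]
      split_ifs with h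
      · rw [h]
      · rfl
  rw [Finset.sum_congr rfl h3, Finset.sum_ite_eq']
  split_ifs with h
  · rfl
  · exact (Finsupp.notMem_support_iff.mp h).symm

theorem bas_A {u : AS F (Fin 3)} {lt : List (Fin 3) → List (Fin 3) → Prop}
    [IsStrictTotalOrder (List (Fin 3)) lt] (hwf : WellFounded lt)
    (hcomp : ∀ a b c d : List (Fin 3), lt a b → lt (c ++ a ++ d) (c ++ b ++ d))
    {S : Finset (List (Fin 3))}
    (h1 : ∀ T ∈ S, ∃ g ∈ idl F {u}, IsLead lt g T)
    (h2 : ∀ g ∈ idl F {u}, ∀ T, IsLead lt g T → ∃ T' ∈ S, T' <:+: T) :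
    BS ⊤ (idl F {u}) (fun W => Val parseA (wA F W)) {W | okA S.toList W = true} := by
  have hset : {W | okA S.toList W = true} =
      (LI lt id (fun W => Val parseA (wA F W)) (idl F {u}))ᶜ := by
    ext W
    have hk : okA S.toList W = true ↔ W ≠ [] ∧ ∀ T ∈ S, ¬ T <:+: W := by
      simp [okA, ← isInf_iff]
    have : W ∈ LI lt id (fun W => Val parseA (wA F W)) (idl F {u}) ↔
        (W = [] ∨ ∃ T ∈ S, T <:+: W) := by
      constructor
      · rintro ⟨c, hc, hlt, hs⟩
        by_cases hW : W = []
        · exact Or.inl hW
        · right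
          apply h2 _ hs W
          constructor
          · show cofL _ W ≠ 0
            rw [cof_sum_wA c hW]; exact hc
          · intro T hT hne
            have hTn : T ≠ [] := by
              rintro rfl
              exact hT (cof_nil _)
            change cofL _ T ≠ 0 at hT
            rw [cof_sum_wA c hTn] at hT
            exact hlt T hT hne
      · rintro (rfl | ⟨T, hT, P, Q, rfl⟩)
        · refine ⟨Finsupp.single [] 1, by simp, ?_, ?_⟩
          · intro j hj hne
            rw [Finsupp.single_apply, if_neg (fun h => hne h.symm)] at hj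
            exact absurd rfl hj
          · rw [Finsupp.sum_single_index (by simp)]
            have : Val parseA (wA F ([] : List (Fin 3))) = 0 := rfl
            show (1 : F) • Val parseA (wA F ([] : List (Fin 3))) ∈ _
            rw [this, smul_zero]
            exact zero_mem _
        · obtain ⟨g, hg, hl⟩ := h1 T hT
          obtain ⟨g', hg', e⟩ := idl_shW hg P Q
          refine ⟨cofL g', ?_, ?_, ?_⟩
          · rw [e, shW_apply]; exact hl.1
          · intro j hj hne
            rw [e] at hj
            obtain ⟨W', rfl, h3⟩ := shW_ne _ _ _ _ hj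
            apply hcomp
            apply hl.2 W' h3
            rintro rfl
            exact hne rfl
          · rw [sum_wA]; exact hg'
    rw [Set.mem_compl_iff, this, Set.mem_ofPred_eq, hk]
    push Not
    rfl
  rw [hset]
  apply BS.of_LI lt id hwf Function.injective_id (fun _ => Submodule.mem_top) le_top
  intro g _
  rw [← sum_wA g]
  exact Submodule.mem_sup_left (Submodule.sum_mem _ fun i _ => Submodule.smul_mem _ _
    (Submodule.subset_span ⟨i, rfl⟩))

theorem exists_rawA (g : AS F (Fin 3)) : ∃ r : Raw F, Val parseA r = g := by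
  induction g using MonoidAlgebra.induction_linear with
  | zero => exact ⟨[], rfl⟩
  | add a b ha hb =>
    obtain ⟨r, rfl⟩ := ha
    obtain ⟨r', rfl⟩ := hb
    exact ⟨r ++ r', Val_append _ _ _⟩
  | single m c =>
    refine ⟨[(c, (lets m).map some)], ?_⟩
    rw [Val_cons, Val_nil, add_zero, parseA_some, ofL_lets]

/-- finite Groebner bases give decidable word problem -/
theorem assDecidable_of_finGB [Primcodable F] (hadd : Computable₂ (fun a b : F => a + b))
    (hmul : Computable₂ (fun a b : F => a * b)) {u : AS F (Fin 3)} (h : FinGB u) :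
    AssDecidable F (Fin 3) {u} := by
  obtain ⟨lt, hto, hwf, hcomp, S, h1, h2⟩ := h
  have hB := bas_A hwf hcomp h1 h2
  obtain ⟨ur, rfl⟩ := exists_rawA u
  obtain ⟨d, hd, hL⟩ := decide_mem hadd hmul primrec_repA.to_comp parseA_iff
    (primrec_HA ur).to_comp primrec_wA.to_comp (idl_span ur) (comp_okA S.toList).to_comp hB
  refine ⟨fun L => d (L.map fun p => (p.1, p.2.map some)), hd.comp ?_, fun L => ?_⟩
  · have e1 : Primrec (fun w : List (Fin 3) => w.map some) :=
      Primrec.list_map Primrec.id (Primrec.option_some.comp Primrec.snd).to₂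
    exact (Primrec.list_map Primrec.id ((Primrec.fst.comp Primrec.snd).pair
      (e1.comp (Primrec.snd.comp Primrec.snd))).to₂).to_comp
  · rw [hL]
    have : Val parseA ((L.map fun p => (p.1, p.2.head :: p.2.tail)).map
        fun p => (p.1, p.2.map some)) = val L := by
      unfold Val
      rw [List.map_map, List.map_map]
      congr 1
      conv_rhs => rw [← List.map_id L]
      apply List.map_congr_left
      intro x _
      show (x.1, parseA ((lets x.2).map some)) = x
      rw [parseA_some, ofL_lets]
    rw [this]

end dec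

end

end Pool.Agent.Helper120_Alt
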