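import Pool.Agent.Helper120_Alt.Aut1
import Pool.Agent.Helper120_Alt.Gb4

set_option autoImplicit false

/-! Change of generators and the word problem of associative algebras. -/

namespace Pool.Agent.Helper120_Alt

noncomputable section

open R3

/-- lists of terms whose monomials are lists of letters -/
abbrev RL (F : Type) : Type := List (F × List (Fin 3))

theorem foldl_flatMap {α β : Type} (g : α → List β) (l : List α) :
    ∀ s : List β, l.foldl (fun s b => s ++ g b) s = s ++ l.flatMap g := by
  induction l with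
  | nil => intro s; simp
  | cons x l ih => intro s; rw [List.foldl_cons, ih, List.flatMap_cons, List.append_assoc]

variable {F : Type} [Field F]

/-- the value of a list of terms -/
def vl (A : RL F) : List (Fin 3) →₀ F := (A.map fun p => Finsupp.single p.2 p.1).sum

theorem vl_cons (p : F × List (Fin 3)) (A : RL F) :
    vl (p :: A) = Finsupp.single p.2 p.1 + vl A := rfl

theorem vl_append (A B : RL F) : vl (A ++ B) = vl A + vl B := by
  unfold vl
  rw [List.map_append, List.sum_append]

/-- the product with one term -/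
def mulS (a : F × List (Fin 3)) (B : RL F) : RL F :=
  B.foldl (fun s b => s ++ [(a.1 * b.1, a.2 ++ b.2)]) []

/-- the product -/
def mulR (A B : RL F) : RL F := A.foldl (fun s a => s ++ mulS a B) []

/-- the image of a word -/
def thW (R : Fin 3 → RL F) (W : List (Fin 3)) : RL F :=
  W.foldl (fun s x => mulR s (R x)) [(1, [])]

/-- the image of a list of terms -/
def thL (R : Fin 3 → RL F) (L : RL F) : RL F :=
  L.foldl (fun s p => s ++ mulS (p.1, []) (thW R p.2)) []

theorem mulS_eq (a : F × List (Fin 3)) (B : RL F) :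
    mulS a B = B.flatMap fun b => [(a.1 * b.1, a.2 ++ b.2)] := by
  unfold mulS
  rw [foldl_flatMap, List.nil_append]

theorem mulR_eq (A B : RL F) : mulR A B = A.flatMap fun a => mulS a B := by
  unfold mulR
  rw [foldl_flatMap, List.nil_append]

theorem thL_eq (R : Fin 3 → RL F) (L : RL F) :
    thL R L = L.flatMap fun p => mulS (p.1, []) (thW R p.2) := by
  unfold thL
  rw [foldl_flatMap, List.nil_append]

theorem vl_mulS (a : F × List (Fin 3)) (B : RL F) :
    vl (mulS a B) = mm (Finsupp.single a.2 a.1) (vl B) := by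
  rw [mulS_eq]
  induction B with
  | nil =>
    show (0 : List (Fin 3) →₀ F) = mm (Finsupp.single a.2 a.1) 0
    rw [map_zero]
  | cons b B ih =>
    rw [List.flatMap_cons, vl_append, ih, vl_cons b B, map_add]
    congr 1
    show Finsupp.single (a.2 ++ b.2) (a.1 * b.1) + 0 = _
    have e1 : (Finsupp.single a.2 a.1 : List (Fin 3) →₀ F) = a.1 • wd F a.2 := by
      unfold wd; rw [Finsupp.smul_single, smul_eq_mul, mul_one]
    have e2 : (Finsupp.single b.2 b.1 : List (Fin 3) →₀ F) = b.1 • wd F b.2 := by
      unfold wd; rw [Finsupp.smul_single, smul_eq_mul, mul_one]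
    rw [e1, e2, map_smul, map_smul, LinearMap.smul_apply, mm_wd_wd, add_zero, smul_smul]
    unfold wd
    rw [Finsupp.smul_single, smul_eq_mul, mul_one, mul_comm]

theorem vl_mulR (A B : RL F) : vl (mulR A B) = mm (vl A) (vl B) := by
  rw [mulR_eq]
  induction A with
  | nil =>
    show (0 : List (Fin 3) →₀ F) = mm 0 (vl B)
    rw [map_zero, LinearMap.zero_apply]
  | cons a A ih =>
    rw [List.flatMap_cons, vl_append, ih, vl_cons, map_add, LinearMap.add_apply, vl_mulS]

theorem vl_thW {θ : AS F (Fin 3) →ₙₐ[F] AS F (Fin 3)} {R : Fin 3 → RL F}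
    (hR : ∀ x, vl (R x) = lt1 θ x) (W : List (Fin 3)) : vl (thW R W) = tw θ W := by
  have h1 : ∀ (W : List (Fin 3)) (s : RL F),
      vl (W.foldl (fun s x => mulR s (R x)) s) = mm (vl s) (tw θ W) := by
    intro W
    induction W with
    | nil =>
      intro s
      show vl s = mm (vl s) (wd F [])
      rw [mm_one]
    | cons x W ih =>
      intro s
      rw [List.foldl_cons, ih, vl_mulR, hR]
      show _ = mm (vl s) (mm (lt1 θ x) (tw θ W))
      rw [mm_assoc]
  unfold thW
  rw [h1]
  have e : vl ([(1, [])] : RL F) = wd F [] := by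
    show Finsupp.single [] 1 + 0 = _
    rw [add_zero]
    rfl
  rw [e, one_mm]

theorem vl_thL {θ : AS F (Fin 3) →ₙₐ[F] AS F (Fin 3)} {R : Fin 3 → RL F}
    (hR : ∀ x, vl (R x) = lt1 θ x) (L : RL F) : vl (thL R L) = Th θ (vl L) := by
  rw [thL_eq]
  induction L with
  | nil =>
    show (0 : List (Fin 3) →₀ F) = Th θ 0
    rw [map_zero]
  | cons p L ih =>
    rw [List.flatMap_cons, vl_append, ih, vl_cons, map_add, vl_mulS, vl_thW hR]
    congr 1
    have e1 : (Finsupp.single p.2 p.1 : List (Fin 3) →₀ F) = p.1 • wd F p.2 := by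
      unfold wd; rw [Finsupp.smul_single, smul_eq_mul, mul_one]
    have e2 : (Finsupp.single ((p.1, ([] : List (Fin 3))).2) ((p.1, ([] : List (Fin 3))).1) :
        List (Fin 3) →₀ F) = p.1 • wd F [] := by
      unfold wd; rw [Finsupp.smul_single, smul_eq_mul, mul_one]
    rw [e1, e2, map_smul, map_smul, LinearMap.smul_apply, Th_wd, one_mm]

theorem mulR_ne {A B : RL F} (hB : ∀ p ∈ B, p.2 ≠ []) : ∀ p ∈ mulR A B, p.2 ≠ [] := by
  intro p hp
  rw [mulR_eq, List.mem_flatMap] at hp
  obtain ⟨a, _, hp⟩ := hp
  rw [mulS_eq, List.mem_flatMap] at hp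
  obtain ⟨b, hb, hp⟩ := hp
  rw [List.mem_singleton] at hp
  subst hp
  intro h
  exact hB b hb (List.append_eq_nil_iff.mp h).2

theorem thW_ne {R : Fin 3 → RL F} (hR : ∀ x, ∀ p ∈ R x, p.2 ≠ []) {W : List (Fin 3)}
    (hW : W ≠ []) : ∀ p ∈ thW R W, p.2 ≠ [] := by
  have h1 : ∀ (W : List (Fin 3)) (s : RL F), W ≠ [] →
      ∀ p ∈ W.foldl (fun s x => mulR s (R x)) s, p.2 ≠ [] := by
    intro W
    induction W with
    | nil => intro s h; exact absurd rfl h
    | cons x W ih =>
      intro s _
      rw [List.foldl_cons]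
      by_cases hW : W = []
      · subst hW
        exact mulR_ne (hR x)
      · exact ih _ hW
  exact h1 W _ hW

theorem thL_ne {R : Fin 3 → RL F} (hR : ∀ x, ∀ p ∈ R x, p.2 ≠ []) {L : RL F}
    (hL : ∀ p ∈ L, p.2 ≠ []) : ∀ p ∈ thL R L, p.2 ≠ [] := by
  intro p hp
  rw [thL_eq, List.mem_flatMap] at hp
  obtain ⟨a, ha, hp⟩ := hp
  rw [mulS_eq, List.mem_flatMap] at hp
  obtain ⟨b, hb, hp⟩ := hp
  rw [List.mem_singleton] at hp
  subst hp
  intro h
  exact thW_ne hR (hL a ha) b hb (List.append_eq_nil_iff.mp h).2

section comp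

variable [Primcodable F]

theorem comp_mulS (hmul : Computable₂ fun a b : F => a * b) :
    Computable₂ (mulS : F × List (Fin 3) → RL F → RL F) := by
  have h1 : Computable₂ (fun (a : (F × List (Fin 3)) × RL F) (x : RL F × (F × List (Fin 3))) =>
      x.1 ++ [(a.1.1 * x.2.1, a.1.2 ++ x.2.2)]) := by
    have e1 : Computable (fun y : ((F × List (Fin 3)) × RL F) × (RL F × (F × List (Fin 3))) =>
        y.1.1.1 * y.2.2.1) :=
      hmul.comp (Computable.fst.comp (Computable.fst.comp Computable.fst))
        (Computable.fst.comp (Computable.snd.comp Computable.snd))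
    have e2 : Computable (fun y : ((F × List (Fin 3)) × RL F) × (RL F × (F × List (Fin 3))) =>
        y.1.1.2 ++ y.2.2.2) :=
      Computable.list_append.comp (Computable.snd.comp (Computable.fst.comp Computable.fst))
        (Computable.snd.comp (Computable.snd.comp Computable.snd))
    have e3 : Computable (fun y : ((F × List (Fin 3)) × RL F) × (RL F × (F × List (Fin 3))) =>
        [(y.1.1.1 * y.2.2.1, y.1.1.2 ++ y.2.2.2)]) :=
      Computable.list_cons.comp (e1.pair e2) (Computable.const [])
    exact Computable.list_append.comp (Computable.fst.comp Computable.snd) e3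
  exact comp_foldl (f := fun a : (F × List (Fin 3)) × RL F => a.2)
    (g := fun _ => ([] : RL F)) Computable.snd (Computable.const []) h1

theorem comp_mulR (hmul : Computable₂ fun a b : F => a * b) :
    Computable₂ (mulR : RL F → RL F → RL F) := by
  have h1 : Computable₂ (fun (a : RL F × RL F) (x : RL F × (F × List (Fin 3))) =>
      x.1 ++ mulS x.2 a.2) :=
    Computable.list_append.comp (Computable.fst.comp Computable.snd)
      ((comp_mulS hmul).comp (Computable.snd.comp Computable.snd)
        (Computable.snd.comp Computable.fst))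
  exact comp_foldl (f := fun a : RL F × RL F => a.1)
    (g := fun _ => ([] : RL F)) Computable.fst (Computable.const []) h1

theorem comp_thW (hmul : Computable₂ fun a b : F => a * b) (R : Fin 3 → RL F) :
    Computable (thW R) := by
  have hR : Computable R := (Primrec.dom_finite R).to_comp
  have h1 : Computable₂ (fun (_ : List (Fin 3)) (x : RL F × Fin 3) => mulR x.1 (R x.2)) :=
    (comp_mulR hmul).comp (Computable.fst.comp Computable.snd)
      (hR.comp (Computable.snd.comp Computable.snd))
  exact comp_foldl (f := fun a : List (Fin 3) => a)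
    (g := fun _ => ([(1, [])] : RL F)) Computable.id (Computable.const _) h1

theorem comp_thL (hmul : Computable₂ fun a b : F => a * b) (R : Fin 3 → RL F) :
    Computable (thL R) := by
  have h1 : Computable₂ (fun (_ : RL F) (x : RL F × (F × List (Fin 3))) =>
      x.1 ++ mulS (x.2.1, []) (thW R x.2.2)) := by
    have e1 : Computable (fun y : RL F × (RL F × (F × List (Fin 3))) =>
        ((y.2.2.1, []) : F × List (Fin 3))) :=
      (Computable.fst.comp (Computable.snd.comp Computable.snd)).pair (Computable.const [])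
    exact Computable.list_append.comp (Computable.fst.comp Computable.snd)
      ((comp_mulS hmul).comp e1
        ((comp_thW hmul R).comp (Computable.snd.comp (Computable.snd.comp Computable.snd))))
  exact comp_foldl (f := fun a : RL F => a)
    (g := fun _ => ([] : RL F)) Computable.id (Computable.const _) h1

end comp

theorem vl_lets (L : List (F × FreeSemigroup (Fin 3))) :
    vl (L.map fun p => (p.1, lets p.2)) = cofL (val L) := by
  induction L with
  | nil =>
    show (0 : List (Fin 3) →₀ F) = cofL (0 : AS F (Fin 3))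
    rw [map_zero]
  | cons p L ih =>
    rw [List.map_cons, vl_cons, ih, val_cons, map_add, cofL_single]

theorem exists_lst (g : AS F (Fin 3)) : ∃ L : List (F × FreeSemigroup (Fin 3)), val L = g := by
  obtain ⟨r, hr⟩ := exists_rawA g
  exact ⟨_, hr⟩

/-- the word problem of the associative algebra does not depend on the generators -/
theorem assDecidable_aut [Primcodable F] (hmul : Computable₂ fun a b : F => a * b)
    {θ θ' : AS F (Fin 3) →ₙₐ[F] AS F (Fin 3)} (hθ : ∀ x, θ' (θ x) = x) {u : AS F (Fin 3)}
    (h : AssDecidable F (Fin 3) {θ u}) : AssDecidable F (Fin 3) {u} := by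
  obtain ⟨d, hd, hL⟩ := h
  have h1 : ∀ x : Fin 3, ∃ r : RL F, vl r = lt1 θ x ∧ ∀ p ∈ r, p.2 ≠ [] := by
    intro x
    obtain ⟨L, hL⟩ := exists_lst (θ (MonoidAlgebra.single (FreeSemigroup.of x) 1))
    refine ⟨L.map fun p => (p.1, lets p.2), ?_, ?_⟩
    · rw [vl_lets, hL]
      rfl
    · intro p hp
      rw [List.mem_map] at hp
      obtain ⟨q, _, rfl⟩ := hp
      simp [lets]
  choose R hR hR' using h1
  refine ⟨fun L => d (thL R L), hd.comp (comp_thL hmul R), fun L => ?_⟩
  have hne : ∀ p ∈ (L.map fun p => (p.1, p.2.head :: p.2.tail)), p.2 ≠ [] := by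
    intro p hp
    rw [List.mem_map] at hp
    obtain ⟨q, _, rfl⟩ := hp
    simp
  set L0 : RL F := L.map fun p => (p.1, p.2.head :: p.2.tail) with hL0
  have hne' := thL_ne hR' hne
  let L' : List (F × FreeSemigroup (Fin 3)) := (thL R L0).map fun p => (p.1, ofL p.2)
  have e1 : (L'.map fun p => (p.1, p.2.head :: p.2.tail)) = thL R L0 := by
    show ((thL R L0).map fun p => (p.1, ofL p.2)).map (fun p => (p.1, lets p.2)) = _
    rw [List.map_map]
    conv_rhs => rw [← List.map_id (thL R L0)]
    apply List.map_congr_left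
    intro x hx
    show (x.1, lets (ofL x.2)) = x
    rw [lets_ofL (hne' x hx)]
  have e2 : val L' = θ (val L) := by
    apply cof_injective
    rw [← vl_lets]
    have : (L'.map fun p => (p.1, lets p.2)) = thL R L0 := e1
    rw [this, vl_thL hR]
    have h3 : vl L0 = cofL (val L) := vl_lets L
    rw [h3]
    exact Th_cof θ (val L)
  have h2 := hL L'
  rw [e1, e2] at h2
  show d (thL R L0) = true ↔ _
  rw [h2]
  constructor
  · intro h3
    have h4 := map_idl (F := F) (S := {θ u}) (T := {u}) θ' (by
      rintro x rfl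
      rw [hθ]
      exact subset_idl _ rfl) h3
    rw [hθ] at h4
    exact h4
  · intro h3
    exact map_idl (F := F) (S := {u}) (T := {θ u}) θ (by
      rintro x rfl
      exact subset_idl _ rfl) h3

end

end Pool.Agent.Helper120_Alt
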