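import Pool.Agent.Helper120_Alt.Defs
import Pool.Agent.Helper895.AltArtin

set_option autoImplicit false

namespace Pool.Agent.Helper120_Alt

open Pool.Agent.Helper895.Alt

section ideals

variable {F A B : Type} [Field F] [NonUnitalNonAssocRing A] [Module F A]
  [NonUnitalNonAssocRing B] [Module F B]

theorem subset_idl (S : Set A) : S ⊆ idl F S := by
  intro x hx
  unfold idl
  rw [SetLike.mem_coe, Submodule.mem_sInf]
  intro I hI
  exact hI.1 hx

theorem idl_le {S : Set A} {I : Submodule F A} (h1 : S ⊆ I)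
    (h2 : ∀ a : A, ∀ x ∈ I, a * x ∈ I ∧ x * a ∈ I) : idl F S ≤ I :=
  sInf_le ⟨h1, h2⟩

theorem idl_mul {S : Set A} (a x : A) (hx : x ∈ idl F S) :
    a * x ∈ idl F S ∧ x * a ∈ idl F S := by
  unfold idl at *
  rw [Submodule.mem_sInf] at *
  rw [Submodule.mem_sInf]
  constructor
  · intro I hI
    exact (hI.2 a x (hx I hI)).1
  · intro I hI
    exact (hI.2 a x (hx I hI)).2

theorem idl_mono {S T : Set A} (h : S ⊆ T) : idl F S ≤ idl F T :=
  idl_le (h.trans (subset_idl T)) idl_mul

/-- images of ideals -/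
theorem map_idl {S : Set A} {T : Set B} (g : A →ₙₐ[F] B) (h : ∀ x ∈ S, g x ∈ idl F T) {x : A}
    (hx : x ∈ idl F S) : g x ∈ idl F T := by
  have : idl F S ≤ (idl F T).comap (g : A →ₗ[F] B) := by
    apply idl_le
    · intro y hy
      exact h y hy
    · intro a y hy
      have hy' : g y ∈ idl F T := hy
      have := idl_mul (F := F) (g a) (g y) hy'
      constructor
      · show g (a * y) ∈ idl F T
        rw [map_mul]; exact this.1
      · show g (y * a) ∈ idl F T
        rw [map_mul]; exact this.2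
  exact this hx

/-- a surjective map sends an ideal onto the ideal generated by the images -/
theorem lift_idl {S : Set A} (g : A →ₙₐ[F] B) (hg : Function.Surjective g) {y : B}
    (hy : y ∈ idl F (g '' S)) : ∃ x ∈ idl F S, g x = y := by
  have : idl F (g '' S) ≤ (idl F S).map (g : A →ₗ[F] B) := by
    apply idl_le
    · rintro _ ⟨x, hx, rfl⟩
      exact ⟨x, subset_idl S hx, rfl⟩
    · rintro b _ ⟨x, hx, rfl⟩
      obtain ⟨a, rfl⟩ := hg b
      have := idl_mul (F := F) a x hx
      exact ⟨⟨a * x, this.1, map_mul g a x⟩, ⟨x * a, this.2, map_mul g x a⟩⟩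
  obtain ⟨x, hx, h⟩ := this hy
  exact ⟨x, hx, h⟩

end ideals

end Pool.Agent.Helper120_Alt
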