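import Pool.Agent.Helper120_Alt.Artin

set_option autoImplicit false

namespace Pool.Agent.Helper120_Alt

noncomputable section

variable {F : Type} [Field F] {n : ℕ}

/-- `b^(k+1)` -/
def pw : ℕ → FreeSemigroup (Fin 2)
  | 0 => FreeSemigroup.of 1
  | k + 1 => pw k * FreeSemigroup.of 1

/-- the code `a b^(i+1) a` of the letter `i` -/
def code (i : Fin n) : FreeSemigroup (Fin 2) :=
  FreeSemigroup.of 0 * pw i * FreeSemigroup.of 0

/-- coding of words -/
def phi (n : ℕ) : FreeSemigroup (Fin n) →ₙ* FreeSemigroup (Fin 2) := FreeSemigroup.lift code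

/-- coding of polynomials -/
def Phi (F : Type) [Field F] (n : ℕ) : AS F (Fin n) →ₙₐ[F] AS F (Fin 2) :=
  MonoidAlgebra.mapDomainNonUnitalAlgHom F F (phi n)

theorem Phi_single (w : FreeSemigroup (Fin n)) (c : F) :
    Phi F n (MonoidAlgebra.single w c) = MonoidAlgebra.single (phi n w) c := by
  simp [Phi]

/-- the unital algebra -/
abbrev UU (F : Type) [Field F] (n : ℕ) : Type := MonoidAlgebra F (WithOne (FreeSemigroup (Fin n)))

/-- the inclusion -/
def inc (F : Type) [Field F] (n : ℕ) : AS F (Fin n) →ₙₐ[F] UU F n :=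
  MonoidAlgebra.mapDomainNonUnitalAlgHom F F (WithOne.coeMulHom (α := FreeSemigroup (Fin n)))

theorem inc_single (w : FreeSemigroup (Fin n)) (c : F) :
    inc F n (MonoidAlgebra.single w c) =
      MonoidAlgebra.single (w : WithOne (FreeSemigroup (Fin n))) c := by
  show MonoidAlgebra.mapDomain (fun w : FreeSemigroup (Fin n) =>
    (w : WithOne (FreeSemigroup (Fin n)))) (MonoidAlgebra.single w c) = _
  rw [MonoidAlgebra.mapDomain_single]

theorem inc_injective : Function.Injective (inc F n) := by
  intro x y h
  have h1 : MonoidAlgebra.mapDomain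
      (fun w : FreeSemigroup (Fin n) => (w : WithOne (FreeSemigroup (Fin n)))) x =
      MonoidAlgebra.mapDomain
      (fun w : FreeSemigroup (Fin n) => (w : WithOne (FreeSemigroup (Fin n)))) y := h
  exact MonoidAlgebra.mapDomain_injective (fun a b hab => WithOne.coe_inj.1 hab) h1

/-- the image of the ideal generated by `f` -/
def Ih (f : AS F (Fin n)) : Submodule F (UU F n) := (idl F {f}).map (inc F n : _ →ₗ[F] _)

theorem Ih_mul (f : AS F (Fin n)) (u x : UU F n) (hx : x ∈ Ih f) :
    u * x ∈ Ih f ∧ x * u ∈ Ih f := by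
  obtain ⟨y, hy, rfl⟩ := hx
  have hy' : y ∈ idl F {f} := hy
  show u * inc F n y ∈ Ih f ∧ inc F n y * u ∈ Ih f
  induction u using MonoidAlgebra.induction_linear with
  | zero => rw [zero_mul, mul_zero]; exact ⟨Submodule.zero_mem _, Submodule.zero_mem _⟩
  | add a b ha hb =>
    rw [add_mul, mul_add]
    exact ⟨Submodule.add_mem _ ha.1 hb.1, Submodule.add_mem _ ha.2 hb.2⟩
  | single m c =>
    rw [single_eq_smul, smul_mul_assoc, mul_smul_comm]
    induction m using WithOne.recOneCoe with
    | one =>
      have : (MonoidAlgebra.single (1 : WithOne (FreeSemigroup (Fin n))) 1 : UU F n) = 1 := rfl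
      rw [this, one_mul, mul_one]
      exact ⟨Submodule.smul_mem _ _ ⟨y, hy, rfl⟩, Submodule.smul_mem _ _ ⟨y, hy, rfl⟩⟩
    | coe w =>
      rw [← inc_single, ← map_mul, ← map_mul]
      exact ⟨Submodule.smul_mem _ _ ⟨_, (idl_mul _ _ hy').1, rfl⟩,
        Submodule.smul_mem _ _ ⟨_, (idl_mul _ _ hy').2, rfl⟩⟩

theorem mem_of_inc {f y : AS F (Fin n)} (h : inc F n y ∈ Ih f) : y ∈ idl F {f} := by
  obtain ⟨z, hz, he⟩ := h
  have : z = y := inc_injective he
  rw [← this]; exact hz

/-- the generators as elements of the unital algebra -/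
def XX (i : Fin n) : UU F n := inc F n (MonoidAlgebra.single (FreeSemigroup.of i) 1)

/-- first column of the matrix `A` -/
def col (F : Type) [Field F] (n : ℕ) (k : Fin (n + 1)) : UU F n :=
  Fin.cases 1 (fun i => XX i) k

/-- the matrix `A` -/
def MA (F : Type) [Field F] (n : ℕ) : Matrix (Fin (n + 1)) (Fin (n + 1)) (UU F n) :=
  Matrix.of fun k l => if l = 0 then col F n k else 0

/-- the matrix with first column `col * y` -/
def MC (y : UU F n) : Matrix (Fin (n + 1)) (Fin (n + 1)) (UU F n) :=
  Matrix.of fun k l => if l = 0 then col F n k * y else 0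

/-- powers of the shift matrix -/
def MS (F : Type) [Field F] (n m : ℕ) : Matrix (Fin (n + 1)) (Fin (n + 1)) (UU F n) :=
  Matrix.of fun k l => if (k : ℕ) + m = l then 1 else 0

theorem MS_mul (m : ℕ) : MS F n m * MS F n 1 = MS F n (m + 1) := by
  ext1 k l
  rw [Matrix.mul_apply]
  by_cases hk : (k : ℕ) + m < n + 1
  · rw [Finset.sum_eq_single (⟨k + m, hk⟩ : Fin (n + 1))]
    · simp [MS, add_assoc]
    · intro b _ hb
      have : ¬ ((k : ℕ) + m = b) := fun h => hb (Fin.ext h.symm)
      simp [MS, this]
    · intro h; exact absurd (Finset.mem_univ _) h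
  · rw [Finset.sum_eq_zero]
    · have : ¬ ((k : ℕ) + (m + 1) = l) := by have := l.isLt; omega
      simp [MS, this]
    · intro b _
      have : ¬ ((k : ℕ) + m = b) := by have := b.isLt; omega
      simp [MS, this]

/-- the representation -/
def rep (F : Type) [Field F] (n : ℕ) :
    AS F (Fin 2) →ₙₐ[F] Matrix (Fin (n + 1)) (Fin (n + 1)) (UU F n) :=
  MonoidAlgebra.liftMagma F (FreeSemigroup.lift ![MA F n, MS F n 1])

theorem rep_single (w : FreeSemigroup (Fin 2)) :
    rep F n (MonoidAlgebra.single w 1) = FreeSemigroup.lift ![MA F n, MS F n 1] w := by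
  simp [rep]

theorem rep_pw (m : ℕ) (hm : m < n) :
    FreeSemigroup.lift ![MA F n, MS F n 1] (pw m) = MS F n (m + 1) := by
  induction m with
  | zero => simp [pw]
  | succ m ih =>
    show FreeSemigroup.lift ![MA F n, MS F n 1] (pw m * FreeSemigroup.of 1) = _
    rw [map_mul, ih (by omega)]
    simp only [FreeSemigroup.lift_of]
    exact MS_mul (m + 1)

theorem rep_code (i : Fin n) : rep F n (MonoidAlgebra.single (code i) 1) = MC (XX i) := by
  rw [rep_single]
  unfold code
  rw [map_mul, map_mul, rep_pw _ i.isLt]
  simp only [FreeSemigroup.lift_of]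
  show MA F n * MS F n (i + 1) * MA F n = _
  ext1 k l
  rw [Matrix.mul_apply, Finset.sum_eq_single i.succ]
  · rw [Matrix.mul_apply, Finset.sum_eq_single (0 : Fin (n + 1))]
    · by_cases hl : l = 0
      · subst hl
        simp [MA, MS, MC, col]
      · simp [MA, MC, hl]
    · intro b _ hb
      simp [MA, hb]
    · intro h; exact absurd (Finset.mem_univ _) h
  · intro b _ hb
    rw [Matrix.mul_apply, Finset.sum_eq_single (0 : Fin (n + 1))]
    · have : ¬ ((i : ℕ) + 1 = b) := fun h => hb (Fin.ext (by simp [h]))
      simp [MS, this]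
    · intro c _ hc
      simp [MA, hc]
    · intro h; exact absurd (Finset.mem_univ _) h
  · intro h; exact absurd (Finset.mem_univ _) h

theorem rep_phi (w : FreeSemigroup (Fin n)) :
    rep F n (MonoidAlgebra.single (phi n w) 1) = MC (inc F n (MonoidAlgebra.single w 1)) := by
  induction w using FreeSemigroup.recOnMul with
  | ih1 i =>
    have : phi n (FreeSemigroup.of i) = code i := by simp [phi]
    rw [this, rep_code]
    rfl
  | ih2 i w h1 h2 =>
    rw [map_mul, single_mul_single', map_mul, h1, h2]
    ext1 k l
    rw [Matrix.mul_apply, Finset.sum_eq_single (0 : Fin (n + 1))]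
    · by_cases hl : l = 0
      · subst hl
        have h0 : col F n 0 = 1 := rfl
        simp only [MC, Matrix.of_apply, if_true, h0, one_mul]
        rw [mul_assoc, ← map_mul, single_mul_single']
      · simp [MC, hl]
    · intro b _ hb
      simp [MC, hb]
    · intro h; exact absurd (Finset.mem_univ _) h

theorem rep_Phi (g : AS F (Fin n)) : rep F n (Phi F n g) = MC (inc F n g) := by
  induction g using MonoidAlgebra.induction_linear with
  | zero =>
    ext1 k l
    simp [MC]
  | add a b ha hb =>
    rw [map_add, map_add, ha, hb]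
    ext1 k l
    by_cases hl : l = 0
    · simp [MC, hl, mul_add]
    · simp [MC, hl]
  | single w c =>
    rw [Phi_single, single_eq_smul, map_smul, rep_phi, single_eq_smul w c, map_smul]
    ext1 k l
    by_cases hl : l = 0
    · simp only [MC, Matrix.smul_apply, Matrix.of_apply, hl, if_true]
      rw [mul_smul_comm]
    · simp [MC, hl]

/-- coding reflects ideal membership -/
theorem Phi_mem_iff (f g : AS F (Fin n)) :
    Phi F n g ∈ idl F {Phi F n f} ↔ g ∈ idl F {f} := by
  constructor
  · intro h
    let J : Submodule F (AS F (Fin 2)) :=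
      { carrier := {x | ∀ k l, rep F n x k l ∈ Ih f}
        zero_mem' := fun k l => by rw [map_zero]; exact Submodule.zero_mem _
        add_mem' := fun {a b} ha hb k l => by
          rw [map_add]; exact Submodule.add_mem _ (ha k l) (hb k l)
        smul_mem' := fun c a ha k l => by
          rw [map_smul]; exact Submodule.smul_mem _ _ (ha k l) }
    have hJ : idl F {Phi F n f} ≤ J := by
      apply idl_le
      · rintro x hx
        rw [Set.mem_singleton_iff] at hx
        subst hx
        intro k l
        rw [rep_Phi]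
        by_cases hl : l = 0
        · simp only [MC, Matrix.of_apply, hl, if_true]
          exact (Ih_mul f _ _ ⟨f, subset_idl _ rfl, rfl⟩).1
        · simp only [MC, Matrix.of_apply, hl, if_false]
          exact Submodule.zero_mem _
      · intro a x hx
        constructor
        · intro k l
          rw [map_mul, Matrix.mul_apply]
          exact Submodule.sum_mem _ fun j _ => (Ih_mul f _ _ (hx j l)).1
        · intro k l
          rw [map_mul, Matrix.mul_apply]
          exact Submodule.sum_mem _ fun j _ => (Ih_mul f _ _ (hx k j)).2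
    have h2 := hJ h 0 0
    rw [rep_Phi] at h2
    have h0 : col F n 0 = 1 := rfl
    simp only [MC, Matrix.of_apply, if_true, h0, one_mul] at h2
    exact mem_of_inc h2
  · intro h
    refine map_idl (Phi F n) ?_ h
    intro x hx
    rw [Set.mem_singleton_iff] at hx
    subst hx
    exact subset_idl _ rfl

end

end Pool.Agent.Helper120_Alt
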