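import Pool.Agent.Helper120_Alt.Code

set_option autoImplicit false

namespace Pool.Agent.Helper120_Alt

noncomputable section

variable {F : Type} [Field F] {n : ℕ}

theorem mapDomain_val {M N : Type} (g : M → N) (L : List (F × M)) :
    MonoidAlgebra.mapDomain g (val L) = val (L.map fun p => (p.1, g p.2)) := by
  unfold val
  induction L with
  | nil => simp
  | cons p L ih =>
    rw [List.map_cons, List.sum_cons, MonoidAlgebra.mapDomain_add, ih,
      MonoidAlgebra.mapDomain_single]
    simp

theorem psi_val {X : Type} (L : List (F × FreeMagma X)) :
    psi F X (val L) = val (L.map fun p => (p.1, FreeMagma.toFreeSemigroup p.2)) :=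
  mapDomain_val _ L

theorem Phi_val (L : List (F × FreeSemigroup (Fin n))) :
    Phi F n (val L) = val (L.map fun p => (p.1, phi n p.2)) :=
  mapDomain_val _ L

/-- letters of a word -/
def lets {X : Type} (w : FreeSemigroup X) : List X := w.head :: w.tail

theorem lets_mul {X : Type} (u v : FreeSemigroup X) : lets (u * v) = lets u ++ lets v := by
  simp [lets]

theorem lets_of {X : Type} (x : X) : lets (FreeSemigroup.of x) = [x] := by
  simp [lets]

theorem filterMap_pol {X : Type} (m : FreeMagma X) :
    (pol m).filterMap (fun x : Option X => x) = lets (FreeMagma.toFreeSemigroup m) := by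
  induction m with
  | ih1 x => simp [pol, lets]
  | ih2 a b ha hb =>
    rw [map_mul, lets_mul, ← ha, ← hb]
    show (none :: (pol a ++ pol b)).filterMap (fun x : Option X => x) = _
    simp

theorem pol_lnl {X : Type} (l : List X) : ∀ m : FreeMagma X,
    pol (lnl m l) = (List.range l.length).map (fun _ => none) ++ (pol m ++ l.map some) := by
  induction l with
  | nil => intro m; simp [lnl]
  | cons x l ih =>
    intro m
    show pol (lnl (m * FreeMagma.of x) l) = _
    rw [ih]
    have : pol (m * FreeMagma.of x) = none :: (pol m ++ [some x]) := rfl
    rw [this]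
    simp [List.range_succ]

theorem pol_ln {X : Type} (w : FreeSemigroup X) :
    pol (ln w) = (List.range ((lets w).length - 1)).map (fun _ => none) ++
      (lets w).map some := by
  unfold ln
  rw [pol_lnl]
  simp [lets, pol]

/-- the code of a letter as a list -/
def codeList (i : Fin n) : List (Fin 2) := lets (code i)

theorem lets_phi (w : FreeSemigroup (Fin n)) : lets (phi n w) = (lets w).flatMap codeList := by
  induction w using FreeSemigroup.recOnMul with
  | ih1 i =>
    have : phi n (FreeSemigroup.of i) = code i := by simp [phi]
    rw [this, lets_of]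
    simp [codeList]
  | ih2 i w h1 h2 =>
    rw [map_mul, lets_mul, lets_mul, h1, h2]
    simp

/-- coding a word and writing the left-normed bracketing in Polish notation -/
def polw (l : List (Fin n)) : List (Option (Fin 2)) :=
  (List.range ((l.flatMap codeList).length - 1)).map (fun _ => none) ++
    (l.flatMap codeList).map some

theorem polw_lets (w : FreeSemigroup (Fin n)) : polw (lets w) = pol (ln (phi n w)) := by
  rw [pol_ln, lets_phi]
  rfl

theorem primrec_polw : Primrec (polw (n := n)) := by
  have h1 : Primrec (fun l : List (Fin n) => l.flatMap codeList) :=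
    Primrec.list_flatMap Primrec.id ((Primrec.dom_finite codeList).comp Primrec.snd).to₂
  have h2 : Primrec (fun l : List (Fin n) => (l.flatMap codeList).length - 1) :=
    Primrec.pred.comp (Primrec.list_length.comp h1)
  have h3 : Primrec (fun l : List (Fin n) =>
      (List.range ((l.flatMap codeList).length - 1)).map (fun _ => (none : Option (Fin 2)))) :=
    Primrec.list_map (Primrec.list_range.comp h2) (Primrec.const none).to₂
  have h4 : Primrec (fun l : List (Fin n) => (l.flatMap codeList).map some) :=
    Primrec.list_map h1 (Primrec.option_some.comp Primrec.snd).to₂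
  exact Primrec.list_append.comp h3 h4

/-- from alternative algebras with two generators to associative algebras -/
theorem ass_of_alt [Primcodable F] (f : AS F (Fin n))
    (h : AltDecidable F (Fin 2) {sec F (Fin 2) (Phi F n f)}) :
    AssDecidable F (Fin n) {f} := by
  obtain ⟨d, hd, hL⟩ := h
  refine ⟨fun L => d (L.map fun p => (p.1, polw p.2)), hd.comp ?_, ?_⟩
  · exact (Primrec.list_map Primrec.id (Primrec.pair (Primrec.fst.comp Primrec.snd)
      (primrec_polw.comp (Primrec.snd.comp Primrec.snd))).to₂).to_comp
  · intro L
    have h1 := hL (L.map fun p => (p.1, ln (phi n p.2)))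
    have h2 : ((L.map fun p => (p.1, ln (phi n p.2))).map fun p => (p.1, pol p.2)) =
        (L.map fun p => (p.1, p.2.head :: p.2.tail)).map fun p => (p.1, polw p.2) := by
      rw [List.map_map, List.map_map]
      apply List.map_congr_left
      intro p _
      show (p.1, pol (ln (phi n p.2))) = (p.1, polw (lets p.2))
      rw [polw_lets]
    rw [h2] at h1
    rw [h1, mem_altIdeal_iff, psi_val, Set.image_singleton]
    have h3 : psi F (Fin 2) (sec F (Fin 2) (Phi F n f)) = Phi F n f := by
      generalize Phi F n f = y
      induction y using MonoidAlgebra.induction_linear with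
      | zero => simp
      | add a b ha hb => rw [map_add, map_add, ha, hb]
      | single m c => rw [sec_single, psi_single, flat_ln]
    rw [h3, List.map_map]
    have h4 : (L.map ((fun p : F × FreeMagma (Fin 2) => (p.1, FreeMagma.toFreeSemigroup p.2)) ∘
        fun p => (p.1, ln (phi n p.2)))) = L.map fun p => (p.1, phi n p.2) := by
      apply List.map_congr_left
      intro p _
      show (p.1, FreeMagma.toFreeSemigroup (ln (phi n p.2))) = (p.1, phi n p.2)
      rw [flat_ln]
    rw [h4, ← Phi_val, Phi_mem_iff]

/-- from associative algebras to alternative algebras with two generators -/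
theorem alt_of_ass [Primcodable F] (f : NA F (Fin 2))
    (h : AssDecidable F (Fin 2) {psi F (Fin 2) f}) : AltDecidable F (Fin 2) {f} := by
  obtain ⟨d, hd, hL⟩ := h
  refine ⟨fun L => d (L.map fun p => (p.1, p.2.filterMap fun x : Option (Fin 2) => x)),
    hd.comp ?_, ?_⟩
  · have h1 : Primrec (fun w : List (Option (Fin 2)) => w.filterMap fun x => x) :=
      Primrec.listFilterMap Primrec.id Primrec.snd.to₂
    exact (Primrec.list_map Primrec.id (Primrec.pair (Primrec.fst.comp Primrec.snd)
      (h1.comp (Primrec.snd.comp Primrec.snd))).to₂).to_comp
  · intro L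
    have h1 := hL (L.map fun p => (p.1, FreeMagma.toFreeSemigroup p.2))
    have h2 : ((L.map fun p => (p.1, FreeMagma.toFreeSemigroup p.2)).map
        fun p => (p.1, p.2.head :: p.2.tail)) =
        (L.map fun p => (p.1, pol p.2)).map
          fun p => (p.1, p.2.filterMap fun x : Option (Fin 2) => x) := by
      rw [List.map_map, List.map_map]
      apply List.map_congr_left
      intro p _
      show (p.1, lets (FreeMagma.toFreeSemigroup p.2)) =
        (p.1, (pol p.2).filterMap fun x : Option (Fin 2) => x)
      rw [filterMap_pol]
    rw [h2] at h1
    rw [h1, mem_altIdeal_iff, psi_val, Set.image_singleton]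

end

end Pool.Agent.Helper120_Alt
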