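import Pool.Agent.Helper120_Alt.Low2

set_option autoImplicit false

/-! Relators whose associative image is quadratic. -/

namespace Pool.Agent.Helper120_Alt

noncomputable section

variable {F : Type} [Field F]

/-- the letters -/
def xl (F : Type) [Field F] (i : Fin 3) : AS F (Fin 3) :=
  MonoidAlgebra.single (FreeSemigroup.of i) 1

/-- the endomorphism with given images of the letters -/
def homOf (g : Fin 3 → AS F (Fin 3)) : AS F (Fin 3) →ₙₐ[F] AS F (Fin 3) :=
  MonoidAlgebra.liftMagma F (FreeSemigroup.lift g)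

theorem homOf_xl (g : Fin 3 → AS F (Fin 3)) (i : Fin 3) : homOf g (xl F i) = g i := by
  have h1 : (homOf g).toMulHom.comp (MonoidAlgebra.ofMagma F (FreeSemigroup (Fin 3))) =
      FreeSemigroup.lift g := (MonoidAlgebra.liftMagma F).symm_apply_apply (FreeSemigroup.lift g)
  have h2 := DFunLike.congr_fun h1 (FreeSemigroup.of i)
  exact h2

theorem hom_eq {φ : AS F (Fin 3) →ₙₐ[F] AS F (Fin 3)} (h : ∀ i, φ (xl F i) = xl F i)
    (x : AS F (Fin 3)) : φ x = x := by
  have h1 : ∀ m : FreeSemigroup (Fin 3), φ (MonoidAlgebra.single m 1) =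
      MonoidAlgebra.single m 1 := by
    intro m
    induction m using FreeSemigroup.recOnMul with
    | ih1 x => exact h x
    | ih2 x w h1 h2 =>
      have e : (MonoidAlgebra.single (FreeSemigroup.of x * w) 1 : AS F (Fin 3)) =
          MonoidAlgebra.single (FreeSemigroup.of x) 1 * MonoidAlgebra.single w 1 := by
        rw [MonoidAlgebra.single_mul_single, one_mul]
      rw [e, map_mul, h1, h2]
  induction x using MonoidAlgebra.induction_linear with
  | zero => exact map_zero φ
  | add a b ha hb => rw [map_add, ha, hb]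
  | single m c =>
    have e : (MonoidAlgebra.single m c : AS F (Fin 3)) = c • MonoidAlgebra.single m 1 := by
      rw [MonoidAlgebra.smul_single, smul_eq_mul, mul_one]
    rw [e, map_smul, h1]

/-- linear forms -/
def lin (a : Fin 3 → F) : AS F (Fin 3) := ∑ i, a i • xl F i

theorem cofL_xl (i : Fin 3) : cofL (xl F i) = Finsupp.single [i] 1 := by
  unfold xl
  rw [cofL_single]
  rfl

theorem cofL_lin (a : Fin 3 → F) : cofL (lin a) = ∑ i, a i • Finsupp.single [i] (1 : F) := by
  unfold lin
  rw [map_sum]
  refine Finset.sum_congr rfl fun i _ => ?_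
  rw [map_smul, cofL_xl]

theorem cof_lin_apply (a : Fin 3 → F) (W : List (Fin 3)) :
    cof (lin a) W = ∑ i, if [i] = W then a i else 0 := by
  rw [← cofL_apply, cofL_lin, Finsupp.finsetSum_apply]
  refine Finset.sum_congr rfl fun i _ => ?_
  rw [Finsupp.smul_apply, Finsupp.single_apply, smul_eq_mul]
  split_ifs <;> simp

theorem cof_lin_len (a : Fin 3 → F) (W : List (Fin 3)) (h : cof (lin a) W ≠ 0) :
    W.length = 1 := by
  rw [cof_lin_apply] at h
  obtain ⟨i, _, hi⟩ := Finset.exists_ne_zero_of_sum_ne_zero h
  by_cases e : [i] = W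
  · rw [← e]; rfl
  · rw [if_neg e] at hi; exact absurd rfl hi

theorem cof_lin_one (a : Fin 3 → F) (i : Fin 3) : cof (lin a) [i] = a i := by
  rw [cof_lin_apply, Finset.sum_eq_single i]
  · rw [if_pos rfl]
  · intro j _ hj
    rw [if_neg (by simpa using hj)]
  · intro h; exact absurd (Finset.mem_univ _) h

theorem strFree_lin' {a : Fin 3 → F} (h : a ≠ 0) : StrFree (lin a) := by
  refine strFree_lin (cof_lin_len a) ?_
  intro h0
  apply h
  funext i
  rw [← cof_lin_one a i, h0]
  rfl

theorem cofL_mul_xl (i j : Fin 3) : cofL (xl F i * xl F j) = Finsupp.single [i, j] 1 := by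
  unfold xl
  rw [MonoidAlgebra.single_mul_single, cofL_single, mul_one]
  rfl

/-- quadratic polynomials -/
theorem eq_quad {u : AS F (Fin 3)} (hu : ∀ W, cof u W ≠ 0 → W.length ≤ 2) :
    u = (∑ i, ∑ j, qB u i j • (xl F i * xl F j)) + lin fun i => cof u [i] := by
  apply cof_injective
  rw [map_add, map_sum, cofL_lin]
  simp only [map_sum, map_smul, cofL_mul_xl]
  ext W
  rw [Finsupp.add_apply, Finsupp.finsetSum_apply, Finsupp.finsetSum_apply]
  simp only [Finsupp.finsetSum_apply, Finsupp.smul_apply, Finsupp.single_apply, smul_eq_mul]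
  match W with
  | [] =>
    have e : cof u [] = 0 := cof_empty u
    rw [cofL_apply, e]
    simp
  | [a] =>
    rw [cofL_apply, Finset.sum_eq_zero, zero_add, Finset.sum_eq_single a]
    · simp
    · intro i _ hi
      rw [if_neg (by simpa using hi), mul_zero]
    · intro h; exact absurd (Finset.mem_univ _) h
    · intro i _
      refine Finset.sum_eq_zero fun j _ => ?_
      rw [if_neg (by simp), mul_zero]
  | [a, b] =>
    rw [cofL_apply, Finset.sum_eq_single a, Finset.sum_eq_single b]
    · have e : ∑ i : Fin 3, cof u [i] * (if [i] = [a, b] then (1 : F) else 0) = 0 :=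
        Finset.sum_eq_zero fun i _ => by rw [if_neg (by simp), mul_zero]
      rw [e, if_pos rfl, mul_one, add_zero]
      rfl
    · intro j _ hj
      rw [if_neg (by simpa using hj), mul_zero]
    · intro h; exact absurd (Finset.mem_univ _) h
    · intro i _ hi
      refine Finset.sum_eq_zero fun j _ => ?_
      rw [if_neg (by simp [hi]), mul_zero]
    · intro h; exact absurd (Finset.mem_univ _) h
  | a :: b :: c :: W =>
    have e : cof u (a :: b :: c :: W) = 0 := by
      by_contra h
      have := hu _ h
      simp at this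
    rw [cofL_apply, e]
    simp

theorem lin_mul_lin (a b : Fin 3 → F) :
    lin a * lin b = ∑ i, ∑ j, (a i * b j) • (xl F i * xl F j) := by
  unfold lin
  rw [Finset.sum_mul_sum]
  refine Finset.sum_congr rfl fun i _ => Finset.sum_congr rfl fun j _ => ?_
  rw [smul_mul_smul_comm]

theorem hom_lin (φ : AS F (Fin 3) →ₙₐ[F] AS F (Fin 3)) {k : Fin 3 → F} {z : AS F (Fin 3)}
    (h : ∀ i, φ (xl F i) = xl F i + k i • z) (a : Fin 3 → F) :
    φ (lin a) = lin a + (∑ i, a i * k i) • z := by
  unfold lin
  rw [map_sum, Finset.sum_smul, ← Finset.sum_add_distrib]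
  refine Finset.sum_congr rfl fun i _ => ?_
  rw [map_smul, h, smul_add, smul_smul]

theorem indep {r l : Fin 3 → F} (hr : r ≠ 0) (h : ¬ ∃ κ : F, l = κ • r) :
    ∃ i j, r i * l j ≠ r j * l i := by
  by_contra h0
  push Not at h0
  apply h
  obtain ⟨m, hm⟩ := Function.ne_iff.mp hr
  have hm' : r m ≠ 0 := hm
  refine ⟨l m * (r m)⁻¹, ?_⟩
  funext j
  show l j = l m * (r m)⁻¹ * r j
  have h1 := h0 m j
  field_simp
  linear_combination h1

/-- relators whose associative image has degree at most two -/
theorem altDecidable_quad [Primcodable F] (hadd : Computable₂ fun a b : F => a + b)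
    (hmul : Computable₂ fun a b : F => a * b) (f : NA F (Fin 3))
    (hu : ∀ W, cof (psi F (Fin 3) f) W ≠ 0 → W.length ≤ 2) : AltDecidable F (Fin 3) {f} := by
  classical
  set u := psi F (Fin 3) f with hudef
  have hid : ∀ x : AS F (Fin 3), NonUnitalAlgHom.id F (AS F (Fin 3))
      (NonUnitalAlgHom.id F (AS F (Fin 3)) x) = x := fun _ => rfl
  let l : Fin 3 → F := fun i => cof u [i]
  -- strongly free
  have hS : StrFree u → AltDecidable F (Fin 3) {f} := by
    intro hS
    refine altDecidable_of_strFree hadd hmul f _ _ hid u hS (fun _ => 1) 1 ?_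
    rw [Finset.sum_range_one, one_smul]
    rfl
  by_cases hrk : ∃ i j k m, qB u i j * qB u k m ≠ qB u i m * qB u k j
  · obtain ⟨i, j, k, m, h⟩ := hrk
    exact hS (strFree_of_endRank (endRank_of_minor hu h))
  push Not at hrk
  by_cases hB0 : ∀ i j, qB u i j = 0
  · have e1 : u = lin l := by
      have h1 := eq_quad hu
      rw [Finset.sum_eq_zero fun i _ => Finset.sum_eq_zero fun j _ => by
        rw [hB0, zero_smul], zero_add] at h1
      exact h1
    by_cases hl : l = 0
    · refine altDecidable_of_strFree hadd hmul f _ _ hid (lin (Pi.single 0 1))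
        (strFree_lin' (by
          intro h
          have := congrFun h 0
          simp at this)) (fun _ => 1) 0 ?_
      rw [Finset.sum_range_zero]
      show u = 0
      rw [e1, hl]
      unfold lin
      simp
    · apply hS
      rw [e1]
      exact strFree_lin' hl
  push Not at hB0
  obtain ⟨i0, j0, h0⟩ := hB0
  -- rank one
  let r : Fin 3 → F := fun i => qB u i j0
  let c : Fin 3 → F := fun j => qB u i0 j * (qB u i0 j0)⁻¹
  have hB : ∀ i j, qB u i j = r i * c j := by
    intro i j
    show qB u i j = qB u i j0 * (qB u i0 j * (qB u i0 j0)⁻¹)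
    have h1 := hrk i j i0 j0
    field_simp
    linear_combination h1
  have hr : r ≠ 0 := by
    intro h
    exact h0 (congrFun h i0)
  by_cases hc : ∃ κ : F, c = κ • r
  swap
  · obtain ⟨i, j, h⟩ := indep hr hc
    exact hS (strFree_of_prod hu hB h)
  obtain ⟨μ, hμ⟩ := hc
  have e1 : u = μ • (lin r * lin r) + lin l := by
    have h1 := eq_quad hu
    rw [lin_mul_lin, Finset.smul_sum]
    conv_lhs => rw [h1]
    congr 1
    refine Finset.sum_congr rfl fun i _ => ?_
    rw [Finset.smul_sum]
    refine Finset.sum_congr rfl fun j _ => ?_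
    rw [hB, hμ, smul_smul]
    congr 1
    show r i * (μ * r j) = μ * (r i * r j)
    ring
  by_cases hl : ∃ κ : F, l = κ • r
  · obtain ⟨κ, hκ⟩ := hl
    refine altDecidable_of_strFree hadd hmul f _ _ hid (lin r) (strFree_lin' hr)
      (fun j => if j = 0 then κ else μ) 2 ?_
    rw [Finset.sum_range_succ, Finset.sum_range_one, if_pos rfl, if_neg one_ne_zero]
    show u = κ • lin r + μ • (lin r * lin r)
    rw [e1, add_comm, hκ]
    congr 1
    unfold lin
    rw [Finset.smul_sum]
    refine Finset.sum_congr rfl fun i _ => ?_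
    rw [smul_smul]
    rfl
  · obtain ⟨i, j, hij⟩ := indep hr hl
    have hD : r i * l j - r j * l i ≠ 0 := sub_ne_zero.mpr hij
    let D := r i * l j - r j * l i
    let k : Fin 3 → F := fun x => (if x = j then r i else 0) * D⁻¹ -
      (if x = i then r j else 0) * D⁻¹
    have e2 : ∀ a : Fin 3 → F, ∑ x, a x * k x = (a j * r i - a i * r j) * D⁻¹ := by
      intro a
      simp only [k, mul_sub, Finset.sum_sub_distrib, ite_mul, mul_ite, zero_mul, mul_zero,
        Finset.sum_ite_eq', Finset.mem_univ, if_true]
      ring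
    have hk1 : ∑ x, r x * k x = 0 := by rw [e2]; ring
    have hk2 : ∑ x, l x * k x = 1 := by
      rw [e2]
      have : l j * r i - l i * r j = D := by simp only [D]; ring
      rw [this]
      exact mul_inv_cancel₀ hD
    let z : AS F (Fin 3) := lin r * lin r
    let θ := homOf fun a => xl F a + (-μ * k a) • z
    let θ' := homOf fun a => xl F a + (μ * k a) • z
    have hs1 : ∀ a : Fin 3 → F, ∑ i, a i * (-μ * k i) = -μ * ∑ i, a i * k i := by
      intro a
      rw [Finset.mul_sum]
      exact Finset.sum_congr rfl fun i _ => by ring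
    have hs2 : ∀ a : Fin 3 → F, ∑ i, a i * (μ * k i) = μ * ∑ i, a i * k i := by
      intro a
      rw [Finset.mul_sum]
      exact Finset.sum_congr rfl fun i _ => by ring
    have hθ1 : ∀ a, θ (lin a) = lin a + (-μ * ∑ i, a i * k i) • z := by
      intro a
      rw [← hs1]
      exact hom_lin θ (fun i => homOf_xl _ i) a
    have hθ2 : ∀ a, θ' (lin a) = lin a + (μ * ∑ i, a i * k i) • z := by
      intro a
      rw [← hs2]
      exact hom_lin θ' (fun i => homOf_xl _ i) a
    have hr1 : θ (lin r) = lin r := by rw [hθ1, hk1, mul_zero, zero_smul, add_zero]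
    have hr2 : θ' (lin r) = lin r := by rw [hθ2, hk1, mul_zero, zero_smul, add_zero]
    have hz2 : θ' z = z := by
      show θ' (lin r * lin r) = lin r * lin r
      rw [map_mul, hr2]
    have hinv : ∀ x, θ' (θ x) = x := by
      intro x
      have h1 : ∀ i, (θ'.comp θ) (xl F i) = xl F i := by
        intro a
        show θ' (θ (xl F a)) = xl F a
        rw [homOf_xl, map_add, map_smul, hz2, homOf_xl, add_assoc, ← add_smul]
        have : μ * k a + -μ * k a = 0 := by ring
        rw [this, zero_smul, add_zero]
      exact hom_eq h1 x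
    refine altDecidable_of_strFree hadd hmul f θ θ' hinv (lin l) (strFree_lin' ?_)
      (fun _ => 1) 1 ?_
    · intro h
      apply hl
      exact ⟨0, by rw [h, zero_smul]⟩
    · rw [Finset.sum_range_one, one_smul]
      show θ u = lin l
      rw [e1, map_add, map_smul, map_mul, hr1, hθ1, hk2, mul_one]
      show μ • z + (lin l + -μ • z) = lin l
      rw [neg_smul]
      abel

end

end Pool.Agent.Helper120_Alt
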