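import Pool.Agent.Helper120_Alt.Rev1
import Pool.Agent.Helper120_Alt.Low3

set_option autoImplicit false

/-! Cubic forms. -/

namespace Pool.Agent.Helper120_Alt

noncomputable section

variable {F : Type} [Field F]

/-- values of linear forms -/
def dot (b p : Fin 3 → F) : F := ∑ i, b i * p i

/-- values of bilinear forms -/
def bil (A : Fin 3 → Fin 3 → F) (p q : Fin 3 → F) : F := ∑ i, ∑ j, A i j * (p i * q j)

theorem evL_three (f : List (Fin 3) →₀ F) (p q s : Fin 3 → F) :
    evL F [p, q, s] f = ∑ i, ∑ j, ∑ k, f [i, j, k] * (p i * (q j * s k)) := by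
  induction f using Finsupp.induction_linear with
  | zero => simp
  | add f g hf hg =>
    rw [map_add, hf, hg, ← Finset.sum_add_distrib]
    refine Finset.sum_congr rfl fun i _ => ?_
    rw [← Finset.sum_add_distrib]
    refine Finset.sum_congr rfl fun j _ => ?_
    rw [← Finset.sum_add_distrib]
    refine Finset.sum_congr rfl fun k _ => ?_
    rw [Finsupp.add_apply, add_mul]
  | single W c =>
    rw [evL_single, smul_eq_mul]
    match W with
    | [] => simp [mo]
    | [a] => simp [mo]
    | [a, b] => simp [mo]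
    | [a, b, d] =>
      show c * (p a * (q b * (s d * 1))) = _
      rw [Finset.sum_eq_single a, Finset.sum_eq_single b, Finset.sum_eq_single d]
      · simp
      · intro j _ hj
        rw [Finsupp.single_apply, if_neg (by simpa using fun h => hj h.symm), zero_mul]
      · intro h; exact absurd (Finset.mem_univ _) h
      · intro i _ hi
        refine Finset.sum_eq_zero fun j _ => ?_
        rw [Finsupp.single_apply, if_neg (by simp [Ne.symm hi]), zero_mul]
      · intro h; exact absurd (Finset.mem_univ _) h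
      · intro i _ hi
        refine Finset.sum_eq_zero fun j _ => Finset.sum_eq_zero fun k _ => ?_
        rw [Finsupp.single_apply, if_neg (by simp [Ne.symm hi]), zero_mul]
      · intro h; exact absurd (Finset.mem_univ _) h
    | a :: b :: d :: e :: W => simp [mo]

theorem evL_prod {f : List (Fin 3) →₀ F} {A : Fin 3 → Fin 3 → F} {b : Fin 3 → F}
    (h : ∀ i j k, f [i, j, k] = A i j * b k) (p q s : Fin 3 → F) :
    evL F [p, q, s] f = bil A p q * dot b s := by
  rw [evL_three]
  unfold bil dot
  rw [Finset.sum_mul]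
  refine Finset.sum_congr rfl fun i _ => ?_
  rw [Finset.sum_mul]
  refine Finset.sum_congr rfl fun j _ => ?_
  rw [Finset.mul_sum]
  refine Finset.sum_congr rfl fun k _ => ?_
  rw [h]; ring

theorem bil_add_left (A : Fin 3 → Fin 3 → F) (p p' q : Fin 3 → F) :
    bil A (p + p') q = bil A p q + bil A p' q := by
  unfold bil
  rw [← Finset.sum_add_distrib]
  refine Finset.sum_congr rfl fun i _ => ?_
  rw [← Finset.sum_add_distrib]
  refine Finset.sum_congr rfl fun j _ => ?_
  rw [Pi.add_apply]; ring

theorem bil_add_right (A : Fin 3 → Fin 3 → F) (p q q' : Fin 3 → F) :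
    bil A p (q + q') = bil A p q + bil A p q' := by
  unfold bil
  rw [← Finset.sum_add_distrib]
  refine Finset.sum_congr rfl fun i _ => ?_
  rw [← Finset.sum_add_distrib]
  refine Finset.sum_congr rfl fun j _ => ?_
  rw [Pi.add_apply]; ring

theorem bil_smul_left (A : Fin 3 → Fin 3 → F) (c : F) (p q : Fin 3 → F) :
    bil A (c • p) q = c * bil A p q := by
  unfold bil
  rw [Finset.mul_sum]
  refine Finset.sum_congr rfl fun i _ => ?_
  rw [Finset.mul_sum]
  refine Finset.sum_congr rfl fun j _ => ?_
  rw [Pi.smul_apply, smul_eq_mul]; ring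

theorem bil_smul_right (A : Fin 3 → Fin 3 → F) (c : F) (p q : Fin 3 → F) :
    bil A p (c • q) = c * bil A p q := by
  unfold bil
  rw [Finset.mul_sum]
  refine Finset.sum_congr rfl fun i _ => ?_
  rw [Finset.mul_sum]
  refine Finset.sum_congr rfl fun j _ => ?_
  rw [Pi.smul_apply, smul_eq_mul]; ring

theorem dot_add (b p q : Fin 3 → F) : dot b (p + q) = dot b p + dot b q := by
  unfold dot
  rw [← Finset.sum_add_distrib]
  refine Finset.sum_congr rfl fun i _ => ?_
  rw [Pi.add_apply]; ring

theorem dot_smul (b : Fin 3 → F) (c : F) (p : Fin 3 → F) : dot b (c • p) = c * dot b p := by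
  unfold dot
  rw [Finset.mul_sum]
  refine Finset.sum_congr rfl fun i _ => ?_
  rw [Pi.smul_apply, smul_eq_mul]; ring

theorem dot_sub (b p q : Fin 3 → F) : dot b (p - q) = dot b p - dot b q := by
  unfold dot
  rw [← Finset.sum_sub_distrib]
  refine Finset.sum_congr rfl fun i _ => ?_
  rw [Pi.sub_apply]; ring

theorem dot_single (b : Fin 3 → F) (i : Fin 3) : dot b (Pi.single i 1) = b i := by
  unfold dot
  rw [Finset.sum_eq_single i]
  · simp
  · intro j _ hj
    rw [Pi.single_eq_of_ne hj, mul_zero]
  · intro h; exact absurd (Finset.mem_univ _) h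

theorem bil_single (A : Fin 3 → Fin 3 → F) (i j : Fin 3) :
    bil A (Pi.single i 1) (Pi.single j 1) = A i j := by
  unfold bil
  rw [Finset.sum_eq_single i, Finset.sum_eq_single j]
  · simp
  · intro k _ hk
    rw [Pi.single_eq_of_ne hk]; simp
  · intro h; exact absurd (Finset.mem_univ _) h
  · intro k _ hk
    refine Finset.sum_eq_zero fun l _ => ?_
    rw [Pi.single_eq_of_ne hk]; simp
  · intro h; exact absurd (Finset.mem_univ _) h

/-- dual vectors of independent linear forms -/
theorem dual_vec {r l : Fin 3 → F} {i j : Fin 3} (h : r i * l j ≠ r j * l i) :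
    (∃ g, dot r g = 1 ∧ dot l g = 0) ∧ ∃ g, dot r g = 0 ∧ dot l g = 1 := by
  have hD : r i * l j - r j * l i ≠ 0 := sub_ne_zero.mpr h
  constructor
  · refine ⟨(r i * l j - r j * l i)⁻¹ • (l j • Pi.single i 1 - l i • Pi.single j 1), ?_, ?_⟩
    · rw [dot_smul, dot_sub, dot_smul, dot_smul, dot_single, dot_single]
      have : l j * r i - l i * r j = r i * l j - r j * l i := by ring
      rw [this, inv_mul_cancel₀ hD]
    · rw [dot_smul, dot_sub, dot_smul, dot_smul, dot_single, dot_single]
      ring
  · refine ⟨(r i * l j - r j * l i)⁻¹ • (r i • Pi.single j 1 - r j • Pi.single i 1), ?_, ?_⟩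
    · rw [dot_smul, dot_sub, dot_smul, dot_smul, dot_single, dot_single]
      ring
    · rw [dot_smul, dot_sub, dot_smul, dot_smul, dot_single, dot_single]
      have : r i * l j - r j * l i = r i * l j - r j * l i := rfl
      rw [inv_mul_cancel₀ hD]

theorem seg_three (ε : ℕ → Fin 3 → F) (n : ℕ) : seg ε n (1 + 2) = [ε n, ε (n + 1), ε (n + 2)] := rfl

theorem seg_two (ε : ℕ → Fin 3 → F) (n : ℕ) : seg ε n (1 + 1) = [ε n, ε (n + 1)] := rfl

/-- products of a bilinear and a linear form, first case -/
theorem OT_prod1 {f : List (Fin 3) →₀ F} (hf : Hom 3 f) {A : Fin 3 → Fin 3 → F} {b : Fin 3 → F}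
    (h : ∀ i j k, f [i, j, k] = A i j * b k) {p q : Fin 3 → F} (hp : dot b p = 0)
    (hq : dot b q = 0) (hA : bil A p q ≠ 0) {g : Fin 3 → F} (hg : dot b g ≠ 0) : OT f := by
  have hseq : ∃ ε : ℕ → Fin 3 → F, (∀ n, dot b (ε n) = 0) ∧ ∀ n, bil A (ε n) (ε (n + 1)) ≠ 0 := by
    by_cases h1 : bil A p p = 0
    · by_cases h2 : bil A q q = 0
      · by_cases h3 : bil A q p = 0
        · refine ⟨fun _ => p + q, fun _ => by rw [dot_add, hp, hq, add_zero], fun _ => ?_⟩
          rw [bil_add_left, bil_add_right, bil_add_right, h1, h2, h3]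
          simpa using hA
        · refine ⟨fun n => if Even n then p else q, fun n => ?_, fun n => ?_⟩
          · show dot b (if Even n then p else q) = 0
            split_ifs <;> assumption
          · show bil A (if Even n then p else q) (if Even (n + 1) then p else q) ≠ 0
            by_cases hn : Even n
            · rw [if_pos hn, if_neg (by rw [Nat.even_add_one]; exact not_not.mpr hn)]
              exact hA
            · rw [if_neg hn, if_pos (by rw [Nat.even_add_one]; exact hn)]
              exact h3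
      · exact ⟨fun _ => q, fun _ => hq, fun _ => h2⟩
    · exact ⟨fun _ => p, fun _ => hp, fun _ => h1⟩
  obtain ⟨ε, h1, h2⟩ := hseq
  refine OT_of_path (e := 1) hf fun N => ⟨ε, ?_⟩
  apply path_of_ev hf
  intro n _
  rw [seg_three, seg_two]
  refine ⟨?_, g, ?_⟩
  · rw [evL_prod h, h1, mul_zero]
  · show evL F [ε n, ε (n + 1), g] f ≠ 0
    rw [evL_prod h]
    exact mul_ne_zero (h2 n) hg

/-- products of a bilinear and a linear form, second case -/
theorem OT_prod2 {f : List (Fin 3) →₀ F} (hf : Hom 3 f) {b r s : Fin 3 → F}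
    (h : ∀ i j k, f [i, j, k] = (b i * r j + s i * b j) * b k) {i j : Fin 3}
    (hbs : b i * s j ≠ b j * s i) : OT f := by
  obtain ⟨⟨g, hg1, hg2⟩, l, hl1, hl2⟩ := dual_vec hbs
  apply OT_rv
  have hf' : Hom 3 (rv F f) := by
    intro W hW
    rw [rv_apply] at hW
    have := hf _ hW
    simpa using this
  have hev : ∀ p q t : Fin 3 → F, evL F [p, q, t] (rv F f) =
      dot b p * (dot b t * dot r q + dot s t * dot b q) := by
    intro p q t
    rw [evL_three]
    have e : ∀ i j k, rv F f [i, j, k] = (b k * r j + s k * b j) * b i := by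
      intro i j k
      rw [rv_apply]
      exact h k j i
    simp only [e]
    unfold dot
    simp only [Fin.sum_univ_three]
    ring
  let ε : ℕ → Fin 3 → F := fun n => Nat.rec g (fun _ v => g - dot r v • l) n
  have e0 : ∀ n, dot b (ε n) = 1 := by
    intro n
    cases n with
    | zero => exact hg1
    | succ n =>
      show dot b (g - dot r (ε n) • l) = 1
      rw [dot_sub, dot_smul, hg1, hl1, mul_zero, sub_zero]
  have e1 : ∀ n, dot s (ε (n + 1)) = -dot r (ε n) := by
    intro n
    show dot s (g - dot r (ε n) • l) = _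
    rw [dot_sub, dot_smul, hg2, hl2, mul_one, zero_sub]
  clear_value ε
  refine OT_of_path (e := 1) hf' fun N => ⟨ε, ?_⟩
  apply path_of_ev hf'
  intro n _
  rw [seg_three, seg_two]
  refine ⟨?_, l, ?_⟩
  · rw [hev, e0 n, e0 (n + 1), e0 (n + 2), e1 (n + 1)]; ring
  · show evL F [ε n, ε (n + 1), l] (rv F f) ≠ 0
    rw [hev, e0 n, e0 (n + 1), hl1, hl2]
    simp

/-- products of a bilinear and a linear form -/
theorem OT_prod {f : List (Fin 3) →₀ F} (hf : Hom 3 f) (hf0 : f ≠ 0)
    {A : Fin 3 → Fin 3 → F} {b : Fin 3 → F} (h : ∀ i j k, f [i, j, k] = A i j * b k)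
    (hb : ¬ ∃ c m : Fin 3 → F, ∀ i j k, f [i, j, k] = c i * m j * c k) : OT f := by
  have hb0 : ∃ m, b m ≠ 0 := by
    by_contra h0
    push Not at h0
    apply hf0
    ext W
    by_contra h1
    have h2 := hf W h1
    match W, h2 with
    | [i, j, k], _ =>
      apply h1
      rw [h, h0, mul_zero]
      rfl
  obtain ⟨m, hm⟩ := hb0
  have hg : dot b (Pi.single m 1) ≠ 0 := by rw [dot_single]; exact hm
  by_cases hA : ∃ p q, dot b p = 0 ∧ dot b q = 0 ∧ bil A p q ≠ 0
  · obtain ⟨p, q, hp, hq, hA⟩ := hA
    exact OT_prod1 hf h hp hq hA hg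
  push Not at hA
  -- the vector with value one
  let g : Fin 3 → F := (b m)⁻¹ • Pi.single m 1
  have hg1 : dot b g = 1 := by
    show dot b ((b m)⁻¹ • Pi.single m 1) = 1
    rw [dot_smul, dot_single, inv_mul_cancel₀ hm]
  clear_value g
  let r : Fin 3 → F := fun j => bil A g (Pi.single j 1) - bil A g g * b j
  let s : Fin 3 → F := fun i => bil A (Pi.single i 1) g
  have hAe : ∀ i j, A i j = b i * r j + s i * b j := by
    intro i j
    have h1 : dot b (Pi.single i 1 - b i • g) = 0 := by
      rw [dot_sub, dot_smul, dot_single, hg1]; ring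
    have h2 : dot b (Pi.single j 1 - b j • g) = 0 := by
      rw [dot_sub, dot_smul, dot_single, hg1]; ring
    have h3 := hA _ _ h1 h2
    have e1 : ∀ p q : Fin 3 → F, p - q = p + (-1 : F) • q := by
      intro p q; rw [neg_smul, one_smul, sub_eq_add_neg]
    rw [e1, e1, bil_add_left, bil_add_right, bil_add_right, bil_smul_left, bil_smul_left,
      bil_smul_left, bil_smul_left, bil_smul_right, bil_smul_right, bil_smul_right,
      bil_smul_right, bil_single] at h3
    show A i j = b i * (bil A g (Pi.single j 1) - bil A g g * b j) +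
      bil A (Pi.single i 1) g * b j
    linear_combination h3
  have h' : ∀ i j k, f [i, j, k] = (b i * r j + s i * b j) * b k := by
    intro i j k
    rw [h, hAe]
  by_cases hs : ∃ i j, b i * s j ≠ b j * s i
  · obtain ⟨i, j, hij⟩ := hs
    exact OT_prod2 hf h' hij
  push Not at hs
  exfalso
  apply hb
  refine ⟨b, fun j => r j + s m * (b m)⁻¹ * b j, fun i j k => ?_⟩
  rw [h']
  have h1 : s i = b i * (s m * (b m)⁻¹) := by
    have := hs i m
    field_simp
    linear_combination -this
  rw [h1]; ring

end

end Pool.Agent.Helper120_Alt
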