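import Pool.Agent.Helper120_Alt.Cub1

set_option autoImplicit false

/-! Cubic tops that are not of the form `ac = cb` are strongly free. -/

namespace Pool.Agent.Helper120_Alt

noncomputable section

variable {F : Type} [Field F]

/-- spaces of matrices of rank at most one -/
theorem rank_one_pencil {C : Fin 3 → Fin 3 → Fin 3 → F} {i0 j0 k0 : Fin 3}
    (hC : C i0 j0 k0 ≠ 0)
    (H1 : ∀ i i' j k k', C i j k * C i' j k' = C i j k' * C i' j k)
    (H2 : ∀ i i' j l k k', C i j k * C i' l k' + C i l k * C i' j k' =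
      C i j k' * C i' l k + C i l k' * C i' j k) :
    (∃ (A : Fin 3 → Fin 3 → F) (b : Fin 3 → F), ∀ i j k, C i j k = A i j * b k) ∨
      ∃ (a : Fin 3 → F) (B : Fin 3 → Fin 3 → F), ∀ i j k, C i j k = a i * B j k := by
  obtain ⟨g, hg⟩ : ∃ g, g = C i0 j0 k0 := ⟨_, rfl⟩
  obtain ⟨a, ha⟩ : ∃ a : Fin 3 → F, ∀ i, a i = C i j0 k0 := ⟨fun i => C i j0 k0, fun _ => rfl⟩
  obtain ⟨b, hb⟩ : ∃ b : Fin 3 → F, ∀ k, b k = C i0 j0 k := ⟨fun k => C i0 j0 k, fun _ => rfl⟩
  obtain ⟨α, hα⟩ : ∃ α : Fin 3 → Fin 3 → F, ∀ j i, α j i = C i j k0 :=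
    ⟨fun j i => C i j k0, fun _ _ => rfl⟩
  obtain ⟨β, hβ⟩ : ∃ β : Fin 3 → Fin 3 → F, ∀ j k, β j k = g * C i0 j k - b k * C i0 j k0 :=
    ⟨fun j k => g * C i0 j k - b k * C i0 j k0, fun _ _ => rfl⟩
  have hg0 : g ≠ 0 := by rw [hg]; exact hC
  have E : ∀ i j k, g ^ 2 * C i j k = g * α j i * b k + a i * β j k := by
    intro i j k
    have h2 := H2 i i0 j j0 k k0
    have h1 := H1 i i0 j0 k k0
    rw [hα, hβ, ha, hb]
    rw [← hg] at h1 h2
    linear_combination g * h2 - C i0 j k0 * h1
  by_cases hA : ∀ j i i', α j i * a i' = α j i' * a i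
  · right
    refine ⟨a, fun j k => (α j i0 * b k + β j k) / g ^ 2, fun i j k => ?_⟩
    have h1 := hA j i i0
    have h2 : a i0 = g := by rw [ha, hg]
    rw [h2] at h1
    have h3 := E i j k
    field_simp
    linear_combination h3 + b k * h1
  · left
    push Not at hA
    obtain ⟨j1, i1, i2, hd⟩ := hA
    have hd' : α j1 i1 * a i2 - α j1 i2 * a i1 ≠ 0 := sub_ne_zero.mpr hd
    have hb1 : ∀ k, β j1 k = 0 := by
      intro k
      have h1 := H1 i1 i2 j1 k k0
      have h2 := E i1 j1 k
      have h3 := E i2 j1 k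
      rw [← hα, ← hα] at h1
      have h4 : (α j1 i1 * a i2 - α j1 i2 * a i1) * β j1 k = 0 := by
        linear_combination -g ^ 2 * h1 + α j1 i2 * h2 - α j1 i1 * h3
      exact (mul_eq_zero.mp h4).resolve_left hd'
    have hbl : ∀ l k, β l k = 0 := by
      intro l k
      have h1 := H2 i1 i2 j1 l k k0
      have h2 := E i1 j1 k
      have h3 := E i2 j1 k
      have h5 := E i1 l k
      have h6 := E i2 l k
      rw [hb1 k] at h2 h3
      rw [← hα, ← hα, ← hα, ← hα] at h1
      have h4 : (α j1 i1 * a i2 - α j1 i2 * a i1) * β l k = 0 := by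
        linear_combination -g ^ 2 * h1 + α l i2 * h2 - α l i1 * h3 + α j1 i2 * h5 -
          α j1 i1 * h6
      exact (mul_eq_zero.mp h4).resolve_left hd'
    refine ⟨fun i j => α j i / g, b, fun i j k => ?_⟩
    have h3 := E i j k
    rw [hbl] at h3
    field_simp
    apply mul_left_cancel₀ hg0
    linear_combination h3

theorem mev_evL (u : AS F (Fin 3)) (l : List (Fin 3 → F)) : mev u l = evL F l (cof u) := by
  unfold mev evL
  rw [Finsupp.linearCombination_apply]
  rfl

theorem evL_basis (f : List (Fin 3) →₀ F) (w : Fin 3 → F) (i k : Fin 3) :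
    evL F [Pi.single i 1, w, Pi.single k 1] f = dot (fun j => f [i, j, k]) w := by
  rw [evL_three, Finset.sum_eq_single i]
  · unfold dot
    refine Finset.sum_congr rfl fun j _ => ?_
    rw [Finset.sum_eq_single k]
    · simp
    · intro m _ hm
      rw [Pi.single_eq_of_ne hm]; simp
    · intro h; exact absurd (Finset.mem_univ _) h
  · intro m _ hm
    refine Finset.sum_eq_zero fun j _ => Finset.sum_eq_zero fun l _ => ?_
    rw [Pi.single_eq_of_ne hm]; simp
  · intro h; exact absurd (Finset.mem_univ _) h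

/-- elements of degree three whose top component is not of the form `ac = cb` -/
theorem strFree_cubic {u : AS F (Fin 3)} (hu : ∀ W, cof u W ≠ 0 → W.length ≤ 3)
    (h3 : ∃ i j k, cof u [i, j, k] ≠ 0)
    (hb : ¬ ∃ c m : Fin 3 → F, ∀ i j k, cof u [i, j, k] = c i * m j * c k) : StrFree u := by
  obtain ⟨i0, j0, k0, h0⟩ := h3
  by_cases H1 : ∀ i i' j k k', cof u [i, j, k] * cof u [i', j, k'] =
      cof u [i, j, k'] * cof u [i', j, k]
  swap
  · push Not at H1
    obtain ⟨i, i', j, k, k', h⟩ := H1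
    apply strFree_of_endRank
    refine ⟨F, inferInstance, inferInstance, [Pi.single j 1], Pi.single i 1, Pi.single i' 1,
      Pi.single k 1, Pi.single k' 1, hu, ?_⟩
    show mev u [Pi.single i 1, Pi.single j 1, Pi.single k 1] *
        mev u [Pi.single i' 1, Pi.single j 1, Pi.single k' 1] ≠
      mev u [Pi.single i 1, Pi.single j 1, Pi.single k' 1] *
        mev u [Pi.single i' 1, Pi.single j 1, Pi.single k 1]
    rw [mev_evL, mev_evL, mev_evL, mev_evL, evL_basis, evL_basis, evL_basis, evL_basis,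
      dot_single, dot_single, dot_single, dot_single]
    exact h
  by_cases H2 : ∀ i i' j l k k', cof u [i, j, k] * cof u [i', l, k'] +
      cof u [i, l, k] * cof u [i', j, k'] =
      cof u [i, j, k'] * cof u [i', l, k] + cof u [i, l, k'] * cof u [i', j, k]
  swap
  · push Not at H2
    obtain ⟨i, i', j, l, k, k', h⟩ := H2
    apply strFree_of_endRank
    refine ⟨F, inferInstance, inferInstance, [Pi.single j 1 + Pi.single l 1], Pi.single i 1,
      Pi.single i' 1, Pi.single k 1, Pi.single k' 1, hu, ?_⟩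
    show mev u [Pi.single i 1, Pi.single j 1 + Pi.single l 1, Pi.single k 1] *
        mev u [Pi.single i' 1, Pi.single j 1 + Pi.single l 1, Pi.single k' 1] ≠
      mev u [Pi.single i 1, Pi.single j 1 + Pi.single l 1, Pi.single k' 1] *
        mev u [Pi.single i' 1, Pi.single j 1 + Pi.single l 1, Pi.single k 1]
    rw [mev_evL, mev_evL, mev_evL, mev_evL, evL_basis, evL_basis, evL_basis, evL_basis,
      dot_add, dot_add, dot_add, dot_add]
    simp only [dot_single]
    intro h5
    apply h
    have h6 := H1 i i' j k k'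
    have h7 := H1 i i' l k k'
    linear_combination h5 - h6 - h7
  refine strFree_of_OT (D := 3) hu ?_
  have hf : Hom 3 (tp 3 (cof u)) := tp_hom 3 (cof u)
  have e : ∀ i j k, tp 3 (cof u) [i, j, k] = cof u [i, j, k] := by
    intro i j k
    exact Finsupp.filter_apply_pos (fun W : List (Fin 3) => W.length = 3) _ rfl
  have hne : tp 3 (cof u) ≠ 0 := by
    intro h
    apply h0
    rw [← e, h]
    rfl
  have hb' : ¬ ∃ c m : Fin 3 → F, ∀ i j k, tp 3 (cof u) [i, j, k] = c i * m j * c k := by
    rintro ⟨c, m, h⟩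
    exact hb ⟨c, m, fun i j k => by rw [← e, h]⟩
  rcases rank_one_pencil h0 H1 H2 with ⟨A, b, h⟩ | ⟨a, B, h⟩
  · exact OT_prod hf hne (A := A) (b := b) (fun i j k => by rw [e, h]) hb'
  · apply OT_rv
    have hf' : Hom 3 (rv F (tp 3 (cof u))) := by
      intro W hW
      rw [rv_apply] at hW
      have := hf _ hW
      simpa using this
    refine OT_prod hf' ?_ (A := fun i j => B j i) (b := a) ?_ ?_
    · intro h1
      apply hne
      rw [← rv_rv (tp 3 (cof u)), h1, map_zero]
    · intro i j k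
      rw [rv_apply]
      show tp 3 (cof u) [k, j, i] = _
      rw [e, h, mul_comm]
    · rintro ⟨c, m, h1⟩
      apply hb'
      refine ⟨c, m, fun i j k => ?_⟩
      have h2 := h1 k j i
      rw [rv_apply] at h2
      have h3 : tp 3 (cof u) [i, j, k] = c k * m j * c i := h2
      rw [h3]; ring

end

end Pool.Agent.Helper120_Alt
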