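import Mathlib

set_option autoImplicit false

/-! Definitions: nonassociative and associative polynomials, ideals, word problems. -/

namespace Pool.Agent.Helper120_Alt

/-- Nonassociative polynomials without constant term over `F` in the letters `X`. -/
abbrev NA (F X : Type) [Field F] : Type := MonoidAlgebra F (FreeMagma X)

/-- Associative noncommutative polynomials without constant term over `F` in the letters `X`. -/
abbrev AS (F X : Type) [Field F] : Type := MonoidAlgebra F (FreeSemigroup X)

/-- The two-sided ideal (of a not necessarily associative algebra) generated by a set `S`. -/
noncomputable def idl (F : Type) {A : Type} [Field F] [NonUnitalNonAssocRing A] [Module F A] (S : Set A) :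
    Submodule F A :=
  sInf {I : Submodule F A | S ⊆ I ∧ ∀ a : A, ∀ x ∈ I, a * x ∈ I ∧ x * a ∈ I}

/-- The left sides of the alternative laws `(aa)b - a(ab) = 0` and `(ba)a - b(aa) = 0`. -/
noncomputable def alts (F X : Type) [Field F] : Set (NA F X) :=
  {p | ∃ a b : NA F X, p = (a * a) * b - a * (a * b) ∨ p = (b * a) * a - b * (a * a)}

/-- The kernel of the canonical map from the nonassociative polynomials onto the alternative
algebra with generators `X` and defining relations `p = 0`, for `p` in `E`. -/
noncomputable def altIdeal (F X : Type) [Field F] (E : Set (NA F X)) : Submodule F (NA F X) :=
  idl F (alts F X ∪ E)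

/-- The value of a list of coefficients and monomials: the sum of the terms. -/
noncomputable def val {F M : Type} [Field F] (L : List (F × M)) : MonoidAlgebra F M :=
  (L.map fun p => MonoidAlgebra.single p.2 p.1).sum

/-- A nonassociative monomial written in Polish notation; `none` stands for the product. -/
def pol {X : Type} : FreeMagma X → List (Option X)
  | FreeMagma.of x => [some x]
  | FreeMagma.mul a b => none :: (pol a ++ pol b)

/-- The word problem for the alternative algebra with generators `X` and relators `E` is
decidable: a computable function, given the list of the coefficients and of the monomials (in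
Polish notation) of a polynomial, tells whether the polynomial is zero in this algebra. -/
def AltDecidable (F X : Type) [Field F] [Primcodable F] [Primcodable X] (E : Set (NA F X)) :
    Prop :=
  ∃ d : List (F × List (Option X)) → Bool, Computable d ∧
    ∀ L : List (F × FreeMagma X),
      d (L.map fun p => (p.1, pol p.2)) = true ↔ val L ∈ altIdeal F X E

/-- The word problem for the associative algebra with generators `X` and relators `E` is
decidable; monomials are given as lists of letters. -/
def AssDecidable (F X : Type) [Field F] [Primcodable F] [Primcodable X] (E : Set (AS F X)) :
    Prop :=
  ∃ d : List (F × List X) → Bool, Computable d ∧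
    ∀ L : List (F × FreeSemigroup X),
      d (L.map fun p => (p.1, p.2.head :: p.2.tail)) = true ↔ val L ∈ idl F E

end Pool.Agent.Helper120_Alt
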