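import Pool.Agent.Helper120_Alt.GbDefs
import Pool.Agent.Helper120_Alt.R3.Lin3
import Pool.Agent.Helper120_Alt.Comp1

set_option autoImplicit false

/-! Finite Groebner bases give finitely generated syzygies. -/

namespace Pool.Agent.Helper120_Alt

noncomputable section

variable {F X : Type} [Field F]

/-- multiplication of combinations of words by words -/
def shW (F : Type) {X : Type} [Field F] (A B : List X) : (List X →₀ F) →ₗ[F] (List X →₀ F) :=
  Finsupp.lmapDomain F F fun W => A ++ W ++ B

theorem shW_single (A B W : List X) (c : F) :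
    shW F A B (Finsupp.single W c) = Finsupp.single (A ++ W ++ B) c := Finsupp.mapDomain_single

theorem shW_shW (A B A' B' : List X) (w : List X →₀ F) :
    shW F A B (shW F A' B' w) = shW F (A ++ A') (B' ++ B) w := by
  unfold shW
  rw [Finsupp.lmapDomain_apply, Finsupp.lmapDomain_apply, Finsupp.lmapDomain_apply,
    ← Finsupp.mapDomain_comp]
  congr 1
  funext W
  simp

theorem shW_inj (A B : List X) : Function.Injective (fun W : List X => A ++ W ++ B) := by
  intro a b hab
  simpa using hab

theorem shW_apply (A B W : List X) (w : List X →₀ F) : shW F A B w (A ++ W ++ B) = w W :=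
  Finsupp.mapDomain_apply (shW_inj A B) w W

theorem shW_ne (A B Z : List X) (w : List X →₀ F) (h : shW F A B w Z ≠ 0) :
    ∃ W, Z = A ++ W ++ B ∧ w W ≠ 0 := by
  by_cases hr : Z ∈ Set.range (fun W : List X => A ++ W ++ B)
  · obtain ⟨W, rfl⟩ := hr
    exact ⟨W, rfl, by rwa [shW_apply] at h⟩
  · exact absurd (Finsupp.mapDomain_of_notMem_range _ _ hr) h

/-- `syv` as a linear map -/
def syvL (u : AS F X) : ((List X × List X) →₀ F) →ₗ[F] (List X →₀ F) :=
  Finsupp.linearCombination F fun x => shW F x.1 x.2 (cof u)

theorem syvL_apply (u : AS F X) (s : (List X × List X) →₀ F) : syvL u s = syv u s := rfl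

/-- `shf` as a linear map -/
def shL (F : Type) {X : Type} [Field F] (A B : List X) :
    ((List X × List X) →₀ F) →ₗ[F] ((List X × List X) →₀ F) :=
  Finsupp.lmapDomain F F fun x => (A ++ x.1, x.2 ++ B)

theorem shL_apply (A B : List X) (s : (List X × List X) →₀ F) : shL F A B s = shf A B s := rfl

theorem shL_single (A B P Q : List X) (c : F) :
    shL F A B (Finsupp.single (P, Q) c) = Finsupp.single (A ++ P, Q ++ B) c :=
  Finsupp.mapDomain_single

theorem shL_shL (A B A' B' : List X) (s : (List X × List X) →₀ F) :
    shL F A B (shL F A' B' s) = shL F (A ++ A') (B' ++ B) s := by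
  unfold shL
  rw [Finsupp.lmapDomain_apply, Finsupp.lmapDomain_apply, Finsupp.lmapDomain_apply,
    ← Finsupp.mapDomain_comp]
  congr 1
  funext x
  simp

theorem shL_nil (s : (List X × List X) →₀ F) : shL F [] [] s = s := by
  unfold shL
  rw [Finsupp.lmapDomain_apply]
  have : (fun x : List X × List X => (([] : List X) ++ x.1, x.2 ++ ([] : List X))) = id := by
    funext x; simp
  rw [this, Finsupp.mapDomain_id]

theorem syvL_single (u : AS F X) (P Q : List X) (c : F) :
    syvL u (Finsupp.single (P, Q) c) = c • shW F P Q (cof u) := by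
  unfold syvL
  rw [Finsupp.linearCombination_single]

theorem syvL_shL (u : AS F X) (A B : List X) (s : (List X × List X) →₀ F) :
    syvL u (shL F A B s) = shW F A B (syvL u s) := by
  induction s using Finsupp.induction_linear with
  | zero => simp
  | add s t hs ht => rw [map_add, map_add, map_add, map_add, hs, ht]
  | single x c =>
    obtain ⟨P, Q⟩ := x
    rw [shL_single, syvL_single, syvL_single, map_smul, shW_shW]

theorem tsy_eq (u : AS F X) (P V Q : List X) : tsy u P V Q =
    Finsupp.linearCombination F (fun W => Finsupp.single (P, V ++ W ++ Q) (1 : F) -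
      Finsupp.single (P ++ W ++ V, Q) 1) (cof u) := rfl

theorem shL_tsy (u : AS F X) (A B P V Q : List X) :
    shL F A B (tsy u P V Q) = tsy u (A ++ P) V (Q ++ B) := by
  rw [tsy_eq, tsy_eq, Finsupp.linearCombination_apply, Finsupp.linearCombination_apply,
    Finsupp.sum, map_sum, Finsupp.sum]
  refine Finset.sum_congr rfl fun W _ => ?_
  rw [map_smul, map_sub, shL_single, shL_single]
  simp

theorem syvL_tsy (u : AS F X) (P V Q : List X) : syvL u (tsy u P V Q) = 0 := by
  rw [tsy_eq, Finsupp.linearCombination_apply, Finsupp.sum, map_sum]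
  have h1 : ∀ W, syvL u (cof u W • (Finsupp.single (P, V ++ W ++ Q) (1 : F) -
      Finsupp.single (P ++ W ++ V, Q) 1)) =
      cof u W • shW F P (V ++ W ++ Q) (cof u) - cof u W • shW F (P ++ W ++ V) Q (cof u) := by
    intro W
    rw [map_smul, map_sub, syvL_single, syvL_single, one_smul, one_smul, smul_sub]
  rw [Finset.sum_congr rfl fun W _ => h1 W, Finset.sum_sub_distrib, sub_eq_zero]
  have e1 : ∀ W, shW F P (V ++ W ++ Q) (cof u) =
      ∑ W' ∈ (cof u).support, cof u W' • Finsupp.single (P ++ W' ++ (V ++ W ++ Q)) 1 := by
    intro W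
    conv_lhs => rw [← Finsupp.sum_single (cof u)]
    rw [Finsupp.sum, map_sum]
    refine Finset.sum_congr rfl fun W' _ => ?_
    rw [shW_single, Finsupp.smul_single, smul_eq_mul, mul_one]
  have e2 : ∀ W, shW F (P ++ W ++ V) Q (cof u) =
      ∑ W' ∈ (cof u).support, cof u W' • Finsupp.single (P ++ W ++ V ++ W' ++ Q) 1 := by
    intro W
    conv_lhs => rw [← Finsupp.sum_single (cof u)]
    rw [Finsupp.sum, map_sum]
    refine Finset.sum_congr rfl fun W' _ => ?_
    rw [shW_single, Finsupp.smul_single, smul_eq_mul, mul_one]
  simp only [e1, e2, Finset.smul_sum]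
  rw [Finset.sum_comm]
  refine Finset.sum_congr rfl fun W _ => Finset.sum_congr rfl fun W' _ => ?_
  rw [smul_comm]
  simp

/-- the span of the trivial syzygies -/
def Tr (u : AS F X) : Submodule F ((List X × List X) →₀ F) :=
  Submodule.span F {t | ∃ P V Q : List X, t = tsy u P V Q}

/-- products of values and formal sums -/
def prL (V : List X) (w : List X →₀ F) (t : (List X × List X) →₀ F) :
    (List X × List X) →₀ F := w.sum fun W c => c • shL F (W ++ V) [] t

/-- products of formal sums and values -/
def prR (V : List X) (s : (List X × List X) →₀ F) (w : List X →₀ F) :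
    (List X × List X) →₀ F := w.sum fun W c => c • shL F [] (V ++ W) s

theorem prL_add (V : List X) (w w' : List X →₀ F) (t : (List X × List X) →₀ F) :
    prL V (w + w') t = prL V w t + prL V w' t :=
  Finsupp.sum_add_index' (by intro; exact zero_smul _ _) (by intro a b c; exact add_smul _ _ _)

theorem prL_smul (V : List X) (c : F) (w : List X →₀ F) (t : (List X × List X) →₀ F) :
    prL V (c • w) t = c • prL V w t := by
  unfold prL
  rw [Finsupp.sum_smul_index (by intro; exact zero_smul _ _), Finsupp.smul_sum]
  simp only [mul_smul]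

theorem prL_add' (V : List X) (w : List X →₀ F) (t t' : (List X × List X) →₀ F) :
    prL V w (t + t') = prL V w t + prL V w t' := by
  unfold prL
  rw [Finsupp.sum, Finsupp.sum, Finsupp.sum, ← Finset.sum_add_distrib]
  simp only [map_add, smul_add]

theorem prR_add (V : List X) (w w' : List X →₀ F) (t : (List X × List X) →₀ F) :
    prR V t (w + w') = prR V t w + prR V t w' :=
  Finsupp.sum_add_index' (by intro; exact zero_smul _ _) (by intro a b c; exact add_smul _ _ _)

theorem prR_smul (V : List X) (c : F) (w : List X →₀ F) (t : (List X × List X) →₀ F) :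
    prR V t (c • w) = c • prR V t w := by
  unfold prR
  rw [Finsupp.sum_smul_index (by intro; exact zero_smul _ _), Finsupp.smul_sum]
  simp only [mul_smul]

theorem prR_add' (V : List X) (w : List X →₀ F) (t t' : (List X × List X) →₀ F) :
    prR V (t + t') w = prR V t w + prR V t' w := by
  unfold prR
  rw [Finsupp.sum, Finsupp.sum, Finsupp.sum, ← Finset.sum_add_distrib]
  simp only [map_add, smul_add]

theorem disj (u : AS F X) (V : List X) (s t : (List X × List X) →₀ F) :
    prL V (syvL u s) t - prR V s (syvL u t) ∈ Tr u := by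
  induction s using Finsupp.induction_linear with
  | zero => simp [prL, prR]
  | add s s' hs hs' =>
    rw [map_add, prL_add, prR_add', add_sub_add_comm]
    exact Submodule.add_mem _ hs hs'
  | single x c =>
    obtain ⟨P, Q⟩ := x
    induction t using Finsupp.induction_linear with
    | zero => simp [prL, prR]
    | add t t' ht ht' =>
      rw [map_add, prL_add', prR_add, add_sub_add_comm]
      exact Submodule.add_mem _ ht ht'
    | single y d =>
      obtain ⟨P', Q'⟩ := y
      rw [syvL_single, syvL_single, prL_smul, prR_smul]
      have e1 : prL V (shW F P Q (cof u)) (Finsupp.single (P', Q') d) =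
          (cof u).sum fun W c => c • Finsupp.single (P ++ W ++ (Q ++ V ++ P'), Q') d := by
        unfold prL shW
        rw [Finsupp.lmapDomain_apply, Finsupp.sum_mapDomain_index (by intro; exact zero_smul _ _)
          (by intro a b c; exact add_smul _ _ _)]
        refine Finsupp.sum_congr fun W _ => ?_
        rw [shL_single]; simp
      have e2 : prR V (Finsupp.single (P, Q) c) (shW F P' Q' (cof u)) =
          (cof u).sum fun W d => d • Finsupp.single (P, (Q ++ V ++ P') ++ W ++ Q') c := by
        unfold prR shW
        rw [Finsupp.lmapDomain_apply, Finsupp.sum_mapDomain_index (by intro; exact zero_smul _ _)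
          (by intro a b c; exact add_smul _ _ _)]
        refine Finsupp.sum_congr fun W _ => ?_
        rw [shL_single]; simp
      have e3 : c • prL V (shW F P Q (cof u)) (Finsupp.single (P', Q') d) -
          d • prR V (Finsupp.single (P, Q) c) (shW F P' Q' (cof u)) =
          -((c * d) • tsy u P (Q ++ V ++ P') Q') := by
        rw [e1, e2]
        unfold tsy
        rw [Finsupp.sum, Finsupp.sum, Finsupp.sum, Finset.smul_sum, Finset.smul_sum,
          Finset.smul_sum, ← Finset.sum_sub_distrib, ← Finset.sum_neg_distrib]
        refine Finset.sum_congr rfl fun W _ => ?_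
        simp only [Finsupp.smul_single, smul_eq_mul, smul_sub, mul_one]
        rw [neg_sub]
        congr 2 <;> ring
      rw [e3]
      exact Submodule.neg_mem _ (Submodule.smul_mem _ _
        (Submodule.subset_span ⟨_, _, _, rfl⟩))

theorem Tr_sh (u : AS F X) (A B : List X) {s : (List X × List X) →₀ F} (hs : s ∈ Tr u) :
    shL F A B s ∈ Tr u := by
  have : Tr u ≤ (Tr u).comap (shL F A B) := by
    unfold Tr
    rw [Submodule.span_le]
    rintro _ ⟨P, V, Q, rfl⟩
    show shL F A B (tsy u P V Q) ∈ Submodule.span F {t | ∃ P V Q : List X, t = tsy u P V Q}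
    rw [shL_tsy]
    exact Submodule.subset_span ⟨_, _, _, rfl⟩
  exact this hs

end

end Pool.Agent.Helper120_Alt
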