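import Pool.Agent.Helper120_Alt.Gb1

set_option autoImplicit false

/-! Finite Groebner bases give finitely generated syzygies: the main argument. -/

namespace Pool.Agent.Helper120_Alt

noncomputable section

variable {F X : Type} [Field F]

/-- lifts of the elements of a Groebner basis -/
structure GBd (u : AS F X) (lt : List X → List X → Prop) (S : Finset (List X))
    (γ : List X → ((List X × List X) →₀ F)) : Prop where
  wf : WellFounded lt
  comp : ∀ a b c d : List X, lt a b → lt (c ++ a ++ d) (c ++ b ++ d)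
  one : ∀ T ∈ S, syvL u (γ T) T = 1
  low : ∀ T ∈ S, ∀ W, syvL u (γ T) W ≠ 0 → W ≠ T → lt W T
  red : ∀ s T, syvL u s T ≠ 0 → (∀ W, syvL u s W ≠ 0 → W ≠ T → lt W T) → ∃ T' ∈ S, T' <:+: T

/-- multiples of the lifts with smaller leading word -/
def Nlt (F : Type) {X : Type} [Field F] (lt : List X → List X → Prop) (S : Finset (List X))
    (γ : List X → ((List X × List X) →₀ F)) (Z : List X) : Submodule F ((List X × List X) →₀ F) :=
  Submodule.span F {s | ∃ T ∈ S, ∃ A B : List X, lt (A ++ T ++ B) Z ∧ s = shL F A B (γ T)}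

/-- all multiples of the lifts -/
def Nal (F : Type) {X : Type} [Field F] (S : Finset (List X))
    (γ : List X → ((List X × List X) →₀ F)) : Submodule F ((List X × List X) →₀ F) :=
  Submodule.span F {s | ∃ T ∈ S, ∃ A B : List X, s = shL F A B (γ T)}

variable {u : AS F X} {lt : List X → List X → Prop} {S : Finset (List X)}
  {γ : List X → ((List X × List X) →₀ F)}

theorem Nlt_le (Z : List X) : Nlt F lt S γ Z ≤ Nal F S γ := by
  apply Submodule.span_mono
  rintro s ⟨T, hT, A, B, _, rfl⟩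
  exact ⟨T, hT, A, B, rfl⟩

theorem Nlt_mono [IsStrictTotalOrder (List X) lt] {Z Z' : List X} (h : lt Z Z') :
    Nlt F lt S γ Z ≤ Nlt F lt S γ Z' := by
  apply Submodule.span_mono
  rintro s ⟨T, hT, A, B, h1, rfl⟩
  exact ⟨T, hT, A, B, _root_.trans (r := lt) h1 h, rfl⟩

theorem Nlt_sh (h : GBd u lt S γ) (A B Z : List X) {s : (List X × List X) →₀ F}
    (hs : s ∈ Nlt F lt S γ Z) : shL F A B s ∈ Nlt F lt S γ (A ++ Z ++ B) := by
  have : Nlt F lt S γ Z ≤ (Nlt F lt S γ (A ++ Z ++ B)).comap (shL F A B) := by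
    unfold Nlt
    rw [Submodule.span_le]
    rintro s ⟨T, hT, A', B', h1, rfl⟩
    apply Submodule.subset_span
    refine ⟨T, hT, A ++ A', B' ++ B, ?_, shL_shL _ _ _ _ _⟩
    have := h.comp _ _ A B h1
    simpa using this
  exact this hs

theorem Nal_sh (A B : List X) {s : (List X × List X) →₀ F}
    (hs : s ∈ Nal F S γ) : shL F A B s ∈ Nal F S γ := by
  have : Nal F S γ ≤ (Nal F S γ).comap (shL F A B) := by
    unfold Nal
    rw [Submodule.span_le]
    rintro s ⟨T, hT, A', B', rfl⟩
    apply Submodule.subset_span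
    exact ⟨T, hT, A ++ A', B' ++ B, shL_shL _ _ _ _ _⟩
  exact this hs

theorem g1 (h : GBd u lt S γ) {T : List X} (hT : T ∈ S) (A B : List X) :
    syvL u (shL F A B (γ T)) (A ++ T ++ B) = 1 := by
  rw [syvL_shL, shW_apply, h.one T hT]

theorem g2 (h : GBd u lt S γ) {T : List X} (hT : T ∈ S) (A B W : List X)
    (hW : syvL u (shL F A B (γ T)) W ≠ 0) (hne : W ≠ A ++ T ++ B) : lt W (A ++ T ++ B) := by
  rw [syvL_shL] at hW
  obtain ⟨W', rfl, h1⟩ := shW_ne _ _ _ _ hW
  apply h.comp
  apply h.low T hT W' h1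
  rintro rfl
  exact hne rfl

theorem g3 [IsStrictTotalOrder (List X) lt] (h : GBd u lt S γ) {Z : List X}
    {s : (List X × List X) →₀ F} (hs : s ∈ Nlt F lt S γ Z) :
    ∀ W, syvL u s W ≠ 0 → lt W Z := by
  induction hs using Submodule.span_induction with
  | mem s hs =>
    obtain ⟨T, hT, A, B, h1, rfl⟩ := hs
    intro W hW
    by_cases hne : W = A ++ T ++ B
    · rw [hne]; exact h1
    · exact _root_.trans (r := lt) (g2 h hT A B W hW hne) h1
  | zero => intro W hW; exact absurd (by simp) hW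
  | add s t _ _ hs ht =>
    intro W hW
    by_cases h1 : syvL u s W = 0
    · apply ht W
      rwa [map_add, Finsupp.add_apply, h1, zero_add] at hW
    · exact hs W h1
  | smul c s _ hs =>
    intro W hW
    rw [map_smul, Finsupp.smul_apply] at hW
    exact hs W (right_ne_zero_of_mul hW)

/-- one step of the reduction -/
theorem red_step [IsStrictTotalOrder (List X) lt] (h : GBd u lt S γ)
    (s : (List X × List X) →₀ F) (hs : syvL u s ≠ 0) :
    ∃ T ∈ S, ∃ A B : List X, ∃ c : F, syvL u s (A ++ T ++ B) ≠ 0 ∧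
      ∀ W, syvL u (s - c • shL F A B (γ T)) W ≠ 0 → lt W (A ++ T ++ B) := by
  obtain ⟨T0, h0, hm⟩ := R3.exists_top lt (id : List X → List X) Function.injective_id hs
  obtain ⟨T, hT, A, B, rfl⟩ := h.red s T0 h0 hm
  refine ⟨T, hT, A, B, syvL u s (A ++ T ++ B), h0, ?_⟩
  intro W hW
  rw [map_sub, map_smul, Finsupp.sub_apply, Finsupp.smul_apply, smul_eq_mul] at hW
  by_cases hne : W = A ++ T ++ B
  · rw [hne, g1 h hT, mul_one, sub_self] at hW
    exact absurd rfl hW
  · by_cases h1 : syvL u s W = 0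
    · rw [h1, zero_sub] at hW
      exact g2 h hT A B W (right_ne_zero_of_mul (neg_ne_zero.mp hW)) hne
    · exact hm W h1 hne

/-- standard representations -/
theorem SR [IsStrictTotalOrder (List X) lt] (h : GBd u lt S γ) (Z : List X) :
    ∀ s : (List X × List X) →₀ F, (∀ W, syvL u s W ≠ 0 → lt W Z) →
      ∃ t ∈ Nlt F lt S γ Z, syvL u t = syvL u s := by
  induction Z using h.wf.induction with
  | _ Z ih =>
    intro s hs
    by_cases h0 : syvL u s = 0
    · exact ⟨0, zero_mem _, by rw [map_zero, h0]⟩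
    · obtain ⟨T, hT, A, B, c, h1, h2⟩ := red_step h s h0
      have h3 := hs _ h1
      obtain ⟨t, ht, e⟩ := ih _ h3 _ h2
      refine ⟨t + c • shL F A B (γ T), ?_, ?_⟩
      · exact add_mem (Nlt_mono h3 ht) (Submodule.smul_mem _ _
          (Submodule.subset_span ⟨T, hT, A, B, h3, rfl⟩))
      · rw [map_add, e, ← map_add, sub_add_cancel]

theorem SR' [IsStrictTotalOrder (List X) lt] (h : GBd u lt S γ)
    (s : (List X × List X) →₀ F) : ∃ t ∈ Nal F S γ, syvL u t = syvL u s := by
  by_cases h0 : syvL u s = 0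
  · exact ⟨0, zero_mem _, by rw [map_zero, h0]⟩
  · obtain ⟨T, hT, A, B, c, h1, h2⟩ := red_step h s h0
    obtain ⟨t, ht, e⟩ := SR h _ _ h2
    refine ⟨t + c • shL F A B (γ T), ?_, ?_⟩
    · exact add_mem (Nlt_le _ ht) (Submodule.smul_mem _ _
        (Submodule.subset_span ⟨T, hT, A, B, rfl⟩))
    · rw [map_add, e, ← map_add, sub_add_cancel]

/-- the configurations of two leading words -/
abbrev Cfg (X : Type) : Type := List X × List X × List X × List X × List X

/-- the difference of two multiples with the same leading word -/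
def dif (F : Type) {X : Type} [Field F] (γ : List X → ((List X × List X) →₀ F)) (x : Cfg X) :
    (List X × List X) →₀ F :=
  shL F [] x.2.1 (γ x.1) - shL F x.2.2.1 x.2.2.2.2 (γ x.2.2.2.1)

theorem exists_sigma [IsStrictTotalOrder (List X) lt] (h : GBd u lt S γ) (x : Cfg X)
    (h1 : x.1 ∈ S) (h2 : x.2.2.2.1 ∈ S)
    (h3 : x.1 ++ x.2.1 = x.2.2.1 ++ x.2.2.2.1 ++ x.2.2.2.2) :
    ∃ σ, syvL u σ = 0 ∧ dif F γ x - σ ∈ Nlt F lt S γ (x.1 ++ x.2.1) := by
  obtain ⟨T, E, D, T', E'⟩ := x
  simp only at h1 h2 h3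
  have h4 : ∀ W, syvL u (dif F γ (T, E, D, T', E')) W ≠ 0 → lt W (T ++ E) := by
    intro W hW
    unfold dif at hW
    rw [map_sub, Finsupp.sub_apply] at hW
    have e1 : syvL u (shL F [] E (γ T)) (T ++ E) = 1 := g1 h h1 [] E
    have e2 : syvL u (shL F D E' (γ T')) (T ++ E) = 1 := by rw [h3]; exact g1 h h2 D E'
    by_cases hne : W = T ++ E
    · rw [hne, e1, e2, sub_self] at hW
      exact absurd rfl hW
    · by_cases h5 : syvL u (shL F [] E (γ T)) W = 0
      · rw [h5, zero_sub] at hW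
        have := g2 h h2 D E' W (neg_ne_zero.mp hW) (by rw [← h3]; exact hne)
        rw [h3]; exact this
      · exact g2 h h1 [] E W h5 hne
  obtain ⟨t, ht, e⟩ := SR h (T ++ E) _ h4
  refine ⟨dif F γ (T, E, D, T', E') - t, ?_, ?_⟩
  · rw [map_sub, e, sub_self]
  · rw [sub_sub_cancel]; exact ht

/-- the span of the multiples of some formal sums and of the trivial ones -/
def Sg (u : AS F X) (R : Set ((List X × List X) →₀ F)) : Submodule F ((List X × List X) →₀ F) :=
  Submodule.span F ({t | ∃ P V Q : List X, t = tsy u P V Q} ∪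
        {t | ∃ σ ∈ R, ∃ A B : List X, t = shf A B σ})

theorem Tr_le_Sg (R : Set ((List X × List X) →₀ F)) : Tr u ≤ Sg u R :=
  Submodule.span_mono Set.subset_union_left

theorem Sg_sh (R : Set ((List X × List X) →₀ F)) (A B : List X)
    {s : (List X × List X) →₀ F} (hs : s ∈ Sg u R) : shL F A B s ∈ Sg u R := by
  have : Sg u R ≤ (Sg u R).comap (shL F A B) := by
    unfold Sg
    rw [Submodule.span_le]
    rintro s (⟨P, V, Q, rfl⟩ | ⟨σ, hσ, A', B', rfl⟩)
    · exact Tr_le_Sg R (Tr_sh u A B (Submodule.subset_span ⟨P, V, Q, rfl⟩))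
    · apply Submodule.subset_span
      exact Or.inr ⟨σ, hσ, A ++ A', B' ++ B, shL_shL _ _ _ _ _⟩
  exact this hs

theorem mem_Sg {R : Set ((List X × List X) →₀ F)} {σ : (List X × List X) →₀ F} (h : σ ∈ R) :
    σ ∈ Sg u R := by
  apply Submodule.subset_span
  refine Or.inr ⟨σ, h, [], [], ?_⟩
  rw [← shL_apply, shL_nil]

theorem Sg_ker {R : Set ((List X × List X) →₀ F)} (hR : ∀ σ ∈ R, syvL u σ = 0) :
    ∀ s ∈ Sg u R, syvL u s = 0 := by
  have : Sg u R ≤ LinearMap.ker (syvL u) := by
    unfold Sg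
    rw [Submodule.span_le]
    rintro s (⟨P, V, Q, rfl⟩ | ⟨σ, hσ, A, B, rfl⟩)
    · exact syvL_tsy u P V Q
    · show syvL u (shL F A B σ) = 0
      rw [syvL_shL, hR σ hσ, map_zero]
  exact fun s hs => this hs

/-- the disjoint case -/
theorem disj_case [IsStrictTotalOrder (List X) lt] (h : GBd u lt S γ) {T T' : List X}
    (hT : T ∈ S) (hT' : T' ∈ S) (V : List X) :
    shL F [] (V ++ T') (γ T) - shL F (T ++ V) [] (γ T') ∈
      Tr u ⊔ Nlt F lt S γ (T ++ V ++ T') := by
  have h1 := disj u V (γ T) (γ T')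
  have e1 : prL V (syvL u (γ T)) (γ T') = shL F (T ++ V) [] (γ T') +
      prL V ((syvL u (γ T)).erase T) (γ T') := by
    unfold prL
    rw [← Finsupp.add_sum_erase' (syvL u (γ T)) T (fun W c => c • shL F (W ++ V) [] (γ T'))
      (by intro; exact zero_smul _ _), h.one T hT, one_smul]
  have e2 : prR V (γ T) (syvL u (γ T')) = shL F [] (V ++ T') (γ T) +
      prR V (γ T) ((syvL u (γ T')).erase T') := by
    unfold prR
    rw [← Finsupp.add_sum_erase' (syvL u (γ T')) T' (fun W c => c • shL F [] (V ++ W) (γ T))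
      (by intro; exact zero_smul _ _), h.one T' hT', one_smul]
  have n1 : prL V ((syvL u (γ T)).erase T) (γ T') ∈ Nlt F lt S γ (T ++ V ++ T') := by
    unfold prL
    apply Submodule.sum_mem
    intro W hW
    apply Submodule.smul_mem
    apply Submodule.subset_span
    refine ⟨T', hT', W ++ V, [], ?_, rfl⟩
    rw [Finsupp.mem_support_iff] at hW
    have hne : W ≠ T := by
      rintro rfl
      rw [Finsupp.erase_same] at hW
      exact hW rfl
    rw [Finsupp.erase_ne hne] at hW
    have := h.comp _ _ [] (V ++ T') (h.low T hT W hW hne)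
    simpa using this
  have n2 : prR V (γ T) ((syvL u (γ T')).erase T') ∈ Nlt F lt S γ (T ++ V ++ T') := by
    unfold prR
    apply Submodule.sum_mem
    intro W hW
    apply Submodule.smul_mem
    apply Submodule.subset_span
    refine ⟨T, hT, [], V ++ W, ?_, rfl⟩
    rw [Finsupp.mem_support_iff] at hW
    have hne : W ≠ T' := by
      rintro rfl
      rw [Finsupp.erase_same] at hW
      exact hW rfl
    rw [Finsupp.erase_ne hne] at hW
    have := h.comp _ _ (T ++ V) [] (h.low T' hT' W hW hne)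
    simpa using this
  have e3 : shL F [] (V ++ T') (γ T) - shL F (T ++ V) [] (γ T') =
      -(prL V (syvL u (γ T)) (γ T') - prR V (γ T) (syvL u (γ T'))) +
      (prL V ((syvL u (γ T)).erase T) (γ T') - prR V (γ T) ((syvL u (γ T')).erase T')) := by
    rw [e1, e2]; abel
  rw [e3]
  exact Submodule.add_mem_sup (neg_mem h1) (sub_mem n1 n2)

end

end Pool.Agent.Helper120_Alt
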