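import Pool.Agent.Helper120_Alt.Gb2

set_option autoImplicit false

/-! Finite Groebner bases give finitely generated syzygies: conclusion. -/

namespace Pool.Agent.Helper120_Alt

noncomputable section

variable {F X : Type} [Field F] {u : AS F X} {lt : List X → List X → Prop} {S : Finset (List X)}
  {γ : List X → ((List X × List X) →₀ F)}

theorem sup_sh (h : GBd u lt S γ) (R : Set ((List X × List X) →₀ F)) (A B Z : List X)
    {s : (List X × List X) →₀ F} (hs : s ∈ Sg u R ⊔ Nlt F lt S γ Z) :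
    shL F A B s ∈ Sg u R ⊔ Nlt F lt S γ (A ++ Z ++ B) := by
  obtain ⟨y, hy, z, hz, rfl⟩ := Submodule.mem_sup.mp hs
  rw [map_add]
  exact Submodule.add_mem_sup (Sg_sh R A B hy) (Nlt_sh h A B Z hz)

/-- the set of configurations that have to be considered -/
def Cok (S : Finset (List X)) (L : ℕ) (x : Cfg X) : Prop :=
  x.1 ∈ S ∧ x.2.2.2.1 ∈ S ∧ x.2.1.length ≤ L ∧ x.2.2.1.length ≤ L ∧ x.2.2.2.2.length ≤ L ∧
    x.1 ++ x.2.1 = x.2.2.1 ++ x.2.2.2.1 ++ x.2.2.2.2

theorem two_dec_le [IsStrictTotalOrder (List X) lt] (h : GBd u lt S γ) {L : ℕ}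
    (hL : ∀ T ∈ S, T.length ≤ L) {R : Set ((List X × List X) →₀ F)}
    (hR : ∀ x : Cfg X, Cok S L x → ∃ σ ∈ R, dif F γ x - σ ∈ Nlt F lt S γ (x.1 ++ x.2.1))
    {T T' : List X} (hT : T ∈ S) (hT' : T' ∈ S) {A B D B' : List X}
    (he : T ++ B = D ++ (T' ++ B')) :
    shL F A B (γ T) - shL F (A ++ D) B' (γ T') ∈ Sg u R ⊔ Nlt F lt S γ (A ++ T ++ B) := by
  have cf : ∀ (E D E' B0 : List X), E.length ≤ L → D.length ≤ L → E'.length ≤ L →
      T ++ E = D ++ T' ++ E' → shL F A (E ++ B0) (γ T) - shL F (A ++ D) (E' ++ B0) (γ T') ∈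
      Sg u R ⊔ Nlt F lt S γ (A ++ T ++ (E ++ B0)) := by
    intro E D E' B0 h1 h2 h3 h4
    obtain ⟨σ, hσ, h5⟩ := hR (T, E, D, T', E') ⟨hT, hT', h1, h2, h3, h4⟩
    have h6 : dif F γ (T, E, D, T', E') ∈ Sg u R ⊔ Nlt F lt S γ (T ++ E) := by
      rw [← sub_add_cancel (dif F γ (T, E, D, T', E')) σ, add_comm]
      exact Submodule.add_mem_sup (mem_Sg hσ) h5
    have h7 := sup_sh h R A B0 _ h6
    unfold dif at h7
    rw [map_sub, shL_shL, shL_shL] at h7
    simpa using h7
  rcases List.append_eq_append_iff.mp he with ⟨V, hD, hB⟩ | ⟨E0, hTe, hB⟩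
  · subst hD hB
    have h1 : shL F [] (V ++ T') (γ T) - shL F (T ++ V) [] (γ T') ∈
        Sg u R ⊔ Nlt F lt S γ (T ++ V ++ T') :=
      (sup_le_sup_right (Tr_le_Sg R) _ : _ ≤ _) (disj_case h hT hT' V)
    have h7 := sup_sh h R A B' _ h1
    rw [map_sub, shL_shL, shL_shL] at h7
    simpa using h7
  · rcases List.append_eq_append_iff.mp hB with ⟨E', h1, h2⟩ | ⟨E, h1, h2⟩
    · subst h1 h2
      have h3 := hL T hT
      have := cf [] D E' B (by simp) (by rw [hTe] at h3; simp at h3; omega)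
        (by rw [hTe] at h3; simp at h3; omega) (by rw [hTe]; simp)
      simpa using this
    · have h3 := hL T hT
      have h4 := hL T' hT'
      have := cf E D [] B' (by rw [h1] at h4; simp at h4; omega)
        (by rw [hTe] at h3; simp at h3; omega) (by simp) (by rw [hTe, h1]; simp)
      rw [h2]
      simpa using this

theorem two_dec [IsStrictTotalOrder (List X) lt] (h : GBd u lt S γ) {L : ℕ}
    (hL : ∀ T ∈ S, T.length ≤ L) {R : Set ((List X × List X) →₀ F)}
    (hR : ∀ x : Cfg X, Cok S L x → ∃ σ ∈ R, dif F γ x - σ ∈ Nlt F lt S γ (x.1 ++ x.2.1))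
    {T T' : List X} (hT : T ∈ S) (hT' : T' ∈ S) {A B A' B' : List X}
    (he : A ++ T ++ B = A' ++ T' ++ B') :
    shL F A B (γ T) - shL F A' B' (γ T') ∈ Sg u R ⊔ Nlt F lt S γ (A ++ T ++ B) := by
  rw [List.append_assoc, List.append_assoc] at he
  rcases List.append_eq_append_iff.mp he with ⟨D, h1, h2⟩ | ⟨D, h1, h2⟩
  · subst h1
    exact two_dec_le h hL hR hT hT' h2
  · subst h1
    have h3 := two_dec_le h hL hR hT' hT (A := A') h2
    rw [← neg_sub]
    apply neg_mem
    have : A' ++ D ++ T ++ B = A' ++ T' ++ B' := by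
      rw [List.append_assoc A' T' B', h2]; simp
    rw [this]
    exact h3

/-- decompositions of words -/
def Rd (S : Finset (List X)) (Z : List X) : Prop :=
  ∃ x : List X × List X × List X, x.2.1 ∈ S ∧ x.1 ++ x.2.1 ++ x.2.2 = Z

open Classical in
/-- the chosen multiple with a given leading word -/
def bz (F : Type) {X : Type} [Field F] (S : Finset (List X))
    (γ : List X → ((List X × List X) →₀ F)) (Z : List X) : (List X × List X) →₀ F :=
  if hZ : Rd S Z then shL F hZ.choose.1 hZ.choose.2.2 (γ hZ.choose.2.1) else 0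

theorem bz_span [IsStrictTotalOrder (List X) lt] (h : GBd u lt S γ) {L : ℕ}
    (hL : ∀ T ∈ S, T.length ≤ L) {R : Set ((List X × List X) →₀ F)}
    (hR : ∀ x : Cfg X, Cok S L x → ∃ σ ∈ R, dif F γ x - σ ∈ Nlt F lt S γ (x.1 ++ x.2.1))
    (Z : List X) : ∀ T ∈ S, ∀ A B : List X, A ++ T ++ B = Z →
      shL F A B (γ T) ∈ Sg u R ⊔ Submodule.span F (bz F S γ '' {Z | Rd S Z}) := by
  induction Z using h.wf.induction with
  | _ Z ih =>
    intro T hT A B hZ
    have hr : Rd S Z := ⟨(A, T, B), hT, hZ⟩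
    have e : bz F S γ Z = shL F hr.choose.1 hr.choose.2.2 (γ hr.choose.2.1) := by
      unfold bz; rw [dif_pos hr]
    have hs := hr.choose_spec
    have h1 := two_dec h hL hR hT hs.1 (hZ.trans hs.2.symm)
    rw [← e, hZ] at h1
    have h2 : Nlt F lt S γ Z ≤ Sg u R ⊔ Submodule.span F (bz F S γ '' {Z | Rd S Z}) := by
      unfold Nlt
      rw [Submodule.span_le]
      rintro s ⟨T', hT', A', B', hlt, rfl⟩
      exact ih _ hlt T' hT' A' B' rfl
    rw [← sub_add_cancel (shL F A B (γ T)) (bz F S γ Z)]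
    apply add_mem
    · exact (sup_le le_sup_left h2 : _ ≤ _) h1
    · exact Submodule.mem_sup_right (Submodule.subset_span ⟨Z, hr, rfl⟩)

/-- finite Groebner bases give finitely generated syzygies -/
theorem finSyz_of_GBd [Finite X] [IsStrictTotalOrder (List X) lt] (h : GBd u lt S γ) :
    FinSyz u := by
  classical
  let L : ℕ := S.sup List.length
  have hL : ∀ T ∈ S, T.length ≤ L := fun T hT => Finset.le_sup (f := List.length) hT
  have hfin : {x : Cfg X | Cok S L x}.Finite := by
    have hw : {W : List X | W.length ≤ L}.Finite := List.finite_length_le X L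
    have hS : {W : List X | W ∈ S}.Finite := S.finite_toSet
    refine ((hS.prod (hw.prod (hw.prod (hS.prod hw))))).subset ?_
    rintro ⟨T, E, D, T', E'⟩ ⟨h1, h2, h3, h4, h5, _⟩
    exact ⟨h1, h3, h4, h2, h5⟩
  have hex : ∀ x : Cfg X, ∃ σ, syvL u σ = 0 ∧ (Cok S L x →
      dif F γ x - σ ∈ Nlt F lt S γ (x.1 ++ x.2.1)) := by
    intro x
    by_cases hx : Cok S L x
    · obtain ⟨σ, h1, h2⟩ := exists_sigma h x hx.1 hx.2.1 hx.2.2.2.2.2
      exact ⟨σ, h1, fun _ => h2⟩
    · exact ⟨0, map_zero _, fun h => absurd h hx⟩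
  choose σ hσ0 hσ using hex
  obtain ⟨t0, ht0, e0⟩ := SR' h (Finsupp.single (([] : List X), ([] : List X)) (1 : F))
  let Sf : Finset ((List X × List X) →₀ F) := hfin.toFinset.image σ ∪
    {Finsupp.single (([] : List X), ([] : List X)) (1 : F) - t0}
  have hR0 : ∀ τ ∈ (Sf : Set ((List X × List X) →₀ F)), syvL u τ = 0 := by
    intro τ hτ
    rw [Finset.mem_coe, Finset.mem_union, Finset.mem_image, Finset.mem_singleton] at hτ
    rcases hτ with ⟨x, _, rfl⟩ | rfl
    · exact hσ0 x
    · rw [map_sub, e0, sub_self]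
  have hR : ∀ x : Cfg X, Cok S L x → ∃ τ ∈ (Sf : Set ((List X × List X) →₀ F)),
      dif F γ x - τ ∈ Nlt F lt S γ (x.1 ++ x.2.1) := by
    intro x hx
    refine ⟨σ x, ?_, hσ x hx⟩
    rw [Finset.mem_coe, Finset.mem_union, Finset.mem_image]
    left
    exact ⟨x, hfin.mem_toFinset.mpr hx, rfl⟩
  refine ⟨Sf, fun τ hτ => hR0 τ hτ, ?_⟩
  intro s hs
  have hs' : syvL u s = 0 := hs
  have hNal : Nal F S γ ≤ Sg u (Sf : Set _) ⊔ Submodule.span F (bz F S γ '' {Z | Rd S Z}) := by
    unfold Nal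
    rw [Submodule.span_le]
    rintro _ ⟨T, hT, A, B, rfl⟩
    exact bz_span h hL hR _ T hT A B rfl
  have hall : s ∈ Sg u (Sf : Set _) ⊔ Submodule.span F (bz F S γ '' {Z | Rd S Z}) := by
    clear hs hs'
    induction s using Finsupp.induction_linear with
    | zero => exact zero_mem _
    | add a b ha hb => exact add_mem ha hb
    | single x c =>
      obtain ⟨P, Q⟩ := x
      have e1 : Finsupp.single (P, Q) c = c • (shL F P Q (Finsupp.single
          (([] : List X), ([] : List X)) (1 : F) - t0) + shL F P Q t0) := by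
        rw [← map_add, sub_add_cancel, shL_single, Finsupp.smul_single, smul_eq_mul, mul_one]
        simp
      rw [e1]
      apply Submodule.smul_mem
      apply add_mem
      · apply Submodule.mem_sup_left
        apply Sg_sh
        apply mem_Sg
        rw [Finset.mem_coe, Finset.mem_union, Finset.mem_singleton]
        right; rfl
      · exact hNal (Nal_sh P Q ht0)
  obtain ⟨y, hy, z, hz, rfl⟩ := Submodule.mem_sup.mp hall
  obtain ⟨c, hc, rfl⟩ := (Finsupp.mem_span_image_iff_linearCombination F).mp hz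
  have hc0 : c = 0 := by
    by_contra hne
    obtain ⟨Z, hZ, hm⟩ := R3.exists_top lt (id : List X → List X) Function.injective_id hne
    have h1 : syvL u (Finsupp.linearCombination F (bz F S γ) c) = 0 := by
      rwa [map_add, Sg_ker hR0 y hy, zero_add] at hs'
    have hcs : ∀ W, c W ≠ 0 → Rd S W := fun W hW => hc (Finsupp.mem_support_iff.mpr hW)
    have hb : ∀ W, Rd S W → syvL u (bz F S γ W) W = 1 ∧
        ∀ W', syvL u (bz F S γ W) W' ≠ 0 → W' ≠ W → lt W' W := by
      intro W hr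
      have e : bz F S γ W = shL F hr.choose.1 hr.choose.2.2 (γ hr.choose.2.1) := by
        unfold bz; rw [dif_pos hr]
      have hsp := hr.choose_spec
      have h3 := g1 h hsp.1 hr.choose.1 hr.choose.2.2
      have h4 := g2 h hsp.1 hr.choose.1 hr.choose.2.2
      rw [← e, hsp.2] at h3 h4
      exact ⟨h3, h4⟩
    have h2 : (syvL u (Finsupp.linearCombination F (bz F S γ) c)) Z = c Z := by
      rw [Finsupp.linearCombination_apply, Finsupp.sum, map_sum, Finsupp.finsetSum_apply,
        Finset.sum_eq_single Z]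
      · rw [map_smul, Finsupp.smul_apply, (hb Z (hcs Z hZ)).1, smul_eq_mul, mul_one]
      · intro W hW hne
        rw [Finsupp.mem_support_iff] at hW
        rw [map_smul, Finsupp.smul_apply, smul_eq_mul]
        by_contra h5
        have h6 := (hb W (hcs W hW)).2 Z (right_ne_zero_of_mul h5) (Ne.symm hne)
        exact asymm (r := lt) h6 (hm W hW hne)
      · intro hZ'
        exact absurd (Finsupp.mem_support_iff.mpr hZ) hZ'
    rw [h1] at h2
    exact hZ h2.symm
  rw [hc0, map_zero, add_zero]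
  exact hy

end

end Pool.Agent.Helper120_Alt
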