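import Pool.Agent.Helper120_Alt.R3.Syz3
import Pool.Agent.Helper120_Alt.Gb4

set_option autoImplicit false

/-! A leading word without self-overlap gives a finite Groebner basis. -/

namespace Pool.Agent.Helper120_Alt

open Pool.Agent.Helper895.Alt

noncomputable section

variable {F : Type} [Field F]

theorem finGB_of_lead {lt : List (Fin 3) → List (Fin 3) → Prop}
    (htot : IsStrictTotalOrder (List (Fin 3)) lt) {m0 : List (Fin 3)} {f : NA F (Fin 3)}
    (h : R3.Lead f lt m0) : FinGB (psi F (Fin 3) f) := by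
  have hchi : ∀ g : NA F (Fin 3), R3.chi F g = cof (psi F (Fin 3) g) := fun g => rfl
  refine ⟨lt, htot, h.wf, h.comp, {m0}, ?_, ?_⟩
  · intro T hT
    rw [Finset.mem_singleton] at hT
    subst hT
    refine ⟨_, subset_idl _ rfl, ?_, ?_⟩
    · rw [← hchi]; exact h.lead
    · rw [← hchi]; exact h.low
  · intro g hg T hT
    refine ⟨m0, Finset.mem_singleton_self _, ?_⟩
    have hs : ({psi F (Fin 3) f} : Set (AS F (Fin 3))) = psi F (Fin 3) '' {f} := by
      rw [Set.image_singleton]
    rw [hs] at hg
    obtain ⟨x, hx, rfl⟩ := lift_idl (psi F (Fin 3)) (fun y => ⟨_, R3.psi_sec y⟩) hg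
    have hx' : x ∈ altIdeal F (Fin 3) {f} := idl_mono Set.subset_union_right hx
    exact R3.ideal_lead (fun _ => (0 : F)) h hx' (by rw [hchi]; exact hT.1)
      (by rw [hchi]; exact hT.2)

end

end Pool.Agent.Helper120_Alt
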