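import Pool.Agent.Helper120_Alt.Syz

set_option autoImplicit false

/-! Definitions: finite Groebner bases. -/

namespace Pool.Agent.Helper120_Alt

noncomputable section

variable {F X : Type} [Field F]

/-- `T` is the leading word of the associative polynomial `g` in the order `lt` of the words. -/
def IsLead (lt : List X → List X → Prop) (g : AS F X) (T : List X) : Prop :=
  cof g T ≠ 0 ∧ ∀ W : List X, cof g W ≠ 0 → W ≠ T → lt W T

/-- The ideal generated by `u` has a finite Groebner basis: for some total well-founded order of
the words that is compatible with the multiplication, there is a finite set of leading words of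
elements of the ideal such that each leading word of an element of the ideal contains one of them
as a factor. -/
def FinGB (u : AS F X) : Prop :=
  ∃ lt : List X → List X → Prop, IsStrictTotalOrder (List X) lt ∧ WellFounded lt ∧
    (∀ a b c d : List X, lt a b → lt (c ++ a ++ d) (c ++ b ++ d)) ∧
    ∃ S : Finset (List X), (∀ T ∈ S, ∃ g ∈ idl F {u}, IsLead lt g T) ∧
      ∀ g ∈ idl F {u}, ∀ T : List X, IsLead lt g T → ∃ T' ∈ S, T' <:+: T

end

end Pool.Agent.Helper120_Alt
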