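import Pool.Agent.Helper120_Alt.Pow1

set_option autoImplicit false

/-! A polynomial whose leading word does not overlap itself has only trivial syzygies. -/

namespace Pool.Agent.Helper120_Alt

noncomputable section

variable {K X : Type} [Field K]

/-- two occurrences of a word without self-overlap are disjoint -/
theorem occ {m0 : List X} (hno : ∀ a b c, m0 = a ++ b → m0 = b ++ c → b = [] ∨ a = [])
    {P Q P' Q' : List X} (h : P ++ (m0 ++ Q) = P' ++ (m0 ++ Q')) (hl : P.length < P'.length) :
    ∃ V, P' = P ++ m0 ++ V ∧ Q = V ++ m0 ++ Q' := by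
  rcases List.append_eq_append_iff.mp h with ⟨a, h1, h2⟩ | ⟨a, h1, h2⟩
  · have ha : a ≠ [] := by
      rintro rfl
      rw [h1] at hl
      simp at hl
    rcases List.append_eq_append_iff.mp h2 with ⟨c, h3, h4⟩ | ⟨c, h3, h4⟩
    · exact ⟨c, by rw [h1, h3, List.append_assoc], by rw [h4, List.append_assoc]⟩
    · have hlen := congrArg List.length h3
      rw [List.length_append] at hlen
      have ha' : 0 < a.length := List.length_pos_iff.mpr ha
      rcases List.append_eq_append_iff.mp h4 with ⟨d, h5, h6⟩ | ⟨d, h5, h6⟩
      · have h7 := congrArg List.length h5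
        rw [List.length_append] at h7
        omega
      · rcases hno a c d h3 h5 with h7 | h7
        · refine ⟨[], ?_, ?_⟩
          · rw [h1, h3, h7]; simp
          · rw [h7] at h4
            simpa using h4.symm
        · exact absurd h7 ha
  · exfalso
    have := congrArg List.length h1
    rw [List.length_append] at this
    omega

variable {lt : List X → List X → Prop}

/-- formal sums with small leading words -/
def Bl (K : Type) {X : Type} [Field K] (lt : List X → List X → Prop) (m0 M : List X) :
    Submodule K ((List X × List X) →₀ K) :=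
  Finsupp.supported K K {y | lt (y.1 ++ m0 ++ y.2) M}

theorem swap_mem {w : List X →₀ K} {m0 : List X}
    (hcomp : ∀ a b c d : List X, lt a b → lt (c ++ a ++ d) (c ++ b ++ d))
    (h1 : w m0 ≠ 0) (h2 : ∀ W, w W ≠ 0 → W ≠ m0 → lt W m0)
    (hno : ∀ a b c, m0 = a ++ b → m0 = b ++ c → b = [] ∨ a = [])
    {P Q P' Q' : List X} (h : P ++ m0 ++ Q = P' ++ m0 ++ Q') (hl : P.length < P'.length) :
    (Finsupp.single (P, Q) 1 - Finsupp.single (P', Q') 1 : (List X × List X) →₀ K) ∈
      TrW w ⊔ Bl K lt m0 (P ++ m0 ++ Q) := by
  classical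
  have h' : P ++ (m0 ++ Q) = P' ++ (m0 ++ Q') := by
    rw [← List.append_assoc, ← List.append_assoc]; exact h
  obtain ⟨V, e1, e2⟩ := occ hno h' hl
  have h3 : tsW w P V Q' ∈ TrW w := Submodule.subset_span ⟨_, _, _, rfl⟩
  have h4 : tsW w P V Q' = w m0 • (Finsupp.single (P, Q) 1 - Finsupp.single (P', Q') 1) +
      ∑ W ∈ w.support.erase m0, w W • (Finsupp.single (P, V ++ W ++ Q') 1 -
        Finsupp.single (P ++ W ++ V, Q') 1) := by
    unfold tsW
    rw [Finsupp.sum, ← Finset.add_sum_erase _ _ (Finsupp.mem_support_iff.mpr h1), e1, e2]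
  have h5 : ∑ W ∈ w.support.erase m0, w W • (Finsupp.single (P, V ++ W ++ Q') (1 : K) -
      Finsupp.single (P ++ W ++ V, Q') 1) ∈ Bl K lt m0 (P ++ m0 ++ Q) := by
    refine Submodule.sum_mem _ fun W hW => Submodule.smul_mem _ _ (Submodule.sub_mem _ ?_ ?_)
    · refine Finsupp.single_mem_supported K 1 ?_
      rw [Finset.mem_erase, Finsupp.mem_support_iff] at hW
      have h6 := hcomp _ _ (P ++ m0 ++ V) Q' (h2 W hW.2 hW.1)
      show lt (P ++ m0 ++ (V ++ W ++ Q')) (P ++ m0 ++ Q)
      rw [e2]
      simpa [List.append_assoc] using h6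
    · refine Finsupp.single_mem_supported K 1 ?_
      rw [Finset.mem_erase, Finsupp.mem_support_iff] at hW
      have h6 := hcomp _ _ P (V ++ m0 ++ Q') (h2 W hW.2 hW.1)
      show lt (P ++ W ++ V ++ m0 ++ Q') (P ++ m0 ++ Q)
      rw [e2]
      simpa [List.append_assoc] using h6
  have h6 : (Finsupp.single (P, Q) 1 - Finsupp.single (P', Q') 1 : (List X × List X) →₀ K) =
      (w m0)⁻¹ • (tsW w P V Q' - ∑ W ∈ w.support.erase m0,
        w W • (Finsupp.single (P, V ++ W ++ Q') 1 - Finsupp.single (P ++ W ++ V, Q') 1)) := by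
    rw [h4, add_sub_cancel_right, smul_smul, inv_mul_cancel₀ h1, one_smul]
  rw [h6]
  exact Submodule.smul_mem _ _ (Submodule.sub_mem _ (Submodule.mem_sup_left h3)
    (Submodule.mem_sup_right h5))

/-- leading words without self-overlap -/
theorem OT_of_lead [IsStrictTotalOrder (List X) lt] {w : List X →₀ K} {m0 : List X}
    (hwf : WellFounded lt)
    (hcomp : ∀ a b c d : List X, lt a b → lt (c ++ a ++ d) (c ++ b ++ d))
    (h1 : w m0 ≠ 0) (h2 : ∀ W, w W ≠ 0 → W ≠ m0 → lt W m0)
    (hno : ∀ a b c, m0 = a ++ b → m0 = b ++ c → b = [] ∨ a = []) : OT w := by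
  classical
  have step : ∀ s : (List X × List X) →₀ K, s ≠ 0 → syW w s = 0 → ∃ y0 ∈ s.support,
      ∃ t ∈ TrW w, ∃ s' ∈ Bl K lt m0 (y0.1 ++ m0 ++ y0.2), t + s' = s ∧ syW w s' = 0 := by
    intro s hne h0
    -- the largest leading word
    have hmax : ∃ y ∈ s.support, ∀ z ∈ s.support,
        ¬ lt (y.1 ++ m0 ++ y.2) (z.1 ++ m0 ++ z.2) := by
      have hfin : ∀ T : Finset (List X × List X), T.Nonempty →
          ∃ y ∈ T, ∀ z ∈ T, ¬ lt (y.1 ++ m0 ++ y.2) (z.1 ++ m0 ++ z.2) := by
        intro T hT
        induction hT using Finset.Nonempty.cons_induction with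
        | singleton a =>
          refine ⟨a, Finset.mem_singleton_self _, ?_⟩
          intro z hz
          rw [Finset.mem_singleton.mp hz]
          exact irrefl_of lt _
        | cons a T ha hT ih =>
          obtain ⟨y, hy, hy'⟩ := ih
          by_cases h3 : lt (y.1 ++ m0 ++ y.2) (a.1 ++ m0 ++ a.2)
          · refine ⟨a, Finset.mem_cons_self _ _, ?_⟩
            intro z hz
            rcases Finset.mem_cons.mp hz with rfl | hz
            · exact irrefl_of lt _
            · intro h4
              exact hy' z hz (trans_of lt h3 h4)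
          · refine ⟨y, Finset.mem_cons_of_mem hy, ?_⟩
            intro z hz
            rcases Finset.mem_cons.mp hz with rfl | hz
            · exact h3
            · exact hy' z hz
      exact hfin s.support (Finsupp.support_nonempty_iff.mpr hne)
    obtain ⟨y0, hy0, hy0'⟩ := hmax
    set M' := y0.1 ++ m0 ++ y0.2 with hM'
    have hle : ∀ z ∈ s.support, z.1 ++ m0 ++ z.2 = M' ∨ lt (z.1 ++ m0 ++ z.2) M' := by
      intro z hz
      rcases trichotomous_of lt (z.1 ++ m0 ++ z.2) M' with h | h | h
      · exact Or.inr h
      · exact Or.inl h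
      · exact absurd h (hy0' z hz)
    -- the coefficient of the largest word
    let T := s.support.filter fun z => z.1 ++ m0 ++ z.2 = M'
    have hsum : ∑ z ∈ T, s z = 0 := by
      have h3 : syW w s M' = 0 := by rw [h0]; rfl
      have h4 : syW w s M' = ∑ z ∈ s.support, if z.1 ++ m0 ++ z.2 = M' then s z * w m0 else 0 := by
        unfold syW
        rw [Finsupp.linearCombination_apply, Finsupp.sum, Finsupp.finsetSum_apply]
        refine Finset.sum_congr rfl fun z hz => ?_
        rw [Finsupp.smul_apply, smul_eq_mul]
        split_ifs with h5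
        · rw [← h5, shW_apply]
        · have h6 : shW K z.1 z.2 w M' = 0 := by
            by_contra h7
            obtain ⟨W, e, h8⟩ := shW_ne _ _ _ _ h7
            by_cases h9 : W = m0
            · rw [h9] at e
              exact h5 e.symm
            · have h10 := hcomp _ _ z.1 z.2 (h2 W h8 h9)
              rw [← e] at h10
              rcases hle z hz with h11 | h11
              · exact h5 h11
              · exact irrefl_of lt _ (trans_of lt h10 h11)
          rw [h6, mul_zero]
      rw [h4, ← Finset.sum_filter, ← Finset.sum_mul] at h3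
      exact (mul_eq_zero.mp h3).resolve_right h1
    -- reduction
    have hs2 : s = ∑ z ∈ T, s z • (Finsupp.single z 1 - Finsupp.single y0 1) +
        ∑ z ∈ s.support.filter (fun z => ¬ z.1 ++ m0 ++ z.2 = M'), Finsupp.single z (s z) := by
      have h3 : ∑ z ∈ T, s z • (Finsupp.single z 1 - Finsupp.single y0 1) =
          ∑ z ∈ T, Finsupp.single z (s z) := by
        have h4 : ∀ z, s z • (Finsupp.single z 1 - Finsupp.single y0 1) =
            Finsupp.single z (s z) - s z • Finsupp.single y0 (1 : K) := by
          intro z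
          rw [smul_sub, Finsupp.smul_single, smul_eq_mul, mul_one]
        rw [Finset.sum_congr rfl fun z _ => h4 z, Finset.sum_sub_distrib, ← Finset.sum_smul, hsum,
          zero_smul, sub_zero]
      rw [h3, Finset.sum_filter_add_sum_filter_not]
      conv_lhs => rw [← Finsupp.sum_single s]
      rfl
    have hs3 : s ∈ TrW w ⊔ Bl K lt m0 M' := by
      rw [hs2]
      refine add_mem (Submodule.sum_mem _ fun z hz => Submodule.smul_mem _ _ ?_)
        (Submodule.sum_mem _ fun z hz => Submodule.mem_sup_right ?_)
      · rw [Finset.mem_filter] at hz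
        have e : z.1 ++ m0 ++ z.2 = y0.1 ++ m0 ++ y0.2 := hz.2
        rcases lt_trichotomy z.1.length y0.1.length with h | h | h
        · have h3 := swap_mem (lt := lt) hcomp h1 h2 hno e h
          rw [hz.2] at h3
          exact h3
        · have h3 : z = y0 := by
            rw [List.append_assoc, List.append_assoc] at e
            obtain ⟨e1, e2⟩ := List.append_inj e h
            have e3 := List.append_cancel_left e2
            exact Prod.ext e1 e3
          rw [h3, sub_self]
          exact zero_mem _
        · have h3 := swap_mem (lt := lt) hcomp h1 h2 hno e.symm h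
          rw [← neg_mem_iff, neg_sub] at h3
          exact h3
      · rw [Finset.mem_filter] at hz
        refine Finsupp.single_mem_supported K _ ?_
        rcases hle z hz.1 with h | h
        · exact absurd h hz.2
        · exact h
    obtain ⟨t, ht, s', hs', e⟩ := Submodule.mem_sup.mp hs3
    have h3 : syW w t = 0 := by
      have : TrW w ≤ LinearMap.ker (syW w) := by
        unfold TrW
        rw [Submodule.span_le]
        rintro _ ⟨P, V, Q, rfl⟩
        exact syW_tsW w P V Q
      exact this ht
    have h4 : syW w s' = 0 := by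
      have : s' = s - t := by rw [← e]; abel
      rw [this, map_sub, h0, h3, sub_zero]
    exact ⟨y0, hy0, t, ht, s', hs', e, h4⟩
  have key : ∀ M : List X, ∀ s ∈ Bl K lt m0 M, syW w s = 0 → s ∈ TrW w := by
    intro M
    refine hwf.induction (C := fun M => ∀ s ∈ Bl K lt m0 M, syW w s = 0 → s ∈ TrW w) M ?_
    intro M ih s hs h0
    by_cases hne : s = 0
    · rw [hne]; exact zero_mem _
    · obtain ⟨y0, hy0, t, ht, s', hs', e, h4⟩ := step s hne h0
      rw [← e]
      exact add_mem ht (ih _ (hs hy0) s' hs' h4)
  intro s h0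
  by_cases hne : s = 0
  · rw [hne]; exact zero_mem _
  · obtain ⟨y0, hy0, t, ht, s', hs', e, h4⟩ := step s hne h0
    rw [← e]
    exact add_mem ht (key _ s' hs' h4)

end

end Pool.Agent.Helper120_Alt
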