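import Pool.Agent.Helper120_Alt.Aut3
import Pool.Agent.Helper120_Alt.Ld1

set_option autoImplicit false

/-! Linear forms are strongly free. -/

namespace Pool.Agent.Helper120_Alt

noncomputable section

namespace Low

/-- digits of the letters, with largest digit `4` for the letter `a` -/
def dg (a x : Fin 3) : ℕ := if x = a then 4 else x.val + 1

theorem dg_pos (a x : Fin 3) : 1 ≤ dg a x := by
  unfold dg; split_ifs <;> omega

theorem dg_lt (a x : Fin 3) : dg a x < 5 := by
  have := x.isLt
  unfold dg; split_ifs <;> omega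

theorem dg_inj (a x y : Fin 3) (h : dg a x = dg a y) : x = y := by
  have h1 := x.isLt
  have h2 := y.isLt
  unfold dg at h
  split_ifs at h with h3 h4 h4
  · rw [h3, h4]
  · omega
  · omega
  · exact Fin.ext (by omega)

/-- the value of a word -/
def vl (a : Fin 3) : List (Fin 3) → ℕ
  | [] => 0
  | x :: W => dg a x * 5 ^ W.length + vl a W

theorem vl_lt (a : Fin 3) (W : List (Fin 3)) : vl a W < 5 ^ W.length := by
  induction W with
  | nil => simp [vl]
  | cons x W ih =>
    have h1 := dg_lt a x
    have h2 : dg a x * 5 ^ W.length ≤ 4 * 5 ^ W.length :=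
      Nat.mul_le_mul_right _ (by omega)
    show dg a x * 5 ^ W.length + vl a W < 5 ^ (W.length + 1)
    rw [pow_succ]
    omega

theorem le_vl (a x : Fin 3) (W : List (Fin 3)) : 5 ^ W.length ≤ vl a (x :: W) := by
  have h2 : 1 * 5 ^ W.length ≤ dg a x * 5 ^ W.length :=
    Nat.mul_le_mul_right _ (dg_pos a x)
  show 5 ^ W.length ≤ dg a x * 5 ^ W.length + vl a W
  omega

theorem len_le (a : Fin 3) {A B : List (Fin 3)} (h : vl a A ≤ vl a B) : A.length ≤ B.length := by
  match A with
  | [] => exact Nat.zero_le _
  | x :: A =>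
    have h1 := le_vl a x A
    have h2 := vl_lt a B
    have h3 : 5 ^ A.length < 5 ^ B.length := by omega
    exact (Nat.pow_lt_pow_iff_right (by norm_num)).mp h3

theorem vl_inj (a : Fin 3) : ∀ A B : List (Fin 3), vl a A = vl a B → A = B := by
  intro A
  induction A with
  | nil =>
    intro B h
    have := len_le a (le_of_eq h.symm)
    exact (List.length_eq_zero_iff.mp (Nat.le_zero.mp this)).symm
  | cons x A ih =>
    intro B h
    have h1 := len_le a (le_of_eq h.symm)
    have h2 := len_le a (le_of_eq h)
    match B, h, h1, h2 with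
    | y :: B, h, h1, h2 =>
      have h3 : A.length = B.length := by
        simp only [List.length_cons] at h1 h2; omega
      have h4 : dg a x * 5 ^ A.length + vl a A = dg a y * 5 ^ A.length + vl a B := by
        have : dg a x * 5 ^ A.length + vl a A = dg a y * 5 ^ B.length + vl a B := h
        rw [this, h3]
      have h5 := vl_lt a A
      have h6 := vl_lt a B
      rw [← h3] at h6
      have h7 : dg a x = dg a y := by
        rcases lt_trichotomy (dg a x) (dg a y) with h8 | h8 | h8
        · exfalso
          have : (dg a x + 1) * 5 ^ A.length ≤ dg a y * 5 ^ A.length :=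
            Nat.mul_le_mul_right _ h8
          rw [add_mul, one_mul] at this
          omega
        · exact h8
        · exfalso
          have : (dg a y + 1) * 5 ^ A.length ≤ dg a x * 5 ^ A.length :=
            Nat.mul_le_mul_right _ h8
          rw [add_mul, one_mul] at this
          omega
      rw [h7] at h4
      rw [dg_inj a x y h7, ih B (by omega)]

theorem vl_append (a : Fin 3) (A B : List (Fin 3)) :
    vl a (A ++ B) = vl a A * 5 ^ B.length + vl a B := by
  induction A with
  | nil => simp [vl]
  | cons x A ih =>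
    show dg a x * 5 ^ (A ++ B).length + vl a (A ++ B) = _
    rw [ih, List.length_append, pow_add]
    show _ = (dg a x * 5 ^ A.length + vl a A) * 5 ^ B.length + vl a B
    ring

/-- the order of the words -/
def ltv (a : Fin 3) (A B : List (Fin 3)) : Prop := vl a A < vl a B

theorem ltv_comp (a : Fin 3) (A B C D : List (Fin 3)) (h : ltv a A B) :
    ltv a (C ++ A ++ D) (C ++ B ++ D) := by
  unfold ltv at *
  rw [vl_append, vl_append, vl_append, vl_append]
  have h1 := len_le a (le_of_lt h)
  have h2 : 5 ^ A.length ≤ 5 ^ B.length := Nat.pow_le_pow_right (by norm_num) h1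
  have h3 : vl a C * 5 ^ A.length ≤ vl a C * 5 ^ B.length := Nat.mul_le_mul_left _ h2
  have h4 : (vl a C * 5 ^ A.length + vl a A) * 5 ^ D.length <
      (vl a C * 5 ^ B.length + vl a B) * 5 ^ D.length :=
    Nat.mul_lt_mul_of_pos_right (by omega) (by positivity)
  omega

instance ltv_total (a : Fin 3) : IsStrictTotalOrder (List (Fin 3)) (ltv a) where
  trichotomous A B h1 h2 := by
    unfold ltv at h1 h2
    exact vl_inj a A B (by omega)
  irrefl A h := lt_irrefl _ h
  trans A B C h1 h2 := lt_trans (a := vl a A) h1 h2

theorem ltv_wf (a : Fin 3) : WellFounded (ltv a) := InvImage.wf (vl a) Nat.lt_wfRel.wf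

end Low

/-- nonzero linear forms have only trivial syzygies -/
theorem OT_lin {K : Type} [Field K] {w : List (Fin 3) →₀ K} (hw : ∀ W, w W ≠ 0 → W.length = 1)
    (h0 : w ≠ 0) : OT w := by
  obtain ⟨W, hW⟩ := Finsupp.ne_iff.mp h0
  have hW' : w W ≠ 0 := hW
  obtain ⟨a, rfl⟩ := List.length_eq_one_iff.mp (hw W hW')
  refine OT_of_lead (lt := Low.ltv a) (m0 := [a]) (Low.ltv_wf a) ?_ hW' ?_ ?_
  · intro A B C D h
    exact Low.ltv_comp a A B C D h
  · intro W h1 h2
    obtain ⟨b, rfl⟩ := List.length_eq_one_iff.mp (hw W h1)
    have hb : b ≠ a := fun h => h2 (by rw [h])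
    show Low.dg a b * 5 ^ 0 + 0 < Low.dg a a * 5 ^ 0 + 0
    have e1 : Low.dg a a = 4 := by unfold Low.dg; rw [if_pos rfl]
    have e2 : Low.dg a b = b.val + 1 := by unfold Low.dg; rw [if_neg hb]
    have := b.isLt
    rw [e1, e2]
    omega
  · intro A B C h1 h2
    match A, h1 with
    | [], _ => exact Or.inr rfl
    | x :: A, h1 =>
      left
      have := congrArg List.length h1
      simp only [List.length_append, List.length_cons, List.length_nil] at this
      exact List.length_eq_zero_iff.mp (by omega)

theorem strFree_lin {F : Type} [Field F] {v : AS F (Fin 3)}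
    (hv : ∀ W, cof v W ≠ 0 → W.length = 1) (h0 : v ≠ 0) : StrFree v := by
  refine strFree_of_OT (D := 1) (fun W h => le_of_eq (hv W h)) ?_
  have e : tp 1 (cof v) = cof v := by
    unfold tp
    rw [Finsupp.filter_eq_self_iff]
    exact hv
  rw [e]
  refine OT_lin hv ?_
  intro h
  apply h0
  have h1 : v.coeff = 0 := Finsupp.mapDomain_injective R3.lets_inj (by
    have h2 : Finsupp.mapDomain (fun w : FreeSemigroup (Fin 3) => w.head :: w.tail) v.coeff = 0 := h
    rw [Finsupp.mapDomain_zero]
    exact h2)
  exact MonoidAlgebra.ext (by rw [h1]; rfl)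

end

end Pool.Agent.Helper120_Alt
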