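import Pool.Agent.Helper120_Alt.Low1

set_option autoImplicit false

/-! Quadratic polynomials. -/

namespace Pool.Agent.Helper120_Alt

noncomputable section

variable {F : Type} [Field F]

/-- the quadratic part -/
def qB (u : AS F (Fin 3)) (i j : Fin 3) : F := cof u [i, j]

theorem mev_two (u : AS F (Fin 3)) (p q : Fin 3 → F) :
    mev u [p, q] = ∑ i, ∑ j, qB u i j * (p i * q j) := by
  have key : ∀ g : List (Fin 3) →₀ F, (g.sum fun W c => algebraMap F F c * mo [p, q] W) =
      ∑ i, ∑ j, g [i, j] * (p i * q j) := by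
    intro g
    induction g using Finsupp.induction_linear with
    | zero => simp
    | add s t hs ht =>
      rw [Finsupp.sum_add_index' (by simp) (by intro a b c; rw [map_add, add_mul]), hs, ht,
        ← Finset.sum_add_distrib]
      refine Finset.sum_congr rfl fun i _ => ?_
      rw [← Finset.sum_add_distrib]
      refine Finset.sum_congr rfl fun j _ => ?_
      rw [Finsupp.add_apply, add_mul]
    | single W c =>
      rw [Finsupp.sum_single_index (by simp)]
      match W with
      | [] => simp [mo, Finsupp.single_apply]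
      | [a] => simp [mo, Finsupp.single_apply]
      | [a, b] =>
        show c * (p a * (q b * 1)) = _
        rw [Finset.sum_eq_single a, Finset.sum_eq_single b]
        · simp
        · intro j _ hj
          rw [Finsupp.single_apply, if_neg (by simpa using fun h => hj h.symm), zero_mul]
        · intro h; exact absurd (Finset.mem_univ _) h
        · intro i _ hi
          refine Finset.sum_eq_zero fun j _ => ?_
          rw [Finsupp.single_apply, if_neg (by simp [Ne.symm hi]), zero_mul]
        · intro h; exact absurd (Finset.mem_univ _) h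
      | a :: b :: d :: W => simp [mo, Finsupp.single_apply]
  exact key _

theorem mev_e (u : AS F (Fin 3)) (i j : Fin 3) :
    mev u [Pi.single i 1, Pi.single j 1] = qB u i j := by
  rw [mev_two, Finset.sum_eq_single i, Finset.sum_eq_single j]
  · simp
  · intro b _ hb
    rw [Pi.single_eq_of_ne hb]; simp
  · intro h; exact absurd (Finset.mem_univ _) h
  · intro b _ hb
    rw [Pi.single_eq_of_ne hb]; simp
  · intro h; exact absurd (Finset.mem_univ _) h

/-- quadratic part of rank at least two -/
theorem endRank_of_minor {u : AS F (Fin 3)} (hu : ∀ W, cof u W ≠ 0 → W.length ≤ 2)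
    {i j k l : Fin 3} (h : qB u i j * qB u k l ≠ qB u i l * qB u k j) : EndRank u := by
  refine ⟨F, inferInstance, inferInstance, [], Pi.single i 1, Pi.single k 1, Pi.single j 1,
    Pi.single l 1, hu, ?_⟩
  show mev u [Pi.single i 1, Pi.single j 1] * mev u [Pi.single k 1, Pi.single l 1] ≠
    mev u [Pi.single i 1, Pi.single l 1] * mev u [Pi.single k 1, Pi.single j 1]
  rw [mev_e, mev_e, mev_e, mev_e]
  exact h

/-- quadratic part a product of two independent linear forms -/
theorem strFree_of_prod {u : AS F (Fin 3)} (hu : ∀ W, cof u W ≠ 0 → W.length ≤ 2)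
    {r c : Fin 3 → F} (hB : ∀ i j, qB u i j = r i * c j) {i j : Fin 3}
    (h : r i * c j ≠ r j * c i) : StrFree u := by
  refine strFree_of_OT hu ?_
  have hpq : ∀ p q : Fin 3 → F, evL F [p, q] (bc F (tp 2 (cof u))) =
      (∑ i, r i * p i) * ∑ j, c j * q j := by
    intro p q
    have h1 := evL_tp (F := F) (K := F) [p, q] (cof u)
    have h2 : evL F [p, q] (bc F (tp 2 (cof u))) = mev u [p, q] := h1
    rw [h2, mev_two, Finset.sum_mul_sum]
    refine Finset.sum_congr rfl fun i _ => Finset.sum_congr rfl fun j _ => ?_
    rw [hB]; ring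
  apply OT_descent (K := F)
  have hHom : Hom (0 + 2) (bc F (tp 2 (cof u))) := by
    intro W hW
    apply tp_hom 2 (cof u) W
    intro h0
    apply hW
    show algebraMap F F (tp 2 (cof u) W) = 0
    rw [h0, map_zero]
  apply OT_of_path hHom
  intro N
  have hD : r i * c j - r j * c i ≠ 0 := sub_ne_zero.mpr h
  let D := r i * c j - r j * c i
  let ε : Fin 3 → F := fun x => (if x = i then c j else 0) * D⁻¹ - (if x = j then c i else 0) * D⁻¹
  have e1 : ∀ a : Fin 3 → F, ∑ x, a x * ε x = (a i * c j - a j * c i) * D⁻¹ := by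
    intro a
    simp only [ε, mul_sub, Finset.sum_sub_distrib, ite_mul, mul_ite, zero_mul, mul_zero,
      Finset.sum_ite_eq', Finset.mem_univ, if_true]
    ring
  have hr : ∑ x, r x * ε x = 1 := by rw [e1]; exact mul_inv_cancel₀ hD
  have hc : ∑ x, c x * ε x = 0 := by rw [e1]; ring
  have hc0 : ∃ m, c m ≠ 0 := by
    by_contra h0
    push Not at h0
    apply h
    rw [h0 j, h0 i, mul_zero, mul_zero]
  obtain ⟨m, hm⟩ := hc0
  obtain ⟨lam, hl⟩ := path_of_ev (K := F) (N := N) (ε := fun _ => ε) hHom (by
    intro n _
    have s1 : seg (fun _ : ℕ => ε) n (0 + 2) = [ε, ε] := rfl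
    have s2 : seg (fun _ : ℕ => ε) n (0 + 1) = [ε] := rfl
    rw [s1, s2]
    refine ⟨?_, Pi.single m 1, ?_⟩
    · rw [hpq, hc, mul_zero]
    · show evL F [ε, Pi.single m 1] _ ≠ 0
      rw [hpq, hr, one_mul, Finset.sum_eq_single m]
      · rw [Pi.single_eq_same, mul_one]; exact hm
      · intro b _ hb
        rw [Pi.single_eq_of_ne hb, mul_zero]
      · intro h; exact absurd (Finset.mem_univ _) h)
  exact ⟨_, lam, hl⟩

end

end Pool.Agent.Helper120_Alt
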