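import Pool.Agent.Helper120_Alt.R3.Raw4

set_option autoImplicit false

namespace Pool.Agent.Helper120_Alt.NoOverlap

open Pool.Agent.Helper120_Alt

/-- Alternative algebras with three generators and one relation, over a field of characteristic
not two: if the leading word of the associative image of the relator does not overlap itself,
the word problem is decidable. -/
theorem noOverlap (F : Type) [Field F] [Primcodable F]
    (hadd : Computable₂ fun a b : F => a + b) (hmul : Computable₂ fun a b : F => a * b)
    (h2 : (2 : F) ≠ 0)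
    (lt : List (Fin 3) → List (Fin 3) → Prop) (htot : IsStrictTotalOrder (List (Fin 3)) lt)
    (hwf : WellFounded lt)
    (hcomp : ∀ a b c d : List (Fin 3), lt a b → lt (c ++ a ++ d) (c ++ b ++ d))
    (f : NA F (Fin 3)) (w : FreeSemigroup (Fin 3))
    (hw : (psi F (Fin 3) f).coeff w ≠ 0)
    (hmax : ∀ v : FreeSemigroup (Fin 3), (psi F (Fin 3) f).coeff v ≠ 0 → v ≠ w →
      lt (lets v) (lets w))
    (hno : ∀ a b c : List (Fin 3), lets w = a ++ b → lets w = b ++ c → b = [] ∨ a = []) :
    AltDecidable F (Fin 3) {f} := by
  have hchi : ∀ v : FreeSemigroup (Fin 3), R3.chi F f (lets v) = (psi F (Fin 3) f).coeff v :=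
    fun v => Finsupp.mapDomain_apply R3.lets_inj _ v
  have hr : ∀ W : List (Fin 3), R3.chi F f W ≠ 0 → ∃ v, lets v = W := by
    intro W hW
    by_contra hv
    exact hW (Finsupp.mapDomain_of_notMem_range _ _ hv)
  refine R3.main3 hadd hmul h2 (lt := lt) (m0 := lets w)
    { wf := hwf
      comp := hcomp
      lead := ?_
      low := ?_
      no := hno }
  · rw [hchi]; exact hw
  · intro W hW hne
    obtain ⟨v, rfl⟩ := hr W hW
    rw [hchi] at hW
    exact hmax v hW fun h => hne (by rw [h])

end Pool.Agent.Helper120_Alt.NoOverlap
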