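import Pool.Agent.Helper120_Alt.Top3

set_option autoImplicit false

/-! Products of polynomials and the tensor square. -/

namespace Pool.Agent.Helper120_Alt

noncomputable section

variable {K X : Type} [Field K]

/-- a word as a polynomial -/
def wd (K : Type) {X : Type} [Field K] (W : List X) : List X →₀ K := Finsupp.single W 1

/-- the product -/
def mm : (List X →₀ K) →ₗ[K] (List X →₀ K) →ₗ[K] (List X →₀ K) :=
  Finsupp.linearCombination K fun W => shW K W []

theorem mm_single (W : List X) (a : K) (h : List X →₀ K) :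
    mm (Finsupp.single W a) h = a • shW K W [] h := by
  unfold mm
  rw [Finsupp.linearCombination_single]
  rfl

theorem mm_wd (W : List X) (h : List X →₀ K) : mm (wd K W) h = shW K W [] h := by
  unfold wd
  rw [mm_single, one_smul]

theorem mm_sw (g : List X →₀ K) (B : List X) (b : K) :
    mm g (Finsupp.single B b) = b • shW K [] B g := by
  induction g using Finsupp.induction_linear with
  | zero => simp
  | add s t hs ht => rw [map_add, LinearMap.add_apply, hs, ht, map_add, smul_add]
  | single W c =>
    rw [mm_single, shW_single, shW_single, Finsupp.smul_single, Finsupp.smul_single]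
    simp [mul_comm]

theorem mm_wd' (g : List X →₀ K) (B : List X) : mm g (wd K B) = shW K [] B g := by
  unfold wd
  rw [mm_sw, one_smul]

theorem mm_shW (W : List X) (h k : List X →₀ K) :
    mm (shW K W [] h) k = shW K W [] (mm h k) := by
  induction h using Finsupp.induction_linear with
  | zero => simp
  | add s t hs ht =>
    rw [map_add, map_add, LinearMap.add_apply, hs, ht, map_add, LinearMap.add_apply, map_add]
  | single V b =>
    rw [shW_single, mm_single, mm_single, map_smul, shW_shW]
    simp

theorem mm_assoc (g h k : List X →₀ K) : mm (mm g h) k = mm g (mm h k) := by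
  induction g using Finsupp.induction_linear with
  | zero => simp
  | add s t hs ht =>
    rw [map_add, LinearMap.add_apply, map_add, LinearMap.add_apply, hs, ht,
      LinearMap.add_apply]
  | single W a =>
    rw [mm_single, mm_single, map_smul, LinearMap.smul_apply, mm_shW]

theorem mm_one (g : List X →₀ K) : mm g (wd K []) = g := by
  rw [mm_wd', shW_nil]

theorem one_mm (g : List X →₀ K) : mm (wd K []) g = g := by
  rw [mm_wd, shW_nil]

theorem shW_eq_mm (A B : List X) (g : List X →₀ K) :
    shW K A B g = mm (wd K A) (mm g (wd K B)) := by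
  rw [mm_wd', mm_wd, shW_shW]
  simp

/-- the tensor product of two polynomials -/
def ten : (List X →₀ K) →ₗ[K] (List X →₀ K) →ₗ[K] ((List X × List X) →₀ K) :=
  (TensorProduct.mk K (List X →₀ K) (List X →₀ K)).compr₂
    (finsuppTensorFinsupp' K (List X) (List X)).toLinearMap

theorem ten_single (A B : List X) (a b : K) :
    ten (Finsupp.single A a) (Finsupp.single B b) = Finsupp.single (A, B) (a * b) := by
  unfold ten
  simp [finsuppTensorFinsupp'_single_tmul_single]

theorem ten_wd (A B : List X) : ten (wd K A) (wd K B) = Finsupp.single (A, B) 1 := by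
  unfold wd
  rw [ten_single, one_mul]

/-- linear extension in one argument -/
theorem lin_ext {V : Type} [AddCommGroup V] [Module K V] (T : Submodule K V)
    (φ : (List X →₀ K) →ₗ[K] V) (h : ∀ W, φ (wd K W) ∈ T) (g : List X →₀ K) : φ g ∈ T := by
  induction g using Finsupp.induction_linear with
  | zero => rw [map_zero]; exact zero_mem _
  | add s t hs ht => rw [map_add]; exact add_mem hs ht
  | single W a =>
    have : (Finsupp.single W a : List X →₀ K) = a • wd K W := by
      unfold wd; rw [Finsupp.smul_single, smul_eq_mul, mul_one]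
    rw [this, map_smul]
    exact Submodule.smul_mem _ _ (h W)

theorem lin_ext_eq {V : Type} [AddCommGroup V] [Module K V]
    (φ φ' : (List X →₀ K) →ₗ[K] V) (h : ∀ W, φ (wd K W) = φ' (wd K W)) (g : List X →₀ K) :
    φ g = φ' g := by
  have := lin_ext (⊥ : Submodule K V) (φ - φ') (fun W => by
    rw [LinearMap.sub_apply, h, sub_self]; exact zero_mem _) g
  rw [Submodule.mem_bot, LinearMap.sub_apply, sub_eq_zero] at this
  exact this

theorem syW_ten (w g h : List X →₀ K) : syW w (ten g h) = mm g (mm w h) := by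
  have h1 : ∀ A, syW w (ten (wd K A) h) = mm (wd K A) (mm w h) := by
    intro A
    refine lin_ext_eq (syW w ∘ₗ ten (wd K A)) (mm (wd K A) ∘ₗ mm w) (fun B => ?_) h
    show syW w (ten (wd K A) (wd K B)) = mm (wd K A) (mm w (wd K B))
    rw [ten_wd, syW_single, one_smul, shW_eq_mm]
  exact lin_ext_eq (syW w ∘ₗ ten.flip h) (mm.flip (mm w h)) h1 g

theorem shL_ten (A B : List X) (g h : List X →₀ K) :
    shL K A B (ten g h) = ten (mm (wd K A) g) (mm h (wd K B)) := by
  have h1 : ∀ P, shL K A B (ten (wd K P) h) = ten (mm (wd K A) (wd K P)) (mm h (wd K B)) := by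
    intro P
    refine lin_ext_eq (shL K A B ∘ₗ ten (wd K P))
      (ten (mm (wd K A) (wd K P)) ∘ₗ mm.flip (wd K B)) (fun Q => ?_) h
    show shL K A B (ten (wd K P) (wd K Q)) = ten (mm (wd K A) (wd K P)) (mm (wd K Q) (wd K B))
    rw [ten_wd, shL_single, mm_wd, mm_wd']
    unfold wd
    rw [shW_single, shW_single, ten_single, one_mul]
    simp
  exact lin_ext_eq (shL K A B ∘ₗ ten.flip h)
    (ten.flip (mm h (wd K B)) ∘ₗ mm (wd K A)) h1 g

theorem tsW_ten (w : List X →₀ K) (P V Q : List X) :
    tsW w P V Q = ten (wd K P) (mm (wd K V) (mm w (wd K Q))) -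
      ten (mm (wd K P) (mm w (wd K V))) (wd K Q) := by
  rw [tsW_eq]
  refine lin_ext_eq _ (ten (wd K P) ∘ₗ mm (wd K V) ∘ₗ mm.flip (wd K Q) -
      ten.flip (wd K Q) ∘ₗ mm (wd K P) ∘ₗ mm.flip (wd K V)) (fun W => ?_) w
  show Finsupp.linearCombination K _ (wd K W) =
    ten (wd K P) (mm (wd K V) (mm (wd K W) (wd K Q))) -
      ten (mm (wd K P) (mm (wd K W) (wd K V))) (wd K Q)
  rw [← shW_eq_mm, ← shW_eq_mm]
  unfold wd
  rw [Finsupp.linearCombination_single, one_smul, shW_single, shW_single, ten_single, ten_single,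
    one_mul]

theorem ten_TrW (w P V Q : List X →₀ K) :
    ten P (mm V (mm w Q)) - ten (mm P (mm w V)) Q ∈ TrW w := by
  have h1 : ∀ P V Q' : List X, ten (wd K P) (mm (wd K V) (mm w (wd K Q'))) -
      ten (mm (wd K P) (mm w (wd K V))) (wd K Q') ∈ TrW w := by
    intro P V Q'
    rw [← tsW_ten]
    exact Submodule.subset_span ⟨_, _, _, rfl⟩
  have h2 : ∀ P V : List X, ten (wd K P) (mm (wd K V) (mm w Q)) -
      ten (mm (wd K P) (mm w (wd K V))) Q ∈ TrW w := by
    intro P V
    exact lin_ext (TrW w) (ten (wd K P) ∘ₗ mm (wd K V) ∘ₗ mm w -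
      ten (mm (wd K P) (mm w (wd K V)))) (fun W => h1 P V W) Q
  have h3 : ∀ P : List X, ten (wd K P) (mm V (mm w Q)) -
      ten (mm (wd K P) (mm w V)) Q ∈ TrW w := by
    intro P
    exact lin_ext (TrW w) (ten (wd K P) ∘ₗ mm.flip (mm w Q) -
      ten.flip Q ∘ₗ mm (wd K P) ∘ₗ mm w) (fun W => h2 P W) V
  exact lin_ext (TrW w) (ten.flip (mm V (mm w Q)) -
      ten.flip Q ∘ₗ mm.flip (mm w V)) (fun W => h3 W) P

end

end Pool.Agent.Helper120_Alt
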