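import Pool.Agent.Helper120_Alt.Pow1

set_option autoImplicit false

/-! Expansions of polynomials with respect to an element with only trivial syzygies. -/

namespace Pool.Agent.Helper120_Alt

noncomputable section

variable {K X : Type} [Field K]

theorem c0_tsW {w : List X →₀ K} (h0 : w [] = 0) (P V Q : List X) :
    c0 K (tsW w P V Q) ∈ IW w := by
  classical
  match P with
  | [] =>
    have : c0 K (tsW w [] V Q) = shW K V Q w := by
      rw [tsW_eq, Finsupp.linearCombination_apply, Finsupp.sum, map_sum]
      conv_rhs => rw [← Finsupp.sum_single w]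
      rw [Finsupp.sum, map_sum]
      refine Finset.sum_congr rfl fun W hW => ?_
      match W, hW with
      | [], hW => exact absurd h0 (Finsupp.mem_support_iff.mp hW)
      | x :: W, _ =>
        rw [map_smul, map_sub, c0_nil, shW_single]
        show w (x :: W) • (_ - c0 K (Finsupp.single (x :: (W ++ V), Q) 1)) = _
        rw [c0_cons, sub_zero, Finsupp.smul_single, smul_eq_mul, mul_one]
    rw [this]
    exact ⟨Finsupp.single (V, Q) 1, by rw [syW_single, one_smul]⟩
  | x :: P =>
    have : c0 K (tsW w (x :: P) V Q) = 0 := by
      rw [tsW_eq, Finsupp.linearCombination_apply, Finsupp.sum, map_sum]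
      refine Finset.sum_eq_zero fun W _ => ?_
      rw [map_smul, map_sub]
      show w W • (c0 K (Finsupp.single (x :: P, V ++ W ++ Q) 1) -
        c0 K (Finsupp.single (x :: (P ++ W ++ V), Q) 1)) = 0
      rw [c0_cons, c0_cons, sub_zero, smul_zero]
    rw [this]
    exact zero_mem _

theorem c0_TrW {w : List X →₀ K} (h0 : w [] = 0) {t : (List X × List X) →₀ K} (ht : t ∈ TrW w) :
    c0 K t ∈ IW w := by
  have : TrW w ≤ (IW w).comap (c0 K) := by
    unfold TrW
    rw [Submodule.span_le]
    rintro _ ⟨P, V, Q, rfl⟩
    exact c0_tsW h0 P V Q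
  exact this ht

theorem c0_apply (t : (List X × List X) →₀ K) (Q : List X) : c0 K t Q = t ([], Q) := by
  classical
  induction t using Finsupp.induction_linear with
  | zero => simp
  | add s t hs ht => rw [map_add, Finsupp.add_apply, Finsupp.add_apply, hs, ht]
  | single y a =>
    obtain ⟨P', Q'⟩ := y
    match P' with
    | [] =>
      rw [c0_nil, Finsupp.single_apply, Finsupp.single_apply]
      simp
    | y :: P' =>
      rw [c0_cons, Finsupp.single_apply, if_neg (by simp)]
      rfl

section order

variable [Encodable X]

/-- an order of the words -/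
def ltW (W W' : List X) : Prop :=
  toLex (W.length, Encodable.encode W) < toLex (W'.length, Encodable.encode W')

theorem ltW_wf : WellFounded (ltW (X := X)) :=
  InvImage.wf (fun W : List X => toLex (W.length, Encodable.encode W)) wellFounded_lt

theorem ltW_len {W W' : List X} (h : ltW W W') : W.length ≤ W'.length := by
  unfold ltW at h
  rw [Prod.Lex.toLex_lt_toLex] at h
  rcases h with h | h
  · exact h.le
  · exact h.1.le

/-- the smaller words modulo the ideal -/
def lwB (v : List X →₀ K) (W : List X) : Submodule K (List X →₀ K) :=
  IW v ⊔ Submodule.span K {x | ∃ W', ltW W' W ∧ x = wd K W'}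

/-- the basic words -/
def isB (v : List X →₀ K) (W : List X) : Prop := wd K W ∉ lwB v W

theorem isB_indep {v g : List X →₀ K} (hg : ∀ W, g W ≠ 0 → isB v W) (hI : g ∈ IW v) : g = 0 := by
  classical
  by_contra hne
  have hs : g.support.Nonempty := Finsupp.support_nonempty_iff.mpr hne
  obtain ⟨W, hW, hmax⟩ := Finset.exists_max_image g.support
    (fun W : List X => toLex (W.length, Encodable.encode W)) hs
  have hW' := Finsupp.mem_support_iff.mp hW
  apply hg W hW'
  have e : wd K W = (g W)⁻¹ • g - (g W)⁻¹ • ∑ W' ∈ g.support.erase W, g W' • wd K W' := by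
    rw [← smul_sub]
    have h1 : g = ∑ W' ∈ g.support, g W' • wd K W' := by
      conv_lhs => rw [← Finsupp.sum_single g]
      rw [Finsupp.sum]
      refine Finset.sum_congr rfl fun W' _ => ?_
      unfold wd
      rw [Finsupp.smul_single, smul_eq_mul, mul_one]
    have h2 : g - ∑ W' ∈ g.support.erase W, g W' • wd K W' = g W • wd K W := by
      rw [sub_eq_iff_eq_add]
      conv_lhs => rw [h1]
      rw [← Finset.add_sum_erase _ _ hW]
    rw [h2, smul_smul, inv_mul_cancel₀ hW', one_smul]
  rw [e]
  unfold lwB
  refine Submodule.sub_mem _ (Submodule.mem_sup_left (Submodule.smul_mem _ _ hI))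
    (Submodule.mem_sup_right (Submodule.smul_mem _ _ (Submodule.sum_mem _ fun W' hW'' => ?_)))
  refine Submodule.smul_mem _ _ (Submodule.subset_span ⟨W', ?_, rfl⟩)
  rw [Finset.mem_erase] at hW''
  have h3 := hmax W' hW''.2
  unfold ltW
  refine lt_of_le_of_ne h3 fun h4 => hW''.1 ?_
  have h5 := toLex.injective h4
  rw [Prod.mk.injEq] at h5
  exact Encodable.encode_injective h5.2

theorem isB_span (v : List X →₀ K) (W : List X) : wd K W ∈
    Finsupp.supported K K {W' | isB v W' ∧ W'.length ≤ W.length} ⊔ IW v := by
  refine ltW_wf.induction (C := fun W => wd K W ∈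
    Finsupp.supported K K {W' | isB v W' ∧ W'.length ≤ W.length} ⊔ IW v) W ?_
  intro W ih
  by_cases h : isB v W
  · refine Submodule.mem_sup_left ?_
    exact Finsupp.single_mem_supported K 1 ⟨h, le_rfl⟩
  · unfold isB at h
    rw [not_not] at h
    unfold lwB at h
    obtain ⟨x, hx, y, hy, e⟩ := Submodule.mem_sup.mp h
    rw [← e]
    refine add_mem (Submodule.mem_sup_right hx) ?_
    refine (Submodule.span_le.mpr ?_) hy
    rintro _ ⟨W', hW', rfl⟩
    have h3 : (Finsupp.supported K K {W'' : List X | isB v W'' ∧ W''.length ≤ W'.length}) ≤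
        Finsupp.supported K K {W'' : List X | isB v W'' ∧ W''.length ≤ W.length} := by
      apply Finsupp.supported_mono
      rintro W'' ⟨h1, h2⟩
      exact ⟨h1, h2.trans (ltW_len hW')⟩
    exact (sup_le_sup_right h3 (IW v)) (ih W' hW')

omit [Encodable X] in
theorem IW_nil {v : List X →₀ K} (h0 : v [] = 0) {g : List X →₀ K} (hg : g ∈ IW v) :
    g [] = 0 := by
  obtain ⟨s, rfl⟩ := hg
  induction s using Finsupp.induction_linear with
  | zero => simp
  | add s t hs ht => rw [map_add, Finsupp.add_apply, hs, ht, add_zero]
  | single y a =>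
    obtain ⟨P, Q⟩ := y
    rw [syW_single, Finsupp.smul_apply]
    by_contra h
    have h1 : shW K P Q v [] ≠ 0 := by
      intro h2; apply h; rw [h2, smul_zero]
    obtain ⟨W, hW, h3⟩ := shW_ne _ _ _ _ h1
    have h4 : W = [] := by
      have := congrArg List.length hW
      simp only [List.length_append, List.length_nil] at this
      exact List.length_eq_zero_iff.mp (by omega)
    rw [h4] at h3
    exact h3 h0

theorem isB_nil {v : List X →₀ K} (h0 : v [] = 0) : isB v [] := by
  intro h
  unfold lwB at h
  obtain ⟨x, hx, y, hy, e⟩ := Submodule.mem_sup.mp h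
  have hy0 : y = 0 := by
    have : Submodule.span K {x | ∃ W', ltW W' ([] : List X) ∧ x = wd K W'} ≤ ⊥ := by
      rw [Submodule.span_le]
      rintro _ ⟨W', hW', rfl⟩
      exfalso
      have h1 := ltW_len hW'
      have h2 : W' = [] := List.length_eq_zero_iff.mp (by simpa using h1)
      rw [h2] at hW'
      exact lt_irrefl _ hW'
    exact this hy
  rw [hy0, add_zero] at e
  rw [e] at hx
  have h3 := IW_nil h0 hx
  unfold wd at h3
  rw [Finsupp.single_eq_same] at h3
  exact one_ne_zero h3

variable [DecidableEq X] [Fintype X]

/-- uniqueness of the left factors -/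
theorem star {v : List X →₀ K} (h0 : v [] = 0) (hO : OT v) (n : ℕ) :
    ∀ t : (List X × List X) →₀ K, (∀ y, t y ≠ 0 → y.1.length < n) → (∀ y, t y ≠ 0 → isB v y.2) →
      syW v t = 0 → t = 0 := by
  induction n with
  | zero =>
    intro t ht _ _
    ext y
    by_contra h
    exact absurd (ht y h) (by omega)
  | succ n ih =>
    intro t ht hB h
    have hc : c0 K t = 0 := by
      apply isB_indep (v := v)
      · intro W hW
        rw [c0_apply] at hW
        exact hB ([], W) hW
      · exact c0_TrW h0 (hO t h)
    have h6 := syW_split v t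
    rw [h, hc, mulL_zero, zero_add] at h6
    have h5 : ∀ x, syW v (dl K x t) = 0 := by
      intro x
      have h7 := ctr_sum v (Pi.single x 1) t
      rw [← h6, map_zero, Finset.sum_eq_single x] at h7
      · rw [Pi.single_eq_same, one_smul] at h7
        exact h7.symm
      · intro y _ hy
        rw [Pi.single_eq_of_ne hy, zero_smul]
      · intro h; exact absurd (Finset.mem_univ _) h
    have h8 : ∀ x, dl K x t = 0 := by
      intro x
      apply ih _ _ _ (h5 x)
      · rintro ⟨P, Q⟩ hy
        rw [dl_apply] at hy
        have h10 : (x :: P).length < n + 1 := ht (x :: P, Q) hy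
        rw [List.length_cons] at h10
        show P.length < n
        omega
      · rintro ⟨P, Q⟩ hy
        rw [dl_apply] at hy
        exact hB (x :: P, Q) hy
    have h9 := split_s t
    rw [hc, map_zero, zero_add] at h9
    rw [h9]
    exact Finset.sum_eq_zero fun x _ => by rw [h8 x, map_zero]

end order

/-- products of basic words and of the element, from the right -/
def Gm (v : List X →₀ K) : List (List X) → (List X →₀ K)
  | [] => wd K []
  | b :: ω => mm (mm (Gm v ω) (wd K b)) v

/-- the products ending with a basic word -/
def Em (v : List X →₀ K) : List (List X) → (List X →₀ K)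
  | [] => 0
  | b :: ω => mm (Gm v ω) (wd K b)

theorem Gm_cons (v : List X →₀ K) (b : List X) (ω : List (List X)) :
    Gm v (b :: ω) = mm (Em v (b :: ω)) v := rfl

theorem Gm_append (v : List X →₀ K) (ω' ω : List (List X)) :
    Gm v (ω' ++ ω) = mm (Gm v ω) (Gm v ω') := by
  induction ω' with
  | nil => exact (mm_one _).symm
  | cons b ω' ih =>
    show mm (mm (Gm v (ω' ++ ω)) (wd K b)) v = mm (Gm v ω) (mm (mm (Gm v ω') (wd K b)) v)
    rw [ih, mm_assoc, mm_assoc, mm_assoc]

theorem Em_append (v : List X →₀ K) {ω' ω : List (List X)} (h' : ω' ≠ []) (h : ω ≠ []) :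
    Em v (ω' ++ ω) = mm (Em v ω) (mm v (Em v ω')) := by
  match ω', ω, h', h with
  | b :: ω', c :: ω, _, _ =>
    show mm (Gm v (ω' ++ (c :: ω))) (wd K b) = mm (Em v (c :: ω)) (mm v (mm (Gm v ω') (wd K b)))
    rw [Gm_append, Gm_cons, mm_assoc, mm_assoc]

/-- the degree of an expansion, increased by `D` -/
def de (D : ℕ) : List (List X) → ℕ
  | [] => 0
  | b :: ω => b.length + D + de D ω

theorem de_append (D : ℕ) (ω' ω : List (List X)) : de D (ω' ++ ω) = de D ω' + de D ω := by
  induction ω' with
  | nil => simp [de]
  | cons b ω' ih =>
    show b.length + D + de D (ω' ++ ω) = b.length + D + de D ω' + de D ω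
    rw [ih]; ring

section exp

/-- existence of expansions -/
theorem exp_surj [Encodable X] {v : List X →₀ K} {D : ℕ} (hv : ∀ W, v W ≠ 0 → W.length ≤ D)
    (hO : OT (tp D v)) (hD : 0 < D) (n : ℕ) : ∀ W : List X, W.length ≤ n → wd K W ∈
      Submodule.span K {x | ∃ ω : List (List X), ω ≠ [] ∧ (∀ b ∈ ω, isB v b) ∧
        de D ω ≤ W.length + D ∧ x = Em v ω} := by
  classical
  induction n using Nat.strong_induction_on with
  | _ n ih =>
    intro W hWn
    obtain ⟨g, hg, h, hh, e⟩ := Submodule.mem_sup.mp (isB_span v W)
    rw [← e]
    refine add_mem ?_ ?_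
    · rw [Finsupp.supported_eq_span_single] at hg
      refine (Submodule.span_le.mpr ?_) hg
      rintro _ ⟨b, ⟨hb, hl⟩, rfl⟩
      refine Submodule.subset_span ⟨[b], by simp, by simpa using hb, ?_, ?_⟩
      · show b.length + D + 0 ≤ _
        omega
      · exact (one_mm _).symm
    · have hlen : ∀ W', h W' ≠ 0 → W'.length < (W.length + 1 - D) + D := by
        intro W' hW'
        have h1 : h = wd K W - g := by rw [← e]; abel
        rw [h1, Finsupp.sub_apply] at hW'
        have h2 : W'.length ≤ W.length := by
          by_cases h3 : g W' = 0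
          · rw [h3, sub_zero] at hW'
            unfold wd at hW'
            rw [Finsupp.single_apply] at hW'
            split_ifs at hW' with h4
            · rw [h4]
            · exact absurd rfl hW'
          · exact (hg (Finsupp.mem_support_iff.mpr h3)).2
        omega
      obtain ⟨s, rfl, hs⟩ := bdd_of_top hv hO hh hlen
      rw [← Finsupp.sum_single s, Finsupp.sum, map_sum]
      refine Submodule.sum_mem _ fun y hy => ?_
      obtain ⟨P, Q⟩ := y
      have h3 := hs _ (Finsupp.mem_support_iff.mp hy)
      simp only at h3
      have e1 : syW v (Finsupp.single (P, Q) (s (P, Q))) =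
          s (P, Q) • mm (wd K P) (mm v (wd K Q)) := by
        rw [syW_single, shW_eq_mm]
      rw [e1]
      refine Submodule.smul_mem _ _ ?_
      have hP := ih P.length (by omega) P le_rfl
      have hQ := ih Q.length (by omega) Q le_rfl
      generalize wd K P = p at hP ⊢
      generalize wd K Q = q at hQ ⊢
      induction hP using Submodule.span_induction with
      | mem x hx =>
        obtain ⟨ω, hω, hb, hd, rfl⟩ := hx
        induction hQ using Submodule.span_induction with
        | mem y hy =>
          obtain ⟨ω', hω', hb', hd', rfl⟩ := hy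
          refine Submodule.subset_span ⟨ω' ++ ω, by simp [hω], ?_, ?_, ?_⟩
          · intro b hb''
            rcases List.mem_append.mp hb'' with h4 | h4
            · exact hb' b h4
            · exact hb b h4
          · rw [de_append]; omega
          · rw [Em_append v hω' hω]
        | zero => rw [map_zero, map_zero]; exact zero_mem _
        | add y y' _ _ hy hy' => rw [map_add, map_add]; exact add_mem hy hy'
        | smul a y _ hy => rw [map_smul, map_smul]; exact Submodule.smul_mem _ _ hy
      | zero => rw [map_zero, LinearMap.zero_apply]; exact zero_mem _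
      | add y y' _ _ hy hy' => rw [map_add, LinearMap.add_apply]; exact add_mem hy hy'
      | smul a y _ hy => rw [map_smul, LinearMap.smul_apply]; exact Submodule.smul_mem _ _ hy

/-- expansion to element -/
def sE (v : List X →₀ K) : (List (List X) →₀ K) →ₗ[K] (List X →₀ K) :=
  Finsupp.linearCombination K (Em v)

theorem sE_single (v : List X →₀ K) (ω : List (List X)) (a : K) :
    sE v (Finsupp.single ω a) = a • Em v ω := by
  unfold sE
  rw [Finsupp.linearCombination_single]

/-- part of length one -/
def gl (K : Type) {X : Type} [Field K] : (List (List X) →₀ K) →ₗ[K] (List X →₀ K) :=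
  Finsupp.linearCombination K fun ω => match ω with
    | [b] => wd K b
    | _ => 0

/-- part of length at least two -/
def tl (v : List X →₀ K) : (List (List X) →₀ K) →ₗ[K] ((List X × List X) →₀ K) :=
  Finsupp.linearCombination K fun ω => match ω with
    | b :: c :: ω => ten (Em v (c :: ω)) (wd K b)
    | _ => 0

open Classical in
/-- removing the first entry -/
def cb (K : Type) {X : Type} [Field K] (b : List X) :
    (List (List X) →₀ K) →ₗ[K] (List (List X) →₀ K) :=
  Finsupp.linearCombination K fun ω => match ω with
    | b' :: c :: ω => if b' = b then Finsupp.single (c :: ω) 1 else 0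
    | _ => 0

open Classical in
/-- the part with given second entry -/
def rb (K : Type) {X : Type} [Field K] (b : List X) :
    ((List X × List X) →₀ K) →ₗ[K] (List X →₀ K) :=
  Finsupp.linearCombination K fun y => if y.2 = b then Finsupp.single y.1 1 else 0

theorem sE_split (v : List X →₀ K) (c : List (List X) →₀ K) :
    sE v c = gl K c + syW v (tl v c) := by
  induction c using Finsupp.induction_linear with
  | zero => simp
  | add s t hs ht => simp only [map_add, hs, ht]; abel
  | single ω a =>
    rw [sE_single]
    unfold gl tl
    rw [Finsupp.linearCombination_single, Finsupp.linearCombination_single]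
    match ω with
    | [] => show a • (0 : List X →₀ K) = a • 0 + syW v (a • 0); simp
    | [b] =>
      show a • mm (wd K []) (wd K b) = a • wd K b + syW v (a • 0)
      rw [one_mm]; simp
    | b :: c :: ω =>
      show a • mm (Gm v (c :: ω)) (wd K b) = a • 0 + syW v (a • ten (Em v (c :: ω)) (wd K b))
      rw [smul_zero, zero_add, map_smul, syW_ten, Gm_cons, mm_assoc]

theorem gl_apply (c : List (List X) →₀ K) (b : List X) : gl K c b = c [b] := by
  classical
  induction c using Finsupp.induction_linear with
  | zero => simp
  | add s t hs ht => rw [map_add, Finsupp.add_apply, Finsupp.add_apply, hs, ht]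
  | single ω a =>
    unfold gl
    rw [Finsupp.linearCombination_single]
    match ω with
    | [] => simp
    | [b'] =>
      show (a • wd K b') b = _
      unfold wd
      rw [Finsupp.smul_single, smul_eq_mul, mul_one, Finsupp.single_apply, Finsupp.single_apply]
      simp
    | b' :: c' :: ω => simp

theorem cb_apply (b c' : List X) (ω : List (List X)) (c : List (List X) →₀ K) :
    cb K b c (c' :: ω) = c (b :: c' :: ω) := by
  classical
  induction c using Finsupp.induction_linear with
  | zero => simp
  | add s t hs ht => rw [map_add, Finsupp.add_apply, Finsupp.add_apply, hs, ht]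
  | single α a =>
    unfold cb
    rw [Finsupp.linearCombination_single]
    match α with
    | [] => simp
    | [b'] => simp
    | b' :: c'' :: α =>
      show (a • (if b' = b then Finsupp.single (c'' :: α) (1 : K) else 0)) (c' :: ω) = _
      rw [Finsupp.single_apply]
      split_ifs with h1 h2 h2
      · simp only [List.cons.injEq] at h2
        rw [h2.2.1, h2.2.2]
        simp
      · rw [Finsupp.smul_apply, Finsupp.single_apply, if_neg, smul_zero]
        intro h3
        apply h2
        rw [h1, h3]
      · exfalso
        simp only [List.cons.injEq] at h2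
        exact h1 h2.1
      · simp

theorem cb_nil (b : List X) (c : List (List X) →₀ K) : cb K b c [] = 0 := by
  classical
  induction c using Finsupp.induction_linear with
  | zero => simp
  | add s t hs ht => rw [map_add, Finsupp.add_apply, hs, ht, add_zero]
  | single α a =>
    unfold cb
    rw [Finsupp.linearCombination_single]
    match α with
    | [] => simp
    | [b'] => simp
    | b' :: c'' :: α =>
      show (a • (if b' = b then Finsupp.single (c'' :: α) (1 : K) else 0)) [] = 0
      split_ifs <;> simp

open Classical in
theorem rb_ten (b b' : List X) (g : List X →₀ K) :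
    rb K b (ten g (wd K b')) = if b' = b then g else 0 := by
  have h1 : ∀ P, rb K b (ten (wd K P) (wd K b')) = if b' = b then wd K P else 0 := by
    intro P
    rw [ten_wd]
    unfold rb
    rw [Finsupp.linearCombination_single, one_smul]
    rfl
  by_cases h : b' = b
  · rw [if_pos h]
    refine lin_ext_eq (rb K b ∘ₗ ten.flip (wd K b')) LinearMap.id (fun P => ?_) g
    show rb K b (ten (wd K P) (wd K b')) = wd K P
    rw [h1, if_pos h]
  · rw [if_neg h]
    refine lin_ext_eq (rb K b ∘ₗ ten.flip (wd K b')) 0 (fun P => ?_) g
    show rb K b (ten (wd K P) (wd K b')) = 0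
    rw [h1, if_neg h]

theorem rb_tl (v : List X →₀ K) (b : List X) (c : List (List X) →₀ K) :
    rb K b (tl v c) = sE v (cb K b c) := by
  classical
  induction c using Finsupp.induction_linear with
  | zero => simp
  | add s t hs ht => simp only [map_add, hs, ht]
  | single α a =>
    unfold tl cb
    rw [Finsupp.linearCombination_single, Finsupp.linearCombination_single, map_smul, map_smul]
    congr 1
    match α with
    | [] => show rb K b 0 = sE v 0; simp
    | [b'] => show rb K b 0 = sE v 0; simp
    | b' :: c'' :: α =>
      show rb K b (ten (Em v (c'' :: α)) (wd K b')) =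
        sE v (if b' = b then Finsupp.single (c'' :: α) 1 else 0)
      rw [rb_ten]
      split_ifs with h
      · rw [sE_single, one_smul]
      · rw [map_zero]

theorem rb_apply (P Q : List X) (t : (List X × List X) →₀ K) : rb K Q t P = t (P, Q) := by
  classical
  induction t using Finsupp.induction_linear with
  | zero => simp
  | add s t hs ht => rw [map_add, Finsupp.add_apply, Finsupp.add_apply, hs, ht]
  | single y a =>
    obtain ⟨P', Q'⟩ := y
    unfold rb
    rw [Finsupp.linearCombination_single, Finsupp.single_apply]
    dsimp only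
    split_ifs with h1 h2 h2
    · simp only [Prod.mk.injEq] at h2
      rw [h2.1]; simp
    · rw [Finsupp.smul_apply, Finsupp.single_apply, if_neg, smul_zero]
      intro h3; apply h2; rw [h3, h1]
    · exfalso
      simp only [Prod.mk.injEq] at h2
      exact h1 h2.2
    · simp

variable [Encodable X] [DecidableEq X] [Fintype X]

/-- uniqueness of expansions -/
theorem exp_inj {v : List X →₀ K} (h0 : v [] = 0) (hO : OT v) (n : ℕ) :
    ∀ c : List (List X) →₀ K, (∀ ω, c ω ≠ 0 → ω ≠ [] ∧ (∀ b ∈ ω, isB v b) ∧ ω.length ≤ n) →
      sE v c = 0 → c = 0 := by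
  classical
  induction n with
  | zero =>
    intro c hc _
    ext ω
    by_contra h
    obtain ⟨h1, _, h2⟩ := hc ω h
    exact h1 (List.length_eq_zero_iff.mp (by omega))
  | succ n ih =>
    intro c hc h
    rw [sE_split] at h
    have hg : gl K c = 0 := by
      apply isB_indep (v := v)
      · intro W hW
        rw [gl_apply] at hW
        exact (hc _ hW).2.1 W (by simp)
      · have : gl K c = -syW v (tl v c) := by
          rw [← sub_eq_zero, sub_neg_eq_add]; exact h
        rw [this]
        exact neg_mem ⟨_, rfl⟩
    rw [hg, zero_add] at h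
    have ht : tl v c = 0 := by
      refine star h0 hO ((tl v c).support.sup (fun x => x.1.length + 1)) _ ?_ ?_ h
      · intro y hy
        exact Nat.lt_of_succ_le (Finset.le_sup (f := fun x : List X × List X => x.1.length + 1)
          (Finsupp.mem_support_iff.mpr hy))
      · rintro ⟨P, Q⟩ hy
        have h1 : rb K Q (tl v c) P ≠ 0 := by
          rw [rb_apply]; exact hy
        rw [rb_tl] at h1
        have h2 : cb K Q c ≠ 0 := by
          intro h3; rw [h3, map_zero] at h1; exact h1 rfl
        obtain ⟨ω, hω⟩ := Finsupp.ne_iff.mp h2
        match ω, hω with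
        | [], hω => exact absurd (cb_nil Q c) hω
        | c' :: ω, hω =>
          rw [cb_apply] at hω
          exact (hc _ hω).2.1 Q (by simp)
    have hcb : ∀ b, cb K b c = 0 := by
      intro b
      apply ih
      · intro ω hω
        match ω, hω with
        | [], hω => exact absurd (cb_nil b c) hω
        | c' :: ω, hω =>
          rw [cb_apply] at hω
          obtain ⟨_, h2, h3⟩ := hc _ hω
          refine ⟨by simp, fun x hx => h2 x (List.mem_cons_of_mem _ hx), ?_⟩
          simp only [List.length_cons] at h3 ⊢
          omega
      · rw [← rb_tl, ht, map_zero]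
    ext ω
    match ω with
    | [] =>
      by_contra h1
      exact (hc [] h1).1 rfl
    | [b] => rw [← gl_apply, hg]; rfl
    | b :: c' :: ω => rw [← cb_apply, hcb]; rfl

theorem exp_inj' {v : List X →₀ K} (h0 : v [] = 0) (hO : OT v) {c : List (List X) →₀ K}
    (hc : ∀ ω, c ω ≠ 0 → ω ≠ [] ∧ ∀ b ∈ ω, isB v b) (h : sE v c = 0) : c = 0 := by
  refine exp_inj h0 hO (c.support.sup List.length) c (fun ω hω => ?_) h
  exact ⟨(hc ω hω).1, (hc ω hω).2, Finset.le_sup (f := List.length)
    (Finsupp.mem_support_iff.mpr hω)⟩

end exp

end

end Pool.Agent.Helper120_Alt
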