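import Pool.Agent.Helper120_Alt.Pow2

set_option autoImplicit false

/-! Polynomials in an element with only trivial syzygies: words and normal forms. -/

namespace Pool.Agent.Helper120_Alt

noncomputable section

variable {K X : Type} [Field K]

/-- powers -/
def vp (v : List X →₀ K) : ℕ → (List X →₀ K)
  | 0 => wd K []
  | j + 1 => mm (vp v j) v

theorem vp_comm (v : List X →₀ K) (j : ℕ) : mm v (vp v j) = mm (vp v j) v := by
  induction j with
  | zero => show mm v (wd K []) = mm (wd K []) v; rw [mm_one, one_mm]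
  | succ j ih =>
    show mm v (mm (vp v j) v) = mm (mm (vp v j) v) v
    rw [← mm_assoc, ih]

/-- polynomials without constant term in an element -/
def pu (v : List X →₀ K) (c : ℕ → K) (r : ℕ) : List X →₀ K :=
  ∑ j ∈ Finset.range (r + 1), c j • vp v (j + 1)

theorem pu_comm (v : List X →₀ K) (c : ℕ → K) (r : ℕ) : mm v (pu v c r) = mm (pu v c r) v := by
  unfold pu
  rw [map_sum, map_sum, LinearMap.sum_apply]
  refine Finset.sum_congr rfl fun j _ => ?_
  rw [map_smul, map_smul, LinearMap.smul_apply, vp_comm]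

theorem Em_mul (v : List X →₀ K) {ω : List (List X)} (h : ω ≠ []) :
    mm (Em v ω) v = Gm v ω := by
  match ω, h with
  | b :: ω, _ => rfl

theorem Gm_rep (v : List X →₀ K) (j : ℕ) (ω : List (List X)) :
    Gm v (List.replicate j [] ++ ω) = mm (Gm v ω) (vp v j) := by
  induction j with
  | zero =>
    rw [List.replicate_zero, List.nil_append]
    unfold vp
    rw [mm_one]
  | succ j ih =>
    rw [List.replicate_succ, List.cons_append]
    show mm (mm (Gm v (List.replicate j [] ++ ω)) (wd K [])) v = mm (Gm v ω) (mm (vp v j) v)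
    rw [mm_one, ih, mm_assoc]

theorem Em_ins (v : List X →₀ K) (j : ℕ) {ω' ω : List (List X)} (h' : ω' ≠ []) (h : ω ≠ []) :
    Em v (ω' ++ (List.replicate j [] ++ ω)) = mm (Em v ω) (mm (vp v (j + 1)) (Em v ω')) := by
  have h2 : List.replicate j [] ++ ω ≠ [] := by simp [h]
  rw [Em_append v h' h2, ← mm_assoc, Em_mul v h2, Gm_rep, ← Em_mul v h, mm_assoc, mm_assoc]
  congr 1
  rw [← mm_assoc, vp_comm]
  rfl

theorem Em_pu (v : List X →₀ K) (c : ℕ → K) (r : ℕ) {ω' ω : List (List X)} (h' : ω' ≠ [])
    (h : ω ≠ []) : mm (Em v ω) (mm (pu v c r) (Em v ω')) =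
      ∑ j ∈ Finset.range (r + 1), c j • Em v (ω' ++ (List.replicate j [] ++ ω)) := by
  unfold pu
  rw [map_sum, LinearMap.sum_apply, map_sum]
  refine Finset.sum_congr rfl fun j _ => ?_
  rw [Em_ins v j h' h, map_smul, LinearMap.smul_apply, map_smul]

/-- normal lists -/
def Nrm (r : ℕ) (ω : List (List X)) : Prop :=
  ω ≠ [] ∧ (∀ ω', ω = [] :: ω' → ω' = []) ∧
    ∀ ω₂ ω₁, ω = ω₂ ++ (List.replicate r [] ++ ω₁) → ω₂ = [] ∨ ω₁ = []

theorem nrm_aux {r : ℕ} {ω α τ ω' α' : List (List X)} (hω : Nrm r ω) (hα : α ≠ [])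
    (h1 : ω = τ ++ α) (h2 : α' ++ List.replicate r [] = (ω' ++ List.replicate r []) ++ τ) :
    τ = [] := by
  by_contra hτ
  have s1 : τ <:+ α' ++ List.replicate r [] := by rw [h2]; exact List.suffix_append _ _
  have s2 : List.replicate r [] <:+ α' ++ List.replicate r [] := List.suffix_append _ _
  by_cases hl : τ.length ≤ r
  · have s3 : τ <:+ List.replicate r [] :=
      List.suffix_of_suffix_length_le s1 s2 (by simpa using hl)
    match τ, hτ, h1, s3 with
    | b :: τ, _, h1, s3 =>
      have hb : b = [] := List.eq_of_mem_replicate (s3.subset (List.mem_cons_self))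
      rw [hb] at h1
      have := hω.2.1 (τ ++ α) (by simpa using h1)
      exact hα (List.append_eq_nil_iff.mp this).2
  · have s3 : List.replicate r [] <:+ τ :=
      List.suffix_of_suffix_length_le s2 s1 (by simpa using (by omega : r ≤ τ.length))
    obtain ⟨τ', rfl⟩ := s3
    rw [List.append_assoc] at h1
    rcases hω.2.2 _ _ h1 with h3 | h3
    · rw [h3] at hl
      simp at hl
    · exact hα h3

theorem nrm_inj {r : ℕ} {ω α ω' α' : List (List X)} (hω : Nrm r ω) (hα : Nrm r α)
    (h : ω' ++ (List.replicate r [] ++ ω) = α' ++ (List.replicate r [] ++ α)) :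
    ω = α ∧ ω' = α' := by
  have h0 : (ω' ++ List.replicate r []) ++ ω = (α' ++ List.replicate r []) ++ α := by
    rw [List.append_assoc, List.append_assoc]; exact h
  have key : ω = α := by
    rcases List.append_eq_append_iff.mp h0 with ⟨τ, h1, h2⟩ | ⟨τ, h1, h2⟩
    · have := nrm_aux hω hα.1 h2 h1
      rw [h2, this]; rfl
    · have := nrm_aux hα hω.1 h2 h1
      rw [h2, this]; rfl
  refine ⟨key, ?_⟩
  rw [key] at h
  exact List.append_cancel_right h

theorem de_rep (D j : ℕ) : de D (List.replicate j ([] : List X)) = j * D := by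
  induction j with
  | zero => simp [de]
  | succ j ih =>
    show 0 + D + de D (List.replicate j []) = _
    rw [ih]; ring

/-- values of normal sums -/
def xi (c : ℕ → K) (r : ℕ) :
    ((List (List X) × List (List X)) →₀ K) →ₗ[K] (List (List X) →₀ K) :=
  Finsupp.linearCombination K fun y => ∑ j ∈ Finset.range (r + 1),
    c j • Finsupp.single (y.2 ++ (List.replicate j [] ++ y.1)) (1 : K)

open Classical in
theorem xi_apply (c : ℕ → K) (r : ℕ) (γ : (List (List X) × List (List X)) →₀ K)
    (ω : List (List X)) : xi c r γ ω = ∑ y ∈ γ.support, ∑ j ∈ Finset.range (r + 1),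
      if y.2 ++ (List.replicate j [] ++ y.1) = ω then γ y * c j else 0 := by
  unfold xi
  rw [Finsupp.linearCombination_apply, Finsupp.sum, Finsupp.finsetSum_apply]
  refine Finset.sum_congr rfl fun y _ => ?_
  rw [Finsupp.smul_apply, Finsupp.finsetSum_apply, Finset.smul_sum]
  refine Finset.sum_congr rfl fun j _ => ?_
  rw [Finsupp.smul_apply, Finsupp.single_apply]
  split_ifs with h
  · simp
  · simp

/-- leading terms -/
theorem xi_lead {r : ℕ} {c : ℕ → K} (hr : c r ≠ 0) {D : ℕ} (hD : 0 < D)
    {γ : (List (List X) × List (List X)) →₀ K} (hγ : ∀ y, γ y ≠ 0 → Nrm r y.1) {M : ℕ}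
    (hM : ∀ ω, xi c r γ ω ≠ 0 → de D ω < M) :
    ∀ y, γ y ≠ 0 → de D y.1 + de D y.2 + r * D < M := by
  classical
  intro y0 hy0
  have hs : γ.support.Nonempty := ⟨y0, Finsupp.mem_support_iff.mpr hy0⟩
  obtain ⟨y, hy, hmax⟩ := Finset.exists_max_image γ.support
    (fun y => de D y.1 + de D y.2) hs
  have h0 := hmax y0 (Finsupp.mem_support_iff.mpr hy0)
  have hy' := Finsupp.mem_support_iff.mp hy
  have key : xi c r γ (y.2 ++ (List.replicate r [] ++ y.1)) = γ y * c r := by
    rw [xi_apply, Finset.sum_eq_single y]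
    · rw [Finset.sum_eq_single r]
      · rw [if_pos rfl]
      · intro j hj hne
        rw [if_neg]
        intro h
        apply hne
        have h1 := congrArg (de D) h
        rw [de_append, de_append, de_append, de_append, de_rep, de_rep] at h1
        have h2 : j * D = r * D := by omega
        exact Nat.eq_of_mul_eq_mul_right hD h2
      · intro h; exact absurd (Finset.self_mem_range_succ r) h
    · intro z hz hne
      refine Finset.sum_eq_zero fun j hj => ?_
      rw [if_neg]
      intro h
      have h1 := congrArg (de D) h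
      rw [de_append, de_append, de_append, de_append, de_rep, de_rep] at h1
      have h2 := hmax z hz
      have h3 : r * D ≤ j * D := by omega
      have h4 : r ≤ j := Nat.le_of_mul_le_mul_right h3 hD
      have h5 : j = r := by
        rw [Finset.mem_range] at hj
        omega
      rw [h5] at h
      obtain ⟨e1, e2⟩ := nrm_inj (hγ z (Finsupp.mem_support_iff.mp hz)) (hγ y hy') h
      exact hne (Prod.ext e1 e2)
    · intro h; exact absurd hy h
  have h1 := hM _ (by rw [key]; exact mul_ne_zero hy' hr)
  rw [de_append, de_append, de_rep] at h1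
  omega

theorem mm_len {g h : List X →₀ K} {a b : ℕ} (hg : ∀ W, g W ≠ 0 → W.length ≤ a)
    (hh : ∀ W, h W ≠ 0 → W.length ≤ b) (W : List X) (hW : mm g h W ≠ 0) : W.length ≤ a + b := by
  unfold mm at hW
  rw [Finsupp.linearCombination_apply, Finsupp.sum, LinearMap.sum_apply,
    Finsupp.finsetSum_apply] at hW
  obtain ⟨A, hA, h1⟩ := Finset.exists_ne_zero_of_sum_ne_zero hW
  have h2 : shW K A [] h W ≠ 0 := by
    intro h3; apply h1; rw [LinearMap.smul_apply, Finsupp.smul_apply, h3, smul_zero]
  obtain ⟨B, rfl, h4⟩ := shW_ne _ _ _ _ h2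
  have h5 := hg A (Finsupp.mem_support_iff.mp hA)
  have h6 := hh B h4
  simp only [List.length_append, List.length_nil]
  omega

theorem wd_len (b W : List X) (h : wd K b W ≠ 0) : W.length ≤ b.length := by
  classical
  unfold wd at h
  rw [Finsupp.single_apply] at h
  split_ifs at h with h1
  · rw [h1]
  · exact absurd rfl h

theorem Gm_len {v : List X →₀ K} {D : ℕ} (hv : ∀ W, v W ≠ 0 → W.length ≤ D)
    (ω : List (List X)) : ∀ W, Gm v ω W ≠ 0 → W.length ≤ de D ω := by
  induction ω with
  | nil => intro W hW; exact wd_len (K := K) [] W hW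
  | cons b ω ih =>
    intro W hW
    have h1 := mm_len (mm_len ih (wd_len (K := K) b)) hv W hW
    show W.length ≤ b.length + D + de D ω
    omega

theorem Em_len {v : List X →₀ K} {D : ℕ} (hv : ∀ W, v W ≠ 0 → W.length ≤ D)
    (ω : List (List X)) (W : List X) (hW : Em v ω W ≠ 0) : W.length + D ≤ de D ω := by
  match ω, hW with
  | [], hW => exact absurd rfl hW
  | b :: ω, hW =>
    have h1 := mm_len (Gm_len hv ω) (wd_len (K := K) b) W hW
    show W.length + D ≤ b.length + D + de D ω
    omega

theorem ten_ne {g h : List X →₀ K} {z : List X × List X} (hz : ten g h z ≠ 0) :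
    g z.1 ≠ 0 ∧ h z.2 ≠ 0 := by
  have key : ten g h z = g z.1 * h z.2 := by
    obtain ⟨P, Q⟩ := z
    unfold ten
    rw [LinearMap.compr₂_apply]
    exact finsuppTensorFinsupp'_apply_apply K (List X) (List X) g h P Q
  rw [key] at hz
  exact ⟨left_ne_zero_of_mul hz, right_ne_zero_of_mul hz⟩

end

end Pool.Agent.Helper120_Alt
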