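import Pool.Agent.Helper120_Alt.Pow3

set_option autoImplicit false

/-! Syzygies and bounded representations for polynomials in an element with only trivial
syzygies. -/

namespace Pool.Agent.Helper120_Alt

noncomputable section

variable {K X : Type} [Field K]

/-- the syzygy of a polynomial in `v` -/
def s0 (v : List X →₀ K) : (List X × List X) →₀ K := ten v (wd K []) - ten (wd K []) v

/-- the expected syzygies -/
def Sp (v : List X →₀ K) (c : ℕ → K) (r : ℕ) : Submodule K ((List X × List X) →₀ K) :=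
  TrW (pu v c r) ⊔ Submodule.span K {x | ∃ A B : List X, x = shL K A B (s0 v)}

theorem s0_val (v : List X →₀ K) (c : ℕ → K) (r : ℕ) : syW (pu v c r) (s0 v) = 0 := by
  unfold s0
  rw [map_sub, syW_ten, syW_ten, mm_one, one_mm, pu_comm, sub_self]

theorem Sp_ker (v : List X →₀ K) (c : ℕ → K) (r : ℕ) {s : (List X × List X) →₀ K}
    (hs : s ∈ Sp v c r) : syW (pu v c r) s = 0 := by
  have h1 : TrW (pu v c r) ≤ LinearMap.ker (syW (pu v c r)) := by
    unfold TrW
    rw [Submodule.span_le]
    rintro _ ⟨P, V, Q, rfl⟩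
    exact syW_tsW (pu v c r) P V Q
  have h2 : Submodule.span K {x | ∃ A B : List X, x = shL K A B (s0 v)} ≤
      LinearMap.ker (syW (pu v c r)) := by
    rw [Submodule.span_le]
    rintro _ ⟨A, B, rfl⟩
    show syW (pu v c r) (shL K A B (s0 v)) = 0
    rw [syW_shL, s0_val, map_zero]
  exact (sup_le h1 h2) hs

theorem ten_s0 (v P Q : List X →₀ K) : ten (mm P v) Q - ten P (mm v Q) ∈
    Submodule.span K {x | ∃ A B : List X, x = shL K A B (s0 v)} := by
  have h1 : ∀ A B : List X, ten (mm (wd K A) v) (wd K B) - ten (wd K A) (mm v (wd K B)) ∈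
      Submodule.span K {x | ∃ A B : List X, x = shL K A B (s0 v)} := by
    intro A B
    refine Submodule.subset_span ⟨A, B, ?_⟩
    unfold s0
    rw [map_sub, shL_ten, shL_ten, one_mm, mm_one]
  have h2 : ∀ A : List X, ten (mm (wd K A) v) Q - ten (wd K A) (mm v Q) ∈
      Submodule.span K {x | ∃ A B : List X, x = shL K A B (s0 v)} := by
    intro A
    exact lin_ext _ (ten (mm (wd K A) v) - ten (wd K A) ∘ₗ mm v) (fun B => h1 A B) Q
  exact lin_ext _ (ten.flip Q ∘ₗ mm.flip v - ten.flip (mm v Q)) (fun A => h2 A) P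

variable [Encodable X]

/-- normal pairs with an arbitrary second factor -/
def NS (v : List X →₀ K) (r : ℕ) : Submodule K ((List X × List X) →₀ K) :=
  Submodule.span K {x | ∃ ω Q, Nrm r ω ∧ (∀ b ∈ ω, isB v b) ∧ x = ten (Em v ω) Q}

theorem red {v : List X →₀ K} {c : ℕ → K} {r : ℕ} (hr : c r ≠ 0) (n : ℕ) :
    ∀ ω : List (List X), ω.length ≤ n → ω ≠ [] → (∀ b ∈ ω, isB v b) → isB v [] →
      ∀ Q, ten (Em v ω) Q ∈ Sp v c r ⊔ NS v r := by
  induction n using Nat.strong_induction_on with
  | _ n ih =>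
    intro ω hn hω hb he Q
    by_cases hN : Nrm r ω
    · exact Submodule.mem_sup_right (Submodule.subset_span ⟨ω, Q, hN, hb, rfl⟩)
    · by_cases h1 : ∀ ω', ω = [] :: ω' → ω' = []
      · have h2 : ¬ ∀ ω₂ ω₁, ω = ω₂ ++ (List.replicate r [] ++ ω₁) → ω₂ = [] ∨ ω₁ = [] :=
          fun h => hN ⟨hω, h1, h⟩
        push Not at h2
        obtain ⟨ω₂, ω₁, e, hω₂, hω₁⟩ := h2
        have hlen : ω.length = ω₂.length + (r + ω₁.length) := by
          rw [e]; simp
        have hl2 : 0 < ω₂.length := List.length_pos_iff.mpr hω₂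
        have hl1 : 0 < ω₁.length := List.length_pos_iff.mpr hω₁
        have hb1 : ∀ b ∈ ω₁, isB v b := fun b h => hb b (by rw [e]; simp [h])
        have hb2 : ∀ b ∈ ω₂, isB v b := fun b h => hb b (by rw [e]; simp [h])
        have e1 := Em_pu v c r hω₂ hω₁
        rw [Finset.sum_range_succ, ← e] at e1
        have e2 : Em v ω = (c r)⁻¹ • (mm (Em v ω₁) (mm (pu v c r) (Em v ω₂)) -
            ∑ j ∈ Finset.range r, c j • Em v (ω₂ ++ (List.replicate j [] ++ ω₁))) := by
          rw [e1, add_sub_cancel_left, smul_smul, inv_mul_cancel₀ hr, one_smul]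
        have e3 : ten (Em v ω) Q = (c r)⁻¹ • (ten (mm (Em v ω₁) (mm (pu v c r) (Em v ω₂))) Q -
            ∑ j ∈ Finset.range r, c j • ten (Em v (ω₂ ++ (List.replicate j [] ++ ω₁))) Q) := by
          conv_lhs => rw [e2]
          rw [map_smul, LinearMap.smul_apply, map_sub, LinearMap.sub_apply, map_sum,
            LinearMap.sum_apply]
          simp only [map_smul, LinearMap.smul_apply]
        rw [e3]
        refine Submodule.smul_mem _ _ (Submodule.sub_mem _ ?_ (Submodule.sum_mem _ fun j hj =>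
          Submodule.smul_mem _ _ ?_))
        · have h3 := ten_TrW (pu v c r) (Em v ω₁) (Em v ω₂) Q
          have h4 : ten (mm (Em v ω₁) (mm (pu v c r) (Em v ω₂))) Q =
              ten (Em v ω₁) (mm (Em v ω₂) (mm (pu v c r) Q)) -
              (ten (Em v ω₁) (mm (Em v ω₂) (mm (pu v c r) Q)) -
                ten (mm (Em v ω₁) (mm (pu v c r) (Em v ω₂))) Q) := by abel
          rw [h4]
          refine Submodule.sub_mem _ (ih ω₁.length (by omega) ω₁ le_rfl hω₁ hb1 he _)
            (Submodule.mem_sup_left (Submodule.mem_sup_left h3))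
        · rw [Finset.mem_range] at hj
          have hl : (ω₂ ++ (List.replicate j [] ++ ω₁)).length = ω₂.length + (j + ω₁.length) := by
            simp
          refine ih (ω₂.length + (j + ω₁.length)) (by omega) _ hl.le (by simp [hω₂]) ?_ he _
          intro b hb'
          rcases List.mem_append.mp hb' with h | h
          · exact hb2 b h
          · rcases List.mem_append.mp h with h | h
            · rw [List.eq_of_mem_replicate h]; exact he
            · exact hb1 b h
      · push Not at h1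
        obtain ⟨ω', rfl, hω'⟩ := h1
        have e1 : Em v ([] :: ω') = mm (Em v ω') v := by
          rw [Em_mul v hω']
          exact mm_one _
        rw [e1]
        have h3 := ten_s0 v (Em v ω') Q
        have h4 : ten (mm (Em v ω') v) Q = (ten (mm (Em v ω') v) Q - ten (Em v ω') (mm v Q)) +
            ten (Em v ω') (mm v Q) := by abel
        rw [h4]
        refine add_mem (Submodule.mem_sup_left (Submodule.mem_sup_right h3)) ?_
        simp only [List.length_cons] at hn
        exact ih ω'.length (by omega) ω' le_rfl hω'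
          (fun b h => hb b (List.mem_cons_of_mem _ h)) he _

/-- normal sums -/
def kap (v : List X →₀ K) :
    ((List (List X) × List (List X)) →₀ K) →ₗ[K] ((List X × List X) →₀ K) :=
  Finsupp.linearCombination K fun y => ten (Em v y.1) (Em v y.2)

/-- the set of normal pairs -/
def NP (v : List X →₀ K) (r : ℕ) : Set (List (List X) × List (List X)) :=
  {y | Nrm r y.1 ∧ (∀ b ∈ y.1, isB v b) ∧ y.2 ≠ [] ∧ ∀ b ∈ y.2, isB v b}

theorem kap_val (v : List X →₀ K) (c : ℕ → K) (r : ℕ)
    {γ : (List (List X) × List (List X)) →₀ K} (hγ : ∀ y, γ y ≠ 0 → y ∈ NP v r) :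
    syW (pu v c r) (kap v γ) = sE v (xi c r γ) := by
  unfold kap xi
  rw [Finsupp.linearCombination_apply, Finsupp.linearCombination_apply, Finsupp.sum,
    Finsupp.sum, map_sum, map_sum]
  refine Finset.sum_congr rfl fun y hy => ?_
  have h1 := hγ y (Finsupp.mem_support_iff.mp hy)
  rw [map_smul, map_smul, syW_ten, Em_pu v c r h1.2.2.1 h1.1.1, map_sum]
  congr 1
  refine Finset.sum_congr rfl fun j _ => ?_
  rw [map_smul, sE_single, one_smul]

theorem normal_form {v : List X →₀ K} {D : ℕ} (hv : ∀ W, v W ≠ 0 → W.length ≤ D)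
    (hO : OT (tp D v)) (hD : 0 < D) (h0 : v [] = 0) {c : ℕ → K} {r : ℕ} (hr : c r ≠ 0)
    (s : (List X × List X) →₀ K) :
    ∃ s' ∈ Sp v c r, ∃ γ, (∀ y, γ y ≠ 0 → y ∈ NP v r) ∧ s = s' + kap v γ := by
  have hsp : ∀ W : List X, wd K W ∈ Submodule.span K {x | ∃ ω : List (List X), ω ≠ [] ∧
      (∀ b ∈ ω, isB v b) ∧ x = Em v ω} := by
    intro W
    refine (Submodule.span_mono ?_) (exp_surj hv hO hD W.length W le_rfl)
    rintro _ ⟨ω, h1, h2, _, rfl⟩
    exact ⟨ω, h1, h2, rfl⟩
  have hk : ∀ s : (List X × List X) →₀ K, s ∈ Sp v c r ⊔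
      (Finsupp.supported K K (NP v r)).map (kap v) := by
    have hNS : NS v r ≤ (Finsupp.supported K K (NP v r)).map (kap v) := by
      unfold NS
      rw [Submodule.span_le]
      rintro _ ⟨ω, Q, hω, hb, rfl⟩
      refine lin_ext _ (ten (Em v ω)) (fun W => ?_) Q
      have h1 := hsp W
      generalize wd K W = q at h1 ⊢
      induction h1 using Submodule.span_induction with
      | mem x hx =>
        obtain ⟨ω', hω', hb', rfl⟩ := hx
        refine ⟨Finsupp.single (ω, ω') 1, Finsupp.single_mem_supported K 1 ⟨hω, hb, hω', hb'⟩, ?_⟩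
        unfold kap
        rw [Finsupp.linearCombination_single, one_smul]
      | zero => rw [map_zero]; exact zero_mem _
      | add y y' _ _ hy hy' => rw [map_add]; exact add_mem hy hy'
      | smul a y _ hy => rw [map_smul]; exact Submodule.smul_mem _ _ hy
    intro s
    induction s using Finsupp.induction_linear with
    | zero => exact zero_mem _
    | add s t hs ht => exact add_mem hs ht
    | single y a =>
      obtain ⟨P, Q⟩ := y
      have e : (Finsupp.single (P, Q) a : (List X × List X) →₀ K) =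
          a • ten (wd K P) (wd K Q) := by
        rw [ten_wd, Finsupp.smul_single, smul_eq_mul, mul_one]
      rw [e]
      refine Submodule.smul_mem _ _ ?_
      have h1 := hsp P
      generalize wd K P = p at h1 ⊢
      induction h1 using Submodule.span_induction with
      | mem x hx =>
        obtain ⟨ω', hω', hb', rfl⟩ := hx
        exact (sup_le_sup_left hNS _) (red hr ω'.length ω' le_rfl hω' hb' (isB_nil h0) _)
      | zero => rw [map_zero, LinearMap.zero_apply]; exact zero_mem _
      | add y y' _ _ hy hy' => rw [map_add, LinearMap.add_apply]; exact add_mem hy hy'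
      | smul a y _ hy => rw [map_smul, LinearMap.smul_apply]; exact Submodule.smul_mem _ _ hy
  obtain ⟨s', hs', t, ht, e⟩ := Submodule.mem_sup.mp (hk s)
  obtain ⟨γ, hγ, rfl⟩ := ht
  exact ⟨s', hs', γ, fun y hy => hγ (Finsupp.mem_support_iff.mpr hy), e.symm⟩

theorem xi_supp {v : List X →₀ K} (h0 : v [] = 0) {c : ℕ → K} {r : ℕ}
    {γ : (List (List X) × List (List X)) →₀ K} (hγ : ∀ y, γ y ≠ 0 → y ∈ NP v r) :
    ∀ ω, xi c r γ ω ≠ 0 → ω ≠ [] ∧ ∀ b ∈ ω, isB v b := by
  classical
  intro ω hω
  rw [xi_apply] at hω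
  obtain ⟨y, hy, h1⟩ := Finset.exists_ne_zero_of_sum_ne_zero hω
  obtain ⟨j, _, h2⟩ := Finset.exists_ne_zero_of_sum_ne_zero h1
  split_ifs at h2 with h3
  · obtain ⟨h4, h5, h6, h7⟩ := hγ y (Finsupp.mem_support_iff.mp hy)
    rw [← h3]
    refine ⟨by simp [h6], fun b hb => ?_⟩
    rcases List.mem_append.mp hb with h | h
    · exact h7 b h
    · rcases List.mem_append.mp h with h | h
      · rw [List.eq_of_mem_replicate h]; exact isB_nil h0
      · exact h5 b h
  · exact absurd rfl h2

variable [DecidableEq X] [Fintype X]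

/-- the syzygies of a polynomial in an element with only trivial syzygies -/
theorem syz_pu {v : List X →₀ K} {D : ℕ} (hv : ∀ W, v W ≠ 0 → W.length ≤ D)
    (hO : OT (tp D v)) (hD : 0 < D) (h0 : v [] = 0) {c : ℕ → K} {r : ℕ} (hr : c r ≠ 0)
    {s : (List X × List X) →₀ K} (hs : syW (pu v c r) s = 0) : s ∈ Sp v c r := by
  obtain ⟨s', hs', γ, hγ, rfl⟩ := normal_form hv hO hD h0 hr s
  rw [map_add, Sp_ker v c r hs', zero_add, kap_val v c r hγ] at hs
  have h1 : xi c r γ = 0 := exp_inj' h0 (OT_of_top hv hO) (xi_supp h0 hγ) hs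
  have h2 : γ = 0 := by
    ext y
    by_contra h
    have := xi_lead hr hD (fun y hy => (hγ y hy).1) (M := 0) (fun ω hω => by
      rw [h1] at hω; exact absurd rfl hω) y h
    omega
  rw [h2, map_zero, add_zero]
  exact hs'

/-- bounded representations for a polynomial in an element with only trivial syzygies -/
theorem bdd_pu {v : List X →₀ K} {D : ℕ} (hv : ∀ W, v W ≠ 0 → W.length ≤ D)
    (hO : OT (tp D v)) (hD : 0 < D) (h0 : v [] = 0) {c : ℕ → K} {r : ℕ} (hr : c r ≠ 0)
    {g : List X →₀ K} (hg : g ∈ IW (pu v c r)) {N : ℕ} (hN : ∀ W, g W ≠ 0 → W.length < N) :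
    ∃ s, syW (pu v c r) s = g ∧ ∀ y, s y ≠ 0 → y.1.length + y.2.length < N := by
  obtain ⟨s, rfl⟩ := hg
  obtain ⟨s', hs', γ, hγ, rfl⟩ := normal_form hv hO hD h0 hr s
  rw [map_add, Sp_ker v c r hs', zero_add] at hN ⊢
  refine ⟨kap v γ, rfl, ?_⟩
  rw [kap_val v c r hγ] at hN
  -- the expansion of the element
  let T : Set (List (List X)) := {ω | ω ≠ [] ∧ (∀ b ∈ ω, isB v b) ∧ de D ω < N + D}
  have h1 : sE v (xi c r γ) ∈ (Finsupp.supported K K T).map (sE v) := by
    generalize sE v (xi c r γ) = g at hN ⊢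
    rw [← Finsupp.sum_single g, Finsupp.sum]
    refine Submodule.sum_mem _ fun W hW => ?_
    have h2 := hN W (Finsupp.mem_support_iff.mp hW)
    have e : (Finsupp.single W (g W) : List X →₀ K) = g W • wd K W := by
      unfold wd
      rw [Finsupp.smul_single, smul_eq_mul, mul_one]
    rw [e]
    refine Submodule.smul_mem _ _ ?_
    refine (Submodule.span_le.mpr ?_) (exp_surj hv hO hD W.length W le_rfl)
    rintro _ ⟨ω, hω, hb, hd, rfl⟩
    refine ⟨Finsupp.single ω 1, Finsupp.single_mem_supported K 1 ⟨hω, hb, by omega⟩, ?_⟩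
    rw [sE_single, one_smul]
  obtain ⟨δ, hδ, e⟩ := h1
  have h3 : xi c r γ - δ = 0 := by
    apply exp_inj' h0 (OT_of_top hv hO)
    · intro ω hω
      rw [Finsupp.sub_apply] at hω
      by_cases h4 : δ ω = 0
      · rw [h4, sub_zero] at hω
        exact xi_supp h0 hγ ω hω
      · have h5 : ω ∈ T := hδ (Finsupp.mem_support_iff.mpr h4)
        exact ⟨h5.1, h5.2.1⟩
    · rw [map_sub, e, sub_self]
  have h6 := xi_lead hr hD (fun y hy => (hγ y hy).1) (M := N + D) (γ := γ) (fun ω hω => by
    rw [sub_eq_zero.mp h3] at hω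
    have h5 : ω ∈ T := hδ (Finsupp.mem_support_iff.mpr hω)
    exact h5.2.2)
  intro z hz
  unfold kap at hz
  rw [Finsupp.linearCombination_apply, Finsupp.sum, Finsupp.finsetSum_apply] at hz
  obtain ⟨y, hy, h7⟩ := Finset.exists_ne_zero_of_sum_ne_zero hz
  have h8 : ten (Em v y.1) (Em v y.2) z ≠ 0 := by
    intro h9; apply h7; rw [Finsupp.smul_apply, h9, smul_zero]
  obtain ⟨h9, h10⟩ := ten_ne h8
  have h11 := Em_len hv y.1 z.1 h9
  have h12 := Em_len hv y.2 z.2 h10
  have h13 := h6 y (Finsupp.mem_support_iff.mp hy)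
  omega

end

end Pool.Agent.Helper120_Alt
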