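import Pool.Agent.Helper120_Alt.Top3
import Pool.Agent.Helper120_Alt.Gb4

set_option autoImplicit false

/-! Deciding the ideal of a polynomial whose top component has only trivial syzygies. -/

namespace Pool.Agent.Helper120_Alt

open R3

noncomputable section

section search

variable {α β γ : Type} [Primcodable α] [Primcodable β] [Primcodable γ]

/-- deciding from two complementary searches -/
theorem dec_of_tests {P : α → Prop} {t1 : α → β → Bool} {t2 : α → γ → Bool}
    (h1 : Computable₂ t1) (h2 : Computable₂ t2) (p1 : ∀ a, P a ↔ ∃ b, t1 a b = true)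
    (p2 : ∀ a, ¬ P a ↔ ∃ c, t2 a c = true) :
    ∃ d : α → Bool, Computable d ∧ ∀ a, d a = true ↔ P a := by
  classical
  let k : α → β ⊕ γ → Option Bool := fun a c =>
    Sum.casesOn c (fun b => bif t1 a b then some true else none)
      (fun c => bif t2 a c then some false else none)
  have hk : Computable₂ k := by
    have e1 : Computable₂ (fun (z : α × (β ⊕ γ)) (b : β) =>
        bif t1 z.1 b then some true else none) :=
      Computable.cond (h1.comp (Computable.fst.comp Computable.fst) Computable.snd)
        (Computable.const (some true)) (Computable.const none)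
    have e2 : Computable₂ (fun (z : α × (β ⊕ γ)) (c : γ) =>
        bif t2 z.1 c then some false else none) :=
      Computable.cond (h2.comp (Computable.fst.comp Computable.fst) Computable.snd)
        (Computable.const (some false)) (Computable.const none)
    exact Computable.sumCasesOn (f := fun z : α × (β ⊕ γ) => z.2) Computable.snd e1 e2
  let g : α → ℕ → Option Bool := fun a n =>
    (Encodable.decode (α := β ⊕ γ) n).bind fun c => k a c
  have hg : Computable₂ g := by
    have e1 : Computable (fun z : α × ℕ => (Encodable.decode (α := β ⊕ γ) z.2)) :=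
      Computable.decode.comp Computable.snd
    have e2 : Computable₂ (fun (z : α × ℕ) (c : β ⊕ γ) => k z.1 c) :=
      hk.comp (Computable.fst.comp Computable.fst) Computable.snd
    exact Computable.option_bind e1 e2
  refine ⟨fun a => decide (P a), ?_, fun a => by simp⟩
  apply Partrec.of_eq_tot (Partrec.rfindOpt hg)
  intro a
  have hdom : (Nat.rfindOpt (g a)).Dom := by
    rw [Nat.rfindOpt_dom]
    by_cases h : P a
    · obtain ⟨b, hb⟩ := (p1 a).mp h
      refine ⟨Encodable.encode (Sum.inl b : β ⊕ γ), true, ?_⟩
      show true ∈ (Encodable.decode (Encodable.encode (Sum.inl b : β ⊕ γ))).bind _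
      rw [Encodable.encodek]
      simp [k, hb]
    · obtain ⟨c, hc⟩ := (p2 a).mp h
      refine ⟨Encodable.encode (Sum.inr c : β ⊕ γ), false, ?_⟩
      show false ∈ (Encodable.decode (Encodable.encode (Sum.inr c : β ⊕ γ))).bind _
      rw [Encodable.encodek]
      simp [k, hc]
  obtain ⟨b, hb⟩ := Part.dom_iff_mem.mp hdom
  obtain ⟨n, hn⟩ := Nat.rfindOpt_spec hb
  have : b = decide (P a) := by
    simp only [g, Option.mem_def, Option.bind_eq_some_iff] at hn
    obtain ⟨c, _, hc⟩ := hn
    match c with
    | Sum.inl x =>
      simp only [k] at hc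
      cases hx : t1 a x with
      | false => rw [hx] at hc; simp at hc
      | true =>
        rw [hx] at hc
        simp only [cond_true, Option.some.injEq] at hc
        rw [← hc]
        simp [(p1 a).mpr ⟨x, hx⟩]
    | Sum.inr x =>
      simp only [k] at hc
      cases hx : t2 a x with
      | false => rw [hx] at hc; simp at hc
      | true =>
        rw [hx] at hc
        simp only [cond_true, Option.some.injEq] at hc
        rw [← hc]
        simp [(p2 a).mpr ⟨x, hx⟩]
  rw [← this]
  exact hb

end search

/-- all words of length at most `n` -/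
def allW : ℕ → List (List (Fin 3))
  | 0 => [[]]
  | n + 1 => [] :: (allW n).flatMap fun W => [0 :: W, 1 :: W, 2 :: W]

theorem mem_allW (n : ℕ) : ∀ W : List (Fin 3), W ∈ allW n ↔ W.length ≤ n := by
  induction n with
  | zero =>
    intro W
    cases W <;> simp [allW]
  | succ n ih =>
    intro W
    cases W with
    | nil => simp [allW]
    | cons a W =>
      simp only [allW, List.mem_cons, List.mem_flatMap, List.length_cons, Nat.add_le_add_iff_right]
      constructor
      · rintro (h | ⟨W', hW', h⟩)
        · exact absurd h (by simp)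
        · rw [ih] at hW'
          simp only [List.cons.injEq, List.not_mem_nil, or_false] at h
          rcases h with h | h | h <;> (rw [h.2]; exact hW')
      · intro h
        right
        refine ⟨W, (ih W).mpr h, ?_⟩
        fin_cases a <;> simp

theorem primrec_allW : Primrec allW := by
  have e : allW = fun n => Nat.rec (motive := fun _ => List (List (Fin 3))) [[]]
      (fun _ l => [] :: l.flatMap fun W => [0 :: W, 1 :: W, 2 :: W]) n := by
    funext n
    induction n with
    | zero => rfl
    | succ n ih =>
      show [] :: (allW n).flatMap _ = _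
      rw [ih]
  rw [e]
  refine Primrec.nat_rec₁ _ ?_
  have h1 : Primrec₂ (fun (_ : ℕ × List (List (Fin 3))) (W : List (Fin 3)) =>
      [(0 : Fin 3) :: W, 1 :: W, 2 :: W]) := by
    have hc : ∀ a : Fin 3, Primrec (fun z : (ℕ × List (List (Fin 3))) × List (Fin 3) =>
        a :: z.2) := fun a => Primrec.list_cons.comp (Primrec.const a) Primrec.snd
    exact Primrec.list_cons.comp (hc 0) (Primrec.list_cons.comp (hc 1)
      (Primrec.list_cons.comp (hc 2) (Primrec.const [])))
  exact Primrec.list_cons.comp (Primrec.const []) (Primrec.list_flatMap Primrec.snd h1)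

variable {F : Type} [Field F]

/-- value of the functional with coefficients `Λ` -/
def lamf (Λ L : Raw F) : F := L.foldl (fun s x => s + x.1 * co repA x.2 Λ) 0

/-- the functional -/
def phf (Λ : Raw F) : AS F (Fin 3) →ₗ[F] F :=
  (Finsupp.linearCombination F fun m => (Val parseA Λ).coeff m) ∘ₗ
    (MonoidAlgebra.coeffLinearEquiv F : MonoidAlgebra F (FreeSemigroup (Fin 3)) ≃ₗ[F]
      (FreeSemigroup (Fin 3) →₀ F)).toLinearMap

theorem phf_single (Λ : Raw F) (m : FreeSemigroup (Fin 3)) (c : F) :
    phf Λ (MonoidAlgebra.single m c) = c * (Val parseA Λ).coeff m := by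
  show Finsupp.linearCombination F (fun m => (Val parseA Λ).coeff m)
    (MonoidAlgebra.single m c).coeff = _
  rw [MonoidAlgebra.coeff_single, Finsupp.linearCombination_single, smul_eq_mul]

theorem lamf_eq (Λ L : Raw F) : lamf Λ L = phf Λ (Val parseA L) := by
  have : ∀ (L : Raw F) (s : F), L.foldl (fun s x => s + x.1 * co repA x.2 Λ) s =
      s + phf Λ (Val parseA L) := by
    intro L
    induction L with
    | nil => intro s; rw [List.foldl_nil, Val_nil, map_zero, add_zero]
    | cons x L ih =>
      intro s
      rw [List.foldl_cons, ih, Val_cons, map_add, phf_single, co_eq parseA_iff, add_assoc]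
  unfold lamf
  rw [this, zero_add]

/-- bound for the lengths of the words -/
def bdL (L : Raw F) : ℕ := L.foldl (fun s x => s + x.2.length + 1) 0

theorem bdL_le (L : Raw F) : ∀ x ∈ L, x.2.length + 1 ≤ bdL L := by
  have h1 : ∀ (L : Raw F) (s : ℕ), L.foldl (fun s x => s + x.2.length + 1) s =
      s + L.foldl (fun s x => s + x.2.length + 1) 0 := by
    intro L
    induction L with
    | nil => intro s; simp
    | cons x L ih =>
      intro s
      rw [List.foldl_cons, ih, List.foldl_cons, ih (0 + x.2.length + 1)]
      omega
  induction L with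
  | nil => intro x hx; simp at hx
  | cons y L ih =>
    intro x hx
    unfold bdL
    rw [List.foldl_cons, h1]
    rcases List.mem_cons.mp hx with rfl | hx
    · omega
    · have := ih x hx
      unfold bdL at this
      omega

theorem cofL_Val_len (L : Raw F) {W : List (Fin 3)} (h : cofL (Val parseA L) W ≠ 0) :
    W.length ≤ bdL L + 1 := by
  have h1 : W ≠ [] := by
    rintro rfl
    exact h (cof_nil _)
  have h2 : (Val parseA L).coeff (ofL W) ≠ 0 := by
    intro h3
    apply h
    have h4 : cofL (Val parseA L) (lets (ofL W)) = (Val parseA L).coeff (ofL W) :=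
      Finsupp.mapDomain_apply lets_injective _ _
    rw [lets_ofL h1] at h4
    rw [h4, h3]
  obtain ⟨x, hx, e⟩ := coeff_mem h2
  have h5 := bdL_le L x hx
  have h6 : W = lets (parseA x.2) := by rw [e, lets_ofL h1]
  have h7 : (lets (parseA x.2)).length ≤ x.2.length + 1 := by
    unfold parseA
    have h8 : (x.2.filterMap fun x => x).length ≤ x.2.length := List.length_filterMap_le _ _
    cases h9 : (x.2.filterMap fun x => x) with
    | nil => simp [ofL, lets]
    | cons a l =>
      rw [h9] at h8
      simp only [ofL, lets]
      simp only [List.length_cons] at h8 ⊢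
      omega
  rw [h6]
  omega

open Classical in
/-- the negative test -/
def neg (ur L Λ : Raw F) : Bool :=
  !(decide (lamf Λ L = 0)) && ((allW (bdL L + 2)).all fun P => (allW (bdL L + 2)).all fun Q =>
    decide (lamf Λ (HA ur (P, Q)) = 0))

theorem neg_iff (ur : Raw F) {D : ℕ} (hD : ∀ W, cof (Val parseA ur) W ≠ 0 → W.length ≤ D)
    (hO : OT (tp D (cof (Val parseA ur)))) (L : Raw F) :
    ¬ Val parseA L ∈ idl F {Val parseA ur} ↔ ∃ Λ, neg ur L Λ = true := by
  classical
  constructor
  · intro h
    obtain ⟨ψ, h2, h1⟩ := Submodule.exists_le_ker_of_notMem h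
    let N := bdL L + 2
    let T : Finset (FreeSemigroup (Fin 3)) := (Val parseA L).coeff.support ∪
      (allW N).toFinset.biUnion fun P => (allW N).toFinset.biUnion fun Q =>
        (Val parseA (HA ur (P, Q))).coeff.support
    let Λ : Raw F := T.toList.map fun m => (ψ (MonoidAlgebra.single m 1), (lets m).map some)
    have hΛ : ∀ m, (Val parseA Λ).coeff m = if m ∈ T then ψ (MonoidAlgebra.single m 1) else 0 := by
      intro m
      have h3 : Val parseA Λ = ∑ m ∈ T, MonoidAlgebra.single m (ψ (MonoidAlgebra.single m 1)) := by
        unfold Val val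
        rw [List.map_map, List.map_map, ← Finset.sum_map_toList]
        congr 1
        apply List.map_congr_left
        intro m _
        show MonoidAlgebra.single (parseA ((lets m).map some)) (ψ (MonoidAlgebra.single m 1)) = _
        rw [parseA_some, ofL_lets]
      rw [h3]
      have h4 : (∑ m ∈ T, MonoidAlgebra.single m (ψ (MonoidAlgebra.single m 1)) :
          AS F (Fin 3)).coeff = ∑ m ∈ T, Finsupp.single m (ψ (MonoidAlgebra.single m 1)) := by
        have := map_sum (MonoidAlgebra.coeffLinearEquiv F :
          MonoidAlgebra F (FreeSemigroup (Fin 3)) ≃ₗ[F] _)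
          (fun m => MonoidAlgebra.single m (ψ (MonoidAlgebra.single m 1))) T
        exact this
      rw [h4, Finsupp.finsetSum_apply]
      simp only [Finsupp.single_apply]
      rw [Finset.sum_ite_eq']
    have hφ : ∀ g : AS F (Fin 3), g.coeff.support ⊆ T → phf Λ g = ψ g := by
      intro g hg
      have h5 : g = ∑ m ∈ g.coeff.support, MonoidAlgebra.single m (g.coeff m) := by
        apply MonoidAlgebra.coeff_injective
        have := map_sum (MonoidAlgebra.coeffLinearEquiv F :
          MonoidAlgebra F (FreeSemigroup (Fin 3)) ≃ₗ[F] _)
          (fun m => MonoidAlgebra.single m (g.coeff m)) g.coeff.support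
        refine Eq.trans ?_ this.symm
        conv_lhs => rw [← Finsupp.sum_single g.coeff]
        rfl
      rw [h5, map_sum, map_sum]
      refine Finset.sum_congr rfl fun m hm => ?_
      rw [phf_single, hΛ, if_pos (hg hm)]
      have : (MonoidAlgebra.single m (g.coeff m) : AS F (Fin 3)) =
          g.coeff m • MonoidAlgebra.single m 1 := by
        rw [MonoidAlgebra.smul_single, smul_eq_mul, mul_one]
      rw [this, map_smul, smul_eq_mul]
    refine ⟨Λ, ?_⟩
    unfold neg
    simp only [Bool.and_eq_true, Bool.not_eq_true', decide_eq_false_iff_not, List.all_eq_true,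
      decide_eq_true_eq]
    constructor
    · rw [lamf_eq, hφ _ Finset.subset_union_left]
      exact h2
    · intro P hP Q hQ
      rw [lamf_eq, hφ]
      · apply h1
        rw [idl_span]
        exact Submodule.subset_span ⟨(P, Q), rfl⟩
      · refine Finset.Subset.trans ?_ Finset.subset_union_right
        intro m hm
        rw [Finset.mem_biUnion]
        refine ⟨P, List.mem_toFinset.mpr hP, ?_⟩
        rw [Finset.mem_biUnion]
        exact ⟨Q, List.mem_toFinset.mpr hQ, hm⟩
  · rintro ⟨Λ, hΛ⟩ hL
    unfold neg at hΛ
    simp only [Bool.and_eq_true, Bool.not_eq_true', decide_eq_false_iff_not, List.all_eq_true,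
      decide_eq_true_eq] at hΛ
    obtain ⟨h1, h2⟩ := hΛ
    apply h1
    obtain ⟨s, hs⟩ := idl_syv hL
    have hg : cofL (Val parseA L) ∈ IW (cof (Val parseA ur)) := ⟨s, hs⟩
    obtain ⟨s', e, hs'⟩ := bdd_of_top hD hO hg (N := bdL L + 2) (by
      intro W hW
      have := cofL_Val_len L hW
      omega)
    have h3 : Val parseA L = s'.sum fun x c => c • Val parseA (HA ur x) := by
      apply cof_injective
      rw [← e, Finsupp.sum, map_sum]
      unfold syW
      rw [Finsupp.linearCombination_apply, Finsupp.sum]
      refine Finset.sum_congr rfl fun x _ => ?_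
      obtain ⟨P, Q⟩ := x
      rw [map_smul, cofL_Val_HA]
      rfl
    rw [lamf_eq, h3, Finsupp.sum, map_sum]
    refine Finset.sum_eq_zero fun x hx => ?_
    have h4 := hs' x (Finsupp.mem_support_iff.mp hx)
    rw [map_smul, ← lamf_eq]
    have h5 := h2 x.1 ((mem_allW _ _).mpr (by omega)) x.2 ((mem_allW _ _).mpr (by omega))
    have h6 : (x.1, x.2) = x := rfl
    rw [h6] at h5
    rw [h5, smul_zero]

variable [Primcodable F]

theorem comp_lamf (hadd : Computable₂ (fun a b : F => a + b))
    (hmul : Computable₂ (fun a b : F => a * b)) : Computable₂ (lamf : Raw F → Raw F → F) := by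
  refine comp_foldl (α := Raw F × Raw F) (f := fun x => x.2) (g := fun _ => (0 : F))
    (h := fun a x => x.1 + x.2.1 * co repA x.2.2 a.1) Computable.snd (Computable.const 0) ?_
  have h3 : Computable fun y : (Raw F × Raw F) × (F × (F × Pw)) => co repA y.2.2.2 y.1.1 :=
    (comp_co hadd primrec_repA.to_comp).comp
      (Computable.snd.comp (Computable.snd.comp Computable.snd))
      (Computable.fst.comp Computable.fst)
  exact hadd.comp (Computable.fst.comp Computable.snd)
    (hmul.comp (Computable.fst.comp (Computable.snd.comp Computable.snd)) h3)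

theorem comp_bdL : Computable (bdL : Raw F → ℕ) := by
  refine comp_foldl (α := Raw F) (f := fun x => x) (g := fun _ => (0 : ℕ))
    (h := fun _ x => x.1 + x.2.2.length + 1) Computable.id (Computable.const 0) ?_
  have h1 : Computable (fun y : Raw F × (ℕ × (F × Pw)) => y.2.1) :=
    Computable.fst.comp Computable.snd
  have h2 : Computable (fun y : Raw F × (ℕ × (F × Pw)) => y.2.2.2.length) :=
    Computable.list_length.comp (Computable.snd.comp (Computable.snd.comp Computable.snd))
  have h3 := Primrec.nat_add.to_comp.comp h1 h2
  exact Computable.succ.comp h3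

theorem comp_neg (hadd : Computable₂ (fun a b : F => a + b))
    (hmul : Computable₂ (fun a b : F => a * b)) (ur : Raw F) : Computable₂ (neg ur) := by
  classical
  have hall : Computable (fun z : Raw F × Raw F => allW (bdL z.1 + 2)) := by
    have h1 : Computable (fun z : Raw F × Raw F => bdL z.1 + 2) :=
      Computable.succ.comp (Computable.succ.comp (comp_bdL.comp Computable.fst))
    exact primrec_allW.to_comp.comp h1
  have e1 : Computable (fun z : Raw F × Raw F => !(decide (lamf z.2 z.1 = 0))) := by
    have h1 : Computable (fun z : Raw F × Raw F => decide (lamf z.2 z.1 = 0)) :=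
      comp_eq ((comp_lamf hadd hmul).comp Computable.snd Computable.fst) (Computable.const 0)
    exact Primrec.not.to_comp.comp h1
  have e2 : Computable (fun z : Raw F × Raw F =>
      ((allW (bdL z.1 + 2)).all fun P => (allW (bdL z.1 + 2)).all fun Q =>
        decide (lamf z.2 (HA ur (P, Q)) = 0))) := by
    apply comp_all hall
    apply comp_all (hall.comp Computable.fst)
    have h2 : Computable (fun y : ((Raw F × Raw F) × List (Fin 3)) × List (Fin 3) =>
        lamf y.1.1.2 (HA ur (y.1.2, y.2))) :=
      (comp_lamf hadd hmul).comp (Computable.snd.comp (Computable.fst.comp Computable.fst))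
        ((primrec_HA ur).to_comp.comp ((Computable.snd.comp Computable.fst).pair Computable.snd))
    exact comp_eq h2 (Computable.const 0)
  refine (Primrec.and.to_comp.comp e1 e2).of_eq fun z => ?_
  unfold neg
  congr!

/-- the word problem for polynomials whose top component has only trivial syzygies -/
theorem assDecidable_of_top (hadd : Computable₂ (fun a b : F => a + b))
    (hmul : Computable₂ (fun a b : F => a * b)) {u : AS F (Fin 3)} {D : ℕ}
    (hD : ∀ W, cof u W ≠ 0 → W.length ≤ D) (hO : OT (tp D (cof u))) :
    AssDecidable F (Fin 3) {u} := by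
  obtain ⟨ur, rfl⟩ := exists_rawA u
  have ht : Computable₂ (tst repA (HA ur) : Raw F → List (F × (List (Fin 3) × List (Fin 3))) →
      Bool) := comp_tst hadd hmul primrec_repA.to_comp (primrec_HA ur).to_comp
  obtain ⟨d, hd, hL⟩ := dec_of_tests (P := fun L : Raw F => Val parseA L ∈ idl F {Val parseA ur})
    ht (comp_neg hadd hmul ur) (by
      intro L
      constructor
      · intro h
        rw [idl_span] at h
        obtain ⟨E, hE⟩ := exists_cval (HA ur) h
        exact ⟨E, (tst_iff parseA_iff _ _ _).mpr hE.symm⟩
      · rintro ⟨E, hE⟩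
        rw [tst_iff parseA_iff] at hE
        rw [hE, idl_span]
        clear hE
        induction E with
        | nil => rw [cval_nil]; exact zero_mem _
        | cons x E ih =>
          rw [cval_cons]
          exact add_mem (Submodule.smul_mem _ _ (Submodule.subset_span ⟨_, rfl⟩)) ih)
    (neg_iff ur hD hO)
  refine ⟨fun L => d (L.map fun p => (p.1, p.2.map some)), hd.comp ?_, fun L => ?_⟩
  · have e1 : Primrec (fun w : List (Fin 3) => w.map some) :=
      Primrec.list_map Primrec.id (Primrec.option_some.comp Primrec.snd).to₂
    exact (Primrec.list_map Primrec.id ((Primrec.fst.comp Primrec.snd).pair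
      (e1.comp (Primrec.snd.comp Primrec.snd))).to₂).to_comp
  · rw [hL]
    have : Val parseA ((L.map fun p => (p.1, p.2.head :: p.2.tail)).map
        fun p => (p.1, p.2.map some)) = val L := by
      unfold Val
      rw [List.map_map, List.map_map]
      congr 1
      conv_rhs => rw [← List.map_id L]
      apply List.map_congr_left
      intro x _
      show (x.1, parseA ((lets x.2).map some)) = x
      rw [parseA_some, ofL_lets]
    rw [this]

/-- finitely generated syzygies for polynomials whose top component has only trivial ones -/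
theorem finSyz_of_top {u : AS F (Fin 3)} {D : ℕ}
    (hD : ∀ W, cof u W ≠ 0 → W.length ≤ D) (hO : OT (tp D (cof u))) : FinSyz u := by
  refine ⟨∅, by simp, fun s hs => ?_⟩
  have h1 : s ∈ TrW (cof u) := OT_of_top hD hO s hs
  have h2 : TrW (cof u) ≤ Submodule.span F ({t | ∃ P V Q : List (Fin 3), t = tsy u P V Q} ∪
      {t | ∃ σ ∈ (∅ : Finset ((List (Fin 3) × List (Fin 3)) →₀ F)),
        ∃ A B : List (Fin 3), t = shf A B σ}) := Submodule.span_mono Set.subset_union_left
  exact h2 h1

end

end Pool.Agent.Helper120_Alt
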