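import Pool.Agent.Helper120_Alt.Syz

set_option autoImplicit false

/-! Definitions: powers, and polynomials with a strongly free initial component. -/

namespace Pool.Agent.Helper120_Alt

noncomputable section

variable {F X : Type} [Field F]

/-- The powers of an associative polynomial: `pow1 v j` is the power of exponent `j + 1`. -/
def pow1 (v : AS F X) : ℕ → AS F X
  | 0 => v
  | j + 1 => pow1 v j * v

/-- The weight of a word, for weights of the letters. -/
def wgt (wt : X → ℕ) (W : List X) : ℕ := (W.map wt).sum

/-- The component of weight `D` of an associative polynomial, as a combination of lists of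
letters. -/
def wcomp (wt : X → ℕ) (D : ℕ) (v : AS F X) : List X →₀ F := (cof v).filter fun W => wgt wt W = D

/-- The value of the formal sum `s` of pairs of words at the combination of words `w`: the sum of
the `s (P, Q) • P w Q`. -/
def sval (w : List X →₀ F) (s : (List X × List X) →₀ F) : List X →₀ F :=
  s.sum fun x c => c • Finsupp.mapDomain (fun W => x.1 ++ W ++ x.2) w

/-- The trivial syzygy `(P, V w Q) - (P w V, Q)` of `w`, for words `P`, `V`, `Q`. -/
def tsyz (w : List X →₀ F) (P V Q : List X) : (List X × List X) →₀ F :=
  w.sum fun W c => c • (Finsupp.single (P, V ++ W ++ Q) 1 - Finsupp.single (P ++ W ++ V, Q) 1)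

/-- For some positive weights of the letters, all words of `v` have weight at most `D` and the
component of weight `D` of `v` is strongly free: each of its syzygies (formal sums of pairs of words
of value zero) is a linear combination of trivial ones. -/
def StrFree (v : AS F X) : Prop :=
  ∃ (wt : X → ℕ) (D : ℕ), (∀ x, 0 < wt x) ∧ (∀ W : List X, cof v W ≠ 0 → wgt wt W ≤ D) ∧
    ∀ s : (List X × List X) →₀ F, sval (wcomp wt D v) s = 0 →
      s ∈ Submodule.span F {t | ∃ P V Q : List X, t = tsyz (wcomp wt D v) P V Q}

end

end Pool.Agent.Helper120_Alt
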