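import Pool.Agent.Helper120_Alt.Pow4
import Pool.Agent.Helper120_Alt.WtDefs
import Pool.Agent.Helper120_Alt.Top5

set_option autoImplicit false

/-! Products and powers. -/

namespace Pool.Agent.Helper120_Alt

noncomputable section

section gen

variable {F X : Type} [Field F]

theorem cof_mul (g h : AS F X) : cof (g * h) = mm (cof g) (cof h) := by
  have : ∀ g h : AS F X, cofL (g * h) = mm (cofL g) (cofL h) := by
    intro g h
    induction g using MonoidAlgebra.induction_linear with
    | zero => simp
    | add a b ha hb =>
      rw [add_mul, map_add, map_add, map_add, LinearMap.add_apply, ha, hb]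
    | single m c => rw [cofL_mul_left, cofL_single, mm_single]
  exact this g h

theorem cof_pow1 (v : AS F X) (j : ℕ) : cof (pow1 v j) = vp (cof v) (j + 1) := by
  induction j with
  | zero =>
    show cof v = mm (wd F []) (cof v)
    rw [one_mm]
  | succ j ih =>
    show cof (pow1 v j * v) = mm (vp (cof v) (j + 1)) (cof v)
    rw [cof_mul, ih]

theorem cof_pu (v : AS F X) (c : ℕ → F) (r : ℕ) :
    cof (∑ j ∈ Finset.range (r + 1), c j • pow1 v j) = pu (cof v) c r := by
  have h1 : cofL (∑ j ∈ Finset.range (r + 1), c j • pow1 v j) = pu (cof v) c r := by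
    rw [map_sum]
    unfold pu
    refine Finset.sum_congr rfl fun j _ => ?_
    rw [map_smul, ← cof_pow1]
    rfl
  exact h1

theorem cof_empty (v : AS F X) : cof v [] = 0 := by
  apply Finsupp.mapDomain_of_notMem_range
  rintro ⟨w, hw⟩
  simp at hw

end gen

end

end Pool.Agent.Helper120_Alt
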