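import Pool.Agent.Helper120_Alt.Aut1

set_option autoImplicit false

/-! Change of presentation: calculus of formal sums. -/

namespace Pool.Agent.Helper120_Alt

noncomputable section

variable {F X Y ι : Type} [Field F]

/-- the image of a word -/
def hw (t : X → (List Y →₀ F)) : List X → (List Y →₀ F)
  | [] => wd F []
  | x :: P => mm (t x) (hw t P)

/-- the unital homomorphism with given images of the letters -/
def hm (t : X → (List Y →₀ F)) : (List X →₀ F) →ₗ[F] (List Y →₀ F) :=
  Finsupp.linearCombination F (hw t)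

theorem hm_wd (t : X → (List Y →₀ F)) (P : List X) : hm t (wd F P) = hw t P := by
  unfold hm wd
  rw [Finsupp.linearCombination_single, one_smul]

theorem hw_append (t : X → (List Y →₀ F)) (P Q : List X) :
    hw t (P ++ Q) = mm (hw t P) (hw t Q) := by
  induction P with
  | nil =>
    rw [List.nil_append]
    show _ = mm (wd F []) _
    rw [one_mm]
  | cons x P ih =>
    show mm (t x) (hw t (P ++ Q)) = mm (mm (t x) (hw t P)) (hw t Q)
    rw [ih, mm_assoc]

theorem hm_mm (t : X → (List Y →₀ F)) (g h : List X →₀ F) :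
    hm t (mm g h) = mm (hm t g) (hm t h) := by
  have h1 : ∀ P, hm t (mm (wd F P) h) = mm (hm t (wd F P)) (hm t h) := by
    intro P
    refine lin_ext_eq (hm t ∘ₗ mm (wd F P)) (mm (hm t (wd F P)) ∘ₗ hm t) (fun Q => ?_) h
    show hm t (mm (wd F P) (wd F Q)) = mm (hm t (wd F P)) (hm t (wd F Q))
    rw [mm_wd_wd, hm_wd, hm_wd, hm_wd, hw_append]
  exact lin_ext_eq (hm t ∘ₗ mm.flip h) (mm.flip (hm t h) ∘ₗ hm t) h1 g

/-- linear extension for the tensor square, membership -/
theorem lin_ext2_mem {V : Type} [AddCommGroup V] [Module F V] (T : Submodule F V)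
    (φ : ((List X × List X) →₀ F) →ₗ[F] V)
    (h : ∀ P Q, φ (ten (wd F P) (wd F Q)) ∈ T)
    (s : (List X × List X) →₀ F) : φ s ∈ T := by
  induction s using Finsupp.induction_linear with
  | zero => rw [map_zero]; exact zero_mem _
  | add s t hs ht => rw [map_add]; exact add_mem hs ht
  | single y a =>
    obtain ⟨P, Q⟩ := y
    have e : (Finsupp.single (P, Q) a : (List X × List X) →₀ F) = a • ten (wd F P) (wd F Q) := by
      rw [ten_wd, Finsupp.smul_single, smul_eq_mul, mul_one]
    rw [e, map_smul]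
    exact Submodule.smul_mem _ _ (h P Q)

theorem act_act (g h g' h' : List X →₀ F) (s : (List X × List X) →₀ F) :
    act g h (act g' h' s) = act (mm g g') (mm h' h) s := by
  refine lin_ext2 (act g h ∘ₗ act g' h') (act (mm g g') (mm h' h)) (fun P Q => ?_) s
  show act g h (act g' h' (ten (wd F P) (wd F Q))) =
    act (mm g g') (mm h' h) (ten (wd F P) (wd F Q))
  rw [act_ten, act_ten, act_ten, mm_assoc, mm_assoc]

theorem act_sub_left (a b g : List X →₀ F) (s : (List X × List X) →₀ F) :
    act (a - b) g s = act a g s - act b g s :=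
  map_sub ((act.flip g).flip s) a b

theorem act_one (s : (List X × List X) →₀ F) : act (wd F []) (wd F []) s = s := by
  rw [act_wd, shL_nil]

theorem syW_act (w g h : List X →₀ F) (s : (List X × List X) →₀ F) :
    syW w (act g h s) = mm g (mm (syW w s) h) := by
  refine lin_ext2 (syW w ∘ₗ act g h) (mm g ∘ₗ mm.flip h ∘ₗ syW w) (fun P Q => ?_) s
  show syW w (act g h (ten (wd F P) (wd F Q))) =
    mm g (mm (syW w (ten (wd F P) (wd F Q))) h)
  rw [act_ten, syW_ten, syW_ten, mm_assoc, mm_assoc, mm_assoc]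

/-- the Koszul syzygies are trivial -/
theorem act_TrW (w : List X →₀ F) (s s' : (List X × List X) →₀ F) :
    act (syW w s) (wd F []) s' - act (wd F []) (syW w s') s ∈ TrW w := by
  have h1 : ∀ P Q, act (syW w (ten (wd F P) (wd F Q))) (wd F []) s' -
      act (wd F []) (syW w s') (ten (wd F P) (wd F Q)) ∈ TrW w := by
    intro P Q
    refine lin_ext2_mem (TrW w) (act (syW w (ten (wd F P) (wd F Q))) (wd F []) -
      ((act (wd F [])).flip (ten (wd F P) (wd F Q))) ∘ₗ syW w) (fun P' Q' => ?_) s'
    show act (syW w (ten (wd F P) (wd F Q))) (wd F []) (ten (wd F P') (wd F Q')) -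
      act (wd F []) (syW w (ten (wd F P') (wd F Q'))) (ten (wd F P) (wd F Q)) ∈ TrW w
    rw [act_ten, act_ten, syW_ten, syW_ten, mm_one, one_mm]
    have h2 := ten_TrW w (wd F P) (mm (wd F Q) (wd F P')) (wd F Q')
    rw [← neg_sub] at h2
    have h3 := neg_mem h2
    rw [neg_neg] at h3
    have e1 : mm (wd F P) (mm w (mm (wd F Q) (wd F P'))) =
        mm (mm (wd F P) (mm w (wd F Q))) (wd F P') := by
      rw [mm_assoc, mm_assoc]
    have e2 : mm (mm (wd F Q) (wd F P')) (mm w (wd F Q')) =
        mm (wd F Q) (mm (wd F P') (mm w (wd F Q'))) := mm_assoc _ _ _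
    rw [e1, e2] at h3
    exact h3
  exact lin_ext2_mem (TrW w) (((act.flip (wd F [])).flip s') ∘ₗ syW w -
    act (wd F []) (syW w s')) h1 s

/-- trivial syzygies are stable under the action -/
theorem act_TrW_mem (w g h : List X →₀ F) {s : (List X × List X) →₀ F} (hs : s ∈ TrW w) :
    act g h s ∈ TrW w := by
  have h1 := act_mem g h s
  refine (?_ : Submodule.span F {z | ∃ A B : List X, z = shL F A B s} ≤ TrW w) h1
  rw [Submodule.span_le]
  rintro _ ⟨A, B, rfl⟩
  exact TrW_sh w A B hs

section der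

variable {t : X → (List Y →₀ F)} {t' : Y → (List X →₀ F)} {w : List X →₀ F}
  {e : X → ((List X × List X) →₀ F)}

/-- the composition -/
def tau (t : X → (List Y →₀ F)) (t' : Y → (List X →₀ F)) : (List X →₀ F) →ₗ[F] (List X →₀ F) :=
  hm t' ∘ₗ hm t

theorem tau_mm (t : X → (List Y →₀ F)) (t' : Y → (List X →₀ F)) (g h : List X →₀ F) :
    tau t t' (mm g h) = mm (tau t t' g) (tau t t' h) := by
  show hm t' (hm t (mm g h)) = mm (hm t' (hm t g)) (hm t' (hm t h))
  rw [hm_mm, hm_mm]

theorem tau_one (t : X → (List Y →₀ F)) (t' : Y → (List X →₀ F)) :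
    tau t t' (wd F []) = wd F [] := by
  show hm t' (hm t (wd F [])) = _
  rw [hm_wd]
  show hm t' (wd F []) = _
  rw [hm_wd]
  rfl

/-- the derivation that measures the difference between `tau` and the identity -/
def Ed (t : X → (List Y →₀ F)) (t' : Y → (List X →₀ F)) (e : X → ((List X × List X) →₀ F)) :
    List X → ((List X × List X) →₀ F)
  | [] => 0
  | x :: P => act (wd F []) (tau t t' (wd F P)) (e x) + act (wd F [x]) (wd F []) (Ed t t' e P)

/-- its linear extension -/
def EdL (t : X → (List Y →₀ F)) (t' : Y → (List X →₀ F)) (e : X → ((List X × List X) →₀ F)) :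
    (List X →₀ F) →ₗ[F] ((List X × List X) →₀ F) :=
  Finsupp.linearCombination F (Ed t t' e)

theorem EdL_wd (P : List X) : EdL t t' e (wd F P) = Ed t t' e P := by
  unfold EdL wd
  rw [Finsupp.linearCombination_single, one_smul]

theorem syW_Ed (he : ∀ x, syW w (e x) = tau t t' (wd F [x]) - wd F [x]) (p : List X →₀ F) :
    syW w (EdL t t' e p) = tau t t' p - p := by
  refine lin_ext_eq (syW w ∘ₗ EdL t t' e) (tau t t' - LinearMap.id) (fun P => ?_) p
  show syW w (EdL t t' e (wd F P)) = tau t t' (wd F P) - wd F P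
  rw [EdL_wd]
  induction P with
  | nil =>
    show syW w 0 = _
    rw [map_zero, tau_one, sub_self]
  | cons x P ih =>
    show syW w (act (wd F []) (tau t t' (wd F P)) (e x) +
      act (wd F [x]) (wd F []) (Ed t t' e P)) = _
    have e1 : wd F (x :: P) = mm (wd F [x]) (wd F P) := by rw [mm_wd_wd]; rfl
    rw [map_add, syW_act, syW_act, ih, he, one_mm, mm_one, e1, tau_mm, map_sub, map_sub,
      LinearMap.sub_apply]
    abel

theorem Ed_append (P Q : List X) : Ed t t' e (P ++ Q) =
    act (wd F []) (tau t t' (wd F Q)) (Ed t t' e P) + act (wd F P) (wd F []) (Ed t t' e Q) := by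
  induction P with
  | nil =>
    show Ed t t' e Q = act (wd F []) (tau t t' (wd F Q)) 0 + act (wd F []) (wd F []) (Ed t t' e Q)
    rw [map_zero, zero_add, act_one]
  | cons x P ih =>
    show act (wd F []) (tau t t' (wd F (P ++ Q))) (e x) +
      act (wd F [x]) (wd F []) (Ed t t' e (P ++ Q)) =
      act (wd F []) (tau t t' (wd F Q)) (act (wd F []) (tau t t' (wd F P)) (e x) +
        act (wd F [x]) (wd F []) (Ed t t' e P)) + act (wd F (x :: P)) (wd F []) (Ed t t' e Q)
    have e1 : wd F (x :: P) = mm (wd F [x]) (wd F P) := by rw [mm_wd_wd]; rfl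
    rw [ih, map_add, map_add, act_act, act_act, act_act, act_act, ← mm_wd_wd, tau_mm, e1]
    simp only [one_mm, mm_one, add_assoc]

theorem EdL_mm (p q : List X →₀ F) : EdL t t' e (mm p q) =
    act (wd F []) (tau t t' q) (EdL t t' e p) + act p (wd F []) (EdL t t' e q) := by
  have h1 : ∀ P, EdL t t' e (mm (wd F P) q) =
      act (wd F []) (tau t t' q) (EdL t t' e (wd F P)) + act (wd F P) (wd F []) (EdL t t' e q) := by
    intro P
    refine lin_ext_eq (EdL t t' e ∘ₗ mm (wd F P))
      (((act (wd F [])).flip (EdL t t' e (wd F P))) ∘ₗ tau t t' +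
        act (wd F P) (wd F []) ∘ₗ EdL t t' e) (fun Q => ?_) q
    show EdL t t' e (mm (wd F P) (wd F Q)) =
      act (wd F []) (tau t t' (wd F Q)) (EdL t t' e (wd F P)) +
        act (wd F P) (wd F []) (EdL t t' e (wd F Q))
    rw [mm_wd_wd, EdL_wd, EdL_wd, EdL_wd, Ed_append]
  exact lin_ext_eq (EdL t t' e ∘ₗ mm.flip q)
    (act (wd F []) (tau t t' q) ∘ₗ EdL t t' e +
      ((act.flip (wd F [])).flip (EdL t t' e q))) h1 p

/-- the main congruence -/
theorem tau_ten (he : ∀ x, syW w (e x) = tau t t' (wd F [x]) - wd F [x]) (P Q : List X →₀ F) :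
    act (tau t t' P) (tau t t' Q) (ten (wd F []) (wd F []) + EdL t t' e w) - ten P Q -
      EdL t t' e (mm P (mm w Q)) ∈ TrW w := by
  have hP := syW_Ed he P
  have hQ := syW_Ed he Q
  have hw' := syW_Ed he w
  -- the three congruences
  have c1 : ten (tau t t' P - P) (tau t t' Q) -
      act (wd F []) (mm w (tau t t' Q)) (EdL t t' e P) ∈ TrW w := by
    have h := act_TrW w (EdL t t' e P) (ten (wd F []) (tau t t' Q))
    rw [hP, act_ten, syW_ten, mm_one, mm_one, one_mm] at h
    exact h
  have c2 : ten P (tau t t' Q - Q) - act (mm P w) (wd F []) (EdL t t' e Q) ∈ TrW w := by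
    have h := act_TrW w (ten P (wd F [])) (EdL t t' e Q)
    rw [hQ, act_ten, syW_ten, mm_one, one_mm, one_mm] at h
    have h' := neg_mem h
    rwa [neg_sub] at h'
  have c3 : act (tau t t' P - P) (tau t t' Q) (EdL t t' e w) -
      act (wd F []) (mm (tau t t' w - w) (tau t t' Q)) (EdL t t' e P) ∈ TrW w := by
    have h := act_TrW w (EdL t t' e P) (EdL t t' e w)
    rw [hP, hw'] at h
    have h2 := act_TrW_mem w (wd F []) (tau t t' Q) h
    rw [map_sub, act_act, act_act, one_mm, one_mm, one_mm] at h2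
    exact h2
  have key : act (tau t t' P) (tau t t' Q) (ten (wd F []) (wd F []) + EdL t t' e w) - ten P Q -
      EdL t t' e (mm P (mm w Q)) =
      (ten (tau t t' P - P) (tau t t' Q) -
        act (wd F []) (mm w (tau t t' Q)) (EdL t t' e P)) +
      (ten P (tau t t' Q - Q) - act (mm P w) (wd F []) (EdL t t' e Q)) +
      (act (tau t t' P - P) (tau t t' Q) (EdL t t' e w) -
        act (wd F []) (mm (tau t t' w - w) (tau t t' Q)) (EdL t t' e P)) := by
    rw [EdL_mm, EdL_mm, tau_mm, map_add, act_ten, mm_one, one_mm, map_add, act_act, act_act,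
      one_mm, mm_one]
    rw [act_sub_left]
    simp only [map_sub, LinearMap.sub_apply, mm_one]
    abel
  rw [key]
  exact add_mem (add_mem c1 c2) c3

end der

end

end Pool.Agent.Helper120_Alt
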