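import Pool.Agent.Helper120_Alt.Prs1

set_option autoImplicit false

/-! Change of presentation: finitely generated syzygies. -/

namespace Pool.Agent.Helper120_Alt

noncomputable section

variable {F X Y ι : Type} [Field F]

/-- formal sums for a family of polynomials -/
abbrev EE (F ι Y : Type) [Field F] : Type := (ι × List Y × List Y) →₀ F

/-- the value of a formal sum -/
def sv (r : ι → (List Y →₀ F)) : EE F ι Y →ₗ[F] (List Y →₀ F) :=
  Finsupp.linearCombination F fun x => shW F x.2.1 x.2.2 (r x.1)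

theorem sv_single (r : ι → (List Y →₀ F)) (i : ι) (P Q : List Y) (c : F) :
    sv r (Finsupp.single (i, P, Q) c) = c • shW F P Q (r i) := by
  unfold sv
  rw [Finsupp.linearCombination_single]

/-- the two-sided shift -/
def shE (F ι : Type) {Y : Type} [Field F] (A B : List Y) : EE F ι Y →ₗ[F] EE F ι Y :=
  Finsupp.lmapDomain F F fun x => (x.1, A ++ x.2.1, x.2.2 ++ B)

theorem shE_single (A B P Q : List Y) (i : ι) (c : F) :
    shE F ι A B (Finsupp.single (i, P, Q) c) = Finsupp.single (i, A ++ P, Q ++ B) c :=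
  Finsupp.mapDomain_single

theorem shE_shE (A B A' B' : List Y) (s : EE F ι Y) :
    shE F ι A B (shE F ι A' B' s) = shE F ι (A ++ A') (B' ++ B) s := by
  unfold shE
  rw [Finsupp.lmapDomain_apply, Finsupp.lmapDomain_apply, Finsupp.lmapDomain_apply,
    ← Finsupp.mapDomain_comp]
  congr 1
  funext x
  simp

theorem shE_nil (s : EE F ι Y) : shE F ι [] [] s = s := by
  unfold shE
  rw [Finsupp.lmapDomain_apply]
  have : (fun x : ι × List Y × List Y => (x.1, ([] : List Y) ++ x.2.1, x.2.2 ++ ([] : List Y))) =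
      id := by
    funext x; simp
  rw [this, Finsupp.mapDomain_id]

theorem sv_shE (r : ι → (List Y →₀ F)) (A B : List Y) (s : EE F ι Y) :
    sv r (shE F ι A B s) = shW F A B (sv r s) := by
  induction s using Finsupp.induction_linear with
  | zero => simp
  | add s t hs ht => rw [map_add, map_add, map_add, map_add, hs, ht]
  | single x c =>
    obtain ⟨i, P, Q⟩ := x
    rw [shE_single, sv_single, sv_single, map_smul, shW_shW]

/-- the two-sided action -/
def aE : (List Y →₀ F) →ₗ[F] (List Y →₀ F) →ₗ[F] (EE F ι Y →ₗ[F] EE F ι Y) :=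
  Finsupp.linearCombination F fun A => Finsupp.linearCombination F fun B => shE F ι A B

theorem aE_wd (A B : List Y) (s : EE F ι Y) : aE (wd F A) (wd F B) s = shE F ι A B s := by
  unfold aE wd
  rw [Finsupp.linearCombination_single, one_smul, Finsupp.linearCombination_single, one_smul]

theorem sv_aE (r : ι → (List Y →₀ F)) (g h : List Y →₀ F) (s : EE F ι Y) :
    sv r (aE g h s) = mm g (mm (sv r s) h) := by
  have h1 : ∀ A, sv r (aE (wd F A) h s) = mm (wd F A) (mm (sv r s) h) := by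
    intro A
    refine lin_ext_eq (sv r ∘ₗ (aE (wd F A)).flip s) (mm (wd F A) ∘ₗ mm (sv r s))
      (fun B => ?_) h
    show sv r (aE (wd F A) (wd F B) s) = mm (wd F A) (mm (sv r s) (wd F B))
    rw [aE_wd, sv_shE, shW_eq_mm]
  exact lin_ext_eq (sv r ∘ₗ ((LinearMap.flip aE) h).flip s) (mm.flip (mm (sv r s) h)) h1 g

/-- the Koszul syzygies of a family -/
def TrE (r : ι → (List Y →₀ F)) : Submodule F (EE F ι Y) :=
  Submodule.span F {z | ∃ s s' : EE F ι Y,
    z = aE (sv r s) (wd F []) s' - aE (wd F []) (sv r s') s}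

/-- the span of the multiples of some formal sums and of the Koszul syzygies -/
def SgE (r : ι → (List Y →₀ F)) (R : Set (EE F ι Y)) : Submodule F (EE F ι Y) :=
  TrE r ⊔ Submodule.span F {z | ∃ σ ∈ R, ∃ A B : List Y, z = shE F ι A B σ}

/-- finitely generated syzygies of a family -/
def FSE (r : ι → (List Y →₀ F)) : Prop :=
  ∃ S : Finset (EE F ι Y), (∀ σ ∈ S, sv r σ = 0) ∧ ∀ s, sv r s = 0 → s ∈ SgE r (S : Set _)

/-- the map of the formal sums -/
def Fi (t : X → (List Y →₀ F)) (a : EE F ι Y) : ((List X × List X) →₀ F) →ₗ[F] EE F ι Y :=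
  Finsupp.linearCombination F fun x => aE (hw t x.1) (hw t x.2) a

theorem Fi_ten (t : X → (List Y →₀ F)) (a : EE F ι Y) (P Q : List X) :
    Fi t a (ten (wd F P) (wd F Q)) = aE (hw t P) (hw t Q) a := by
  unfold Fi
  rw [ten_wd, Finsupp.linearCombination_single, one_smul]

theorem sv_Fi {r : ι → (List Y →₀ F)} {t : X → (List Y →₀ F)} {a : EE F ι Y}
    {w : List X →₀ F} (ha : sv r a = hm t w) (s : (List X × List X) →₀ F) :
    sv r (Fi t a s) = hm t (syW w s) := by
  refine lin_ext2 (sv r ∘ₗ Fi t a) (hm t ∘ₗ syW w) (fun P Q => ?_) s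
  show sv r (Fi t a (ten (wd F P) (wd F Q))) = hm t (syW w (ten (wd F P) (wd F Q)))
  rw [Fi_ten, sv_aE, syW_ten, hm_mm, hm_mm, hm_wd, hm_wd, ha]

/-- the map of the formal sums back -/
def Gi (t' : Y → (List X →₀ F)) (b : ι → ((List X × List X) →₀ F)) :
    EE F ι Y →ₗ[F] ((List X × List X) →₀ F) :=
  Finsupp.linearCombination F fun x => act (hw t' x.2.1) (hw t' x.2.2) (b x.1)

theorem Gi_single (t' : Y → (List X →₀ F)) (b : ι → ((List X × List X) →₀ F)) (i : ι)
    (P Q : List Y) (c : F) :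
    Gi t' b (Finsupp.single (i, P, Q) c) = c • act (hw t' P) (hw t' Q) (b i) := by
  unfold Gi
  rw [Finsupp.linearCombination_single]

theorem syW_Gi {r : ι → (List Y →₀ F)} {t' : Y → (List X →₀ F)}
    {b : ι → ((List X × List X) →₀ F)} {w : List X →₀ F}
    (hb : ∀ i, syW w (b i) = hm t' (r i)) (s : EE F ι Y) :
    syW w (Gi t' b s) = hm t' (sv r s) := by
  induction s using Finsupp.induction_linear with
  | zero => simp
  | add s t hs ht => rw [map_add, map_add, map_add, map_add, hs, ht]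
  | single x c =>
    obtain ⟨i, P, Q⟩ := x
    rw [Gi_single, sv_single, map_smul, map_smul, syW_act, hb, shW_eq_mm, hm_mm, hm_mm, hm_wd,
      hm_wd]

theorem Gi_shE (t' : Y → (List X →₀ F)) (b : ι → ((List X × List X) →₀ F)) (A B : List Y)
    (s : EE F ι Y) :
    Gi t' b (shE F ι A B s) = act (hw t' A) (hw t' B) (Gi t' b s) := by
  induction s using Finsupp.induction_linear with
  | zero => simp
  | add s t hs ht => rw [map_add, map_add, map_add, map_add, hs, ht]
  | single x c =>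
    obtain ⟨i, P, Q⟩ := x
    rw [shE_single, Gi_single, Gi_single, map_smul, act_act, hw_append, hw_append]

theorem Gi_aE (t' : Y → (List X →₀ F)) (b : ι → ((List X × List X) →₀ F))
    (g h : List Y →₀ F) (s : EE F ι Y) :
    Gi t' b (aE g h s) = act (hm t' g) (hm t' h) (Gi t' b s) := by
  have h1 : ∀ A, Gi t' b (aE (wd F A) h s) = act (hm t' (wd F A)) (hm t' h) (Gi t' b s) := by
    intro A
    refine lin_ext_eq (Gi t' b ∘ₗ (aE (wd F A)).flip s)
      ((act (hm t' (wd F A))).flip (Gi t' b s) ∘ₗ hm t') (fun B => ?_) h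
    show Gi t' b (aE (wd F A) (wd F B) s) = act (hm t' (wd F A)) (hm t' (wd F B)) (Gi t' b s)
    rw [aE_wd, Gi_shE, hm_wd, hm_wd]
  exact lin_ext_eq (Gi t' b ∘ₗ ((LinearMap.flip aE) h).flip s)
    (((LinearMap.flip act) (hm t' h)).flip (Gi t' b s) ∘ₗ hm t') h1 g

theorem Gi_TrE {r : ι → (List Y →₀ F)} {t' : Y → (List X →₀ F)}
    {b : ι → ((List X × List X) →₀ F)} {w : List X →₀ F}
    (hb : ∀ i, syW w (b i) = hm t' (r i)) {s : EE F ι Y} (hs : s ∈ TrE r) :
    Gi t' b s ∈ TrW w := by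
  have : TrE r ≤ (TrW w).comap (Gi t' b) := by
    unfold TrE
    rw [Submodule.span_le]
    rintro _ ⟨s, s', rfl⟩
    show Gi t' b (aE (sv r s) (wd F []) s' - aE (wd F []) (sv r s') s) ∈ TrW w
    have e : hm t' (wd F ([] : List Y)) = wd F [] := by rw [hm_wd]; rfl
    rw [map_sub, Gi_aE, Gi_aE, e, ← syW_Gi hb, ← syW_Gi hb]
    exact act_TrW w _ _
  exact this hs

/-- finite generation of the syzygies does not depend on the presentation -/
theorem fsy_transfer {r : ι → (List Y →₀ F)} (hr : FSE r) {t : X → (List Y →₀ F)}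
    {t' : Y → (List X →₀ F)} {w : List X →₀ F} (ha : ∃ a, sv r a = hm t w)
    (hb : ∀ i, ∃ b, syW w b = hm t' (r i))
    (he : ∀ x, ∃ e, syW w e = tau t t' (wd F [x]) - wd F [x]) :
    ∃ S : Finset ((List X × List X) →₀ F), (∀ σ ∈ S, syW w σ = 0) ∧
      ∀ s, syW w s = 0 →
        s ∈ TrW w ⊔ Submodule.span F {z | ∃ σ ∈ S, ∃ A B : List X, z = shL F A B σ} := by
  classical
  obtain ⟨S, hS0, hS⟩ := hr
  obtain ⟨a, ha⟩ := ha
  choose b hb using hb
  choose e he using he
  let κ : (List X × List X) →₀ F :=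
    Gi t' b a - (ten (wd F []) (wd F []) + EdL t t' e w)
  have hκ : syW w κ = 0 := by
    show syW w (Gi t' b a - (ten (wd F []) (wd F []) + EdL t t' e w)) = 0
    rw [map_sub, map_add, syW_Gi hb, ha, syW_ten, syW_Ed he, one_mm, mm_one]
    show tau t t' w - (w + (tau t t' w - w)) = 0
    abel
  refine ⟨S.image (Gi t' b) ∪ {κ}, ?_, ?_⟩
  · intro σ hσ
    rw [Finset.mem_union, Finset.mem_image, Finset.mem_singleton] at hσ
    rcases hσ with ⟨τ, hτ, rfl⟩ | rfl
    · rw [syW_Gi hb, hS0 τ hτ, map_zero]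
    · exact hκ
  set Z : Submodule F ((List X × List X) →₀ F) := TrW w ⊔ Submodule.span F
    {z | ∃ σ ∈ S.image (Gi t' b) ∪ {κ}, ∃ A B : List X, z = shL F A B σ} with hZ
  have hZact : ∀ σ ∈ S.image (Gi t' b) ∪ {κ}, ∀ g h : List X →₀ F, act g h σ ∈ Z := by
    intro σ hσ g h
    apply Submodule.mem_sup_right
    refine (Submodule.span_mono ?_ : _ ≤ _) (act_mem g h σ)
    rintro _ ⟨A, B, rfl⟩
    exact ⟨σ, hσ, A, B, rfl⟩
  -- the main congruence for all formal sums
  have h1 : ∀ s, Gi t' b (Fi t a s) - s - EdL t t' e (syW w s) ∈ Z := by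
    intro s
    refine lin_ext2_mem Z (Gi t' b ∘ₗ Fi t a - LinearMap.id - EdL t t' e ∘ₗ syW w)
      (fun P Q => ?_) s
    show Gi t' b (Fi t a (ten (wd F P) (wd F Q))) - ten (wd F P) (wd F Q) -
      EdL t t' e (syW w (ten (wd F P) (wd F Q))) ∈ Z
    rw [Fi_ten, Gi_aE, syW_ten]
    have e1 : hm t' (hw t P) = tau t t' (wd F P) := by
      show _ = hm t' (hm t (wd F P)); rw [hm_wd]
    have e2 : hm t' (hw t Q) = tau t t' (wd F Q) := by
      show _ = hm t' (hm t (wd F Q)); rw [hm_wd]
    rw [e1, e2]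
    have h2 := tau_ten he (wd F P) (wd F Q)
    have h3 := hZact κ (by simp) (tau t t' (wd F P)) (tau t t' (wd F Q))
    have e3 : Gi t' b a = κ + (ten (wd F []) (wd F []) + EdL t t' e w) := by
      show _ = (Gi t' b a - (ten (wd F []) (wd F []) + EdL t t' e w)) +
        (ten (wd F []) (wd F []) + EdL t t' e w)
      rw [sub_add_cancel]
    have e4 : ∀ p q u v : (List X × List X) →₀ F, p + q - u - v = p + (q - u - v) := by
      intro p q u v; abel
    rw [e3, map_add, e4]
    exact add_mem h3 (Submodule.mem_sup_left h2)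
  intro s hs
  have h2 := h1 s
  rw [hs, map_zero, sub_zero] at h2
  have h3 : sv r (Fi t a s) = 0 := by rw [sv_Fi ha, hs, map_zero]
  have h4 := hS _ h3
  have h5 : SgE r (S : Set _) ≤ Z.comap (Gi t' b) := by
    unfold SgE
    rw [sup_le_iff]
    constructor
    · intro z hz
      exact Submodule.mem_sup_left (Gi_TrE hb hz)
    · rw [Submodule.span_le]
      rintro _ ⟨σ, hσ, A, B, rfl⟩
      show Gi t' b (shE F ι A B σ) ∈ Z
      rw [Gi_shE]
      exact hZact _ (Finset.mem_union_left _ (Finset.mem_image_of_mem _ hσ)) _ _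
  have h6 : Gi t' b (Fi t a s) ∈ Z := h5 h4
  have h7 := sub_mem h6 h2
  rwa [sub_sub_cancel] at h7

end

end Pool.Agent.Helper120_Alt
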