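import Pool.Agent.Helper120_Alt.Prs2

set_option autoImplicit false

/-! Finite Groebner bases of ideals with several generators: syzygies. -/

namespace Pool.Agent.Helper120_Alt

noncomputable section

variable {F Y ι : Type} [Field F]

theorem aE_aE (g h g' h' : List Y →₀ F) (s : EE F ι Y) :
    aE g h (aE g' h' s) = aE (mm g g') (mm h' h) s := by
  have h1 : ∀ A B A' B' : List Y, aE (wd F A) (wd F B) (aE (wd F A') (wd F B') s) =
      aE (mm (wd F A) (wd F A')) (mm (wd F B') (wd F B)) s := by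
    intro A B A' B'
    rw [mm_wd_wd, mm_wd_wd, aE_wd, aE_wd, aE_wd, shE_shE]
  have h2 : ∀ A B A' : List Y, aE (wd F A) (wd F B) (aE (wd F A') h' s) =
      aE (mm (wd F A) (wd F A')) (mm h' (wd F B)) s := by
    intro A B A'
    exact lin_ext_eq (aE (wd F A) (wd F B) ∘ₗ (aE (wd F A')).flip s)
      ((aE (mm (wd F A) (wd F A'))).flip s ∘ₗ mm.flip (wd F B)) (fun B' => h1 A B A' B') h'
  have h3 : ∀ A B : List Y, aE (wd F A) (wd F B) (aE g' h' s) =
      aE (mm (wd F A) g') (mm h' (wd F B)) s := by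
    intro A B
    exact lin_ext_eq (aE (wd F A) (wd F B) ∘ₗ ((LinearMap.flip aE) h').flip s)
      (((LinearMap.flip aE) (mm h' (wd F B))).flip s ∘ₗ mm (wd F A)) (fun A' => h2 A B A') g'
  have h4 : ∀ A : List Y, aE (wd F A) h (aE g' h' s) =
      aE (mm (wd F A) g') (mm h' h) s := by
    intro A
    exact lin_ext_eq ((aE (wd F A)).flip (aE g' h' s))
      ((aE (mm (wd F A) g')).flip s ∘ₗ mm h') (fun B => h3 A B) h
  exact lin_ext_eq (((LinearMap.flip aE) h).flip (aE g' h' s))
    (((LinearMap.flip aE) (mm h' h)).flip s ∘ₗ mm.flip g') h4 g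

theorem lowmem {V : Type} [AddCommGroup V] [Module F V] (T : Submodule F V)
    (φ : (List Y →₀ F) →ₗ[F] V) (q : List Y →₀ F) (h : ∀ W, q W ≠ 0 → φ (wd F W) ∈ T) :
    φ q ∈ T := by
  rw [← Finsupp.sum_single q, Finsupp.sum, map_sum]
  apply Submodule.sum_mem
  intro W hW
  have e : (Finsupp.single W (q W) : List Y →₀ F) = q W • wd F W := by
    unfold wd; rw [Finsupp.smul_single, smul_eq_mul, mul_one]
  rw [e, map_smul]
  exact Submodule.smul_mem _ _ (h W (Finsupp.mem_support_iff.mp hW))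

theorem TrE_sh (r : ι → (List Y →₀ F)) (A B : List Y) {s : EE F ι Y} (hs : s ∈ TrE r) :
    shE F ι A B s ∈ TrE r := by
  have : TrE r ≤ (TrE r).comap (shE F ι A B) := by
    have hle : ∀ z ∈ {z | ∃ s s' : EE F ι Y,
        z = aE (sv r s) (wd F []) s' - aE (wd F []) (sv r s') s}, shE F ι A B z ∈ TrE r := by
      rintro _ ⟨s, s', rfl⟩
      apply Submodule.subset_span
      refine ⟨shE F ι A [] s, shE F ι [] B s', ?_⟩
      rw [← aE_wd, ← aE_wd, ← aE_wd, map_sub, sv_aE, sv_aE, aE_aE, aE_aE, aE_aE, aE_aE]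
      simp only [one_mm, mm_one]
    unfold TrE
    rw [Submodule.span_le]
    exact hle
  exact this hs

theorem TrE_ker (r : ι → (List Y →₀ F)) {s : EE F ι Y} (hs : s ∈ TrE r) : sv r s = 0 := by
  have : TrE r ≤ LinearMap.ker (sv r) := by
    unfold TrE
    rw [Submodule.span_le]
    rintro _ ⟨s, s', rfl⟩
    show sv r (aE (sv r s) (wd F []) s' - aE (wd F []) (sv r s') s) = 0
    rw [map_sub, sv_aE, sv_aE, mm_one, one_mm, sub_self]
  exact this hs

variable {r : ι → (List Y →₀ F)}

theorem SgE_sh (R : Set (EE F ι Y)) (A B : List Y)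
    {s : EE F ι Y} (hs : s ∈ SgE r R) : shE F ι A B s ∈ SgE r R := by
  have : SgE r R ≤ (SgE r R).comap (shE F ι A B) := by
    have h1 : ∀ z ∈ {z | ∃ σ ∈ R, ∃ A B : List Y, z = shE F ι A B σ},
        shE F ι A B z ∈ SgE r R := by
      rintro _ ⟨σ, hσ, A', B', rfl⟩
      apply Submodule.mem_sup_right
      apply Submodule.subset_span
      exact ⟨σ, hσ, A ++ A', B' ++ B, shE_shE _ _ _ _ _⟩
    have h2 : ∀ z ∈ TrE r, shE F ι A B z ∈ SgE r R := fun z hz =>
      Submodule.mem_sup_left (TrE_sh r A B hz)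
    refine sup_le h2 ?_
    rw [Submodule.span_le]
    exact h1
  exact this hs

theorem mem_SgE {R : Set (EE F ι Y)} {σ : EE F ι Y} (h : σ ∈ R) : σ ∈ SgE r R := by
  apply Submodule.mem_sup_right
  apply Submodule.subset_span
  exact ⟨σ, h, [], [], (shE_nil σ).symm⟩

theorem SgE_ker {R : Set (EE F ι Y)} (hR : ∀ σ ∈ R, sv r σ = 0) :
    ∀ s ∈ SgE r R, sv r s = 0 := by
  have : SgE r R ≤ LinearMap.ker (sv r) := by
    unfold SgE
    rw [sup_le_iff]
    constructor
    · intro s hs
      exact TrE_ker r hs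
    · rw [Submodule.span_le]
      rintro _ ⟨σ, hσ, A, B, rfl⟩
      show sv r (shE F ι A B σ) = 0
      rw [sv_shE, hR σ hσ, map_zero]
  exact fun s hs => this hs

/-- a family of polynomials that is a Groebner basis -/
structure GBe (r : ι → (List Y →₀ F)) (lt : List Y → List Y → Prop) (ld : ι → List Y) :
    Prop where
  wf : WellFounded lt
  comp : ∀ a b c d : List Y, lt a b → lt (c ++ a ++ d) (c ++ b ++ d)
  one : ∀ i, r i (ld i) = 1
  low : ∀ i W, r i W ≠ 0 → W ≠ ld i → lt W (ld i)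
  red : ∀ s T, sv r s T ≠ 0 → (∀ W, sv r s W ≠ 0 → W ≠ T → lt W T) → ∃ i, ld i <:+: T

/-- the formal sums of multiples with small leading words -/
def NE (F : Type) {ι Y : Type} [Field F] (lt : List Y → List Y → Prop) (ld : ι → List Y)
    (Z : List Y) : Submodule F (EE F ι Y) :=
  Submodule.span F {s | ∃ i, ∃ A B : List Y, lt (A ++ ld i ++ B) Z ∧
    s = Finsupp.single (i, A, B) 1}

variable {lt : List Y → List Y → Prop} {ld : ι → List Y}

theorem NE_mono [IsStrictTotalOrder (List Y) lt] {Z Z' : List Y} (h : lt Z Z') :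
    NE F lt ld Z ≤ NE F lt ld Z' := by
  apply Submodule.span_mono
  rintro s ⟨i, A, B, h1, rfl⟩
  exact ⟨i, A, B, _root_.trans (r := lt) h1 h, rfl⟩

theorem NE_sh (h : GBe r lt ld) (A B Z : List Y) {s : EE F ι Y}
    (hs : s ∈ NE F lt ld Z) : shE F ι A B s ∈ NE F lt ld (A ++ Z ++ B) := by
  have : NE F lt ld Z ≤ (NE F lt ld (A ++ Z ++ B)).comap (shE F ι A B) := by
    have hle : ∀ s ∈ {s : EE F ι Y | ∃ i, ∃ A B : List Y, lt (A ++ ld i ++ B) Z ∧
        s = Finsupp.single (i, A, B) 1}, shE F ι A B s ∈ NE F lt ld (A ++ Z ++ B) := by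
      rintro s ⟨i, A', B', h1, rfl⟩
      apply Submodule.subset_span
      refine ⟨i, A ++ A', B' ++ B, ?_, shE_single _ _ _ _ _ _⟩
      have := h.comp _ _ A B h1
      simpa using this
    unfold NE
    rw [Submodule.span_le]
    exact hle
  exact this hs

theorem e1' (h : GBe r lt ld) (i : ι) (A B : List Y) :
    sv r (Finsupp.single (i, A, B) 1) (A ++ ld i ++ B) = 1 := by
  rw [sv_single, one_smul, shW_apply, h.one]

theorem e2' (h : GBe r lt ld) (i : ι) (A B W : List Y)
    (hW : sv r (Finsupp.single (i, A, B) 1) W ≠ 0) (hne : W ≠ A ++ ld i ++ B) :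
    lt W (A ++ ld i ++ B) := by
  rw [sv_single, one_smul] at hW
  obtain ⟨W', rfl, h1⟩ := shW_ne _ _ _ _ hW
  apply h.comp
  apply h.low i W' h1
  rintro rfl
  exact hne rfl

/-- one step of the reduction -/
theorem red_stepE [IsStrictTotalOrder (List Y) lt] (h : GBe r lt ld)
    (s : EE F ι Y) (hs : sv r s ≠ 0) :
    ∃ i, ∃ A B : List Y, ∃ c : F, sv r s (A ++ ld i ++ B) ≠ 0 ∧
      ∀ W, sv r (s - c • Finsupp.single (i, A, B) 1) W ≠ 0 → lt W (A ++ ld i ++ B) := by
  obtain ⟨T0, h0, hm⟩ := R3.exists_top lt (id : List Y → List Y) Function.injective_id hs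
  obtain ⟨i, A, B, rfl⟩ := h.red s T0 h0 hm
  refine ⟨i, A, B, sv r s (A ++ ld i ++ B), h0, ?_⟩
  intro W hW
  rw [map_sub, map_smul, Finsupp.sub_apply, Finsupp.smul_apply, smul_eq_mul] at hW
  by_cases hne : W = A ++ ld i ++ B
  · rw [hne, e1' h, mul_one, sub_self] at hW
    exact absurd rfl hW
  · by_cases h1 : sv r s W = 0
    · rw [h1, zero_sub] at hW
      exact e2' h i A B W (right_ne_zero_of_mul (neg_ne_zero.mp hW)) hne
    · exact hm W h1 hne

/-- standard representations -/
theorem SRE [IsStrictTotalOrder (List Y) lt] (h : GBe r lt ld) (Z : List Y) :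
    ∀ s : EE F ι Y, (∀ W, sv r s W ≠ 0 → lt W Z) →
      ∃ t ∈ NE F lt ld Z, sv r t = sv r s := by
  induction Z using h.wf.induction with
  | _ Z ih =>
    intro s hs
    by_cases h0 : sv r s = 0
    · exact ⟨0, zero_mem _, by rw [map_zero, h0]⟩
    · obtain ⟨i, A, B, c, h1, h2⟩ := red_stepE h s h0
      have h3 := hs _ h1
      obtain ⟨t, ht, e⟩ := ih _ h3 _ h2
      refine ⟨t + c • Finsupp.single (i, A, B) 1, ?_, ?_⟩
      · exact add_mem (NE_mono h3 ht) (Submodule.smul_mem _ _
          (Submodule.subset_span ⟨i, A, B, h3, rfl⟩))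
      · rw [map_add, e, ← map_add, sub_add_cancel]

/-- the configurations of two leading words -/
abbrev CfgE (ι Y : Type) : Type := ι × List Y × List Y × ι × List Y

/-- the difference of two multiples with the same leading word -/
def difE (F : Type) {ι Y : Type} [Field F] (x : CfgE ι Y) : EE F ι Y :=
  Finsupp.single (x.1, [], x.2.1) 1 - Finsupp.single (x.2.2.2.1, x.2.2.1, x.2.2.2.2) 1

theorem exists_sigmaE [IsStrictTotalOrder (List Y) lt] (h : GBe r lt ld) (x : CfgE ι Y)
    (h3 : ld x.1 ++ x.2.1 = x.2.2.1 ++ ld x.2.2.2.1 ++ x.2.2.2.2) :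
    ∃ σ, sv r σ = 0 ∧ difE F x - σ ∈ NE F lt ld (ld x.1 ++ x.2.1) := by
  obtain ⟨i, E, D, j, E'⟩ := x
  simp only at h3
  have h4 : ∀ W, sv r (difE F (i, E, D, j, E')) W ≠ 0 → lt W (ld i ++ E) := by
    intro W hW
    unfold difE at hW
    rw [map_sub, Finsupp.sub_apply] at hW
    have e1 : sv r (Finsupp.single (i, [], E) 1) (ld i ++ E) = 1 := e1' h i [] E
    have e2 : sv r (Finsupp.single (j, D, E') 1) (ld i ++ E) = 1 := by
      rw [h3]; exact e1' h j D E'
    by_cases hne : W = ld i ++ E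
    · rw [hne, e1, e2, sub_self] at hW
      exact absurd rfl hW
    · by_cases h5 : sv r (Finsupp.single (i, [], E) 1) W = 0
      · rw [h5, zero_sub] at hW
        have := e2' h j D E' W (neg_ne_zero.mp hW) (by rw [← h3]; exact hne)
        rw [h3]; exact this
      · exact e2' h i [] E W h5 hne
  obtain ⟨t, ht, e⟩ := SRE h (ld i ++ E) _ h4
  refine ⟨difE F (i, E, D, j, E') - t, ?_, ?_⟩
  · rw [map_sub, e, sub_self]
  · rw [sub_sub_cancel]; exact ht

/-- the disjoint case -/
theorem disj_caseE [IsStrictTotalOrder (List Y) lt] (h : GBe r lt ld) (i j : ι) (V : List Y) :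
    (Finsupp.single (i, [], V ++ ld j) 1 : EE F ι Y) - Finsupp.single (j, ld i ++ V, []) 1 ∈
      TrE r ⊔ NE F lt ld (ld i ++ V ++ ld j) := by
  have h1 : aE (sv r (Finsupp.single (i, [], []) 1)) (wd F []) (Finsupp.single (j, V, []) 1) -
      aE (wd F []) (sv r (Finsupp.single (j, V, []) 1)) (Finsupp.single (i, [], []) 1) ∈
      TrE r := Submodule.subset_span ⟨_, _, rfl⟩
  have s1 : sv r (Finsupp.single (i, [], []) 1) = r i := by
    rw [sv_single, one_smul, shW_nil]
  have s2 : sv r (Finsupp.single (j, V, []) 1) = mm (wd F V) (r j) := by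
    rw [sv_single, one_smul, mm_wd]
  rw [s1, s2] at h1
  have d1 : r i = wd F (ld i) + (r i).erase (ld i) := by
    have := Finsupp.single_add_erase (ld i) (r i)
    rw [h.one] at this
    exact this.symm
  have d2 : r j = wd F (ld j) + (r j).erase (ld j) := by
    have := Finsupp.single_add_erase (ld j) (r j)
    rw [h.one] at this
    exact this.symm
  have n1 : aE ((r i).erase (ld i)) (wd F []) (Finsupp.single (j, V, []) 1) ∈
      NE F lt ld (ld i ++ V ++ ld j) := by
    refine lowmem _ ((aE.flip (wd F [])).flip (Finsupp.single (j, V, []) 1)) _ (fun W hW => ?_)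
    show aE (wd F W) (wd F []) (Finsupp.single (j, V, []) 1) ∈ _
    rw [aE_wd, shE_single]
    have hne : W ≠ ld i := by
      rintro rfl
      rw [Finsupp.erase_same] at hW
      exact hW rfl
    rw [Finsupp.erase_ne hne] at hW
    apply Submodule.subset_span
    refine ⟨j, W ++ V, [], ?_, by simp⟩
    have := h.comp _ _ [] (V ++ ld j) (h.low i W hW hne)
    simpa using this
  have n2 : aE (wd F []) (mm (wd F V) ((r j).erase (ld j))) (Finsupp.single (i, [], []) 1) ∈
      NE F lt ld (ld i ++ V ++ ld j) := by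
    refine lowmem _ ((aE (wd F [])).flip (Finsupp.single (i, [], []) 1) ∘ₗ mm (wd F V)) _
      (fun W hW => ?_)
    show aE (wd F []) (mm (wd F V) (wd F W)) (Finsupp.single (i, [], []) 1) ∈ _
    rw [mm_wd_wd, aE_wd, shE_single]
    have hne : W ≠ ld j := by
      rintro rfl
      rw [Finsupp.erase_same] at hW
      exact hW rfl
    rw [Finsupp.erase_ne hne] at hW
    apply Submodule.subset_span
    refine ⟨i, [], V ++ W, ?_, by simp⟩
    have := h.comp _ _ (ld i ++ V) [] (h.low j W hW hne)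
    simpa using this
  have e1 : aE (r i) (wd F []) (Finsupp.single (j, V, []) 1) =
      Finsupp.single (j, ld i ++ V, []) 1 +
      aE ((r i).erase (ld i)) (wd F []) (Finsupp.single (j, V, []) 1) := by
    conv_lhs => rw [d1]
    rw [map_add, LinearMap.add_apply, LinearMap.add_apply, aE_wd, shE_single]
    simp
  have e2 : aE (wd F []) (mm (wd F V) (r j)) (Finsupp.single (i, [], []) 1) =
      Finsupp.single (i, [], V ++ ld j) 1 +
      aE (wd F []) (mm (wd F V) ((r j).erase (ld j))) (Finsupp.single (i, [], []) 1) := by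
    conv_lhs => rw [d2]
    rw [map_add, map_add, LinearMap.add_apply, mm_wd_wd, aE_wd, shE_single]
    simp
  rw [e1, e2] at h1
  have e3 : (Finsupp.single (i, [], V ++ ld j) 1 : EE F ι Y) -
      Finsupp.single (j, ld i ++ V, []) 1 =
      -((Finsupp.single (j, ld i ++ V, []) 1 +
        aE ((r i).erase (ld i)) (wd F []) (Finsupp.single (j, V, []) 1)) -
        (Finsupp.single (i, [], V ++ ld j) 1 +
        aE (wd F []) (mm (wd F V) ((r j).erase (ld j))) (Finsupp.single (i, [], []) 1))) +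
      (aE ((r i).erase (ld i)) (wd F []) (Finsupp.single (j, V, []) 1) -
        aE (wd F []) (mm (wd F V) ((r j).erase (ld j))) (Finsupp.single (i, [], []) 1)) := by
    abel
  rw [e3]
  exact Submodule.add_mem_sup (neg_mem h1) (sub_mem n1 n2)

end

end Pool.Agent.Helper120_Alt
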