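import Pool.Agent.Helper120_Alt.Prs3

set_option autoImplicit false

/-! Finite Groebner bases of ideals with several generators: conclusion. -/

namespace Pool.Agent.Helper120_Alt

noncomputable section

variable {F Y ι : Type} [Field F] {r : ι → (List Y →₀ F)} {lt : List Y → List Y → Prop}
  {ld : ι → List Y}

theorem sup_shE (h : GBe r lt ld) (R : Set (EE F ι Y)) (A B Z : List Y)
    {s : EE F ι Y} (hs : s ∈ SgE r R ⊔ NE F lt ld Z) :
    shE F ι A B s ∈ SgE r R ⊔ NE F lt ld (A ++ Z ++ B) := by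
  obtain ⟨y, hy, z, hz, rfl⟩ := Submodule.mem_sup.mp hs
  rw [map_add]
  exact Submodule.add_mem_sup (SgE_sh R A B hy) (NE_sh h A B Z hz)

/-- the set of configurations that have to be considered -/
def CokE (ld : ι → List Y) (L : ℕ) (x : CfgE ι Y) : Prop :=
  x.2.1.length ≤ L ∧ x.2.2.1.length ≤ L ∧ x.2.2.2.2.length ≤ L ∧
    ld x.1 ++ x.2.1 = x.2.2.1 ++ ld x.2.2.2.1 ++ x.2.2.2.2

theorem two_dec_leE [IsStrictTotalOrder (List Y) lt] (h : GBe r lt ld) {L : ℕ}
    (hL : ∀ i, (ld i).length ≤ L) {R : Set (EE F ι Y)}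
    (hR : ∀ x : CfgE ι Y, CokE ld L x → ∃ σ ∈ R, difE F x - σ ∈ NE F lt ld (ld x.1 ++ x.2.1))
    (i j : ι) {A B D B' : List Y} (he : ld i ++ B = D ++ (ld j ++ B')) :
    (Finsupp.single (i, A, B) 1 : EE F ι Y) - Finsupp.single (j, A ++ D, B') 1 ∈
      SgE r R ⊔ NE F lt ld (A ++ ld i ++ B) := by
  have cf : ∀ (E D E' B0 : List Y), E.length ≤ L → D.length ≤ L → E'.length ≤ L →
      ld i ++ E = D ++ ld j ++ E' → (Finsupp.single (i, A, E ++ B0) 1 : EE F ι Y) -
        Finsupp.single (j, A ++ D, E' ++ B0) 1 ∈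
      SgE r R ⊔ NE F lt ld (A ++ ld i ++ (E ++ B0)) := by
    intro E D E' B0 h1 h2 h3 h4
    obtain ⟨σ, hσ, h5⟩ := hR (i, E, D, j, E') ⟨h1, h2, h3, h4⟩
    have h6 : difE F (i, E, D, j, E') ∈ SgE r R ⊔ NE F lt ld (ld i ++ E) := by
      rw [← sub_add_cancel (difE F (i, E, D, j, E')) σ, add_comm]
      exact Submodule.add_mem_sup (mem_SgE hσ) h5
    have h7 := sup_shE h R A B0 _ h6
    unfold difE at h7
    rw [map_sub, shE_single, shE_single] at h7
    simpa using h7
  rcases List.append_eq_append_iff.mp he with ⟨V, hD, hB⟩ | ⟨E0, hTe, hB⟩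
  · subst hD hB
    have h1 : (Finsupp.single (i, [], V ++ ld j) 1 : EE F ι Y) -
        Finsupp.single (j, ld i ++ V, []) 1 ∈ SgE r R ⊔ NE F lt ld (ld i ++ V ++ ld j) := by
      have hle : TrE r ≤ SgE r R := le_sup_left
      exact sup_le_sup_right hle _ (disj_caseE h i j V)
    have h7 := sup_shE h R A B' _ h1
    rw [map_sub, shE_single, shE_single] at h7
    simpa using h7
  · rcases List.append_eq_append_iff.mp hB with ⟨E', h1, h2⟩ | ⟨E, h1, h2⟩
    · subst h1 h2
      have h3 := hL i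
      have := cf [] D E' B (by simp) (by rw [hTe] at h3; simp at h3; omega)
        (by rw [hTe] at h3; simp at h3; omega) (by rw [hTe]; simp)
      simpa using this
    · have h3 := hL i
      have h4 := hL j
      have := cf E D [] B' (by rw [h1] at h4; simp at h4; omega)
        (by rw [hTe] at h3; simp at h3; omega) (by simp) (by rw [hTe, h1]; simp)
      rw [h2]
      simpa using this

theorem two_decE [IsStrictTotalOrder (List Y) lt] (h : GBe r lt ld) {L : ℕ}
    (hL : ∀ i, (ld i).length ≤ L) {R : Set (EE F ι Y)}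
    (hR : ∀ x : CfgE ι Y, CokE ld L x → ∃ σ ∈ R, difE F x - σ ∈ NE F lt ld (ld x.1 ++ x.2.1))
    (i j : ι) {A B A' B' : List Y} (he : A ++ ld i ++ B = A' ++ ld j ++ B') :
    (Finsupp.single (i, A, B) 1 : EE F ι Y) - Finsupp.single (j, A', B') 1 ∈
      SgE r R ⊔ NE F lt ld (A ++ ld i ++ B) := by
  rw [List.append_assoc, List.append_assoc] at he
  rcases List.append_eq_append_iff.mp he with ⟨D, h1, h2⟩ | ⟨D, h1, h2⟩
  · subst h1
    exact two_dec_leE h hL hR i j h2
  · subst h1
    have h3 := two_dec_leE h hL hR j i (A := A') h2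
    rw [← neg_sub]
    apply neg_mem
    have : A' ++ D ++ ld i ++ B = A' ++ ld j ++ B' := by
      rw [List.append_assoc A' (ld j) B', h2]; simp
    rw [this]
    exact h3

/-- decompositions of words -/
def RdE (ld : ι → List Y) (Z : List Y) : Prop :=
  ∃ x : List Y × ι × List Y, x.1 ++ ld x.2.1 ++ x.2.2 = Z

open Classical in
/-- the chosen multiple with a given leading word -/
def bzE (F : Type) {ι Y : Type} [Field F] (ld : ι → List Y) (Z : List Y) : EE F ι Y :=
  if hZ : RdE ld Z then Finsupp.single (hZ.choose.2.1, hZ.choose.1, hZ.choose.2.2) 1 else 0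

theorem bz_spanE [IsStrictTotalOrder (List Y) lt] (h : GBe r lt ld) {L : ℕ}
    (hL : ∀ i, (ld i).length ≤ L) {R : Set (EE F ι Y)}
    (hR : ∀ x : CfgE ι Y, CokE ld L x → ∃ σ ∈ R, difE F x - σ ∈ NE F lt ld (ld x.1 ++ x.2.1))
    (Z : List Y) : ∀ i, ∀ A B : List Y, A ++ ld i ++ B = Z →
      (Finsupp.single (i, A, B) 1 : EE F ι Y) ∈
        SgE r R ⊔ Submodule.span F (bzE F ld '' {Z | RdE ld Z}) := by
  induction Z using h.wf.induction with
  | _ Z ih =>
    intro i A B hZ
    have hr : RdE ld Z := ⟨(A, i, B), hZ⟩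
    have e : bzE F ld Z = Finsupp.single (hr.choose.2.1, hr.choose.1, hr.choose.2.2) 1 := by
      unfold bzE; rw [dif_pos hr]
    have hs := hr.choose_spec
    have h1 := two_decE h hL hR i hr.choose.2.1 (hZ.trans hs.symm)
    rw [← e, hZ] at h1
    have h2 : NE F lt ld Z ≤ SgE r R ⊔ Submodule.span F (bzE F ld '' {Z | RdE ld Z}) := by
      have h3 : ∀ s ∈ {s : EE F ι Y | ∃ i, ∃ A B : List Y, lt (A ++ ld i ++ B) Z ∧
          s = Finsupp.single (i, A, B) 1},
          s ∈ SgE r R ⊔ Submodule.span F (bzE F ld '' {Z | RdE ld Z}) := by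
        rintro s ⟨j, A', B', hlt, rfl⟩
        exact ih _ hlt j A' B' rfl
      unfold NE
      rw [Submodule.span_le]
      exact h3
    rw [← sub_add_cancel (Finsupp.single (i, A, B) 1) (bzE F ld Z)]
    apply add_mem
    · exact (sup_le le_sup_left h2 : _ ≤ _) h1
    · exact Submodule.mem_sup_right (Submodule.subset_span ⟨Z, hr, rfl⟩)

/-- finite Groebner bases give finitely generated syzygies -/
theorem FSE_of_GBe [Finite Y] [Finite ι] [IsStrictTotalOrder (List Y) lt] (h : GBe r lt ld) :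
    FSE r := by
  classical
  have := Fintype.ofFinite ι
  let L : ℕ := Finset.univ.sup fun i => (ld i).length
  have hL : ∀ i, (ld i).length ≤ L := fun i =>
    Finset.le_sup (f := fun i => (ld i).length) (Finset.mem_univ i)
  have hfin : {x : CfgE ι Y | CokE ld L x}.Finite := by
    have hw : {W : List Y | W.length ≤ L}.Finite := List.finite_length_le Y L
    have hι : (Set.univ : Set ι).Finite := Set.finite_univ
    refine ((hι.prod (hw.prod (hw.prod (hι.prod hw))))).subset ?_
    rintro ⟨i, E, D, j, E'⟩ ⟨h1, h2, h3, _⟩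
    exact ⟨trivial, h1, h2, trivial, h3⟩
  have hex : ∀ x : CfgE ι Y, ∃ σ : EE F ι Y, sv r σ = 0 ∧ (CokE ld L x →
      difE F x - σ ∈ NE F lt ld (ld x.1 ++ x.2.1)) := by
    intro x
    by_cases hx : CokE ld L x
    · obtain ⟨σ, h1, h2⟩ := exists_sigmaE h x hx.2.2.2
      exact ⟨σ, h1, fun _ => h2⟩
    · exact ⟨0, map_zero _, fun h => absurd h hx⟩
  choose σ hσ0 hσ using hex
  let Sf : Finset (EE F ι Y) := hfin.toFinset.image σ
  have hR0 : ∀ τ ∈ (Sf : Set (EE F ι Y)), sv r τ = 0 := by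
    intro τ hτ
    rw [Finset.mem_coe, Finset.mem_image] at hτ
    obtain ⟨x, _, rfl⟩ := hτ
    exact hσ0 x
  have hR : ∀ x : CfgE ι Y, CokE ld L x → ∃ τ ∈ (Sf : Set (EE F ι Y)),
      difE F x - τ ∈ NE F lt ld (ld x.1 ++ x.2.1) := by
    intro x hx
    refine ⟨σ x, ?_, hσ x hx⟩
    rw [Finset.mem_coe, Finset.mem_image]
    exact ⟨x, hfin.mem_toFinset.mpr hx, rfl⟩
  refine ⟨Sf, fun τ hτ => hR0 τ hτ, ?_⟩
  intro s hs
  have hall : s ∈ SgE r (Sf : Set _) ⊔ Submodule.span F (bzE F ld '' {Z | RdE ld Z}) := by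
    clear hs
    induction s using Finsupp.induction_linear with
    | zero => exact zero_mem _
    | add a b ha hb => exact add_mem ha hb
    | single x c =>
      obtain ⟨i, P, Q⟩ := x
      have e1 : (Finsupp.single (i, P, Q) c : EE F ι Y) = c • Finsupp.single (i, P, Q) 1 := by
        rw [Finsupp.smul_single, smul_eq_mul, mul_one]
      rw [e1]
      apply Submodule.smul_mem
      exact bz_spanE h hL hR _ i P Q rfl
  obtain ⟨y, hy, z, hz, rfl⟩ := Submodule.mem_sup.mp hall
  obtain ⟨c, hc, rfl⟩ := (Finsupp.mem_span_image_iff_linearCombination F).mp hz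
  have hc0 : c = 0 := by
    by_contra hne
    obtain ⟨Z, hZ, hm⟩ := R3.exists_top lt (id : List Y → List Y) Function.injective_id hne
    have h1 : sv r (Finsupp.linearCombination F (bzE F ld) c) = 0 := by
      rwa [map_add, SgE_ker hR0 y hy, zero_add] at hs
    have hcs : ∀ W, c W ≠ 0 → RdE ld W := fun W hW => hc (Finsupp.mem_support_iff.mpr hW)
    have hb : ∀ W, RdE ld W → sv r (bzE F ld W) W = 1 ∧
        ∀ W', sv r (bzE F ld W) W' ≠ 0 → W' ≠ W → lt W' W := by
      intro W hr
      have e : bzE F ld W = Finsupp.single (hr.choose.2.1, hr.choose.1, hr.choose.2.2) 1 := by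
        unfold bzE; rw [dif_pos hr]
      have hsp := hr.choose_spec
      have h3 := e1' h hr.choose.2.1 hr.choose.1 hr.choose.2.2
      have h4 := e2' h hr.choose.2.1 hr.choose.1 hr.choose.2.2
      rw [← e, hsp] at h3 h4
      exact ⟨h3, h4⟩
    have h2 : (sv r (Finsupp.linearCombination F (bzE F ld) c)) Z = c Z := by
      rw [Finsupp.linearCombination_apply, Finsupp.sum, map_sum, Finsupp.finsetSum_apply,
        Finset.sum_eq_single Z]
      · rw [map_smul, Finsupp.smul_apply, (hb Z (hcs Z hZ)).1, smul_eq_mul, mul_one]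
      · intro W hW hne
        rw [Finsupp.mem_support_iff] at hW
        rw [map_smul, Finsupp.smul_apply, smul_eq_mul]
        by_contra h5
        have h6 := (hb W (hcs W hW)).2 Z (right_ne_zero_of_mul h5) (Ne.symm hne)
        exact asymm (r := lt) h6 (hm W hW hne)
      · intro hZ'
        exact absurd (Finsupp.mem_support_iff.mpr hZ) hZ'
    rw [h1] at h2
    exact hZ h2.symm
  rw [hc0, map_zero, add_zero]
  exact hy

end

end Pool.Agent.Helper120_Alt
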