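import Pool.Agent.Helper120_Alt.Prs4
import Pool.Agent.Helper120_Alt.Aut4

set_option autoImplicit false

/-! Finite Groebner bases in any finite set of letters: decidability. -/

namespace Pool.Agent.Helper120_Alt

noncomputable section

open R3

/-- lists of terms -/
abbrev RN (F : Type) (n : ℕ) : Type := List (F × List (Fin n))

variable {F : Type} [Field F] {m n : ℕ}

/-- the value of a list of terms -/
def vn (A : RN F n) : List (Fin n) →₀ F := (A.map fun p => Finsupp.single p.2 p.1).sum

theorem vn_cons (p : F × List (Fin n)) (A : RN F n) :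
    vn (p :: A) = Finsupp.single p.2 p.1 + vn A := rfl

theorem vn_append (A B : RN F n) : vn (A ++ B) = vn A + vn B := by
  unfold vn
  rw [List.map_append, List.sum_append]

/-- the product with one term -/
def nS (a : F × List (Fin n)) (B : RN F n) : RN F n :=
  B.foldl (fun s b => s ++ [(a.1 * b.1, a.2 ++ b.2)]) []

/-- the product -/
def nR (A B : RN F n) : RN F n := A.foldl (fun s a => s ++ nS a B) []

/-- the image of a word -/
def nW (R : Fin m → RN F n) (W : List (Fin m)) : RN F n :=
  W.foldl (fun s x => nR s (R x)) [(1, [])]

/-- the image of a list of terms -/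
def nL (R : Fin m → RN F n) (L : RN F m) : RN F n :=
  L.foldl (fun s p => s ++ nS (p.1, []) (nW R p.2)) []

theorem nS_eq (a : F × List (Fin n)) (B : RN F n) :
    nS a B = B.flatMap fun b => [(a.1 * b.1, a.2 ++ b.2)] := by
  unfold nS
  rw [foldl_flatMap, List.nil_append]

theorem nR_eq (A B : RN F n) : nR A B = A.flatMap fun a => nS a B := by
  unfold nR
  rw [foldl_flatMap, List.nil_append]

theorem nL_eq (R : Fin m → RN F n) (L : RN F m) :
    nL R L = L.flatMap fun p => nS (p.1, []) (nW R p.2) := by
  unfold nL
  rw [foldl_flatMap, List.nil_append]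

theorem vn_nS (a : F × List (Fin n)) (B : RN F n) :
    vn (nS a B) = mm (Finsupp.single a.2 a.1) (vn B) := by
  rw [nS_eq]
  induction B with
  | nil =>
    show (0 : List (Fin n) →₀ F) = mm (Finsupp.single a.2 a.1) 0
    rw [map_zero]
  | cons b B ih =>
    rw [List.flatMap_cons, vn_append, ih, vn_cons b B, map_add]
    congr 1
    show Finsupp.single (a.2 ++ b.2) (a.1 * b.1) + 0 = _
    have e1 : (Finsupp.single a.2 a.1 : List (Fin n) →₀ F) = a.1 • wd F a.2 := by
      unfold wd; rw [Finsupp.smul_single, smul_eq_mul, mul_one]
    have e2 : (Finsupp.single b.2 b.1 : List (Fin n) →₀ F) = b.1 • wd F b.2 := by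
      unfold wd; rw [Finsupp.smul_single, smul_eq_mul, mul_one]
    rw [e1, e2, map_smul, map_smul, LinearMap.smul_apply, mm_wd_wd, add_zero, smul_smul]
    unfold wd
    rw [Finsupp.smul_single, smul_eq_mul, mul_one, mul_comm]

theorem vn_nR (A B : RN F n) : vn (nR A B) = mm (vn A) (vn B) := by
  rw [nR_eq]
  induction A with
  | nil =>
    show (0 : List (Fin n) →₀ F) = mm 0 (vn B)
    rw [map_zero, LinearMap.zero_apply]
  | cons a A ih =>
    rw [List.flatMap_cons, vn_append, ih, vn_cons, map_add, LinearMap.add_apply, vn_nS]

theorem vn_nW {t : Fin m → (List (Fin n) →₀ F)} {R : Fin m → RN F n}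
    (hR : ∀ x, vn (R x) = t x) (W : List (Fin m)) : vn (nW R W) = hw t W := by
  have h1 : ∀ (W : List (Fin m)) (s : RN F n),
      vn (W.foldl (fun s x => nR s (R x)) s) = mm (vn s) (hw t W) := by
    intro W
    induction W with
    | nil =>
      intro s
      show vn s = mm (vn s) (wd F [])
      rw [mm_one]
    | cons x W ih =>
      intro s
      rw [List.foldl_cons, ih, vn_nR, hR]
      show _ = mm (vn s) (mm (t x) (hw t W))
      rw [mm_assoc]
  unfold nW
  rw [h1]
  have e : vn ([(1, [])] : RN F n) = wd F [] := by
    show Finsupp.single [] 1 + 0 = _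
    rw [add_zero]
    rfl
  rw [e, one_mm]

theorem vn_nL {t : Fin m → (List (Fin n) →₀ F)} {R : Fin m → RN F n}
    (hR : ∀ x, vn (R x) = t x) (L : RN F m) : vn (nL R L) = hm t (vn L) := by
  rw [nL_eq]
  induction L with
  | nil =>
    show (0 : List (Fin n) →₀ F) = hm t 0
    rw [map_zero]
  | cons p L ih =>
    rw [List.flatMap_cons, vn_append, ih, vn_cons, map_add, vn_nS, vn_nW hR]
    congr 1
    have e1 : (Finsupp.single p.2 p.1 : List (Fin m) →₀ F) = p.1 • wd F p.2 := by
      unfold wd; rw [Finsupp.smul_single, smul_eq_mul, mul_one]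
    have e2 : (Finsupp.single ((p.1, ([] : List (Fin n))).2) ((p.1, ([] : List (Fin n))).1) :
        List (Fin n) →₀ F) = p.1 • wd F [] := by
      unfold wd; rw [Finsupp.smul_single, smul_eq_mul, mul_one]
    rw [e1, e2, map_smul, map_smul, LinearMap.smul_apply, hm_wd, one_mm]

theorem exists_rn (g : List (Fin n) →₀ F) : ∃ A : RN F n, vn A = g := by
  induction g using Finsupp.induction_linear with
  | zero => exact ⟨[], rfl⟩
  | add a b ha hb =>
    obtain ⟨r, rfl⟩ := ha
    obtain ⟨r', rfl⟩ := hb
    exact ⟨r ++ r', vn_append _ _⟩
  | single W c =>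
    refine ⟨[(c, W)], ?_⟩
    show Finsupp.single W c + 0 = _
    rw [add_zero]

section comp

variable [Primcodable F]

theorem comp_nS (hmul : Computable₂ fun a b : F => a * b) :
    Computable₂ (nS : F × List (Fin n) → RN F n → RN F n) := by
  have h1 : Computable₂ (fun (a : (F × List (Fin n)) × RN F n) (x : RN F n × (F × List (Fin n))) =>
      x.1 ++ [(a.1.1 * x.2.1, a.1.2 ++ x.2.2)]) := by
    have e1 : Computable (fun y : ((F × List (Fin n)) × RN F n) × (RN F n × (F × List (Fin n))) =>
        y.1.1.1 * y.2.2.1) :=
      hmul.comp (Computable.fst.comp (Computable.fst.comp Computable.fst))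
        (Computable.fst.comp (Computable.snd.comp Computable.snd))
    have e2 : Computable (fun y : ((F × List (Fin n)) × RN F n) × (RN F n × (F × List (Fin n))) =>
        y.1.1.2 ++ y.2.2.2) :=
      Computable.list_append.comp (Computable.snd.comp (Computable.fst.comp Computable.fst))
        (Computable.snd.comp (Computable.snd.comp Computable.snd))
    have e3 : Computable (fun y : ((F × List (Fin n)) × RN F n) × (RN F n × (F × List (Fin n))) =>
        [(y.1.1.1 * y.2.2.1, y.1.1.2 ++ y.2.2.2)]) :=
      Computable.list_cons.comp (e1.pair e2) (Computable.const [])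
    exact Computable.list_append.comp (Computable.fst.comp Computable.snd) e3
  exact comp_foldl (f := fun a : (F × List (Fin n)) × RN F n => a.2)
    (g := fun _ => ([] : RN F n)) Computable.snd (Computable.const []) h1

theorem comp_nR (hmul : Computable₂ fun a b : F => a * b) :
    Computable₂ (nR : RN F n → RN F n → RN F n) := by
  have h1 : Computable₂ (fun (a : RN F n × RN F n) (x : RN F n × (F × List (Fin n))) =>
      x.1 ++ nS x.2 a.2) :=
    Computable.list_append.comp (Computable.fst.comp Computable.snd)
      ((comp_nS hmul).comp (Computable.snd.comp Computable.snd)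
        (Computable.snd.comp Computable.fst))
  exact comp_foldl (f := fun a : RN F n × RN F n => a.1)
    (g := fun _ => ([] : RN F n)) Computable.fst (Computable.const []) h1

theorem comp_nW (hmul : Computable₂ fun a b : F => a * b) (R : Fin m → RN F n) :
    Computable (nW R) := by
  have hR : Computable R := (Primrec.dom_finite R).to_comp
  have h1 : Computable₂ (fun (_ : List (Fin m)) (x : RN F n × Fin m) => nR x.1 (R x.2)) :=
    (comp_nR hmul).comp (Computable.fst.comp Computable.snd)
      (hR.comp (Computable.snd.comp Computable.snd))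
  exact comp_foldl (f := fun a : List (Fin m) => a)
    (g := fun _ => ([(1, [])] : RN F n)) Computable.id (Computable.const _) h1

theorem comp_nL (hmul : Computable₂ fun a b : F => a * b) (R : Fin m → RN F n) :
    Computable (nL R) := by
  have h1 : Computable₂ (fun (_ : RN F m) (x : RN F n × (F × List (Fin m))) =>
      x.1 ++ nS (x.2.1, []) (nW R x.2.2)) := by
    have e1 : Computable (fun y : RN F m × (RN F n × (F × List (Fin m))) =>
        ((y.2.2.1, []) : F × List (Fin n))) :=
      (Computable.fst.comp (Computable.snd.comp Computable.snd)).pair (Computable.const [])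
    exact Computable.list_append.comp (Computable.fst.comp Computable.snd)
      ((comp_nS hmul).comp e1
        ((comp_nW hmul R).comp (Computable.snd.comp (Computable.snd.comp Computable.snd))))
  exact comp_foldl (f := fun a : RN F m => a)
    (g := fun _ => ([] : RN F n)) Computable.id (Computable.const _) h1

end comp

section enc

/-- a code of a word -/
def encN (W : List (Fin n)) : Pw := (List.range (Encodable.encode W)).map fun _ => some 0

/-- decoding -/
def parN (n : ℕ) (w : Pw) : List (Fin n) :=
  (Encodable.decode w.length : Option (List (Fin n))).getD []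

theorem parN_encN (W : List (Fin n)) : parN n (encN W) = W := by
  unfold parN encN
  rw [List.length_map, List.length_range, Encodable.encodek]
  rfl

/-- normalization -/
def repN (n : ℕ) (w : Pw) : Pw := encN (parN n w)

theorem parN_iff (a b : Pw) : parN n a = parN n b ↔ repN n a = repN n b := by
  constructor
  · intro h; unfold repN; rw [h]
  · intro h
    have := congrArg (parN n) h
    unfold repN at this
    rwa [parN_encN, parN_encN] at this

theorem primrec_encN : Primrec (encN : List (Fin n) → Pw) :=
  Primrec.list_map (Primrec.list_range.comp Primrec.encode) (Primrec.const (some 0)).to₂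

theorem primrec_parN : Primrec (parN n) :=
  Primrec.option_getD.comp (Primrec.decode.comp Primrec.list_length) (Primrec.const [])

theorem primrec_repN : Primrec (repN n) := primrec_encN.comp primrec_parN

/-- containing a fixed word -/
def inN (m0 W : List (Fin n)) : Bool :=
  (W.foldr (fun x s => (x :: s.1, s.2 || m0.isPrefixOf (x :: s.1)))
    (([] : List (Fin n)), m0.isPrefixOf [])).2

theorem inN_iff (m0 W : List (Fin n)) : inN m0 W = true ↔ m0 <:+: W := by
  have h1 : ∀ W : List (Fin n), (W.foldr (fun x s => (x :: s.1, s.2 || m0.isPrefixOf (x :: s.1)))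
      (([] : List (Fin n)), m0.isPrefixOf [])).1 = W := by
    intro W
    induction W with
    | nil => rfl
    | cons x W ih => rw [List.foldr_cons, ih]
  unfold inN
  induction W with
  | nil => simp
  | cons x W ih =>
    rw [List.foldr_cons, h1 W, List.infix_cons_iff, Bool.or_eq_true,
      List.isPrefixOf_iff_prefix, or_comm]
    exact or_congr Iff.rfl ih

theorem primrec_preN (m0 : List (Fin n)) : Primrec fun l : List (Fin n) => m0.isPrefixOf l := by
  induction m0 with
  | nil => exact (Primrec.const true).of_eq fun l => by simp
  | cons a m0 ih =>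
    have e1 : Primrec₂ (fun (_ : List (Fin n)) (y : Fin n × List (Fin n)) =>
        (decide (a = y.1) && m0.isPrefixOf y.2)) := by
      refine Primrec.and.comp ?_ (ih.comp (Primrec.snd.comp Primrec.snd))
      exact (Primrec.dom_finite (fun b : Fin n => decide (a = b))).comp
        (Primrec.fst.comp Primrec.snd)
    refine (Primrec.list_casesOn (f := fun l : List (Fin n) => l) (g := fun _ => false)
      Primrec.id (Primrec.const false) e1).of_eq fun l => ?_
    cases l with
    | nil => rfl
    | cons b l =>
      simp only [List.isPrefixOf]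
      rfl

theorem primrec_inN (m0 : List (Fin n)) : Primrec (inN m0) := by
  have e1 : Primrec (fun W : List (Fin n) => W.foldr (fun x s =>
      (x :: s.1, s.2 || m0.isPrefixOf (x :: s.1))) (([] : List (Fin n)), m0.isPrefixOf [])) := by
    refine Primrec.list_foldr (f := fun W : List (Fin n) => W)
      (g := fun _ => (([] : List (Fin n)), m0.isPrefixOf []))
      (h := fun _ y => (y.1 :: y.2.1, y.2.2 || m0.isPrefixOf (y.1 :: y.2.1))) Primrec.id
      (Primrec.const _) ?_
    have e2 : Primrec (fun z : List (Fin n) × (Fin n × (List (Fin n) × Bool)) =>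
        z.2.1 :: z.2.2.1) :=
      Primrec.list_cons.comp (Primrec.fst.comp Primrec.snd)
        (Primrec.fst.comp (Primrec.snd.comp Primrec.snd))
    exact e2.pair (Primrec.or.comp (Primrec.snd.comp (Primrec.snd.comp Primrec.snd))
      ((primrec_preN m0).comp e2))
  exact Primrec.snd.comp e1

/-- irreducible words -/
def okN (S : List (List (Fin n))) (W : List (Fin n)) : Bool := S.all fun T => !(inN T W)

theorem primrec_okN (S : List (List (Fin n))) : Primrec (okN S) := by
  unfold okN
  induction S with
  | nil => exact (Primrec.const true).of_eq fun l => by simp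
  | cons T S ih =>
    exact (Primrec.and.comp (Primrec.not.comp (primrec_inN T)) ih).of_eq fun l => by simp

end enc

section main

variable {k : ℕ}

/-- the coefficients -/
def cM (F : Type) [Field F] (n : ℕ) :
    MonoidAlgebra F (List (Fin n)) ≃ₗ[F] (List (Fin n) →₀ F) := MonoidAlgebra.coeffLinearEquiv F

theorem cM_single (W : List (Fin n)) (c : F) :
    cM F n (MonoidAlgebra.single W c) = Finsupp.single W c :=
  MonoidAlgebra.coeff_single _ _

/-- the code of a list of terms -/
def toR (A : RN F n) : Raw F := A.map fun p => (p.1, encN p.2)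

theorem cM_toR (A : RN F n) : cM F n (Val (parN n) (toR A)) = vn A := by
  induction A with
  | nil =>
    show cM F n (Val (parN n) []) = 0
    rw [Val_nil, map_zero]
  | cons p A ih =>
    show cM F n (Val (parN n) ((p.1, encN p.2) :: toR A)) = _
    rw [Val_cons, map_add, ih, cM_single, parN_encN]
    rfl

/-- multiples of the relations -/
def HN (R : Fin k → RN F n) (x : Fin k × List (Fin n) × List (Fin n)) : Raw F :=
  toR ((R x.1).map fun y => (y.1, x.2.1 ++ y.2 ++ x.2.2))

theorem vn_sh (A B : List (Fin n)) (L : RN F n) :
    vn (L.map fun y => (y.1, A ++ y.2 ++ B)) = shW F A B (vn L) := by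
  induction L with
  | nil => show (0 : List (Fin n) →₀ F) = shW F A B 0; rw [map_zero]
  | cons p L ih => rw [List.map_cons, vn_cons, ih, vn_cons, map_add, shW_single]

theorem primrec_toR [Primcodable F] : Primrec (toR : RN F n → Raw F) :=
  Primrec.list_map Primrec.id ((Primrec.fst.comp Primrec.snd).pair
    (primrec_encN.comp (Primrec.snd.comp Primrec.snd))).to₂

theorem primrec_HN [Primcodable F] (R : Fin k → RN F n) : Primrec (HN R) := by
  refine primrec_toR.comp ?_
  refine Primrec.list_map ((Primrec.dom_finite R).comp Primrec.fst) ?_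
  exact ((Primrec.fst.comp Primrec.snd).pair (Primrec.list_append.comp
    (Primrec.list_append.comp (Primrec.fst.comp (Primrec.snd.comp Primrec.fst))
      (Primrec.snd.comp Primrec.snd))
    (Primrec.snd.comp (Primrec.snd.comp Primrec.fst)))).to₂

/-- membership in an ideal with a finite Groebner basis -/
theorem dec_sv [Primcodable F] (hadd : Computable₂ fun a b : F => a + b)
    (hmul : Computable₂ fun a b : F => a * b) {r : Fin k → (List (Fin n) →₀ F)}
    {lt : List (Fin n) → List (Fin n) → Prop} [IsStrictTotalOrder (List (Fin n)) lt]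
    {ld : Fin k → List (Fin n)} (h : GBe r lt ld) :
    ∃ d : RN F n → Bool, Computable d ∧ ∀ L, d L = true ↔ vn L ∈ LinearMap.range (sv r) := by
  choose R hR using fun i => exists_rn (r i)
  let I : Submodule F (MonoidAlgebra F (List (Fin n))) :=
    (LinearMap.range (sv r)).comap (cM F n).toLinearMap
  have hI : I = Submodule.span F (Set.range fun x => Val (parN n) (HN R x)) := by
    apply le_antisymm
    · rintro g ⟨s, hs⟩
      have h1 : sv r s ∈ (Submodule.span F (Set.range fun x => Val (parN n) (HN R x))).map
          (cM F n).toLinearMap := by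
        clear hs
        induction s using Finsupp.induction_linear with
        | zero => rw [map_zero]; exact zero_mem _
        | add a b ha hb => rw [map_add]; exact add_mem ha hb
        | single x c =>
          obtain ⟨i, A, B⟩ := x
          rw [sv_single]
          apply Submodule.smul_mem
          refine ⟨Val (parN n) (HN R (i, A, B)), Submodule.subset_span ⟨_, rfl⟩, ?_⟩
          show cM F n (Val (parN n) (toR ((R i).map fun y => (y.1, A ++ y.2 ++ B)))) = _
          rw [cM_toR, vn_sh, hR]
      rw [hs] at h1
      obtain ⟨g', hg', e⟩ := h1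
      have : g' = g := (cM F n).injective e
      rwa [← this]
    · rw [Submodule.span_le]
      rintro _ ⟨⟨i, A, B⟩, rfl⟩
      refine ⟨Finsupp.single (i, A, B) 1, ?_⟩
      show sv r (Finsupp.single (i, A, B) 1) =
        cM F n (Val (parN n) (toR ((R i).map fun y => (y.1, A ++ y.2 ++ B))))
      rw [cM_toR, vn_sh, hR, sv_single, one_smul]
  have hv : ∀ W : List (Fin n), Val (parN n) (toR [((1 : F), W)]) = (cM F n).symm (wd F W) := by
    intro W
    rw [LinearEquiv.eq_symm_apply, cM_toR]
    show Finsupp.single W 1 + 0 = _
    rw [add_zero]; rfl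
  have hsum : ∀ c : List (Fin n) →₀ F,
      cM F n (c.sum fun W a => a • Val (parN n) (toR [((1 : F), W)])) = c := by
    intro c
    rw [Finsupp.sum, map_sum]
    conv_rhs => rw [← Finsupp.sum_single c]
    rw [Finsupp.sum]
    refine Finset.sum_congr rfl fun W _ => ?_
    rw [map_smul, hv, LinearEquiv.apply_symm_apply]
    unfold wd
    rw [Finsupp.smul_single, smul_eq_mul, mul_one]
  have hB : BS ⊤ I (fun W => Val (parN n) (toR [((1 : F), W)]))
      {W | okN ((List.finRange k).map ld) W = true} := by
    have hset : {W | okN ((List.finRange k).map ld) W = true} =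
        (LI lt id (fun W => Val (parN n) (toR [((1 : F), W)])) I)ᶜ := by
      ext W
      have hk : okN ((List.finRange k).map ld) W = true ↔ ∀ i, ¬ ld i <:+: W := by
        simp [okN, ← inN_iff]
      have h2 : W ∈ LI lt id (fun W => Val (parN n) (toR [((1 : F), W)])) I ↔
          ∃ i, ld i <:+: W := by
        constructor
        · rintro ⟨c, hc, hlt, s, hs⟩
          have hs' : sv r s = c := by
            rw [hs]; exact hsum c
          exact h.red s W (by rw [hs']; exact hc) (fun j hj hne => hlt j (by rwa [hs'] at hj) hne)
        · rintro ⟨i, A, B, rfl⟩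
          refine ⟨sv r (Finsupp.single (i, A, B) 1), ?_, ?_, ?_⟩
          · rw [e1' h]; exact one_ne_zero
          · intro j hj hne
            exact e2' h i A B j hj hne
          · refine ⟨Finsupp.single (i, A, B) 1, ?_⟩
            exact (hsum _).symm
      rw [Set.mem_compl_iff, h2, Set.mem_ofPred_eq, hk]
      push Not
      rfl
    rw [hset]
    apply BS.of_LI lt id h.wf Function.injective_id (fun _ => Submodule.mem_top) le_top
    intro g _
    have : g = (cM F n g).sum fun W a => a • Val (parN n) (toR [((1 : F), W)]) := by
      apply (cM F n).injective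
      rw [hsum]
    rw [this]
    exact Submodule.mem_sup_left (Submodule.sum_mem _ fun i _ => Submodule.smul_mem _ _
      (Submodule.subset_span ⟨i, rfl⟩))
  have hvc : Computable fun W : List (Fin n) => toR [((1 : F), W)] := by
    have e1 : Primrec fun W : List (Fin n) => [((1 : F), W)] :=
      primrec_sing ((Primrec.const 1).pair Primrec.id)
    exact (primrec_toR.comp e1).to_comp
  obtain ⟨d, hd, hL⟩ := decide_mem hadd hmul primrec_repN.to_comp parN_iff
    (primrec_HN R).to_comp hvc hI (primrec_okN _).to_comp hB
  refine ⟨fun L => d (toR L), hd.comp primrec_toR.to_comp, fun L => ?_⟩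
  rw [hL]
  show cM F n (Val (parN n) (toR L)) ∈ LinearMap.range (sv r) ↔ _
  rw [cM_toR]

end main

end

end Pool.Agent.Helper120_Alt
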