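import Pool.Agent.Helper120_Alt.Syz

set_option autoImplicit false

/-! Definitions: presentations with a finite Groebner basis. -/

namespace Pool.Agent.Helper120_Alt

noncomputable section

variable {F X Y : Type} [Field F]

/-- Associative noncommutative polynomials with constant term over `F` in the letters `Y`. -/
abbrev UA (F Y : Type) [Field F] : Type := MonoidAlgebra F (FreeMonoid Y)

/-- A polynomial without constant term as a polynomial with constant term. -/
def uni (u : AS F X) : UA F X :=
  (cof u).sum fun W c => MonoidAlgebra.single (FreeMonoid.ofList W) c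

/-- `T` is the leading word of the polynomial `g` in the order `lt` of the words. -/
def LeadU (lt : List Y → List Y → Prop) (g : UA F Y) (T : List Y) : Prop :=
  g.coeff (FreeMonoid.ofList T) ≠ 0 ∧
    ∀ W : List Y, g.coeff (FreeMonoid.ofList W) ≠ 0 → W ≠ T → lt W T

/-- The ideal `J` has a finite Groebner basis: for some total well-founded order of the words
that is compatible with the multiplication, there is a finite set of leading words of elements of
`J` such that each leading word of an element of `J` contains one of them as a factor. -/
def FinGBU (J : Submodule F (UA F Y)) : Prop :=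
  ∃ lt : List Y → List Y → Prop, IsStrictTotalOrder (List Y) lt ∧ WellFounded lt ∧
    (∀ a b c d : List Y, lt a b → lt (c ++ a ++ d) (c ++ b ++ d)) ∧
    ∃ S : Finset (List Y), (∀ T ∈ S, ∃ g ∈ J, LeadU lt g T) ∧
      ∀ g ∈ J, ∀ T : List Y, LeadU lt g T → ∃ T' ∈ S, T' <:+: T

/-- The unital associative algebra `B` with generators `X` and the relation `u = 0` is a retract
of (for instance, is isomorphic to) an algebra with finitely many generators whose ideal `J` of
relations has a finite Groebner basis: `θ` and `θ'` induce homomorphisms from `B` to this algebra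
and back, with composition the identity of `B`. -/
def FinPrs (u : AS F X) : Prop :=
  ∃ (n : ℕ) (J : Submodule F (UA F (Fin n))) (θ : UA F X →ₐ[F] UA F (Fin n))
    (θ' : UA F (Fin n) →ₐ[F] UA F X),
    (∀ a, ∀ x ∈ J, a * x ∈ J ∧ x * a ∈ J) ∧ FinGBU J ∧ θ (uni u) ∈ J ∧
    (∀ x ∈ J, θ' x ∈ idl F {uni u}) ∧ ∀ x, θ' (θ x) - x ∈ idl F {uni u}

end

end Pool.Agent.Helper120_Alt
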