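import Pool.Agent.Helper120_Alt.Prs5
import Pool.Agent.Helper120_Alt.PrsDefs
import Pool.Agent.Helper120_Alt.R4.Syz3

set_option autoImplicit false

/-! Presentations with a finite Groebner basis: the main theorem. -/

namespace Pool.Agent.Helper120_Alt

noncomputable section

variable {F X Y : Type} [Field F]

/-- the coefficients of a polynomial with constant term -/
def cU (F Y : Type) [Field F] : UA F Y ≃ₗ[F] (List Y →₀ F) :=
  (MonoidAlgebra.coeffLinearEquiv F : MonoidAlgebra F (FreeMonoid Y) ≃ₗ[F]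
    (FreeMonoid Y →₀ F)).trans (Finsupp.domLCongr (FreeMonoid.toList : FreeMonoid Y ≃ List Y))

theorem cU_apply (g : UA F Y) (T : List Y) : cU F Y g T = g.coeff (FreeMonoid.ofList T) := by
  unfold cU
  simp [Finsupp.domLCongr_apply]

theorem cU_single (m : FreeMonoid Y) (c : F) :
    cU F Y (MonoidAlgebra.single m c) = Finsupp.single (FreeMonoid.toList m) c := by
  unfold cU
  simp [Finsupp.domLCongr_apply]

theorem cU_mul (g h : UA F Y) : cU F Y (g * h) = mm (cU F Y g) (cU F Y h) := by
  induction g using MonoidAlgebra.induction_linear with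
  | zero => simp
  | add a b ha hb => rw [add_mul, map_add, ha, hb, map_add, map_add, LinearMap.add_apply]
  | single x c =>
    induction h using MonoidAlgebra.induction_linear with
    | zero => simp
    | add a b ha hb => rw [mul_add, map_add, ha, hb, map_add, map_add]
    | single y d =>
      rw [MonoidAlgebra.single_mul_single, cU_single, cU_single, cU_single, mm_single,
        shW_single, Finsupp.smul_single]
      simp

theorem cU_wd (W : List Y) : cU F Y (MonoidAlgebra.single (FreeMonoid.ofList W) 1) = wd F W :=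
  cU_single _ _

theorem cU_one : cU F Y 1 = wd F [] := by
  have : (1 : UA F Y) = MonoidAlgebra.single (FreeMonoid.ofList []) 1 := rfl
  rw [this, cU_wd]

theorem cU_uni (u : AS F X) : cU F X (uni u) = cof u := by
  unfold uni
  rw [Finsupp.sum, map_sum]
  conv_rhs => rw [← Finsupp.sum_single (cof u)]
  rw [Finsupp.sum]
  refine Finset.sum_congr rfl fun W _ => ?_
  rw [cU_single]
  rfl

theorem mem_idlU (u g : UA F X) : g ∈ idl F {u} ↔ ∃ s, syW (cU F X u) s = cU F X g := by
  constructor
  · intro hg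
    have : idl F {u} ≤ (LinearMap.range (syW (cU F X u))).comap (cU F X).toLinearMap := by
      apply idl_le
      · rintro x rfl
        refine ⟨Finsupp.single ([], []) 1, ?_⟩
        rw [syW_single, one_smul, shW_nil]
        rfl
      · rintro a x ⟨s, hs⟩
        have hs' : syW (cU F X u) s = cU F X x := hs
        constructor
        · refine ⟨act (cU F X a) (wd F []) s, ?_⟩
          rw [syW_act, mm_one, hs']
          exact (cU_mul a x).symm
        · refine ⟨act (wd F []) (cU F X a) s, ?_⟩
          rw [syW_act, one_mm, hs']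
          exact (cU_mul x a).symm
    exact this hg
  · rintro ⟨s, hs⟩
    have key : ∀ s, (cU F X).symm (syW (cU F X u) s) ∈ idl F {u} := by
      intro s
      induction s using Finsupp.induction_linear with
      | zero => rw [map_zero, map_zero]; exact zero_mem _
      | add s t hs ht => rw [map_add, map_add]; exact add_mem hs ht
      | single x c =>
        obtain ⟨P, Q⟩ := x
        rw [syW_single, map_smul]
        apply Submodule.smul_mem
        have h1 : (cU F X).symm (shW F P Q (cU F X u)) =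
            MonoidAlgebra.single (FreeMonoid.ofList P) 1 *
              (u * MonoidAlgebra.single (FreeMonoid.ofList Q) 1) := by
          rw [LinearEquiv.symm_apply_eq, cU_mul, cU_mul, cU_wd, cU_wd, shW_eq_mm]
        rw [h1]
        have h2 := (idl_mul (F := F) (S := {u}) (MonoidAlgebra.single (FreeMonoid.ofList Q) 1) u
          (subset_idl (F := F) {u} rfl)).2
        exact (idl_mul _ _ h2).1
    have := key s
    rwa [hs, LinearEquiv.symm_apply_apply] at this

/-- the images of the letters -/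
def tU (θ : UA F X →ₐ[F] UA F Y) (x : X) : List Y →₀ F :=
  cU F Y (θ (MonoidAlgebra.single (FreeMonoid.of x) 1))

theorem hm_alg (θ : UA F X →ₐ[F] UA F Y) (g : UA F X) :
    hm (tU θ) (cU F X g) = cU F Y (θ g) := by
  have h1 : ∀ W : List X, hw (tU θ) W =
      cU F Y (θ (MonoidAlgebra.single (FreeMonoid.ofList W) 1)) := by
    intro W
    induction W with
    | nil =>
      have : (MonoidAlgebra.single (FreeMonoid.ofList ([] : List X)) 1 : UA F X) = 1 := rfl
      rw [this, map_one, cU_one]
      rfl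
    | cons x W ih =>
      have : (MonoidAlgebra.single (FreeMonoid.ofList (x :: W)) 1 : UA F X) =
          MonoidAlgebra.single (FreeMonoid.of x) 1 *
            MonoidAlgebra.single (FreeMonoid.ofList W) 1 := by
        rw [MonoidAlgebra.single_mul_single, one_mul]
        rfl
      rw [this, map_mul, cU_mul, ← ih]
      rfl
  induction g using MonoidAlgebra.induction_linear with
  | zero => simp
  | add a b ha hb => rw [map_add, map_add, map_add, map_add, ha, hb]
  | single m c =>
    have e : (MonoidAlgebra.single m c : UA F X) = c • MonoidAlgebra.single m 1 := by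
      rw [MonoidAlgebra.smul_single, smul_eq_mul, mul_one]
    rw [e, map_smul, map_smul, map_smul, map_smul]
    congr 1
    have h2 := h1 (FreeMonoid.toList m)
    have h3 : cU F X (MonoidAlgebra.single m 1) = wd F (FreeMonoid.toList m) := cU_single _ _
    rw [h3, hm_wd, h2]
    rfl

/-- the data of a finite Groebner basis -/
theorem exists_GBe {J : Submodule F (UA F Y)} (hJ : ∀ a, ∀ x ∈ J, a * x ∈ J ∧ x * a ∈ J)
    (h : FinGBU J) : ∃ (k : ℕ) (r : Fin k → (List Y →₀ F)) (lt : List Y → List Y → Prop)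
      (ld : Fin k → List Y), IsStrictTotalOrder (List Y) lt ∧ GBe r lt ld ∧
      ∀ g, g ∈ J ↔ cU F Y g ∈ LinearMap.range (sv r) := by
  obtain ⟨lt, hto, hwf, hcomp, S, h1, h2⟩ := h
  let ld : Fin S.card → List Y := fun i => (S.equivFin.symm i).1
  have hex : ∀ i, ∃ g ∈ J, cU F Y g (ld i) = 1 ∧ ∀ W, cU F Y g W ≠ 0 → W ≠ ld i →
      lt W (ld i) := by
    intro i
    obtain ⟨g, hg, hl⟩ := h1 (ld i) (S.equivFin.symm i).2
    have hl1 : cU F Y g (ld i) ≠ 0 := by rw [cU_apply]; exact hl.1
    refine ⟨(cU F Y g (ld i))⁻¹ • g, J.smul_mem _ hg, ?_, ?_⟩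
    · rw [map_smul, Finsupp.smul_apply, smul_eq_mul]
      exact inv_mul_cancel₀ hl1
    · intro W hW hne
      rw [map_smul, Finsupp.smul_apply, smul_eq_mul] at hW
      have h3 := right_ne_zero_of_mul hW
      rw [cU_apply] at h3
      exact hl.2 W h3 hne
  choose g hgJ hg1 hg2 using hex
  let r : Fin S.card → (List Y →₀ F) := fun i => cU F Y (g i)
  have hsh : ∀ i, ∀ A B : List Y, ∃ g' ∈ J, cU F Y g' = shW F A B (r i) := by
    intro i A B
    refine ⟨MonoidAlgebra.single (FreeMonoid.ofList A) 1 *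
      (g i * MonoidAlgebra.single (FreeMonoid.ofList B) 1), (hJ _ _ (hJ _ _ (hgJ i)).2).1, ?_⟩
    rw [cU_mul, cU_mul, cU_wd, cU_wd, shW_eq_mm]
  have hsv : ∀ s, ∃ g' ∈ J, cU F Y g' = sv r s := by
    intro s
    induction s using Finsupp.induction_linear with
    | zero => exact ⟨0, zero_mem _, by rw [map_zero, map_zero]⟩
    | add s t hs ht =>
      obtain ⟨a, ha, e⟩ := hs
      obtain ⟨b, hb, e'⟩ := ht
      exact ⟨a + b, add_mem ha hb, by rw [map_add, map_add, e, e']⟩
    | single x c =>
      obtain ⟨i, A, B⟩ := x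
      obtain ⟨a, ha, e⟩ := hsh i A B
      exact ⟨c • a, J.smul_mem _ ha, by rw [map_smul, e, sv_single]⟩
  have hgb : GBe r lt ld := by
    refine ⟨hwf, hcomp, hg1, hg2, ?_⟩
    intro s T hT hm
    obtain ⟨a, ha, e⟩ := hsv s
    rw [← e] at hT hm
    obtain ⟨T', hT', h3⟩ := h2 a ha T ⟨by rw [← cU_apply]; exact hT, fun W hW hne =>
      hm W (by rw [cU_apply]; exact hW) hne⟩
    refine ⟨S.equivFin ⟨T', hT'⟩, ?_⟩
    have : ld (S.equivFin ⟨T', hT'⟩) = T' := by
      show (S.equivFin.symm (S.equivFin ⟨T', hT'⟩)).1 = T'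
      rw [Equiv.symm_apply_apply]
    rw [this]
    exact h3
  refine ⟨S.card, r, lt, ld, hto, hgb, ?_⟩
  -- one step of the reduction
  have step : ∀ a ∈ J, cU F Y a ≠ 0 → ∃ T0, cU F Y a T0 ≠ 0 ∧ ∃ a' ∈ J, ∃ s,
      cU F Y a = cU F Y a' + sv r s ∧ ∀ W, cU F Y a' W ≠ 0 → lt W T0 := by
    intro a ha h0
    obtain ⟨T0, hT0, hm⟩ := R3.exists_top lt (id : List Y → List Y) Function.injective_id h0
    obtain ⟨T', hT', A, B, hAB⟩ := h2 a ha T0 ⟨by rw [← cU_apply]; exact hT0, fun W hW hne =>
      hm W (by rw [cU_apply]; exact hW) hne⟩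
    let i := S.equivFin ⟨T', hT'⟩
    have hi : ld i = T' := by
      show (S.equivFin.symm (S.equivFin ⟨T', hT'⟩)).1 = T'
      rw [Equiv.symm_apply_apply]
    have hi' : A ++ ld i ++ B = T0 := by rw [hi]; exact hAB
    obtain ⟨b, hb, e⟩ := hsh i A B
    refine ⟨T0, hT0, a - (cU F Y a T0) • b, sub_mem ha (J.smul_mem _ hb),
      (cU F Y a T0) • Finsupp.single (i, A, B) 1, ?_, ?_⟩
    · rw [map_sub, map_smul, map_smul, sv_single, one_smul, e, sub_add_cancel]
    · intro W hW
      rw [map_sub, map_smul, e, Finsupp.sub_apply, Finsupp.smul_apply, smul_eq_mul] at hW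
      have h3 := e1' hgb i A B
      have h4 := e2' hgb i A B W
      rw [sv_single, one_smul] at h3 h4
      rw [hi'] at h3 h4
      by_cases hne : W = T0
      · rw [hne, h3, mul_one, sub_self] at hW
        exact absurd rfl hW
      · by_cases h5 : cU F Y a W = 0
        · rw [h5, zero_sub] at hW
          exact h4 (right_ne_zero_of_mul (neg_ne_zero.mp hW)) hne
        · exact hm W h5 hne
  have hP : ∀ Z : List Y, ∀ a ∈ J, (∀ W, cU F Y a W ≠ 0 → lt W Z) →
      cU F Y a ∈ LinearMap.range (sv r) := by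
    intro Z
    induction Z using hwf.induction with
    | _ Z ih =>
      intro a ha hZ
      by_cases h0 : cU F Y a = 0
      · rw [h0]; exact zero_mem _
      · obtain ⟨T0, hT0, a', ha', s, e, h3⟩ := step a ha h0
        rw [e]
        exact add_mem (ih T0 (hZ T0 hT0) a' ha' h3) ⟨s, rfl⟩
  intro a
  constructor
  · intro ha
    by_cases h0 : cU F Y a = 0
    · rw [h0]; exact zero_mem _
    · obtain ⟨T0, hT0, a', ha', s, e, h3⟩ := step a ha h0
      rw [e]
      exact add_mem (hP T0 a' ha' h3) ⟨s, rfl⟩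
  · rintro ⟨s, hs⟩
    obtain ⟨a', ha', e⟩ := hsv s
    have : a' = a := (cU F Y).injective (e.trans hs)
    rwa [← this]

/-- the data of a presentation with a finite Groebner basis -/
theorem data_of_finPrs {u : AS F X} (h : FinPrs u) :
    ∃ (n k : ℕ) (r : Fin k → (List (Fin n) →₀ F))
      (lt : List (Fin n) → List (Fin n) → Prop) (ld : Fin k → List (Fin n))
      (t : X → (List (Fin n) →₀ F)) (t' : Fin n → (List X →₀ F)),
      IsStrictTotalOrder (List (Fin n)) lt ∧ GBe r lt ld ∧ (∃ a, sv r a = hm t (cof u)) ∧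
      (∀ i, ∃ b, syW (cof u) b = hm t' (r i)) ∧
      ∀ x, ∃ e, syW (cof u) e = tau t t' (wd F [x]) - wd F [x] := by
  obtain ⟨n, J, θ, θ', hJ, hGB, h1, h2, h3⟩ := h
  obtain ⟨k, r, lt, ld, hto, hgb, hmem⟩ := exists_GBe hJ hGB
  refine ⟨n, k, r, lt, ld, tU θ, tU θ', hto, hgb, ?_, ?_, ?_⟩
  · obtain ⟨a, ha⟩ := (hmem _).mp h1
    refine ⟨a, ?_⟩
    rw [ha, ← hm_alg, cU_uni]
  · intro i
    have h4 : (cU F (Fin n)).symm (r i) ∈ J := by
      rw [hmem, LinearEquiv.apply_symm_apply]
      refine ⟨Finsupp.single (i, [], []) 1, ?_⟩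
      rw [sv_single, one_smul, shW_nil]
    obtain ⟨b, hb⟩ := (mem_idlU _ _).mp (h2 _ h4)
    refine ⟨b, ?_⟩
    rw [cU_uni] at hb
    rw [hb, ← hm_alg, LinearEquiv.apply_symm_apply]
  · intro x
    obtain ⟨e, he⟩ := (mem_idlU _ _).mp (h3 (MonoidAlgebra.single (FreeMonoid.of x) 1))
    refine ⟨e, ?_⟩
    rw [cU_uni] at he
    have h5 : cU F X (MonoidAlgebra.single (FreeMonoid.of x) 1) = wd F [x] := cU_single _ _
    rw [he, map_sub, ← hm_alg, ← hm_alg, h5]
    rfl

theorem finSyz_of_finPrs {u : AS F X} (h : FinPrs u) : FinSyz u := by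
  obtain ⟨n, k, r, lt, ld, t, t', hto, hgb, ha, hb, he⟩ := data_of_finPrs h
  obtain ⟨S, hS0, hS⟩ := fsy_transfer (FSE_of_GBe hgb) ha hb he
  refine ⟨S, hS0, fun s hs => ?_⟩
  have h1 := hS s hs
  have h2 : TrW (cof u) ⊔ Submodule.span F {z | ∃ σ ∈ S, ∃ A B : List X, z = shL F A B σ} ≤
      Submodule.span F ({t | ∃ P V Q : List X, t = tsy u P V Q} ∪
        {t | ∃ σ ∈ S, ∃ A B : List X, t = shf A B σ}) := by
    apply sup_le
    · exact Submodule.span_mono Set.subset_union_left
    · exact Submodule.span_mono Set.subset_union_right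
  exact h2 h1

theorem assDecidable_of_finPrs [Primcodable F] (hadd : Computable₂ fun a b : F => a + b)
    (hmul : Computable₂ fun a b : F => a * b) {u : AS F (Fin 3)} (h : FinPrs u) :
    AssDecidable F (Fin 3) {u} := by
  obtain ⟨n, k, r, lt, ld, t, t', hto, hgb, ⟨a, ha⟩, hb, he⟩ := data_of_finPrs h
  choose b hb using hb
  choose e he using he
  obtain ⟨d, hd, hdL⟩ := dec_sv hadd hmul hgb
  choose R hR using fun x => exists_rn (t x)
  refine ⟨fun L => d (nL R L), hd.comp (comp_nL hmul R), fun L => ?_⟩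
  show d (nL R (L.map fun p => (p.1, p.2.head :: p.2.tail))) = true ↔ _
  have h1 : vn (L.map fun p => (p.1, p.2.head :: p.2.tail)) = cof (val L) := vl_lets L
  rw [hdL, vn_nL hR, h1]
  constructor
  · rintro ⟨s, hs⟩
    have h2 : syW (cof u) (Gi t' b s) = tau t t' (cof (val L)) := by
      rw [syW_Gi hb, hs]; rfl
    have h3 := syW_Ed he (cof (val L))
    have h4 : syW (cof u) (Gi t' b s - EdL t t' e (cof (val L))) = cof (val L) := by
      rw [map_sub, h2, h3, sub_sub_cancel]
    obtain ⟨g, hg, e'⟩ := syv_idl u (Gi t' b s - EdL t t' e (cof (val L)))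
    have h5 : g = val L := cof_injective (e'.trans h4)
    rwa [← h5]
  · intro hg
    obtain ⟨s, hs⟩ := idl_syv hg
    refine ⟨Fi t a s, ?_⟩
    rw [sv_Fi ha]
    congr 1

/-- alternative algebras of rank three with a relator whose associative image has a presentation
with a finite Groebner basis -/
theorem altDecidable_of_finPrs [Primcodable F] (hadd : Computable₂ fun a b : F => a + b)
    (hmul : Computable₂ fun a b : F => a * b) {f : NA F (Fin 3)}
    (h : FinPrs (psi F (Fin 3) f)) : AltDecidable F (Fin 3) {f} :=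
  R4.main5 hadd hmul (finSyz_of_finPrs h) (assDecidable_of_finPrs hadd hmul h)

end

end Pool.Agent.Helper120_Alt
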