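import Pool.Agent.Helper120_Alt.Prs6

set_option autoImplicit false

/-! Presentations with a finite Groebner basis: a change of generators gives examples. -/

namespace Pool.Agent.Helper120_Alt

noncomputable section

variable {F X Y : Type} [Field F]

/-- the homomorphism with given images of the letters -/
def aU (t : X → (List Y →₀ F)) : UA F X →ₐ[F] UA F Y :=
  MonoidAlgebra.lift F (UA F Y) (FreeMonoid X) (FreeMonoid.lift fun x => (cU F Y).symm (t x))

theorem tU_aU (t : X → (List Y →₀ F)) : tU (aU t) = t := by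
  funext x
  unfold tU aU
  rw [MonoidAlgebra.lift_single, one_smul, FreeMonoid.lift_eval_of, LinearEquiv.apply_symm_apply]

theorem cU_aU (t : X → (List Y →₀ F)) (g : UA F X) : cU F Y (aU t g) = hm t (cU F X g) := by
  rw [← hm_alg, tU_aU]

theorem hw_lt1 (θ : AS F X →ₙₐ[F] AS F X) (W : List X) : hw (lt1 θ) W = tw θ W := by
  induction W with
  | nil => rfl
  | cons x W ih =>
    show mm (lt1 θ x) (hw (lt1 θ) W) = mm (lt1 θ x) (tw θ W)
    rw [ih]

theorem hm_lt1 (θ : AS F X →ₙₐ[F] AS F X) (g : List X →₀ F) : hm (lt1 θ) g = Th θ g := by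
  refine lin_ext_eq (hm (lt1 θ)) (Th θ) (fun W => ?_) g
  rw [hm_wd, Th_wd, hw_lt1]

/-- a finite Groebner basis after an endomorphism with a left inverse -/
theorem finPrs_of_finGB {n : ℕ} {θ θ' : AS F (Fin n) →ₙₐ[F] AS F (Fin n)}
    (hθ : ∀ x, θ' (θ x) = x) {u : AS F (Fin n)} (h : FinGB (θ u)) : FinPrs u := by
  obtain ⟨lt, hto, hwf, hcomp, S, h1, h2⟩ := h
  have hmem : ∀ g, g ∈ idl F {uni (θ u)} ↔ ∃ s, syW (cof (θ u)) s = cU F (Fin n) g := by
    intro g
    rw [mem_idlU, cU_uni]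
  refine ⟨n, idl F {uni (θ u)}, aU (lt1 θ), aU (lt1 θ'), fun a x hx => idl_mul a x hx,
    ⟨lt, hto, hwf, hcomp, S, ?_, ?_⟩, ?_, ?_, ?_⟩
  · intro T hT
    obtain ⟨g, hg, hl⟩ := h1 T hT
    refine ⟨uni g, ?_, ?_⟩
    · rw [hmem, cU_uni]
      exact idl_syv hg
    · have hc : ∀ W, (uni g).coeff (FreeMonoid.ofList W) = cof g W := by
        intro W; rw [← cU_apply, cU_uni]
      exact ⟨by rw [hc]; exact hl.1, fun W hW hne => hl.2 W (by rwa [hc] at hW) hne⟩
  · intro g hg T hl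
    obtain ⟨s, hs⟩ := (hmem g).mp hg
    obtain ⟨g0, hg0, e⟩ := syv_idl (θ u) s
    have hc : ∀ W, g.coeff (FreeMonoid.ofList W) = cof g0 W := by
      intro W
      rw [← cU_apply, ← hs]
      exact (DFunLike.congr_fun e W).symm
    exact h2 g0 hg0 T ⟨by rw [← hc]; exact hl.1, fun W hW hne => hl.2 W (by rwa [hc]) hne⟩
  · have e : aU (lt1 θ) (uni u) = uni (θ u) := by
      apply (cU F (Fin n)).injective
      rw [cU_aU, cU_uni, cU_uni, hm_lt1, Th_cof]
    rw [e]
    exact subset_idl _ rfl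
  · intro x hx
    obtain ⟨s, hs⟩ := (hmem x).mp hx
    rw [mem_idlU, cU_uni]
    refine ⟨Th2 θ' s, ?_⟩
    rw [cU_aU, hm_lt1, ← hs]
    have e : Th θ' (cof (θ u)) = cof u := by rw [Th_cof, hθ]
    rw [← syW_Th2, e]
  · intro x
    have e : aU (lt1 θ') (aU (lt1 θ) x) = x := by
      apply (cU F (Fin n)).injective
      rw [cU_aU, cU_aU, hm_lt1, hm_lt1, Th_inv hθ]
    rw [e, sub_self]
    exact zero_mem _

end

end Pool.Agent.Helper120_Alt
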