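import Pool.Agent.Helper120_Alt.Top6

set_option autoImplicit false

/-! Reversal of the words. -/

namespace Pool.Agent.Helper120_Alt

noncomputable section

variable {K X : Type} [Field K]

/-- reversed polynomials -/
def rv (K : Type) {X : Type} [Field K] : (List X →₀ K) →ₗ[K] (List X →₀ K) :=
  Finsupp.lmapDomain K K List.reverse

theorem rv_single (W : List X) (c : K) :
    rv K (Finsupp.single W c) = Finsupp.single W.reverse c := Finsupp.mapDomain_single

/-- reversed formal sums -/
def rv2 (K : Type) {X : Type} [Field K] :
    ((List X × List X) →₀ K) →ₗ[K] ((List X × List X) →₀ K) :=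
  Finsupp.lmapDomain K K fun x => (x.2.reverse, x.1.reverse)

theorem rv2_single (P Q : List X) (c : K) :
    rv2 K (Finsupp.single (P, Q) c) = Finsupp.single (Q.reverse, P.reverse) c :=
  Finsupp.mapDomain_single

theorem rv_rv (w : List X →₀ K) : rv K (rv K w) = w := by
  induction w using Finsupp.induction_linear with
  | zero => simp
  | add s t hs ht => rw [map_add, map_add, hs, ht]
  | single W c => rw [rv_single, rv_single, List.reverse_reverse]

theorem rv2_rv2 (s : (List X × List X) →₀ K) : rv2 K (rv2 K s) = s := by
  induction s using Finsupp.induction_linear with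
  | zero => simp
  | add s t hs ht => rw [map_add, map_add, hs, ht]
  | single y c =>
    obtain ⟨P, Q⟩ := y
    rw [rv2_single, rv2_single, List.reverse_reverse, List.reverse_reverse]

theorem rv_apply (w : List X →₀ K) (W : List X) : rv K w W = w W.reverse := by
  have h : Function.Injective (List.reverse : List X → List X) := List.reverse_injective
  have h1 : rv K w W = Finsupp.mapDomain List.reverse w (W.reverse).reverse := by
    rw [List.reverse_reverse]; rfl
  rw [h1, Finsupp.mapDomain_apply h]

theorem rv_shW (P Q : List X) (w : List X →₀ K) :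
    rv K (shW K P Q w) = shW K Q.reverse P.reverse (rv K w) := by
  induction w using Finsupp.induction_linear with
  | zero => simp
  | add s t hs ht => rw [map_add, map_add, map_add, map_add, hs, ht]
  | single W c =>
    rw [shW_single, rv_single, rv_single, shW_single]
    simp

theorem rv_syW (w : List X →₀ K) (s : (List X × List X) →₀ K) :
    rv K (syW w s) = syW (rv K w) (rv2 K s) := by
  induction s using Finsupp.induction_linear with
  | zero => simp
  | add s t hs ht => rw [map_add, map_add, map_add, map_add, hs, ht]
  | single y c =>
    obtain ⟨P, Q⟩ := y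
    rw [syW_single, rv2_single, syW_single, map_smul, rv_shW]

theorem rv2_tsW (w : List X →₀ K) (P V Q : List X) :
    rv2 K (tsW w P V Q) = -tsW (rv K w) Q.reverse V.reverse P.reverse := by
  rw [tsW_eq, tsW_eq]
  induction w using Finsupp.induction_linear with
  | zero => simp
  | add s t hs ht => simp only [map_add, hs, ht]; abel
  | single W c =>
    rw [rv_single, Finsupp.linearCombination_single, Finsupp.linearCombination_single, map_smul,
      map_sub, rv2_single, rv2_single, ← smul_neg, neg_sub]
    simp

theorem OT_rv {w : List X →₀ K} (h : OT (rv K w)) : OT w := by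
  intro s hs
  have h1 : syW (rv K w) (rv2 K s) = 0 := by rw [← rv_syW, hs, map_zero]
  have h2 := h _ h1
  have h3 : TrW (rv K w) ≤ (TrW w).comap (rv2 K) := by
    unfold TrW
    rw [Submodule.span_le]
    rintro _ ⟨P, V, Q, rfl⟩
    show rv2 K (tsW (rv K w) P V Q) ∈ TrW w
    rw [rv2_tsW, rv_rv]
    exact neg_mem (Submodule.subset_span ⟨_, _, _, rfl⟩)
  have h4 : rv2 K (rv2 K s) ∈ TrW w := h3 h2
  rwa [rv2_rv2] at h4

end

end Pool.Agent.Helper120_Alt
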