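import Pool.Agent.Helper120_Alt.Gb1

set_option autoImplicit false

/-! Homogeneous elements and paths of vectors. -/

namespace Pool.Agent.Helper120_Alt

noncomputable section

variable {K X : Type} [Field K]

/-- the value of a formal sum of pairs of words -/
def syW (w : List X →₀ K) : ((List X × List X) →₀ K) →ₗ[K] (List X →₀ K) :=
  Finsupp.linearCombination K fun x => shW K x.1 x.2 w

theorem syW_single (w : List X →₀ K) (P Q : List X) (c : K) :
    syW w (Finsupp.single (P, Q) c) = c • shW K P Q w := by
  unfold syW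
  rw [Finsupp.linearCombination_single]

theorem syW_shL (w : List X →₀ K) (A B : List X) (s : (List X × List X) →₀ K) :
    syW w (shL K A B s) = shW K A B (syW w s) := by
  induction s using Finsupp.induction_linear with
  | zero => simp
  | add s t hs ht => rw [map_add, map_add, map_add, map_add, hs, ht]
  | single x c =>
    obtain ⟨P, Q⟩ := x
    rw [shL_single, syW_single, syW_single, map_smul, shW_shW]

/-- the ideal generated by a polynomial -/
def IW (w : List X →₀ K) : Submodule K (List X →₀ K) := LinearMap.range (syW w)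

theorem IW_sh (w : List X →₀ K) (A B : List X) {h : List X →₀ K} (hh : h ∈ IW w) :
    shW K A B h ∈ IW w := by
  obtain ⟨s, rfl⟩ := hh
  exact ⟨shL K A B s, syW_shL w A B s⟩

/-- contraction of the first letter by a vector -/
def ctr (η : X → K) : (List X →₀ K) →ₗ[K] (List X →₀ K) :=
  Finsupp.linearCombination K fun W => match W with
    | [] => 0
    | x :: W' => Finsupp.single W' (η x)

theorem ctr_nil (η : X → K) (c : K) : ctr η (Finsupp.single [] c) = 0 := by
  unfold ctr
  rw [Finsupp.linearCombination_single, smul_zero]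

theorem ctr_cons (η : X → K) (x : X) (W : List X) (c : K) :
    ctr η (Finsupp.single (x :: W) c) = Finsupp.single W (c * η x) := by
  unfold ctr
  rw [Finsupp.linearCombination_single, Finsupp.smul_single, smul_eq_mul]

theorem ctr_sh (η : X → K) (x : X) (P Q : List X) (h : List X →₀ K) :
    ctr η (shW K (x :: P) Q h) = η x • shW K P Q h := by
  induction h using Finsupp.induction_linear with
  | zero => simp
  | add s t hs ht => rw [map_add, map_add, map_add, smul_add, hs, ht]
  | single W c =>
    rw [shW_single, shW_single]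
    show ctr η (Finsupp.single (x :: (P ++ W ++ Q)) c) = _
    rw [ctr_cons, Finsupp.smul_single, smul_eq_mul, mul_comm]

/-- the product with a polynomial on the right -/
def mulL (c : List X →₀ K) : (List X →₀ K) →ₗ[K] (List X →₀ K) :=
  Finsupp.linearCombination K fun W => shW K W [] c

theorem mulL_single (c : List X →₀ K) (W : List X) (a : K) :
    mulL c (Finsupp.single W a) = a • shW K W [] c := by
  unfold mulL
  rw [Finsupp.linearCombination_single]

theorem shW_nil (h : List X →₀ K) : shW K [] [] h = h := by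
  unfold shW
  rw [Finsupp.lmapDomain_apply]
  have : (fun W : List X => ([] : List X) ++ W ++ []) = id := by funext W; simp
  rw [this, Finsupp.mapDomain_id]

theorem mulL_one (c : List X →₀ K) : mulL c (Finsupp.single [] 1) = c := by
  rw [mulL_single, one_smul, shW_nil]

theorem mulL_add (c c' g : List X →₀ K) : mulL (c + c') g = mulL c g + mulL c' g := by
  induction g using Finsupp.induction_linear with
  | zero => simp
  | add s t hs ht => rw [map_add, map_add, map_add, hs, ht]; abel
  | single W a => rw [mulL_single, mulL_single, mulL_single, map_add, smul_add]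

theorem mulL_zero (g : List X →₀ K) : mulL (0 : List X →₀ K) g = 0 := by
  induction g using Finsupp.induction_linear with
  | zero => simp
  | add s t hs ht => rw [map_add, hs, ht, add_zero]
  | single W a => rw [mulL_single, map_zero, smul_zero]

theorem mulL_mono (g : List X →₀ K) (Q : List X) (a : K) :
    mulL (Finsupp.single Q a) g = a • shW K [] Q g := by
  induction g using Finsupp.induction_linear with
  | zero => simp
  | add s t hs ht => rw [map_add, map_add, smul_add, hs, ht]
  | single W c =>
    rw [mulL_single, shW_single, shW_single, Finsupp.smul_single, Finsupp.smul_single]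
    simp [mul_comm]

theorem mulL_IW {w c : List X →₀ K} (hc : c ∈ IW w) (g : List X →₀ K) : mulL c g ∈ IW w := by
  induction g using Finsupp.induction_linear with
  | zero => rw [map_zero]; exact zero_mem _
  | add s t hs ht => rw [map_add]; exact add_mem hs ht
  | single W a =>
    rw [mulL_single]
    exact Submodule.smul_mem _ _ (IW_sh w _ _ hc)

/-- homogeneous polynomials -/
def Hom (n : ℕ) (h : List X →₀ K) : Prop := ∀ W, h W ≠ 0 → W.length = n

theorem Hom.induct {n : ℕ} {p : (List X →₀ K) → Prop} {h : List X →₀ K} (hh : Hom n h)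
    (h0 : p 0) (ha : ∀ s t, p s → p t → p (s + t))
    (hs : ∀ W : List X, W.length = n → ∀ c, p (Finsupp.single W c)) : p h := by
  classical
  rw [← Finsupp.sum_single h, Finsupp.sum]
  apply Finset.sum_induction _ p ha h0
  intro W hW
  exact hs W (hh W (Finsupp.mem_support_iff.mp hW)) _

theorem ctr_mulL {n : ℕ} {g : List X →₀ K} (hg : Hom (n + 1) g) (η : X → K) (c : List X →₀ K) :
    ctr η (mulL c g) = mulL c (ctr η g) := by
  refine Hom.induct (p := fun g => ctr η (mulL c g) = mulL c (ctr η g)) hg ?_ ?_ ?_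
  · simp
  · intro s t hs ht
    show ctr η (mulL c (s + t)) = mulL c (ctr η (s + t))
    rw [map_add, map_add, map_add, map_add, hs, ht]
  · intro W hW a
    match W, hW with
    | x :: W, _ =>
      show ctr η (mulL c (Finsupp.single (x :: W) a)) = mulL c (ctr η (Finsupp.single (x :: W) a))
      rw [mulL_single, map_smul, ctr_sh, ctr_cons, mulL_single, smul_smul]

theorem Hom.ctr {n : ℕ} {g : List X →₀ K} (hg : Hom (n + 1) g) (η : X → K) :
    Hom n (ctr η g) := by
  classical
  refine Hom.induct (p := fun g => Hom n (Helper120_Alt.ctr η g)) hg ?_ ?_ ?_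
  · intro W hW; simp at hW
  · intro s t hs ht W hW
    rw [map_add, Finsupp.add_apply] at hW
    by_cases h1 : Helper120_Alt.ctr η s W = 0
    · rw [h1, zero_add] at hW; exact ht W hW
    · exact hs W h1
  · intro W hW a
    match W, hW with
    | x :: W, hW =>
      show Hom n (Helper120_Alt.ctr η (Finsupp.single (x :: W) a))
      rw [ctr_cons]
      intro W' hW'
      rw [Finsupp.single_apply] at hW'
      split_ifs at hW' with h
      · rw [← h]; simpa using hW
      · exact absurd rfl hW'

/-- contraction along a path -/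
def pc (ε : ℕ → X → K) : ℕ → ℕ → ((List X →₀ K) →ₗ[K] (List X →₀ K))
  | _, 0 => LinearMap.id
  | i, k + 1 => pc ε (i + 1) k ∘ₗ ctr (ε i)

theorem pc_zero (ε : ℕ → X → K) (i : ℕ) (h : List X →₀ K) : pc ε i 0 h = h := rfl

theorem pc_succ (ε : ℕ → X → K) (i k : ℕ) (h : List X →₀ K) :
    pc ε i (k + 1) h = pc ε (i + 1) k (ctr (ε i) h) := rfl

theorem pc_add (ε : ℕ → X → K) (a b : ℕ) : ∀ (i : ℕ) (h : List X →₀ K),
    pc ε i (a + b) h = pc ε (i + a) b (pc ε i a h) := by
  induction a with
  | zero => intro i h; simp [pc_zero]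
  | succ a ih =>
    intro i h
    have e : a + 1 + b = (a + b) + 1 := by ring
    rw [e, pc_succ, ih, pc_succ]
    congr 2
    ring

theorem pc_mulL (ε : ℕ → X → K) (c : List X →₀ K) (k : ℕ) : ∀ (i n : ℕ) (g : List X →₀ K),
    Hom n g → k ≤ n → pc ε i k (mulL c g) = mulL c (pc ε i k g) ∧ Hom (n - k) (pc ε i k g) := by
  induction k with
  | zero => intro i n g hg _; exact ⟨rfl, hg⟩
  | succ k ih =>
    intro i n g hg hk
    obtain ⟨m, rfl⟩ : ∃ m, n = m + 1 := ⟨n - 1, by omega⟩
    rw [pc_succ, pc_succ, ctr_mulL hg]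
    have := ih (i + 1) m _ (hg.ctr (ε i)) (by omega)
    refine ⟨this.1, ?_⟩
    have e : m + 1 - (k + 1) = m - k := by omega
    rw [e]; exact this.2

/-- the elements of the ideal with short left factors -/
def JW (w : List X →₀ K) (n : ℕ) : Submodule K (List X →₀ K) :=
  (Finsupp.supported K K {x : List X × List X | x.1.length < n}).map (syW w)

theorem JW_le (w : List X →₀ K) (n : ℕ) : JW w n ≤ IW w := by
  rintro _ ⟨s, _, rfl⟩
  exact ⟨s, rfl⟩

theorem mem_JW (w : List X →₀ K) {P Q : List X} {n : ℕ} (h : P.length < n) :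
    shW K P Q w ∈ JW w n :=
  ⟨Finsupp.single (P, Q) 1, Finsupp.single_mem_supported K 1 h, by rw [syW_single, one_smul]⟩

theorem JW_zero (w : List X →₀ K) : JW w 0 = ⊥ := by
  unfold JW
  have : {x : List X × List X | x.1.length < 0} = ∅ := by ext; simp
  rw [this, Finsupp.supported_empty, Submodule.map_bot]

theorem exists_JW {w h : List X →₀ K} (hh : h ∈ IW w) : ∃ n, h ∈ JW w n := by
  obtain ⟨s, rfl⟩ := hh
  refine ⟨s.support.sup (fun x => x.1.length + 1), s, ?_, rfl⟩
  intro x hx
  exact Nat.lt_of_succ_le (Finset.le_sup (f := fun x : List X × List X => x.1.length + 1) hx)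

/-- splitting off the terms with empty left factor -/
theorem JW_split {w h : List X →₀ K} {n : ℕ} (hh : h ∈ JW w (n + 1)) :
    ∃ c v : List X →₀ K, h = mulL c w + v ∧ ∀ η : X → K, ctr η v ∈ JW w n := by
  obtain ⟨s, hs, rfl⟩ := hh
  change s ∈ Finsupp.supported K K {x : List X × List X | x.1.length < n + 1} at hs
  rw [Finsupp.supported_eq_span_single] at hs
  induction hs using Submodule.span_induction with
  | mem x hx =>
    obtain ⟨⟨P, Q⟩, hP, rfl⟩ := hx
    have hP' : P.length < n + 1 := hP
    match P, hP' with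
    | [], _ =>
      refine ⟨Finsupp.single Q 1, 0, ?_, ?_⟩
      · show syW w (Finsupp.single ([], Q) 1) = _
        rw [syW_single, mulL_mono, add_zero]
      · intro η; rw [map_zero]; exact zero_mem _
    | x :: P, hP' =>
      refine ⟨0, shW K (x :: P) Q w, ?_, ?_⟩
      · show syW w (Finsupp.single (x :: P, Q) 1) = _
        rw [syW_single, mulL_zero, zero_add, one_smul]
      · intro η
        rw [ctr_sh]
        exact Submodule.smul_mem _ _ (mem_JW w (by simpa using hP'))
  | zero => exact ⟨0, 0, by rw [map_zero, mulL_zero, add_zero], fun η => by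
      rw [map_zero]; exact zero_mem _⟩
  | add x y _ _ hx hy =>
    obtain ⟨c, v, e, hv⟩ := hx
    obtain ⟨c', v', e', hv'⟩ := hy
    refine ⟨c + c', v + v', ?_, ?_⟩
    · rw [map_add, e, e', mulL_add]; abel
    · intro η; rw [map_add]; exact add_mem (hv η) (hv' η)
  | smul a x _ hx =>
    obtain ⟨c, v, e, hv⟩ := hx
    refine ⟨a • c, a • v, ?_, ?_⟩
    · rw [map_smul, e, smul_add]
      congr 1
      generalize w = g
      induction g using Finsupp.induction_linear with
      | zero => simp
      | add s t hs ht => rw [map_add, map_add, smul_add, hs, ht]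
      | single W b => rw [mulL_single, mulL_single, map_smul, smul_comm]
    · intro η; rw [map_smul]; exact Submodule.smul_mem _ _ (hv η)

/-- a path of vectors killing the form, with nonzero form in the last argument -/
def Pth (f : List X →₀ K) (e N : ℕ) (ε lam : ℕ → X → K) : Prop :=
  ∀ i < N, pc ε i (e + 2) f = 0 ∧ ctr (lam i) (pc ε i (e + 1) f) = Finsupp.single [] 1

theorem Pth.kill {f : List X →₀ K} {e N : ℕ} {ε lam : ℕ → X → K} (hp : Pth f e N ε lam)
    (hf : Hom (e + 2) f) (c : List X →₀ K) {i : ℕ} (hi : i < N) (t : ℕ) :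
    pc ε (i + 1) (e + 1 + t) (mulL c (ctr (ε i) f)) = 0 := by
  rw [pc_add, (pc_mulL ε c (e + 1) (i + 1) (e + 1) _ (hf.ctr (ε i)) le_rfl).1]
  have : pc ε (i + 1) (e + 1) (ctr (ε i) f) = 0 := (hp i hi).1
  rw [this, map_zero, map_zero]

theorem Pth.last {f : List X →₀ K} {e N : ℕ} {ε lam : ℕ → X → K} (hp : Pth f e N ε lam)
    (hf : Hom (e + 2) f) (c : List X →₀ K) {i : ℕ} (hi : i < N) :
    ctr (lam i) (pc ε (i + 1) e (mulL c (ctr (ε i) f))) = c := by
  have h1 := pc_mulL ε c e (i + 1) (e + 1) _ (hf.ctr (ε i)) (by omega)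
  have e1 : e + 1 - e = 0 + 1 := by omega
  rw [e1] at h1
  rw [h1.1, ctr_mulL h1.2]
  have : ctr (lam i) (pc ε (i + 1) e (ctr (ε i) f)) = Finsupp.single [] 1 := (hp i hi).2
  rw [this, mulL_one]

/-- the key lemma -/
theorem Pth.key {f : List X →₀ K} {e N : ℕ} {ε lam : ℕ → X → K} (hp : Pth f e N ε lam)
    (hf : Hom (e + 2) f) (n : ℕ) : ∀ i : ℕ, i + n ≤ N → ∀ h ∈ JW f n,
    (∀ t, ctr (lam (i + t)) (pc ε i (e + 1 + t) h) ∈ IW f) →
    ∀ (k : ℕ) (η : X → K), ctr η (pc ε i k h) ∈ IW f := by
  induction n with
  | zero =>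
    intro i _ h hh _ k η
    rw [JW_zero, Submodule.mem_bot] at hh
    rw [hh, map_zero, map_zero]; exact zero_mem _
  | succ n ih =>
    intro i hi h hh hW k η
    obtain ⟨c, v, rfl, hv⟩ := JW_split hh
    have hiN : i < N := by omega
    have hcv : ctr (ε i) (mulL c f + v) = mulL c (ctr (ε i) f) + ctr (ε i) v := by
      rw [map_add, ctr_mulL hf]
    have hW' : ∀ t, ctr (lam (i + 1 + t)) (pc ε (i + 1) (e + 1 + t) (ctr (ε i) v)) ∈ IW f := by
      intro t
      have h1 := hW (t + 1)
      have e1 : e + 1 + (t + 1) = (e + 1 + t) + 1 := by ring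
      have e2 : i + (t + 1) = i + 1 + t := by ring
      rw [e1, pc_succ, hcv, map_add, hp.kill hf c hiN, zero_add, e2] at h1
      exact h1
    have key := ih (i + 1) (by omega) _ (hv (ε i)) hW'
    have hc : c ∈ IW f := by
      have h1 := hW 0
      rw [add_zero, add_zero, pc_succ, hcv, map_add, map_add, hp.last hf c hiN] at h1
      have h2 := sub_mem h1 (key e (lam i))
      rwa [add_sub_cancel_right] at h2
    match k with
    | 0 =>
      rw [pc_zero, map_add, ctr_mulL hf]
      exact add_mem (mulL_IW hc _) (JW_le _ _ (hv η))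
    | k + 1 =>
      rw [pc_succ, hcv, map_add, map_add]
      refine add_mem ?_ (key k η)
      by_cases hk : k ≤ e
      · have h1 := pc_mulL ε c k (i + 1) (e + 1) _ (hf.ctr (ε i)) (by omega)
        have e1 : e + 1 - k = (e - k) + 1 := by omega
        rw [e1] at h1
        rw [h1.1, ctr_mulL h1.2]
        exact mulL_IW hc _
      · obtain ⟨t, rfl⟩ : ∃ t, k = e + 1 + t := ⟨k - (e + 1), by omega⟩
        rw [hp.kill hf c hiN, map_zero]
        exact zero_mem _

/-- regularity -/
theorem Pth.reg {f : List X →₀ K} {e N : ℕ} {ε lam : ℕ → X → K} (hp : Pth f e N ε lam)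
    (hf : Hom (e + 2) f) {n : ℕ} (hn : n + 1 ≤ N) {c v : List X →₀ K}
    (hv : ∀ η : X → K, ctr η v ∈ JW f n) (h : mulL c f + v = 0) : c ∈ IW f := by
  have h0 : 0 < N := by omega
  have h1 : ctr (ε 0) v = -mulL c (ctr (ε 0) f) := by
    have h2 : ctr (ε 0) (mulL c f + v) = 0 := by rw [h, map_zero]
    rw [map_add, ctr_mulL hf] at h2
    exact (neg_eq_of_add_eq_zero_right h2).symm
  have h3 := hp.key hf n 1 (by omega) _ (hv (ε 0)) (by
    intro t
    rw [h1, map_neg, map_neg, hp.kill hf c h0, map_zero, neg_zero]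
    exact zero_mem _) e (lam 0)
  rw [h1, map_neg, map_neg, hp.last hf c h0] at h3
  rw [← neg_neg c]
  exact neg_mem h3

end

end Pool.Agent.Helper120_Alt
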