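import Pool.Agent.Helper120_Alt.Top1

set_option autoImplicit false

/-! A form with a path has only trivial syzygies. -/

namespace Pool.Agent.Helper120_Alt

noncomputable section

variable {K X : Type} [Field K]

/-- trivial syzygies -/
def tsW (w : List X →₀ K) (P V Q : List X) : (List X × List X) →₀ K :=
  w.sum fun W c => c • (Finsupp.single (P, V ++ W ++ Q) 1 - Finsupp.single (P ++ W ++ V, Q) 1)

theorem tsW_eq (w : List X →₀ K) (P V Q : List X) : tsW w P V Q =
    Finsupp.linearCombination K (fun W => Finsupp.single (P, V ++ W ++ Q) (1 : K) -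
      Finsupp.single (P ++ W ++ V, Q) 1) w := rfl

theorem shL_tsW (w : List X →₀ K) (A B P V Q : List X) :
    shL K A B (tsW w P V Q) = tsW w (A ++ P) V (Q ++ B) := by
  rw [tsW_eq, tsW_eq, Finsupp.linearCombination_apply, Finsupp.linearCombination_apply,
    Finsupp.sum, map_sum, Finsupp.sum]
  refine Finset.sum_congr rfl fun W _ => ?_
  rw [map_smul, map_sub, shL_single, shL_single]
  simp

theorem syW_tsW (w : List X →₀ K) (P V Q : List X) : syW w (tsW w P V Q) = 0 := by
  rw [tsW_eq, Finsupp.linearCombination_apply, Finsupp.sum, map_sum]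
  have h1 : ∀ W, syW w (w W • (Finsupp.single (P, V ++ W ++ Q) (1 : K) -
      Finsupp.single (P ++ W ++ V, Q) 1)) =
      w W • shW K P (V ++ W ++ Q) w - w W • shW K (P ++ W ++ V) Q w := by
    intro W
    rw [map_smul, map_sub, syW_single, syW_single, one_smul, one_smul, smul_sub]
  rw [Finset.sum_congr rfl fun W _ => h1 W, Finset.sum_sub_distrib, sub_eq_zero]
  have e1 : ∀ W, shW K P (V ++ W ++ Q) w =
      ∑ W' ∈ w.support, w W' • Finsupp.single (P ++ W' ++ (V ++ W ++ Q)) 1 := by
    intro W
    conv_lhs => rw [← Finsupp.sum_single w]
    rw [Finsupp.sum, map_sum]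
    refine Finset.sum_congr rfl fun W' _ => ?_
    rw [shW_single, Finsupp.smul_single, smul_eq_mul, mul_one]
  have e2 : ∀ W, shW K (P ++ W ++ V) Q w =
      ∑ W' ∈ w.support, w W' • Finsupp.single (P ++ W ++ V ++ W' ++ Q) 1 := by
    intro W
    conv_lhs => rw [← Finsupp.sum_single w]
    rw [Finsupp.sum, map_sum]
    refine Finset.sum_congr rfl fun W' _ => ?_
    rw [shW_single, Finsupp.smul_single, smul_eq_mul, mul_one]
  simp only [e1, e2, Finset.smul_sum]
  rw [Finset.sum_comm]
  refine Finset.sum_congr rfl fun W _ => Finset.sum_congr rfl fun W' _ => ?_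
  rw [smul_comm]
  simp

/-- the span of the trivial syzygies -/
def TrW (w : List X →₀ K) : Submodule K ((List X × List X) →₀ K) :=
  Submodule.span K {t | ∃ P V Q : List X, t = tsW w P V Q}

theorem TrW_sh (w : List X →₀ K) (A B : List X) {s : (List X × List X) →₀ K} (hs : s ∈ TrW w) :
    shL K A B s ∈ TrW w := by
  have : TrW w ≤ (TrW w).comap (shL K A B) := by
    unfold TrW
    rw [Submodule.span_le]
    rintro _ ⟨P, V, Q, rfl⟩
    show shL K A B (tsW w P V Q) ∈ Submodule.span K {t | ∃ P V Q : List X, t = tsW w P V Q}
    rw [shL_tsW]
    exact Submodule.subset_span ⟨_, _, _, rfl⟩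
  exact this hs

/-- only trivial syzygies -/
def OT (w : List X →₀ K) : Prop := ∀ s, syW w s = 0 → s ∈ TrW w

/-- the part with empty left factor -/
def c0 (K : Type) {X : Type} [Field K] : ((List X × List X) →₀ K) →ₗ[K] (List X →₀ K) :=
  Finsupp.linearCombination K fun x => match x with
    | ([], Q) => Finsupp.single Q 1
    | (_ :: _, _) => 0

/-- the formal sum with empty left factors -/
def i0 (K : Type) {X : Type} [Field K] : (List X →₀ K) →ₗ[K] ((List X × List X) →₀ K) :=
  Finsupp.linearCombination K fun Q => Finsupp.single ([], Q) 1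

theorem c0_nil (Q : List X) (a : K) : c0 K (Finsupp.single (([] : List X), Q) a) =
    Finsupp.single Q a := by
  unfold c0
  rw [Finsupp.linearCombination_single, Finsupp.smul_single, smul_eq_mul, mul_one]

theorem c0_cons (x : X) (P Q : List X) (a : K) : c0 K (Finsupp.single (x :: P, Q) a) = 0 := by
  unfold c0
  rw [Finsupp.linearCombination_single, smul_zero]

theorem i0_single (Q : List X) (a : K) : i0 K (Finsupp.single Q a) =
    Finsupp.single (([] : List X), Q) a := by
  unfold i0
  rw [Finsupp.linearCombination_single, Finsupp.smul_single, smul_eq_mul, mul_one]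

theorem syW_i0 (w c : List X →₀ K) : syW w (i0 K c) = mulL c w := by
  induction c using Finsupp.induction_linear with
  | zero => rw [map_zero, map_zero, mulL_zero]
  | add s t hs ht => rw [map_add, map_add, mulL_add, hs, ht]
  | single Q a => rw [i0_single, syW_single, mulL_mono]

variable [DecidableEq X]

/-- removing a first letter -/
def dl (K : Type) {X : Type} [Field K] [DecidableEq X] (x : X) :
    ((List X × List X) →₀ K) →ₗ[K] ((List X × List X) →₀ K) :=
  Finsupp.linearCombination K fun y => match y with
    | ([], _) => 0
    | (y :: P, Q) => if y = x then Finsupp.single (P, Q) 1 else 0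

theorem dl_nil (x : X) (Q : List X) (a : K) :
    dl K x (Finsupp.single (([] : List X), Q) a) = 0 := by
  unfold dl
  rw [Finsupp.linearCombination_single, smul_zero]

theorem dl_cons (x y : X) (P Q : List X) (a : K) : dl K x (Finsupp.single (y :: P, Q) a) =
    if y = x then Finsupp.single (P, Q) a else 0 := by
  unfold dl
  rw [Finsupp.linearCombination_single]
  show a • (if y = x then Finsupp.single (P, Q) (1 : K) else 0) = _
  split_ifs
  · rw [Finsupp.smul_single, smul_eq_mul, mul_one]
  · rw [smul_zero]

theorem dl_apply (x : X) (s : (List X × List X) →₀ K) (P Q : List X) :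
    dl K x s (P, Q) = s (x :: P, Q) := by
  induction s using Finsupp.induction_linear with
  | zero => simp
  | add s t hs ht => rw [map_add, Finsupp.add_apply, Finsupp.add_apply, hs, ht]
  | single y a =>
    obtain ⟨P', Q'⟩ := y
    match P' with
    | [] =>
      rw [dl_nil, Finsupp.single_apply, if_neg (by simp)]
      rfl
    | y :: P' =>
      rw [dl_cons, Finsupp.single_apply]
      split_ifs with h1 h2 h2
      · rw [Finsupp.single_apply, if_pos]
        simp only [Prod.mk.injEq, List.cons.injEq] at h2
        simp [h2]
      · rw [Finsupp.single_apply, if_neg]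
        intro h3
        apply h2
        simp only [Prod.mk.injEq] at h3
        simp [h3, h1]
      · exfalso
        simp only [Prod.mk.injEq, List.cons.injEq] at h2
        exact h1 h2.1.1
      · rfl

variable [Fintype X]

theorem split_s (s : (List X × List X) →₀ K) :
    s = i0 K (c0 K s) + ∑ x, shL K [x] [] (dl K x s) := by
  induction s using Finsupp.induction_linear with
  | zero => simp
  | add s t hs ht =>
    conv_lhs => rw [hs, ht]
    simp only [map_add, Finset.sum_add_distrib]
    abel
  | single y a =>
    obtain ⟨P, Q⟩ := y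
    match P with
    | [] =>
      rw [c0_nil, i0_single]
      simp [dl_nil]
    | y :: P =>
      rw [c0_cons, map_zero, zero_add, Finset.sum_eq_single y]
      · rw [dl_cons, if_pos rfl, shL_single]; simp
      · intro x _ hx
        rw [dl_cons, if_neg (fun h => hx h.symm), map_zero]
      · intro h; exact absurd (Finset.mem_univ _) h

theorem syW_split (w : List X →₀ K) (s : (List X × List X) →₀ K) :
    syW w s = mulL (c0 K s) w + ∑ x, shW K [x] [] (syW w (dl K x s)) := by
  conv_lhs => rw [split_s s]
  rw [map_add, syW_i0, map_sum]
  simp only [syW_shL]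

theorem ctr_sum (w : List X →₀ K) (η : X → K) (s : (List X × List X) →₀ K) :
    ctr η (∑ x, shW K [x] [] (syW w (dl K x s))) = ∑ x, η x • syW w (dl K x s) := by
  rw [map_sum]
  refine Finset.sum_congr rfl fun x _ => ?_
  rw [ctr_sh, shW_nil]

omit [DecidableEq X] [Fintype X] in
theorem shW_hom {m : ℕ} {f : List X →₀ K} (hf : Hom m f) (P Q W : List X)
    (h : shW K P Q f W ≠ 0) : W.length = P.length + Q.length + m := by
  obtain ⟨W', rfl, h'⟩ := shW_ne P Q W f h
  rw [← hf W' h']
  simp only [List.length_append]
  ring

omit [DecidableEq X] [Fintype X] in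
theorem tsW_hom {m : ℕ} {f : List X →₀ K} (hf : Hom m f) (P V Q : List X)
    (z : List X × List X) (h : tsW f P V Q z ≠ 0) :
    z.1.length + z.2.length = P.length + V.length + Q.length + m := by
  classical
  unfold tsW at h
  rw [Finsupp.sum, Finsupp.finsetSum_apply] at h
  obtain ⟨W, hW, h1⟩ := Finset.exists_ne_zero_of_sum_ne_zero h
  have h2 := hf W (Finsupp.mem_support_iff.mp hW)
  by_contra hne
  apply h1
  rw [Finsupp.smul_apply, Finsupp.sub_apply, Finsupp.single_apply, Finsupp.single_apply,
    if_neg, if_neg]
  · simp
  · rintro rfl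
    apply hne
    simp only [List.length_append]
    omega
  · rintro rfl
    apply hne
    simp only [List.length_append]
    omega

omit [DecidableEq X] [Fintype X] in
theorem syW_filter {m : ℕ} {f : List X →₀ K} (hf : Hom m f) (q : ℕ → Prop) [DecidablePred q]
    (t : (List X × List X) →₀ K) :
    (syW f t).filter (fun W => q W.length) =
      syW f (t.filter fun y => q (y.1.length + y.2.length + m)) := by
  induction t using Finsupp.induction_linear with
  | zero => rw [map_zero, Finsupp.filter_zero, Finsupp.filter_zero, map_zero]
  | add s t hs ht => rw [map_add, Finsupp.filter_add, hs, ht, Finsupp.filter_add, map_add]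
  | single y a =>
    obtain ⟨A, B⟩ := y
    by_cases h : q (A.length + B.length + m)
    · rw [Finsupp.filter_single_of_pos (fun y : List X × List X =>
        q (y.1.length + y.2.length + m)) h, Finsupp.filter_eq_self_iff]
      intro W hW
      rw [syW_single] at hW
      have h1 : shW K A B f W ≠ 0 := by
        intro h0; apply hW; rw [Finsupp.smul_apply, h0, smul_zero]
      rw [shW_hom hf _ _ _ h1]
      exact h
    · rw [Finsupp.filter_single_of_neg (fun y : List X × List X =>
        q (y.1.length + y.2.length + m)) h, map_zero, Finsupp.filter_eq_zero_iff]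
      intro W hW
      by_contra hne
      rw [syW_single] at hne
      have h1 : shW K A B f W ≠ 0 := by
        intro h0; apply hne; rw [Finsupp.smul_apply, h0, smul_zero]
      rw [shW_hom hf _ _ _ h1] at hW
      exact h hW

omit [DecidableEq X] [Fintype X] in
theorem trunc {m : ℕ} {f : List X →₀ K} (hf : Hom m f) {c : List X →₀ K} (hc : c ∈ IW f) {n : ℕ}
    (hn : ∀ Q, c Q ≠ 0 → Q.length < n) :
    ∃ t, syW f t = c ∧ ∀ y : List X × List X, t y ≠ 0 → y.1.length + y.2.length + m < n := by
  classical
  obtain ⟨t, rfl⟩ := hc
  refine ⟨t.filter fun y => y.1.length + y.2.length + m < n, ?_, ?_⟩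
  · rw [← syW_filter hf (fun k => k < n), Finsupp.filter_eq_self_iff]
    exact hn
  · intro y hy
    by_contra h
    exact hy (Finsupp.filter_apply_neg (fun y : List X × List X => _) t h)

/-- substituting trivial syzygies -/
def TT (w : List X →₀ K) : ((List X × List X) →₀ K) →ₗ[K] ((List X × List X) →₀ K) :=
  Finsupp.linearCombination K fun y => tsW w [] y.1 y.2

omit [DecidableEq X] [Fintype X] in
theorem TT_mem (w : List X →₀ K) (t : (List X × List X) →₀ K) : TT w t ∈ TrW w := by
  unfold TT
  rw [Finsupp.linearCombination_apply]
  exact Submodule.sum_mem _ fun y _ => Submodule.smul_mem _ _ (Submodule.subset_span ⟨_, _, _, rfl⟩)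

omit [DecidableEq X] [Fintype X] in
theorem syW_TT (w : List X →₀ K) (t : (List X × List X) →₀ K) : syW w (TT w t) = 0 := by
  unfold TT
  rw [Finsupp.linearCombination_apply, Finsupp.sum, map_sum]
  refine Finset.sum_eq_zero fun y _ => ?_
  rw [map_smul, syW_tsW, smul_zero]

omit [DecidableEq X] [Fintype X] in
theorem c0_TT {m : ℕ} {f : List X →₀ K} (hf : Hom (m + 1) f) (t : (List X × List X) →₀ K) :
    c0 K (TT f t) = syW f t := by
  induction t using Finsupp.induction_linear with
  | zero => simp
  | add s t hs ht => rw [map_add, map_add, map_add, hs, ht]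
  | single y a =>
    obtain ⟨A, B⟩ := y
    unfold TT
    rw [Finsupp.linearCombination_single, syW_single, map_smul]
    congr 1
    show c0 K (tsW f [] A B) = _
    rw [tsW_eq, Finsupp.linearCombination_apply, Finsupp.sum, map_sum]
    conv_rhs => rw [← Finsupp.sum_single f]
    rw [Finsupp.sum, map_sum]
    refine Finset.sum_congr rfl fun W hW => ?_
    have h2 := hf W (Finsupp.mem_support_iff.mp hW)
    match W, h2 with
    | x :: W, _ =>
      rw [map_smul, map_sub, c0_nil, shW_single]
      show f (x :: W) • (_ - c0 K (Finsupp.single (x :: (W ++ A), B) 1)) = _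
      rw [c0_cons, sub_zero, Finsupp.smul_single, smul_eq_mul, mul_one]

/-- only trivial syzygies -/
theorem OT_of_path {f : List X →₀ K} {e : ℕ} (hf : Hom (e + 2) f)
    (hp : ∀ N, ∃ ε lam, Pth f e N ε lam) : OT f := by
  have key : ∀ (n : ℕ) (s : (List X × List X) →₀ K),
      (∀ x, s x ≠ 0 → x.1.length + x.2.length < n) → syW f s = 0 → s ∈ TrW f := by
    intro n
    induction n with
    | zero =>
      intro s hs _
      have : s = 0 := by
        ext x
        by_contra h
        exact absurd (hs x h) (by omega)
      rw [this]; exact zero_mem _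
    | succ n ih =>
      intro s hs h0
      obtain ⟨ε, lam, hN⟩ := hp (n + 1)
      have h1 := syW_split f s
      rw [h0] at h1
      have hcI : c0 K s ∈ IW f := by
        refine hN.reg hf le_rfl (v := ∑ x, shW K [x] [] (syW f (dl K x s))) ?_ h1.symm
        intro η
        rw [ctr_sum]
        refine Submodule.sum_mem _ fun x _ => Submodule.smul_mem _ _ ⟨dl K x s, ?_, rfl⟩
        intro y hy
        obtain ⟨P, Q⟩ := y
        rw [Finset.mem_coe, Finsupp.mem_support_iff, dl_apply] at hy
        have h2 := hs _ hy
        simp only [List.length_cons] at h2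
        show P.length < n
        omega
      have hcn : ∀ Q, c0 K s Q ≠ 0 → Q.length < n + 1 := by
        intro Q hQ
        have h2 : c0 K s Q = s ([], Q) := by
          clear hQ hcI h1 h0 hs
          induction s using Finsupp.induction_linear with
          | zero => simp
          | add s t hs ht => rw [map_add, Finsupp.add_apply, Finsupp.add_apply, hs, ht]
          | single y a =>
            obtain ⟨P', Q'⟩ := y
            match P' with
            | [] =>
              rw [c0_nil, Finsupp.single_apply, Finsupp.single_apply]
              simp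
            | y :: P' =>
              rw [c0_cons, Finsupp.single_apply, if_neg (by simp)]
              rfl
        rw [h2] at hQ
        have := hs _ hQ
        simpa using this
      obtain ⟨t, ht, htn⟩ := trunc hf hcI hcn
      have h3 : c0 K (s - TT f t) = 0 := by
        rw [map_sub, c0_TT hf, ht, sub_self]
      have h4 : syW f (s - TT f t) = 0 := by rw [map_sub, h0, syW_TT, sub_self]
      have h5 : ∀ x, syW f (dl K x (s - TT f t)) = 0 := by
        intro x
        have h6 := syW_split f (s - TT f t)
        rw [h4, h3, mulL_zero, zero_add] at h6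
        have h7 := ctr_sum f (Pi.single x 1) (s - TT f t)
        rw [← h6, map_zero, Finset.sum_eq_single x] at h7
        · rw [Pi.single_eq_same, one_smul] at h7
          exact h7.symm
        · intro y _ hy
          rw [Pi.single_eq_of_ne hy, zero_smul]
        · intro h; exact absurd (Finset.mem_univ _) h
      have h8 : ∀ x, dl K x (s - TT f t) ∈ TrW f := by
        intro x
        apply ih _ _ (h5 x)
        rintro ⟨P, Q⟩ hy
        rw [dl_apply, Finsupp.sub_apply] at hy
        show P.length + Q.length < n
        by_cases h9 : s (x :: P, Q) = 0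
        · rw [h9, zero_sub, neg_ne_zero] at hy
          unfold TT at hy
          rw [Finsupp.linearCombination_apply, Finsupp.sum, Finsupp.finsetSum_apply] at hy
          obtain ⟨y, hy', h10⟩ := Finset.exists_ne_zero_of_sum_ne_zero hy
          have h11 : tsW f [] y.1 y.2 (x :: P, Q) ≠ 0 := by
            intro h12; apply h10; rw [Finsupp.smul_apply, h12, smul_zero]
          have h13 := tsW_hom hf _ _ _ _ h11
          have h14 := htn y (Finsupp.mem_support_iff.mp hy')
          simp only [List.length_cons, List.length_nil] at h13
          omega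
        · have := hs _ h9
          simp only [List.length_cons] at this
          omega
      have h15 : s = TT f t + ∑ x, shL K [x] [] (dl K x (s - TT f t)) := by
        have h16 := split_s (s - TT f t)
        rw [h3, map_zero, zero_add] at h16
        rw [← h16]; abel
      rw [h15]
      exact add_mem (TT_mem _ _) (Submodule.sum_mem _ fun x _ => TrW_sh f _ _ (h8 x))
  intro s hs
  refine key (s.support.sup (fun x => x.1.length + x.2.length + 1)) s ?_ hs
  intro x hx
  exact Nat.lt_of_succ_le (Finset.le_sup
    (f := fun x : List X × List X => x.1.length + x.2.length + 1) (Finsupp.mem_support_iff.mpr hx))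

end

end Pool.Agent.Helper120_Alt
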