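import Pool.Agent.Helper120_Alt.Top2

set_option autoImplicit false

/-! Descent of the base field, and polynomials whose top component has only trivial syzygies. -/

namespace Pool.Agent.Helper120_Alt

noncomputable section

section descent

variable {F K X : Type} [Field F] [Field K] [Algebra F K]

/-- extension of the coefficients -/
def bc {S : Type} (K : Type) [Field K] [Algebra F K] (s : S →₀ F) : S →₀ K :=
  s.mapRange (algebraMap F K) (map_zero _)

theorem bc_add {S : Type} (s t : S →₀ F) : bc K (s + t) = bc K s + bc K t :=
  Finsupp.mapRange_add (fun x y => map_add _ x y) s t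

theorem bc_single {S : Type} (x : S) (c : F) :
    bc K (Finsupp.single x c) = Finsupp.single x (algebraMap F K c) :=
  Finsupp.mapRange_single

theorem bc_zero {S : Type} : bc K (0 : S →₀ F) = 0 := Finsupp.mapRange_zero

theorem bc_shW (P Q : List X) (f : List X →₀ F) :
    shW K P Q (bc K f) = bc K (shW F P Q f) := by
  induction f using Finsupp.induction_linear with
  | zero => rw [bc_zero, map_zero, map_zero, bc_zero]
  | add s t hs ht => rw [bc_add, map_add, hs, ht, map_add, bc_add]
  | single W c => rw [bc_single, shW_single, shW_single, bc_single]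

theorem bc_smul {S : Type} (c : F) (s : S →₀ F) : bc K (c • s) = algebraMap F K c • bc K s := by
  ext x
  simp [bc, Algebra.smul_def]

theorem bc_syW (f : List X →₀ F) (s : (List X × List X) →₀ F) :
    syW (bc K f) (bc K s) = bc K (syW f s) := by
  induction s using Finsupp.induction_linear with
  | zero => rw [bc_zero, map_zero, map_zero, bc_zero]
  | add s t hs ht => rw [bc_add, map_add, hs, ht, map_add, bc_add]
  | single y c =>
    obtain ⟨P, Q⟩ := y
    rw [bc_single, syW_single, syW_single, bc_shW, bc_smul]

theorem bc_tsW (f : List X →₀ F) (P V Q : List X) : tsW (bc K f) P V Q = bc K (tsW f P V Q) := by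
  have : ∀ g : List X →₀ F, Finsupp.linearCombination K (fun W => Finsupp.single (P, V ++ W ++ Q)
      (1 : K) - Finsupp.single (P ++ W ++ V, Q) 1) (bc K g) =
      bc K (Finsupp.linearCombination F (fun W => Finsupp.single (P, V ++ W ++ Q) (1 : F) -
      Finsupp.single (P ++ W ++ V, Q) 1) g) := by
    intro g
    induction g using Finsupp.induction_linear with
    | zero => rw [bc_zero, map_zero, map_zero, bc_zero]
    | add s t hs ht => rw [bc_add, map_add, hs, ht, map_add, bc_add]
    | single W c =>
      rw [bc_single, Finsupp.linearCombination_single, Finsupp.linearCombination_single, bc_smul]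
      congr 1
      rw [sub_eq_add_neg, sub_eq_add_neg, bc_add, bc_single, map_one]
      congr 1
      rw [← Finsupp.single_neg, ← Finsupp.single_neg, bc_single, map_neg, map_one]
  exact this f

/-- descent -/
theorem OT_descent {f : List X →₀ F} (h : OT (bc K f)) : OT f := by
  intro s hs
  have h1 : bc K s ∈ TrW (bc K f) := h _ (by rw [bc_syW, hs, bc_zero])
  obtain ⟨ρ, hρ⟩ := (Algebra.linearMap F K).exists_leftInverse_of_injective
    (LinearMap.ker_eq_bot.mpr (algebraMap F K).injective)
  have hρ' : ∀ a : F, ρ (algebraMap F K a) = a := fun a => by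
    have := LinearMap.congr_fun hρ a
    simpa using this
  have key : ∀ t ∈ TrW (bc K f), ∀ k : K,
      (Finsupp.mapRange.linearMap ρ) ((k • t : (List X × List X) →₀ K)) ∈ TrW f := by
    intro t ht
    induction ht using Submodule.span_induction with
    | mem x hx =>
      obtain ⟨P, V, Q, rfl⟩ := hx
      intro k
      rw [bc_tsW]
      have : (Finsupp.mapRange.linearMap ρ) (k • bc K (tsW f P V Q)) = ρ k • tsW f P V Q := by
        ext z
        rw [Finsupp.mapRange.linearMap_apply, Finsupp.mapRange_apply, Finsupp.smul_apply,
          Finsupp.smul_apply]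
        show ρ (k * algebraMap F K (tsW f P V Q z)) = ρ k * tsW f P V Q z
        rw [mul_comm, ← Algebra.smul_def, map_smul, smul_eq_mul, mul_comm]
      rw [this]
      exact Submodule.smul_mem _ _ (Submodule.subset_span ⟨_, _, _, rfl⟩)
    | zero => intro k; rw [smul_zero, map_zero]; exact zero_mem _
    | add x y _ _ hx hy => intro k; rw [smul_add, map_add]; exact add_mem (hx k) (hy k)
    | smul a x _ hx => intro k; rw [smul_smul]; exact hx _
  have h2 := key _ h1 1
  rw [one_smul] at h2
  have h3 : (Finsupp.mapRange.linearMap ρ) (bc K s) = s := by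
    ext z
    rw [Finsupp.mapRange.linearMap_apply, Finsupp.mapRange_apply]
    show ρ (algebraMap F K (s z)) = s z
    rw [hρ']
  rwa [h3] at h2

end descent

section top

variable {F X : Type} [Field F]

/-- the component of degree `D` -/
def tp (D : ℕ) (w : List X →₀ F) : List X →₀ F := w.filter fun W => W.length = D

theorem tp_hom (D : ℕ) (w : List X →₀ F) : Hom D (tp D w) := by
  intro W hW
  by_contra h
  exact hW (Finsupp.filter_apply_neg (fun W : List X => W.length = D) w h)

theorem low_ne {D : ℕ} {w : List X →₀ F} (hw : ∀ W, w W ≠ 0 → W.length ≤ D) {W : List X}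
    (h : (w - tp D w) W ≠ 0) : W.length < D := by
  by_contra h1
  apply h
  rw [Finsupp.sub_apply]
  unfold tp
  by_cases h2 : W.length = D
  · rw [Finsupp.filter_apply_pos (fun W : List X => W.length = D) w h2, sub_self]
  · rw [Finsupp.filter_apply_neg (fun W : List X => W.length = D) w h2, sub_zero]
    by_contra h3
    exact h1 (lt_of_le_of_ne (hw W h3) h2)

theorem syW_add_left (w w' : List X →₀ F) (s : (List X × List X) →₀ F) :
    syW (w + w') s = syW w s + syW w' s := by
  induction s using Finsupp.induction_linear with
  | zero => simp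
  | add s t hs ht => rw [map_add, map_add, map_add, hs, ht]; abel
  | single y a =>
    obtain ⟨P, Q⟩ := y
    rw [syW_single, syW_single, syW_single, map_add, smul_add]

theorem syW_len {m : ℕ} {w : List X →₀ F} (hw : ∀ W, w W ≠ 0 → W.length < m)
    {s : (List X × List X) →₀ F} {n : ℕ} (hs : ∀ y, s y ≠ 0 → y.1.length + y.2.length ≤ n)
    {W : List X} (h : syW w s W ≠ 0) : W.length < n + m := by
  unfold syW at h
  rw [Finsupp.linearCombination_apply, Finsupp.sum, Finsupp.finsetSum_apply] at h
  obtain ⟨y, hy, h1⟩ := Finset.exists_ne_zero_of_sum_ne_zero h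
  have h2 : shW F y.1 y.2 w W ≠ 0 := by
    intro h3; apply h1; rw [Finsupp.smul_apply, h3, smul_zero]
  obtain ⟨W', rfl, h4⟩ := shW_ne _ _ _ _ h2
  have h5 := hw W' h4
  have h6 := hs y (Finsupp.mem_support_iff.mp hy)
  simp only [List.length_append]
  omega

/-- the component of a value -/
theorem tp_syW {D : ℕ} {w : List X →₀ F} (hw : ∀ W, w W ≠ 0 → W.length ≤ D)
    {s : (List X × List X) →₀ F} {n : ℕ} (hs : ∀ y, s y ≠ 0 → y.1.length + y.2.length ≤ n) :
    (syW w s).filter (fun W => W.length = n + D) =
      syW (tp D w) (s.filter fun y => y.1.length + y.2.length + D = n + D) := by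
  classical
  rw [← syW_filter (tp_hom D w) (fun k => k = n + D)]
  have h1 : w = tp D w + (w - tp D w) := by abel
  conv_lhs => rw [h1]
  rw [syW_add_left, Finsupp.filter_add]
  have h2 : Finsupp.filter (fun W : List X => W.length = n + D) (syW (w - tp D w) s) = 0 := by
    rw [Finsupp.filter_eq_zero_iff]
    intro W hW
    by_contra h3
    have := syW_len (m := D) (fun W hW => low_ne hw hW) hs h3
    omega
  rw [h2, add_zero]

theorem tsW_add_left (w w' : List X →₀ F) (P V Q : List X) :
    tsW (w + w') P V Q = tsW w P V Q + tsW w' P V Q := by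
  rw [tsW_eq, tsW_eq, tsW_eq, map_add]

theorem tsW_len {m : ℕ} {w : List X →₀ F} (hw : ∀ W, w W ≠ 0 → W.length < m) (P V Q : List X)
    (z : List X × List X) (h : tsW w P V Q z ≠ 0) :
    z.1.length + z.2.length < P.length + V.length + Q.length + m := by
  classical
  unfold tsW at h
  rw [Finsupp.sum, Finsupp.finsetSum_apply] at h
  obtain ⟨W, hW, h1⟩ := Finset.exists_ne_zero_of_sum_ne_zero h
  have h2 := hw W (Finsupp.mem_support_iff.mp hW)
  by_contra hne
  apply h1
  rw [Finsupp.smul_apply, Finsupp.sub_apply, Finsupp.single_apply, Finsupp.single_apply,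
    if_neg, if_neg]
  · simp
  · rintro rfl
    apply hne
    simp only [List.length_append]
    omega
  · rintro rfl
    apply hne
    simp only [List.length_append]
    omega

/-- lifting trivial syzygies -/
theorem lift_TrW {D : ℕ} {w : List X →₀ F} (hw : ∀ W, w W ≠ 0 → W.length ≤ D) (n : ℕ)
    {y : (List X × List X) →₀ F} (hy : y ∈ TrW (tp D w)) :
    ∃ y' ∈ TrW w, ∀ z : List X × List X,
      (y' - y.filter fun z => z.1.length + z.2.length = n) z ≠ 0 →
        z.1.length + z.2.length < n := by
  classical
  induction hy using Submodule.span_induction with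
  | mem x hx =>
    obtain ⟨P, V, Q, rfl⟩ := hx
    by_cases h : P.length + V.length + Q.length + D = n
    · refine ⟨tsW w P V Q, Submodule.subset_span ⟨_, _, _, rfl⟩, ?_⟩
      intro z hz
      have h1 : (tsW (tp D w) P V Q).filter (fun z => z.1.length + z.2.length = n) =
          tsW (tp D w) P V Q := by
        rw [Finsupp.filter_eq_self_iff]
        intro z hz
        rw [tsW_hom (tp_hom D w) _ _ _ _ hz, h]
      rw [h1] at hz
      have h2 : w = (w - tp D w) + tp D w := by abel
      have h3 : tsW w P V Q - tsW (tp D w) P V Q = tsW (w - tp D w) P V Q := by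
        conv_lhs => rw [h2]
        rw [tsW_add_left]
        have : tp D (w - tp D w + tp D w) = tp D w := by rw [← h2]
        rw [this]; abel
      rw [h3] at hz
      rw [← h]
      exact tsW_len (fun W hW => low_ne hw hW) _ _ _ _ hz
    · refine ⟨0, zero_mem _, ?_⟩
      intro z hz
      exfalso
      apply hz
      have h1 : (tsW (tp D w) P V Q).filter (fun z => z.1.length + z.2.length = n) = 0 := by
        rw [Finsupp.filter_eq_zero_iff]
        intro z hz
        by_contra hne
        rw [tsW_hom (tp_hom D w) _ _ _ _ hne] at hz
        exact h hz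
      rw [h1, sub_zero]; rfl
  | zero =>
    refine ⟨0, zero_mem _, ?_⟩
    intro z hz
    rw [Finsupp.filter_zero, sub_zero] at hz
    exact absurd rfl hz
  | add x y _ _ hx hy =>
    obtain ⟨x', hx', h1⟩ := hx
    obtain ⟨y', hy', h2⟩ := hy
    refine ⟨x' + y', add_mem hx' hy', ?_⟩
    intro z hz
    rw [Finsupp.filter_add, add_sub_add_comm, Finsupp.add_apply] at hz
    by_cases h3 : (x' - x.filter fun z => z.1.length + z.2.length = n) z = 0
    · rw [h3, zero_add] at hz
      exact h2 z hz
    · exact h1 z h3
  | smul a x _ hx =>
    obtain ⟨x', hx', h1⟩ := hx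
    refine ⟨a • x', Submodule.smul_mem _ _ hx', ?_⟩
    intro z hz
    apply h1 z
    intro h2
    apply hz
    rw [Finsupp.filter_smul, ← smul_sub, Finsupp.smul_apply, h2, smul_zero]

/-- reduction of the degree of a representation -/
theorem OT_red {D : ℕ} {w : List X →₀ F} (hw : ∀ W, w W ≠ 0 → W.length ≤ D)
    (hO : OT (tp D w)) (n : ℕ) : ∀ s : (List X × List X) →₀ F,
    (∀ y, s y ≠ 0 → y.1.length + y.2.length < n) → ∀ N, (∀ W, syW w s W ≠ 0 → W.length < N + D) →
    ∃ s', s - s' ∈ TrW w ∧ ∀ y, s' y ≠ 0 → y.1.length + y.2.length < N := by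
  classical
  induction n with
  | zero =>
    intro s hs N _
    refine ⟨s, by rw [sub_self]; exact zero_mem _, ?_⟩
    intro y hy
    exact absurd (hs y hy) (by omega)
  | succ n ih =>
    intro s hs N hN
    by_cases hnN : n < N
    · refine ⟨s, by rw [sub_self]; exact zero_mem _, ?_⟩
      intro y hy
      have := hs y hy
      omega
    · have h1 := tp_syW hw (s := s) (n := n) (fun y hy => by have := hs y hy; omega)
      have h2 : (syW w s).filter (fun W => W.length = n + D) = 0 := by
        rw [Finsupp.filter_eq_zero_iff]
        intro W hW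
        by_contra h3
        have := hN W h3
        omega
      rw [h2] at h1
      have h3 := hO _ h1.symm
      obtain ⟨y', hy', hz⟩ := lift_TrW hw n h3
      have h4 : (s.filter fun y => y.1.length + y.2.length + D = n + D).filter
          (fun z => z.1.length + z.2.length = n) =
          s.filter fun y => y.1.length + y.2.length = n := by
        ext y
        simp only [Finsupp.filter_apply]
        by_cases h : y.1.length + y.2.length = n
        · simp [h]
        · simp [h]
      rw [h4] at hz
      obtain ⟨s', hs', hb⟩ := ih (s - y') (by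
        intro y hy
        by_contra h5
        have h6 : (y' - s.filter fun y => y.1.length + y.2.length = n) y = 0 := by
          by_contra h7
          exact h5 (hz y h7)
        rw [Finsupp.sub_apply, sub_eq_zero] at h6
        apply hy
        rw [Finsupp.sub_apply, h6]
        by_cases h7 : y.1.length + y.2.length = n
        · rw [Finsupp.filter_apply_pos (fun y : List X × List X => y.1.length + y.2.length = n)
            s h7, sub_self]
        · rw [Finsupp.filter_apply_neg (fun y : List X × List X => y.1.length + y.2.length = n)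
            s h7, sub_zero]
          by_contra h8
          have := hs y h8
          omega) N (by
        intro W hW
        apply hN W
        rw [map_sub] at hW
        have h8 : syW w y' = 0 := by
          have : TrW w ≤ LinearMap.ker (syW w) := by
            unfold TrW
            rw [Submodule.span_le]
            rintro _ ⟨P, V, Q, rfl⟩
            exact syW_tsW w P V Q
          exact this hy'
        rwa [h8, sub_zero] at hW)
      refine ⟨s', ?_, hb⟩
      have : s - s' = (s - y' - s') + y' := by abel
      rw [this]
      exact add_mem hs' hy'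

/-- only trivial syzygies for the whole polynomial -/
theorem OT_of_top {D : ℕ} {w : List X →₀ F} (hw : ∀ W, w W ≠ 0 → W.length ≤ D)
    (hO : OT (tp D w)) : OT w := by
  intro s hs
  obtain ⟨s', h1, h2⟩ := OT_red hw hO (s.support.sup (fun x => x.1.length + x.2.length + 1)) s
    (fun x hx => Nat.lt_of_succ_le (Finset.le_sup
      (f := fun x : List X × List X => x.1.length + x.2.length + 1)
      (Finsupp.mem_support_iff.mpr hx))) 0 (by
      intro W hW
      rw [hs] at hW
      exact absurd rfl hW)
  have : s' = 0 := by
    ext y
    by_contra h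
    exact absurd (h2 y h) (by omega)
  rwa [this, sub_zero] at h1

/-- bounded representations -/
theorem bdd_of_top {D : ℕ} {w : List X →₀ F} (hw : ∀ W, w W ≠ 0 → W.length ≤ D)
    (hO : OT (tp D w)) {g : List X →₀ F} (hg : g ∈ IW w) {N : ℕ}
    (hN : ∀ W, g W ≠ 0 → W.length < N + D) :
    ∃ s, syW w s = g ∧ ∀ y, s y ≠ 0 → y.1.length + y.2.length < N := by
  obtain ⟨s, rfl⟩ := hg
  obtain ⟨s', h1, h2⟩ := OT_red hw hO (s.support.sup (fun x => x.1.length + x.2.length + 1)) s
    (fun x hx => Nat.lt_of_succ_le (Finset.le_sup
      (f := fun x : List X × List X => x.1.length + x.2.length + 1)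
      (Finsupp.mem_support_iff.mpr hx))) N hN
  refine ⟨s', ?_, h2⟩
  have : TrW w ≤ LinearMap.ker (syW w) := by
    unfold TrW
    rw [Submodule.span_le]
    rintro _ ⟨P, V, Q, rfl⟩
    exact syW_tsW w P V Q
  have h3 : syW w (s - s') = 0 := this h1
  rw [map_sub, sub_eq_zero] at h3
  exact h3.symm

end top

end

end Pool.Agent.Helper120_Alt
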