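import Pool.Agent.Helper120_Alt.Syz

set_option autoImplicit false

/-! Definitions: the top component as a multilinear form. -/

namespace Pool.Agent.Helper120_Alt

noncomputable section

/-- The value of the word `W = x₁ ⋯ xₖ` at the vectors `φ₁, …, φₖ`: the product of the
`φᵢ (xᵢ)`; it is zero when the numbers of letters and of vectors are different. -/
def mo {X R : Type} [CommRing R] : List (X → R) → List X → R
  | [], [] => 1
  | φ :: l, x :: W => φ x * mo l W
  | [], _ :: _ => 0
  | _ :: _, [] => 0

/-- The component of degree `k` of an associative polynomial, as a multilinear form in `k`
vectors with coordinates in an extension of the base field. -/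
def mev {F X R : Type} [Field F] [CommRing R] [Algebra F R] (u : AS F X) (l : List (X → R)) : R :=
  (cof u).sum fun W c => algebraMap F R c * mo l W

/-- Let `u` have degree `d ≥ 2`, and view its top component as a multilinear form in `d` vectors.
Then, over some extension field and for some values of the arguments number `2, …, d - 1`, the
bilinear form in the first and the last argument has rank at least two. -/
def EndRank {F X : Type} [Field F] (u : AS F X) : Prop :=
  ∃ (K : Type) (_ : Field K) (_ : Algebra F K) (v : List (X → K)) (p p' q q' : X → K),
    (∀ W : List X, cof u W ≠ 0 → W.length ≤ v.length + 2) ∧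
    mev u (p :: (v ++ [q])) * mev u (p' :: (v ++ [q'])) ≠
      mev u (p :: (v ++ [q'])) * mev u (p' :: (v ++ [q]))

end

end Pool.Agent.Helper120_Alt
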