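import Pool.Agent.Helper120_Alt.Top3
import Pool.Agent.Helper120_Alt.TopDefs

set_option autoImplicit false

/-! Existence of paths. -/

namespace Pool.Agent.Helper120_Alt

noncomputable section

section basic

variable {K X R : Type} [Field K] [CommRing R] [Algebra K R]

/-- evaluation of forms -/
def evL (K : Type) {X R : Type} [Field K] [CommRing R] [Algebra K R] (l : List (X → R)) :
    (List X →₀ K) →ₗ[K] R := Finsupp.linearCombination K fun W => mo l W

theorem evL_single (l : List (X → R)) (W : List X) (c : K) :
    evL K l (Finsupp.single W c) = c • mo l W := by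
  unfold evL
  rw [Finsupp.linearCombination_single]

theorem evL_cons (φ : X → K) (l : List (X → K)) (f : List X →₀ K) :
    evL K (φ :: l) f = evL K l (ctr φ f) := by
  induction f using Finsupp.induction_linear with
  | zero => simp
  | add s t hs ht => rw [map_add, map_add, map_add, hs, ht]
  | single W c =>
    cases W with
    | nil => rw [evL_single, ctr_nil, map_zero]; simp [mo]
    | cons x W =>
      rw [evL_single, ctr_cons, evL_single]
      simp [mo, mul_assoc]

theorem evL_nil (f : List X →₀ K) : evL K ([] : List (X → K)) f = f [] := by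
  classical
  induction f using Finsupp.induction_linear with
  | zero => simp
  | add s t hs ht => rw [map_add, Finsupp.add_apply, hs, ht]
  | single W c =>
    rw [evL_single, Finsupp.single_apply]
    cases W <;> simp [mo]

theorem mo_map {R' : Type} [CommRing R'] (g : R →+* R') (l : List (X → R)) (W : List X) :
    g (mo l W) = mo (l.map fun φ x => g (φ x)) W := by
  induction l generalizing W with
  | nil => cases W <;> simp [mo]
  | cons φ l ih => cases W <;> simp [mo, ih]

theorem evL_map {R' : Type} [CommRing R'] [Algebra K R'] (g : R →ₐ[K] R') (l : List (X → R))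
    (f : List X →₀ K) : g (evL K l f) = evL K (l.map fun φ x => g (φ x)) f := by
  induction f using Finsupp.induction_linear with
  | zero => simp
  | add s t hs ht => rw [map_add, map_add, map_add, hs, ht]
  | single W c =>
    rw [evL_single, evL_single, map_smul]
    congr 1
    exact mo_map g.toRingHom l W

theorem mo_last (l : List (X → R)) (a b : X → R) (c c' : R) (W : List X) :
    mo (l ++ [fun x => a x * c - b x * c']) W = mo (l ++ [a]) W * c - mo (l ++ [b]) W * c' := by
  induction l generalizing W with
  | nil =>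
    match W with
    | [] => simp [mo]
    | [x] => simp [mo]
    | x :: y :: W => simp [mo]
  | cons φ l ih =>
    cases W with
    | nil => simp [mo]
    | cons x W =>
      simp only [List.cons_append, mo, ih]
      ring

theorem evL_last (l : List (X → R)) (a b : X → R) (c c' : R) (f : List X →₀ K) :
    evL K (l ++ [fun x => a x * c - b x * c']) f =
      evL K (l ++ [a]) f * c - evL K (l ++ [b]) f * c' := by
  induction f using Finsupp.induction_linear with
  | zero => simp
  | add s t hs ht => rw [map_add, map_add, map_add, hs, ht]; ring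
  | single W k =>
    rw [evL_single, evL_single, evL_single, mo_last, smul_mul_assoc, smul_mul_assoc, smul_sub]

theorem evL_first (l : List (X → R)) (a b : X → R) (c c' : R) (f : List X →₀ K) :
    evL K ((fun x => a x * c - b x * c') :: l) f =
      evL K (a :: l) f * c - evL K (b :: l) f * c' := by
  induction f using Finsupp.induction_linear with
  | zero => simp
  | add s t hs ht => rw [map_add, map_add, map_add, hs, ht]; ring
  | single W k =>
    rw [evL_single, evL_single, evL_single]
    cases W with
    | nil => simp [mo]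
    | cons x W =>
      simp only [mo, smul_mul_assoc, ← smul_sub]
      congr 1
      ring

theorem evL_scale (l : List (X → R)) (a : X → R) (c : R) (f : List X →₀ K) :
    evL K (l ++ [fun x => a x * c]) f = evL K (l ++ [a]) f * c := by
  have := evL_last l a a c 0 f
  simp only [mul_zero, sub_zero] at this
  exact this

end basic

section path

variable {K X : Type} [Field K]

/-- a segment of a sequence -/
def seg {R : Type} (ε : ℕ → X → R) (i k : ℕ) : List (X → R) := (List.range' i k).map ε

theorem seg_zero {R : Type} (ε : ℕ → X → R) (i : ℕ) : seg ε i 0 = [] := rfl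

theorem seg_succ {R : Type} (ε : ℕ → X → R) (i k : ℕ) :
    seg ε i (k + 1) = ε i :: seg ε (i + 1) k := rfl

theorem seg_succ' {R : Type} (ε : ℕ → X → R) (i k : ℕ) :
    seg ε i (k + 1) = seg ε i k ++ [ε (i + k)] := by
  unfold seg
  rw [List.range'_concat, List.map_append]
  simp

theorem seg_congr {R : Type} {ε ε' : ℕ → X → R} {i k : ℕ}
    (h : ∀ j, i ≤ j → j < i + k → ε j = ε' j) : seg ε i k = seg ε' i k := by
  unfold seg
  apply List.map_congr_left
  intro j hj
  rw [List.mem_range'_1] at hj
  exact h j hj.1 hj.2

theorem seg_shift {R : Type} (ε : ℕ → X → R) (N i k : ℕ) :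
    seg (fun j => ε (N + j)) i k = seg ε (N + i) k := by
  induction k generalizing i with
  | zero => rfl
  | succ k ih => rw [seg_succ, seg_succ, ih]; rfl

theorem evL_pc (ε : ℕ → X → K) (l : List (X → K)) (k : ℕ) : ∀ (i : ℕ) (f : List X →₀ K),
    evL K (seg ε i k ++ l) f = evL K l (pc ε i k f) := by
  induction k with
  | zero => intro i f; rfl
  | succ k ih =>
    intro i f
    rw [seg_succ, List.cons_append, evL_cons, ih, pc_succ]

theorem pc_hom (ε : ℕ → X → K) (k : ℕ) : ∀ (i n : ℕ) (g : List X →₀ K),
    Hom n g → k ≤ n → Hom (n - k) (pc ε i k g) := fun i n g hg hk =>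
  (pc_mulL ε 0 k i n g hg hk).2

theorem Hom_zero {g : List X →₀ K} (hg : Hom 0 g) : g = Finsupp.single [] (g []) := by
  classical
  ext W
  rw [Finsupp.single_apply]
  split_ifs with h
  · rw [h]
  · by_contra h1
    have := hg W h1
    exact h (List.eq_nil_of_length_eq_zero this).symm

/-- paths from vanishing of values -/
theorem path_of_ev {f : List X →₀ K} {e N : ℕ} (hf : Hom (e + 2) f) {ε : ℕ → X → K}
    (h : ∀ i < N, evL K (seg ε i (e + 2)) f = 0 ∧
      ∃ b, evL K (seg ε i (e + 1) ++ [b]) f ≠ 0) : ∃ lam, Pth f e N ε lam := by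
  classical
  let lam : ℕ → X → K := fun i => if hi : i < N then
    fun x => (h i hi).2.choose x * (evL K (seg ε i (e + 1) ++ [(h i hi).2.choose]) f)⁻¹
    else fun _ => 0
  refine ⟨lam, fun i hi => ⟨?_, ?_⟩⟩
  · have h1 := pc_hom ε (e + 2) i (e + 2) f hf le_rfl
    rw [Nat.sub_self] at h1
    rw [Hom_zero h1, ← evL_nil, ← evL_pc, List.append_nil, (h i hi).1, Finsupp.single_zero]
  · have h1 := pc_hom ε (e + 1) i (e + 2) f hf (by omega)
    have e1 : e + 2 - (e + 1) = 0 + 1 := by omega
    rw [e1] at h1
    have h2 := h1.ctr (lam i)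
    rw [Hom_zero h2, ← evL_nil, ← evL_cons, ← evL_pc]
    congr 1
    have h3 : lam i = fun x => (h i hi).2.choose x *
        (evL K (seg ε i (e + 1) ++ [(h i hi).2.choose]) f)⁻¹ := by
      simp only [lam, dif_pos hi]
    rw [h3, evL_scale, mul_inv_cancel₀ (h i hi).2.choose_spec]

/-- generic vectors -/
def gX (K X : Type) [Field K] (j : ℕ) (x : X) : MvPolynomial (ℕ × X) K := MvPolynomial.X (j, x)

theorem aev_seg (y : ℕ → X → K) (i k : ℕ) :
    (seg (gX K X) i k).map (fun φ x => MvPolynomial.aeval (fun a : ℕ × X => y a.1 a.2) (φ x)) =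
      seg y i k := by
  unfold seg
  rw [List.map_map]
  apply List.map_congr_left
  intro j _
  funext x
  simp [gX]

theorem exists_ne [Infinite K] {P : MvPolynomial (ℕ × X) K} (hP : P ≠ 0) :
    ∃ y : ℕ → X → K, MvPolynomial.aeval (fun a : ℕ × X => y a.1 a.2) P ≠ 0 := by
  by_contra h
  push Not at h
  apply hP
  apply MvPolynomial.funext
  intro z
  rw [map_zero]
  have := h fun j x => z (j, x)
  rw [MvPolynomial.aeval_def] at this
  exact this

/-- linear algebra for a bilinear form of rank at least two -/
theorem rank_two {V W : Type} (B : V → W → K) (cb : V → K → V → K → V)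
    (hcb : ∀ p c p' c' q, B (cb p c p' c') q = B p q * c - B p' q * c') {p p' : V} {q q' : W}
    (h : B p q * B p' q' ≠ B p q' * B p' q) (w : W) :
    ∃ s, B s w = 0 ∧ ∃ b, B s b ≠ 0 := by
  by_cases h1 : B p w = 0
  · refine ⟨p, h1, ?_⟩
    by_contra h2
    push Not at h2
    apply h
    rw [h2 q, h2 q', zero_mul, zero_mul]
  · refine ⟨cb p (B p' w) p' (B p w), ?_, ?_⟩
    · rw [hcb]; ring
    · by_contra h2
      push Not at h2
      have e1 := h2 q
      have e2 := h2 q'
      rw [hcb] at e1 e2
      apply h
      apply mul_left_cancel₀ h1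
      linear_combination (B p q') * e1 - (B p q) * e2

/-- paths ending in a given open set -/
theorem exists_path [Infinite K] {f : List X →₀ K} {e : ℕ} {v : List (X → K)}
    (hv : v.length = e) {p p' q q' : X → K}
    (h : evL K (p :: (v ++ [q])) f * evL K (p' :: (v ++ [q'])) f ≠
      evL K (p :: (v ++ [q'])) f * evL K (p' :: (v ++ [q])) f) (N : ℕ) :
    ∀ P : MvPolynomial (ℕ × X) K, P ≠ 0 → ∃ ε : ℕ → X → K,
      (∀ i < N, evL K (seg ε i (e + 2)) f = 0 ∧ ∃ b, evL K (seg ε i (e + 1) ++ [b]) f ≠ 0) ∧
      MvPolynomial.aeval (fun a : ℕ × X => ε (N + a.1) a.2) P ≠ 0 := by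
  classical
  induction N with
  | zero =>
    intro P hP
    obtain ⟨y, hy⟩ := exists_ne hP
    refine ⟨y, fun i hi => absurd hi (by omega), ?_⟩
    simpa using hy
  | succ N ih =>
    intro P hP
    let C' : (X → K) → X → MvPolynomial (ℕ × X) K := fun a x => MvPolynomial.C (a x)
    have hC' : ∀ (y : ℕ → X → K) (a : X → K),
        (fun x => MvPolynomial.aeval (fun a : ℕ × X => y a.1 a.2) (C' a x)) = a := by
      intro y a
      funext x
      simp [C']
    -- the minor
    let M : MvPolynomial (ℕ × X) K :=
      evL K (C' p :: (seg (gX K X) 0 e ++ [C' q])) f *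
        evL K (C' p' :: (seg (gX K X) 0 e ++ [C' q'])) f -
      evL K (C' p :: (seg (gX K X) 0 e ++ [C' q'])) f *
        evL K (C' p' :: (seg (gX K X) 0 e ++ [C' q])) f
    have hMev : ∀ (y : ℕ → X → K), MvPolynomial.aeval (fun a : ℕ × X => y a.1 a.2) M =
        evL K (p :: (seg y 0 e ++ [q])) f * evL K (p' :: (seg y 0 e ++ [q'])) f -
        evL K (p :: (seg y 0 e ++ [q'])) f * evL K (p' :: (seg y 0 e ++ [q])) f := by
      intro y
      simp only [M, map_sub, map_mul, evL_map, List.map_cons, List.map_append, List.map_nil,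
        aev_seg, hC']
    have hM : M ≠ 0 := by
      intro h0
      apply h
      have h1 := hMev fun j => v.getD j 0
      rw [h0, map_zero] at h1
      have h2 : seg (fun j => v.getD j 0) 0 e = v := by
        apply List.ext_getElem
        · simp [seg, hv]
        · intro n h3 h4
          simp [seg, h4]
      rw [h2] at h1
      exact (sub_eq_zero.mp h1.symm)
    obtain ⟨y, hy⟩ := exists_ne (mul_ne_zero hP hM)
    rw [map_mul, hMev] at hy
    have hy1 := left_ne_zero_of_mul hy
    have hy2 := right_ne_zero_of_mul hy
    rw [sub_ne_zero] at hy2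
    obtain ⟨s, hs, b, hb⟩ := rank_two (fun s t : X → K => evL K (s :: (seg y 0 e ++ [t])) f)
      (fun p c p' c' x => p x * c - p' x * c')
      (fun p c p' c' q => evL_first _ _ _ _ _ _) hy2 (y e)
    -- the linear form and the new polynomial
    let L : (X → K) → MvPolynomial (ℕ × X) K := fun a => evL K (seg (gX K X) 0 (e + 1) ++ [C' a]) f
    have hL : ∀ (z : ℕ → X → K) (a : X → K), MvPolynomial.aeval (fun a : ℕ × X => z a.1 a.2) (L a) =
        evL K (seg z 0 (e + 1) ++ [a]) f := by
      intro z a
      simp only [L, evL_map, List.map_append, List.map_cons, List.map_nil, aev_seg, hC']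
    let a := y e
    let a' : X → K := fun x => b x * (evL K (s :: (seg y 0 e ++ [b])) f)⁻¹
    let σ : ℕ × X → MvPolynomial (ℕ × X) K := fun j => if j.1 = e then
      C' a j.2 * L a' - C' a' j.2 * L a else MvPolynomial.X (j.1 + 1, j.2)
    have hσ : ∀ (z : ℕ → X → K) (j : ℕ × X),
        MvPolynomial.aeval (fun a : ℕ × X => z a.1 a.2) (σ j) = if j.1 = e then
          a j.2 * evL K (seg z 0 (e + 1) ++ [a']) f - a' j.2 * evL K (seg z 0 (e + 1) ++ [a]) f
          else z (j.1 + 1) j.2 := by
      intro z j
      simp only [σ]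
      split_ifs with hj
      · rw [map_sub, map_mul, map_mul, hL, hL, ← congrFun (hC' z a) j.2,
          ← congrFun (hC' z a') j.2]
      · simp
    let P' : MvPolynomial (ℕ × X) K := MvPolynomial.bind₁ σ P * L b
    have hP'ev : ∀ (z : ℕ → X → K), MvPolynomial.aeval (fun a : ℕ × X => z a.1 a.2) P' =
        MvPolynomial.aeval (fun j : ℕ × X => if j.1 = e then
          a j.2 * evL K (seg z 0 (e + 1) ++ [a']) f - a' j.2 * evL K (seg z 0 (e + 1) ++ [a]) f
          else z (j.1 + 1) j.2) P * evL K (seg z 0 (e + 1) ++ [b]) f := by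
      intro z
      simp only [P']
      rw [map_mul, hL, MvPolynomial.aeval_bind₁]
      simp only [hσ]
    have hP' : P' ≠ 0 := by
      intro h0
      let z : ℕ → X → K := fun j => if j = 0 then s else y (j - 1)
      have hz : seg z 0 (e + 1) = s :: seg y 0 e := by
        rw [seg_succ]
        congr 1
        have : seg z 1 e = seg (fun j => z (1 + j)) 0 e := (seg_shift z 1 0 e).symm
        rw [this]
        apply seg_congr
        intro j _ _
        simp [z]
      have h1 := hP'ev z
      rw [h0, map_zero, hz] at h1
      have e1 : evL K ((s :: seg y 0 e) ++ [a]) f = 0 := hs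
      have e2 : evL K ((s :: seg y 0 e) ++ [b]) f ≠ 0 := hb
      have e3 : evL K ((s :: seg y 0 e) ++ [a']) f = 1 := by
        show evL K ((s :: seg y 0 e) ++ [fun x => b x * (evL K (s :: (seg y 0 e ++ [b])) f)⁻¹]) f = 1
        rw [evL_scale]
        exact mul_inv_cancel₀ hb
      rw [e1, e3] at h1
      have e4 : (fun j : ℕ × X => if j.1 = e then a j.2 * 1 - a' j.2 * 0 else z (j.1 + 1) j.2) =
          fun a : ℕ × X => y a.1 a.2 := by
        funext j
        split_ifs with hj
        · simp [a, hj]
        · simp [z]
      rw [e4] at h1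
      exact mul_ne_zero hy1 e2 h1.symm
    obtain ⟨ε, h1, h2⟩ := ih P' hP'
    rw [hP'ev fun j => ε (N + j)] at h2
    have h3 := left_ne_zero_of_mul h2
    have h4 := right_ne_zero_of_mul h2
    rw [seg_shift] at h3 h4
    let ε' : ℕ → X → K := fun j => if j = N + (e + 1) then
      fun x => a x * evL K (seg ε (N + 0) (e + 1) ++ [a']) f -
        a' x * evL K (seg ε (N + 0) (e + 1) ++ [a]) f else ε j
    have hε : ∀ i k, i + k ≤ N + (e + 1) → seg ε' i k = seg ε i k := by
      intro i k hik
      apply seg_congr
      intro j _ hj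
      simp only [ε']
      rw [if_neg (by omega)]
    refine ⟨ε', ?_, ?_⟩
    · intro i hi
      rcases Nat.lt_succ_iff_lt_or_eq.mp hi with hi | rfl
      · rw [hε _ _ (by omega), hε _ _ (by omega)]
        exact h1 i hi
      · rw [hε i (e + 1) (by omega)]
        refine ⟨?_, b, h4⟩
        have e1 : seg ε' i (e + 2) = seg ε i (e + 1) ++ [ε' (i + (e + 1))] := by
          rw [seg_succ', hε i (e + 1) (by omega)]
        rw [e1]
        have e2 : ε' (i + (e + 1)) = fun x => a x * evL K (seg ε (i + 0) (e + 1) ++ [a']) f -
            a' x * evL K (seg ε (i + 0) (e + 1) ++ [a]) f := by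
          simp [ε']
        rw [e2, evL_last, add_zero]
        ring
    · convert h3 using 3
      funext j
      by_cases hj : j.1 = e
      · have e1 : N + 1 + j.1 = N + (e + 1) := by omega
        simp only [ε', if_pos hj, if_pos e1]
      · have e1 : ¬ (N + 1 + j.1 = N + (e + 1)) := by omega
        simp only [ε', if_neg hj, if_neg e1]
        congr 1
        omega

end path

end

end Pool.Agent.Helper120_Alt
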