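import Pool.Agent.Helper120_Alt.Wt4

set_option autoImplicit false

/-! Polynomials with constant term in an element with strongly free leading component. -/

namespace Pool.Agent.Helper120_Alt.Wt

open Pool.Agent.Helper120_Alt hiding tp Hom tp_hom low_ne syW_len tp_syW tsW_len lift_TrW OT_red
  OT_of_top bdd_of_top shW_hom tsW_hom syW_filter mm_len wd_len de_rep xi_lead Gm_len Em_len NS red
  NP kap_val normal_form xi_supp syz_pu bdd_pu

noncomputable section

variable {K X : Type} [Field K] {wt : X → ℕ}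

/-- every syzygy of the top component lifts -/
def Lft (wt : X → ℕ) (D : ℕ) (w : List X →₀ K) : Prop :=
  ∀ y, syW (tp wt D w) y = 0 → ∀ n : ℕ, ∃ y', syW w y' = 0 ∧ ∀ z : List X × List X,
    (y' - y.filter fun z => (wl wt z.1) + (wl wt z.2) = n) z ≠ 0 →
      (wl wt z.1) + (wl wt z.2) < n

/-- reduction of the weight of a representation -/
theorem lft_red {D : ℕ} {w : List X →₀ K} (hw : ∀ W, w W ≠ 0 → (wl wt W) ≤ D)
    (hL : Lft wt D w) (n : ℕ) : ∀ s : (List X × List X) →₀ K,
    (∀ y, s y ≠ 0 → (wl wt y.1) + (wl wt y.2) < n) → ∀ N, (∀ W, syW w s W ≠ 0 → (wl wt W) < N + D) →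
    ∃ s', syW w (s - s') = 0 ∧ ∀ y, s' y ≠ 0 → (wl wt y.1) + (wl wt y.2) < N := by
  classical
  induction n with
  | zero =>
    intro s hs N _
    refine ⟨s, by rw [sub_self, map_zero], ?_⟩
    intro y hy
    exact absurd (hs y hy) (by omega)
  | succ n ih =>
    intro s hs N hN
    by_cases hnN : n < N
    · refine ⟨s, by rw [sub_self, map_zero], ?_⟩
      intro y hy
      have := hs y hy
      omega
    · have h1 := tp_syW hw (s := s) (n := n) (fun y hy => by have := hs y hy; omega)
      have h2 : (syW w s).filter (fun W => (wl wt W) = n + D) = 0 := by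
        rw [Finsupp.filter_eq_zero_iff]
        intro W hW
        by_contra h3
        have := hN W h3
        omega
      rw [h2] at h1
      obtain ⟨y', hy', hz⟩ := hL _ h1.symm n
      have h4 : (s.filter fun y => (wl wt y.1) + (wl wt y.2) + D = n + D).filter
          (fun z => (wl wt z.1) + (wl wt z.2) = n) =
          s.filter fun y => (wl wt y.1) + (wl wt y.2) = n := by
        ext y
        simp only [Finsupp.filter_apply]
        by_cases h : (wl wt y.1) + (wl wt y.2) = n
        · simp [h]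
        · simp [h]
      rw [h4] at hz
      obtain ⟨s', hs', hb⟩ := ih (s - y') (by
        intro y hy
        by_contra h5
        have h6 : (y' - s.filter fun y => (wl wt y.1) + (wl wt y.2) = n) y = 0 := by
          by_contra h7
          exact h5 (hz y h7)
        rw [Finsupp.sub_apply, sub_eq_zero] at h6
        apply hy
        rw [Finsupp.sub_apply, h6]
        by_cases h7 : (wl wt y.1) + (wl wt y.2) = n
        · rw [Finsupp.filter_apply_pos (fun y : List X × List X => (wl wt y.1) + (wl wt y.2) = n)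
            s h7, sub_self]
        · rw [Finsupp.filter_apply_neg (fun y : List X × List X => (wl wt y.1) + (wl wt y.2) = n)
            s h7, sub_zero]
          by_contra h8
          have := hs y h8
          omega) N (by
        intro W hW
        apply hN W
        rw [map_sub, hy', sub_zero] at hW
        exact hW)
      refine ⟨s', ?_, hb⟩
      have : s - s' = (s - y' - s') + y' := by abel
      rw [this, map_add, hs', hy', add_zero]

/-- bounded representations -/
theorem bdd_of_lft {D : ℕ} {w : List X →₀ K} (hw : ∀ W, w W ≠ 0 → (wl wt W) ≤ D)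
    (hL : Lft wt D w) {g : List X →₀ K} (hg : g ∈ IW w) {N : ℕ}
    (hN : ∀ W, g W ≠ 0 → (wl wt W) < N + D) :
    ∃ s, syW w s = g ∧ ∀ y, s y ≠ 0 → (wl wt y.1) + (wl wt y.2) < N := by
  obtain ⟨s, rfl⟩ := hg
  obtain ⟨s', h1, h2⟩ := lft_red hw hL (s.support.sup (fun x => (wl wt x.1) + (wl wt x.2) + 1)) s
    (fun x hx => Nat.lt_of_succ_le (Finset.le_sup
      (f := fun x : List X × List X => (wl wt x.1) + (wl wt x.2) + 1)
      (Finsupp.mem_support_iff.mpr hx))) N hN
  refine ⟨s', ?_, h2⟩
  rw [map_sub, sub_eq_zero] at h1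
  exact h1.symm

theorem mm_ne {g h : List X →₀ K} {Z : List X} (hZ : mm g h Z ≠ 0) :
    ∃ A B, g A ≠ 0 ∧ h B ≠ 0 ∧ Z = A ++ B := by
  unfold mm at hZ
  rw [Finsupp.linearCombination_apply, Finsupp.sum, LinearMap.sum_apply,
    Finsupp.finsetSum_apply] at hZ
  obtain ⟨A, hA, h1⟩ := Finset.exists_ne_zero_of_sum_ne_zero hZ
  have h2 : shW K A [] h Z ≠ 0 := by
    intro h3; apply h1; rw [LinearMap.smul_apply, Finsupp.smul_apply, h3, smul_zero]
  obtain ⟨B, rfl, h4⟩ := shW_ne _ _ _ _ h2
  exact ⟨A, B, Finsupp.mem_support_iff.mp hA, h4, by simp⟩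

theorem tp_ne {D : ℕ} {w : List X →₀ K} {W : List X} (h : tp wt D w W ≠ 0) :
    w W ≠ 0 ∧ wl wt W = D := by
  unfold tp at h
  rw [Finsupp.filter_apply] at h
  split_ifs at h with h1
  · exact ⟨h, h1⟩
  · exact absurd rfl h

theorem tp_eq_zero {D : ℕ} {w : List X →₀ K} (h : ∀ W, w W ≠ 0 → wl wt W < D) :
    tp wt D w = 0 := by
  ext W
  by_contra h1
  obtain ⟨h2, h3⟩ := tp_ne h1
  have := h W h2
  omega

theorem tp_hom_self {D : ℕ} {w : List X →₀ K} (h : ∀ W, w W ≠ 0 → wl wt W = D) :
    tp wt D w = w := by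
  unfold tp
  rw [Finsupp.filter_eq_self_iff]
  exact h

theorem tp_mm {a b : ℕ} {g h : List X →₀ K} (hg : ∀ W, g W ≠ 0 → wl wt W ≤ a)
    (hh : ∀ W, h W ≠ 0 → wl wt W ≤ b) :
    tp wt (a + b) (mm g h) = mm (tp wt a g) (tp wt b h) := by
  have e : mm g h = mm (tp wt a g) (tp wt b h) + (mm (tp wt a g) (h - tp wt b h) +
      mm (g - tp wt a g) h) := by
    rw [map_sub, map_sub, LinearMap.sub_apply]; abel
  have e2 : tp wt (a + b) (mm g h) = tp wt (a + b) (mm (tp wt a g) (tp wt b h)) +
      (tp wt (a + b) (mm (tp wt a g) (h - tp wt b h)) +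
        tp wt (a + b) (mm (g - tp wt a g) h)) := by
    conv_lhs => rw [e]
    unfold tp
    rw [Finsupp.filter_add, Finsupp.filter_add]
  have n1 : tp wt (a + b) (mm (tp wt a g) (tp wt b h)) = mm (tp wt a g) (tp wt b h) := by
    apply tp_hom_self
    intro W hW
    obtain ⟨A, B, hA, hB, rfl⟩ := mm_ne hW
    rw [wl_append, (tp_ne hA).2, (tp_ne hB).2]
  have n2 : tp wt (a + b) (mm (tp wt a g) (h - tp wt b h)) = 0 := by
    apply tp_eq_zero
    intro W hW
    obtain ⟨A, B, hA, hB, rfl⟩ := mm_ne hW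
    have h1 := (tp_ne hA).2
    have h2 := low_ne hh hB
    rw [wl_append]; omega
  have n3 : tp wt (a + b) (mm (g - tp wt a g) h) = 0 := by
    apply tp_eq_zero
    intro W hW
    obtain ⟨A, B, hA, hB, rfl⟩ := mm_ne hW
    have h1 := low_ne hg hA
    have h2 := hh B hB
    rw [wl_append]; omega
  rw [e2, n1, n2, n3, add_zero, add_zero]

theorem vp_wl {v : List X →₀ K} {D : ℕ} (hv : ∀ W, v W ≠ 0 → wl wt W ≤ D) (j : ℕ) :
    ∀ W, vp v j W ≠ 0 → wl wt W ≤ j * D := by
  induction j with
  | zero =>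
    intro W hW
    have := wd_len (K := K) (wt := wt) [] W hW
    rw [wl_nil] at this
    omega
  | succ j ih =>
    intro W hW
    have := mm_len (K := K) (wt := wt) ih hv W hW
    rw [Nat.succ_mul]; exact this

theorem tp_vp {v : List X →₀ K} {D : ℕ} (hv : ∀ W, v W ≠ 0 → wl wt W ≤ D) (j : ℕ) :
    tp wt (j * D) (vp v j) = vp (tp wt D v) j := by
  classical
  induction j with
  | zero =>
    rw [Nat.zero_mul]
    apply tp_hom_self
    intro W hW
    have := wd_len (K := K) (wt := wt) [] W hW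
    rw [wl_nil] at this
    omega
  | succ j ih =>
    rw [Nat.succ_mul]
    show tp wt (j * D + D) (mm (vp v j) v) = mm (vp (tp wt D v) j) (tp wt D v)
    rw [tp_mm (vp_wl hv j) hv, ih]

/-- polynomials in an element -/
def pz (v : List X →₀ K) (c : ℕ → K) (r : ℕ) : List X →₀ K :=
  ∑ j ∈ Finset.range (r + 1), c j • vp v j

theorem pz_comm (v : List X →₀ K) (c : ℕ → K) (r : ℕ) : mm v (pz v c r) = mm (pz v c r) v := by
  unfold pz
  rw [map_sum, map_sum, LinearMap.sum_apply]
  refine Finset.sum_congr rfl fun j _ => ?_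
  rw [map_smul, map_smul, LinearMap.smul_apply, vp_comm]

theorem pz_wl {v : List X →₀ K} {D : ℕ} (hv : ∀ W, v W ≠ 0 → wl wt W ≤ D) (c : ℕ → K) (r : ℕ) :
    ∀ W, pz v c r W ≠ 0 → wl wt W ≤ r * D := by
  intro W hW
  unfold pz at hW
  rw [Finsupp.finsetSum_apply] at hW
  obtain ⟨j, hj, h1⟩ := Finset.exists_ne_zero_of_sum_ne_zero hW
  rw [Finsupp.smul_apply] at h1
  have h2 := vp_wl hv j W (fun h => h1 (by rw [h, smul_zero]))
  rw [Finset.mem_range] at hj
  exact h2.trans (Nat.mul_le_mul_right D (by omega))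

theorem tp_pz {v : List X →₀ K} {D : ℕ} (hv : ∀ W, v W ≠ 0 → wl wt W ≤ D) (hD : 0 < D)
    (c : ℕ → K) (r : ℕ) : tp wt (r * D) (pz v c r) = c r • vp (tp wt D v) r := by
  classical
  have e : pz v c r = (∑ j ∈ Finset.range r, c j • vp v j) + c r • vp v r := by
    unfold pz; rw [Finset.sum_range_succ]
  have e2 : tp wt (r * D) (pz v c r) = tp wt (r * D) (∑ j ∈ Finset.range r, c j • vp v j) +
      tp wt (r * D) (c r • vp v r) := by
    rw [e]; unfold tp; rw [Finsupp.filter_add]
  have e3 : tp wt (r * D) (c r • vp v r) = c r • vp (tp wt D v) r := by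
    rw [← tp_vp hv r]; unfold tp; rw [Finsupp.filter_smul]
  rw [e2, e3, tp_eq_zero, zero_add]
  intro W hW
  rw [Finsupp.finsetSum_apply] at hW
  obtain ⟨j, hj, h1⟩ := Finset.exists_ne_zero_of_sum_ne_zero hW
  rw [Finsupp.smul_apply] at h1
  have h2 := vp_wl hv j W (fun h => h1 (by rw [h, smul_zero]))
  rw [Finset.mem_range] at hj
  refine lt_of_le_of_lt h2 ?_
  exact Nat.mul_lt_mul_of_pos_right hj hD

theorem s0_ne {v : List X →₀ K} {z : List X × List X} (h : s0 v z ≠ 0) :
    ∃ W, v W ≠ 0 ∧ (z = (W, []) ∨ z = ([], W)) := by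
  classical
  have hwd : ∀ W : List X, wd K [] W ≠ 0 → W = [] := by
    intro W hW
    unfold wd at hW
    rw [Finsupp.single_apply] at hW
    split_ifs at hW with h1
    · exact h1.symm
    · exact absurd rfl hW
  unfold s0 at h
  rw [Finsupp.sub_apply] at h
  by_cases h1 : ten v (wd K []) z = 0
  · rw [h1, zero_sub] at h
    obtain ⟨h2, h3⟩ := ten_ne (neg_ne_zero.mp h)
    exact ⟨z.2, h3, Or.inr (Prod.ext (hwd _ h2) rfl)⟩
  · obtain ⟨h2, h3⟩ := ten_ne h1
    exact ⟨z.1, h2, Or.inl (Prod.ext rfl (hwd _ h3))⟩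

theorem shL_ne {A B : List X} {s : (List X × List X) →₀ K} {z : List X × List X}
    (h : shL K A B s z ≠ 0) : ∃ y, s y ≠ 0 ∧ z = (A ++ y.1, y.2 ++ B) := by
  classical
  have h1 : z ∈ (Finsupp.mapDomain (fun x : List X × List X => (A ++ x.1, x.2 ++ B)) s).support :=
    Finsupp.mem_support_iff.mpr h
  have h2 := Finsupp.mapDomain_support h1
  rw [Finset.mem_image] at h2
  obtain ⟨y, hy, e⟩ := h2
  exact ⟨y, Finsupp.mem_support_iff.mp hy, e.symm⟩

theorem s0_sh_wl {v : List X →₀ K} {D : ℕ} (hv : ∀ W, v W ≠ 0 → wl wt W = D) (A B : List X)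
    (z : List X × List X) (h : shL K A B (s0 v) z ≠ 0) :
    wl wt z.1 + wl wt z.2 = wl wt A + wl wt B + D := by
  obtain ⟨y, hy, rfl⟩ := shL_ne h
  obtain ⟨W, hW, rfl | rfl⟩ := s0_ne hy
  · simp only [wl_append, wl_nil]
    rw [hv W hW]; omega
  · simp only [wl_append, wl_nil]
    rw [hv W hW]; omega

theorem s0_sh_lt {v : List X →₀ K} {D : ℕ} (hv : ∀ W, v W ≠ 0 → wl wt W < D) (A B : List X)
    (z : List X × List X) (h : shL K A B (s0 v) z ≠ 0) :
    wl wt z.1 + wl wt z.2 < wl wt A + wl wt B + D := by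
  obtain ⟨y, hy, rfl⟩ := shL_ne h
  obtain ⟨W, hW, rfl | rfl⟩ := s0_ne hy
  · have := hv W hW
    simp only [wl_append, wl_nil]
    omega
  · have := hv W hW
    simp only [wl_append, wl_nil]
    omega

theorem s0_sub (v v' : List X →₀ K) : s0 v - s0 v' = s0 (v - v') := by
  unfold s0
  rw [map_sub, map_sub, LinearMap.sub_apply]
  abel

variable [Encodable X] [DecidableEq X] [Fintype X]

/-- the syzygies of the top component of a polynomial in `v` lift -/
theorem lft_pz (hw : ∀ x, 0 < wt x) {v : List X →₀ K} {D : ℕ}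
    (hv : ∀ W, v W ≠ 0 → wl wt W ≤ D) (hO : OT (tp wt D v)) (hD : 0 < D) {c : ℕ → K} {r : ℕ}
    (hr : c (r + 1) ≠ 0) : Lft wt ((r + 1) * D) (pz v c (r + 1)) := by
  classical
  intro y hy n
  set v' := tp wt D v with hv'
  have htt : tp wt D v' = v' := tp_hom_self (tp_hom wt D v)
  let c' : ℕ → K := fun j => if j = r then c (r + 1) else 0
  have hpu : pu v' c' r = tp wt ((r + 1) * D) (pz v c (r + 1)) := by
    rw [tp_pz hv hD]
    unfold pu
    rw [Finset.sum_eq_single r]
    · show (if r = r then c (r + 1) else 0) • _ = _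
      rw [if_pos rfl]
    · intro j _ hj
      show (if j = r then c (r + 1) else 0) • _ = _
      rw [if_neg hj, zero_smul]
    · intro h; exact absurd (Finset.self_mem_range_succ r) h
  have hv0 : v' [] = 0 := by
    by_contra h
    have := (tp_ne h).2
    rw [wl_nil] at this
    omega
  rw [← hpu] at hy
  have h1 : y ∈ Sp v' c' r := syz_pu hw (fun W hW => ((tp_ne hW).2).le) (by rw [htt]; exact hO) hD
    hv0 (by show (if r = r then c (r + 1) else 0) ≠ 0; rw [if_pos rfl]; exact hr) hy
  unfold Sp at h1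
  obtain ⟨y1, hy1, y2, hy2, rfl⟩ := Submodule.mem_sup.mp h1
  rw [hpu] at hy1
  obtain ⟨z1, hz1, hz1'⟩ := lift_TrW (pz_wl hv c (r + 1)) n hy1
  have hk1 : syW (pz v c (r + 1)) z1 = 0 := by
    have : TrW (pz v c (r + 1)) ≤ LinearMap.ker (syW (pz v c (r + 1))) := by
      unfold TrW
      rw [Submodule.span_le]
      rintro _ ⟨P, V, Q, rfl⟩
      exact syW_tsW _ P V Q
    exact this hz1
  have h2 : ∃ z2, syW (pz v c (r + 1)) z2 = 0 ∧ ∀ z : List X × List X,
      (z2 - y2.filter fun z => (wl wt z.1) + (wl wt z.2) = n) z ≠ 0 →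
        (wl wt z.1) + (wl wt z.2) < n := by
    clear hy h1
    induction hy2 using Submodule.span_induction with
    | mem x hx =>
      obtain ⟨A, B, rfl⟩ := hx
      have hh := s0_sh_wl (tp_hom wt D v) A B
      by_cases h : wl wt A + wl wt B + D = n
      · refine ⟨shL K A B (s0 v), ?_, ?_⟩
        · rw [syW_shL]
          have : syW (pz v c (r + 1)) (s0 v) = 0 := by
            unfold s0
            rw [map_sub, syW_ten, syW_ten, mm_one, one_mm, pz_comm, sub_self]
          rw [this, map_zero]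
        · intro z hz
          have h3 : (shL K A B (s0 v')).filter (fun z => (wl wt z.1) + (wl wt z.2) = n) =
              shL K A B (s0 v') := by
            rw [Finsupp.filter_eq_self_iff]
            intro z hz
            rw [hh z hz, h]
          rw [h3, ← map_sub, s0_sub] at hz
          rw [← h]
          exact s0_sh_lt (fun W hW => low_ne hv hW) A B z hz
      · refine ⟨0, map_zero _, ?_⟩
        intro z hz
        exfalso
        apply hz
        have h3 : (shL K A B (s0 v')).filter (fun z => (wl wt z.1) + (wl wt z.2) = n) = 0 := by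
          rw [Finsupp.filter_eq_zero_iff]
          intro z hz
          by_contra hne
          rw [hh z hne] at hz
          exact h hz
        rw [h3, sub_zero]; rfl
    | zero =>
      refine ⟨0, map_zero _, ?_⟩
      intro z hz
      rw [Finsupp.filter_zero, sub_zero] at hz
      exact absurd rfl hz
    | add x y _ _ hx hy =>
      obtain ⟨x', hx', h1⟩ := hx
      obtain ⟨y', hy', h2⟩ := hy
      refine ⟨x' + y', by rw [map_add, hx', hy', add_zero], ?_⟩
      intro z hz
      rw [Finsupp.filter_add, add_sub_add_comm, Finsupp.add_apply] at hz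
      by_cases h3 : (x' - x.filter fun z => (wl wt z.1) + (wl wt z.2) = n) z = 0
      · rw [h3, zero_add] at hz
        exact h2 z hz
      · exact h1 z h3
    | smul a x _ hx =>
      obtain ⟨x', hx', h1⟩ := hx
      refine ⟨a • x', by rw [map_smul, hx', smul_zero], ?_⟩
      intro z hz
      apply h1 z
      intro h2
      apply hz
      rw [Finsupp.filter_smul, ← smul_sub, Finsupp.smul_apply, h2, smul_zero]
  obtain ⟨z2, hk2, hz2'⟩ := h2
  refine ⟨z1 + z2, by rw [map_add, hk1, hk2, add_zero], ?_⟩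
  intro z hz
  rw [Finsupp.filter_add, add_sub_add_comm, Finsupp.add_apply] at hz
  by_cases h3 : (z1 - y1.filter fun z => (wl wt z.1) + (wl wt z.2) = n) z = 0
  · rw [h3, zero_add] at hz
    exact hz2' z hz
  · exact hz1' z h3

end

end Pool.Agent.Helper120_Alt.Wt
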