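import Pool.Agent.Helper120_Alt.Uni1
import Pool.Agent.Helper120_Alt.Prs6

set_option autoImplicit false

/-! Deciding ideals with bounded representations, for polynomials with constant term. -/

namespace Pool.Agent.Helper120_Alt

open R3

noncomputable section

section bdd

variable {F X : Type} [Field F]

theorem bddk_z0 : Bddk 1 (0 : List X →₀ F) := by
  intro g hg N _
  refine ⟨0, ?_, ?_⟩
  · obtain ⟨s, rfl⟩ := hg
    have : ∀ s, syW (0 : List X →₀ F) s = 0 := by
      intro s
      induction s using Finsupp.induction_linear with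
      | zero => simp
      | add s t hs ht => rw [map_add, hs, ht, add_zero]
      | single y a =>
        obtain ⟨P, Q⟩ := y
        rw [syW_single, map_zero, smul_zero]
    rw [this, this]
  · intro y hy
    exact absurd rfl hy

theorem bddk_cst {a : F} (ha : a ≠ 0) : Bddk 1 (a • wd F ([] : List X)) := by
  intro g _ N hN
  refine ⟨a⁻¹ • ten g (wd F []), ?_, ?_⟩
  · rw [map_smul, syW_ten, mm_one, map_smul, mm_one, smul_smul, inv_mul_cancel₀ ha, one_smul]
  · intro y hy
    rw [Finsupp.smul_apply] at hy
    have h1 : ten g (wd F []) y ≠ 0 := fun h => hy (by rw [h, smul_zero])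
    obtain ⟨h2, h3⟩ := ten_ne h1
    have h4 := hN y.1 h2
    have h5 := wd_len [] y.2 h3
    rw [List.length_nil] at h5
    omega

variable [Encodable X] [DecidableEq X] [Fintype X]

/-- bounded representations for polynomials in an element with strongly free leading component -/
theorem bddk_pz {wt : X → ℕ} (hw : ∀ x, 0 < wt x) {v : List X →₀ F} {D : ℕ}
    (hv : ∀ W, v W ≠ 0 → Wt.wl wt W ≤ D) (hO : OT (Wt.tp wt D v)) (hD : 0 < D) (c : ℕ → F)
    (r : ℕ) : ∃ k, Bddk k (Wt.pz v c r) := by
  induction r with
  | zero =>
    have e : Wt.pz v c 0 = c 0 • wd F [] := by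
      unfold Wt.pz
      rw [Finset.sum_range_succ, Finset.range_zero, Finset.sum_empty, zero_add]
      rfl
    rw [e]
    by_cases h0 : c 0 = 0
    · rw [h0, zero_smul]; exact ⟨1, bddk_z0⟩
    · exact ⟨1, bddk_cst h0⟩
  | succ r ih =>
    by_cases hr : c (r + 1) = 0
    · have e : Wt.pz v c (r + 1) = Wt.pz v c r := by
        unfold Wt.pz
        rw [Finset.sum_range_succ _ (r + 1), hr, zero_smul, add_zero]
      rw [e]; exact ih
    · let M := Finset.univ.sup wt + 1
      have hM : ∀ x, wt x ≤ M := by
        intro x
        have : wt x ≤ Finset.univ.sup wt := Finset.le_sup (Finset.mem_univ x)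
        omega
      refine ⟨M, fun g hg N hN => ?_⟩
      obtain ⟨s, e, hs⟩ := Wt.bdd_of_lft (Wt.pz_wl hv c (r + 1)) (Wt.lft_pz hw hv hO hD hr) hg
        (N := M * N) (by
          intro W hW
          have h1 := hN W hW
          have h2 := Wt.wl_le hM W
          have h3 : M * W.length < M * N := (Nat.mul_lt_mul_left (Nat.succ_pos _)).mpr h1
          omega)
      refine ⟨s, e, fun y hy => ?_⟩
      have h1 := hs y hy
      have h2 := Wt.len_le_wl hw y.1
      have h3 := Wt.len_le_wl hw y.2
      omega

end bdd

section dec

variable {n : ℕ}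

/-- all words of length at most `k` -/
def allN (n : ℕ) : ℕ → List (List (Fin n))
  | 0 => [[]]
  | k + 1 => [] :: (allN n k).flatMap fun W => (List.finRange n).map fun a => a :: W

theorem mem_allN (k : ℕ) : ∀ W : List (Fin n), W ∈ allN n k ↔ W.length ≤ k := by
  induction k with
  | zero =>
    intro W
    cases W <;> simp [allN]
  | succ k ih =>
    intro W
    cases W with
    | nil => simp [allN]
    | cons a W =>
      simp only [allN, List.mem_cons, List.mem_flatMap, List.length_cons, Nat.add_le_add_iff_right]
      constructor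
      · rintro (h | ⟨W', hW', h⟩)
        · exact absurd h (by simp)
        · rw [ih] at hW'
          rw [List.mem_map] at h
          obtain ⟨b, _, h⟩ := h
          rw [List.cons.injEq] at h
          rw [← h.2]; exact hW'
      · intro h
        right
        exact ⟨W, (ih W).mpr h, List.mem_map.mpr ⟨a, List.mem_finRange a, rfl⟩⟩

theorem primrec_allN : Primrec (allN n) := by
  have e : allN n = fun k => Nat.rec (motive := fun _ => List (List (Fin n))) [[]]
      (fun _ l => [] :: l.flatMap fun W => (List.finRange n).map fun a => a :: W) k := by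
    funext k
    induction k with
    | zero => rfl
    | succ k ih =>
      show [] :: (allN n k).flatMap _ = _
      rw [ih]
  rw [e]
  refine Primrec.nat_rec₁ _ ?_
  have h1 : Primrec₂ (fun (_ : ℕ × List (List (Fin n))) (W : List (Fin n)) =>
      (List.finRange n).map fun a => a :: W) := by
    refine Primrec.list_map (Primrec.const _) ?_
    exact (Primrec.list_cons.comp Primrec.snd (Primrec.snd.comp Primrec.fst)).to₂
  exact Primrec.list_cons.comp (Primrec.const []) (Primrec.list_flatMap Primrec.snd h1)

variable {F : Type} [Field F]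

/-- the value of the functional with coefficients `Λ` -/
def lamN (Λ L : RN F n) : F :=
  L.foldl (fun s x => s + x.1 * co (repN n) (encN x.2) (toR Λ)) 0

/-- the functional -/
def phv (l : List (Fin n) →₀ F) : (List (Fin n) →₀ F) →ₗ[F] F :=
  Finsupp.linearCombination F fun W => l W

theorem phv_single (l : List (Fin n) →₀ F) (W : List (Fin n)) (c : F) :
    phv l (Finsupp.single W c) = c * l W := by
  unfold phv
  rw [Finsupp.linearCombination_single, smul_eq_mul]

theorem coN_eq (Λ : RN F n) (W : List (Fin n)) : co (repN n) (encN W) (toR Λ) = vn Λ W := by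
  rw [co_eq parN_iff, parN_encN, ← cM_toR]
  rfl

theorem lamN_eq (Λ L : RN F n) : lamN Λ L = phv (vn Λ) (vn L) := by
  have : ∀ (L : RN F n) (s : F), L.foldl (fun s x => s + x.1 * co (repN n) (encN x.2) (toR Λ)) s =
      s + phv (vn Λ) (vn L) := by
    intro L
    induction L with
    | nil =>
      intro s
      show s = s + phv (vn Λ) 0
      rw [map_zero, add_zero]
    | cons x L ih =>
      intro s
      rw [List.foldl_cons, ih, vn_cons, map_add, phv_single, coN_eq, add_assoc]
  unfold lamN
  rw [this, zero_add]

/-- bound for the lengths of the words -/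
def bdN (L : RN F n) : ℕ := L.foldl (fun s x => s + x.2.length + 1) 0

omit [Field F] in
theorem bdN_le (L : RN F n) : ∀ x ∈ L, x.2.length + 1 ≤ bdN L := by
  have h1 : ∀ (L : RN F n) (s : ℕ), L.foldl (fun s x => s + x.2.length + 1) s =
      s + L.foldl (fun s x => s + x.2.length + 1) 0 := by
    intro L
    induction L with
    | nil => intro s; simp
    | cons x L ih =>
      intro s
      rw [List.foldl_cons, ih, List.foldl_cons, ih (0 + x.2.length + 1)]
      omega
  induction L with
  | nil => intro x hx; simp at hx
  | cons y L ih =>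
    intro x hx
    unfold bdN
    rw [List.foldl_cons, h1]
    rcases List.mem_cons.mp hx with rfl | hx
    · omega
    · have := ih x hx
      unfold bdN at this
      omega

theorem vn_mem (L : RN F n) {W : List (Fin n)} (h : vn L W ≠ 0) : ∃ x ∈ L, x.2 = W := by
  classical
  induction L with
  | nil => exact absurd rfl h
  | cons x L ih =>
    by_cases hx : x.2 = W
    · exact ⟨x, by simp, hx⟩
    · rw [vn_cons, Finsupp.add_apply, Finsupp.single_apply, if_neg hx, zero_add] at h
      obtain ⟨y, hy, e⟩ := ih h
      exact ⟨y, by simp [hy], e⟩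

/-- multiples -/
def shR (R : RN F n) (P Q : List (Fin n)) : RN F n := R.map fun y => (y.1, P ++ y.2 ++ Q)

theorem vn_shR (R : RN F n) (P Q : List (Fin n)) : vn (shR R P Q) = shW F P Q (vn R) :=
  vn_sh P Q R

open Classical in
/-- the negative test -/
def negN (k : ℕ) (R L Λ : RN F n) : Bool :=
  !(decide (lamN Λ L = 0)) && ((allN n (k * bdN L)).all fun P =>
    (allN n (k * bdN L)).all fun Q => decide (lamN Λ (shR R P Q) = 0))

theorem negN_iff (k : ℕ) (R : RN F n) (hb : Bddk k (vn R)) (L : RN F n) :
    ¬ vn L ∈ IW (vn R) ↔ ∃ Λ, negN k R L Λ = true := by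
  classical
  constructor
  · intro h
    obtain ⟨ψ, h2, h1⟩ := Submodule.exists_le_ker_of_notMem h
    let N := k * bdN L
    let T : Finset (List (Fin n)) := (vn L).support ∪
      (allN n N).toFinset.biUnion fun P => (allN n N).toFinset.biUnion fun Q =>
        (vn (shR R P Q)).support
    let Λ : RN F n := T.toList.map fun m => (ψ (wd F m), m)
    have hΛ : ∀ m, vn Λ m = if m ∈ T then ψ (wd F m) else 0 := by
      intro m
      have h3 : vn Λ = ∑ m ∈ T, Finsupp.single m (ψ (wd F m)) := by
        show ((T.toList.map fun m => (ψ (wd F m), m)).map fun p => Finsupp.single p.2 p.1).sum = _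
        rw [List.map_map, ← Finset.sum_map_toList]
        rfl
      rw [h3, Finsupp.finsetSum_apply]
      simp only [Finsupp.single_apply]
      rw [Finset.sum_ite_eq']
    have hφ : ∀ g : List (Fin n) →₀ F, g.support ⊆ T → phv (vn Λ) g = ψ g := by
      intro g hg
      conv_lhs => rw [← Finsupp.sum_single g]
      conv_rhs => rw [← Finsupp.sum_single g]
      rw [Finsupp.sum, map_sum, map_sum]
      refine Finset.sum_congr rfl fun m hm => ?_
      rw [phv_single, hΛ, if_pos (hg hm)]
      have : (Finsupp.single m (g m) : List (Fin n) →₀ F) = g m • wd F m := by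
        unfold wd
        rw [Finsupp.smul_single, smul_eq_mul, mul_one]
      rw [this, map_smul, smul_eq_mul]
    refine ⟨Λ, ?_⟩
    unfold negN
    simp only [Bool.and_eq_true, Bool.not_eq_true', decide_eq_false_iff_not, List.all_eq_true,
      decide_eq_true_eq]
    constructor
    · rw [lamN_eq, hφ _ Finset.subset_union_left]
      exact h2
    · intro P hP Q hQ
      rw [lamN_eq, hφ]
      · apply h1
        rw [vn_shR]
        refine ⟨Finsupp.single (P, Q) 1, ?_⟩
        rw [syW_single, one_smul]
      · refine Finset.Subset.trans ?_ Finset.subset_union_right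
        intro m hm
        rw [Finset.mem_biUnion]
        refine ⟨P, List.mem_toFinset.mpr hP, ?_⟩
        rw [Finset.mem_biUnion]
        exact ⟨Q, List.mem_toFinset.mpr hQ, hm⟩
  · rintro ⟨Λ, hΛ⟩ hL
    unfold negN at hΛ
    simp only [Bool.and_eq_true, Bool.not_eq_true', decide_eq_false_iff_not, List.all_eq_true,
      decide_eq_true_eq] at hΛ
    obtain ⟨h1, h2⟩ := hΛ
    apply h1
    obtain ⟨s', e, hs'⟩ := hb _ hL (bdN L) (by
      intro W hW
      obtain ⟨x, hx, rfl⟩ := vn_mem L hW
      exact bdN_le L x hx)
    rw [lamN_eq, ← e]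
    unfold syW
    rw [Finsupp.linearCombination_apply, Finsupp.sum, map_sum]
    refine Finset.sum_eq_zero fun x hx => ?_
    have h4 := hs' x (Finsupp.mem_support_iff.mp hx)
    rw [map_smul, ← vn_shR, ← lamN_eq]
    rw [h2 x.1 ((mem_allN _ _).mpr (by omega)) x.2 ((mem_allN _ _).mpr (by omega)), smul_zero]

variable [Primcodable F]

theorem comp_lamN (hadd : Computable₂ (fun a b : F => a + b))
    (hmul : Computable₂ (fun a b : F => a * b)) : Computable₂ (lamN : RN F n → RN F n → F) := by
  refine comp_foldl (α := RN F n × RN F n) (f := fun x => x.2) (g := fun _ => (0 : F))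
    (h := fun a x => x.1 + x.2.1 * co (repN n) (encN x.2.2) (toR a.1)) Computable.snd
    (Computable.const 0) ?_
  have h3 : Computable fun y : (RN F n × RN F n) × (F × (F × List (Fin n))) =>
      co (repN n) (encN y.2.2.2) (toR y.1.1) :=
    (comp_co hadd primrec_repN.to_comp).comp
      (primrec_encN.to_comp.comp (Computable.snd.comp (Computable.snd.comp Computable.snd)))
      (primrec_toR.to_comp.comp (Computable.fst.comp Computable.fst))
  exact hadd.comp (Computable.fst.comp Computable.snd)
    (hmul.comp (Computable.fst.comp (Computable.snd.comp Computable.snd)) h3)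

omit [Field F] in
theorem comp_bdN : Computable (bdN : RN F n → ℕ) := by
  refine comp_foldl (α := RN F n) (f := fun x => x) (g := fun _ => (0 : ℕ))
    (h := fun _ x => x.1 + x.2.2.length + 1) Computable.id (Computable.const 0) ?_
  have h1 : Computable (fun y : RN F n × (ℕ × (F × List (Fin n))) => y.2.1) :=
    Computable.fst.comp Computable.snd
  have h2 : Computable (fun y : RN F n × (ℕ × (F × List (Fin n))) => y.2.2.2.length) :=
    Computable.list_length.comp (Computable.snd.comp (Computable.snd.comp Computable.snd))
  have h3 := Primrec.nat_add.to_comp.comp h1 h2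
  exact Computable.succ.comp h3

omit [Field F] in
theorem primrec_shR (R : RN F n) :
    Primrec fun x : List (Fin n) × List (Fin n) => shR R x.1 x.2 := by
  refine Primrec.list_map (Primrec.const R) ?_
  exact ((Primrec.fst.comp Primrec.snd).pair (Primrec.list_append.comp
    (Primrec.list_append.comp (Primrec.fst.comp Primrec.fst)
      (Primrec.snd.comp Primrec.snd))
    (Primrec.snd.comp Primrec.fst))).to₂

end dec

end

end Pool.Agent.Helper120_Alt
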