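import Pool.Agent.Helper120_Alt.Uni2

set_option autoImplicit false

/-! Deciding ideals with bounded representations: the decision procedure. -/

namespace Pool.Agent.Helper120_Alt

open R3

noncomputable section

section dec

variable {n : ℕ} {F : Type} [Field F] [Primcodable F]

theorem comp_negN (hadd : Computable₂ (fun a b : F => a + b))
    (hmul : Computable₂ (fun a b : F => a * b)) (k : ℕ) (R : RN F n) :
    Computable₂ (negN k R) := by
  classical
  have hall : Computable (fun z : RN F n × RN F n => allN n (k * bdN z.1)) := by
    have h2 : Computable (fun z : RN F n × RN F n => k * bdN z.1) :=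
      Primrec.nat_mul.to_comp.comp (Computable.const k) (comp_bdN.comp Computable.fst)
    exact primrec_allN.to_comp.comp h2
  have e1 : Computable (fun z : RN F n × RN F n => !(decide (lamN z.2 z.1 = 0))) := by
    have h1 : Computable (fun z : RN F n × RN F n => decide (lamN z.2 z.1 = 0)) :=
      comp_eq ((comp_lamN hadd hmul).comp Computable.snd Computable.fst) (Computable.const 0)
    exact Primrec.not.to_comp.comp h1
  have e2 : Computable (fun z : RN F n × RN F n =>
      ((allN n (k * bdN z.1)).all fun P => (allN n (k * bdN z.1)).all fun Q =>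
        decide (lamN z.2 (shR R P Q) = 0))) := by
    apply comp_all hall
    apply comp_all (hall.comp Computable.fst)
    have h4 : Computable (fun y : ((RN F n × RN F n) × List (Fin n)) × List (Fin n) =>
        (y.1.2, y.2)) := (Computable.snd.comp Computable.fst).pair Computable.snd
    have h3 : Computable (fun y : ((RN F n × RN F n) × List (Fin n)) × List (Fin n) =>
        shR R y.1.2 y.2) :=
      Computable.comp (f := fun x : List (Fin n) × List (Fin n) => shR R x.1 x.2)
        (g := fun y : ((RN F n × RN F n) × List (Fin n)) × List (Fin n) => (y.1.2, y.2))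
        (primrec_shR R).to_comp h4
    have h5 : Computable (fun y : ((RN F n × RN F n) × List (Fin n)) × List (Fin n) =>
        y.1.1.2) := Computable.snd.comp (Computable.fst.comp Computable.fst)
    have h2 : Computable (fun y : ((RN F n × RN F n) × List (Fin n)) × List (Fin n) =>
        lamN y.1.1.2 (shR R y.1.2 y.2)) :=
      Computable₂.comp (f := fun a b : RN F n => lamN a b) (comp_lamN hadd hmul) h5 h3
    exact comp_eq h2 (Computable.const 0)
  refine (Primrec.and.to_comp.comp e1 e2).of_eq fun z => ?_
  unfold negN
  congr!

/-- deciding an ideal with bounded representations -/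
theorem dec_of_bddk (hadd : Computable₂ (fun a b : F => a + b))
    (hmul : Computable₂ (fun a b : F => a * b)) {w : List (Fin n) →₀ F} {k : ℕ}
    (hb : Bddk k w) :
    ∃ d : RN F n → Bool, Computable d ∧ ∀ L, d L = true ↔ vn L ∈ IW w := by
  obtain ⟨R, rfl⟩ := exists_rn w
  let H : List (Fin n) × List (Fin n) → Raw F := fun x => toR (shR R x.1 x.2)
  have hH : Computable H := primrec_toR.to_comp.comp (primrec_shR R).to_comp
  have ht : Computable₂ (tst (repN n) H : Raw F → List (F × (List (Fin n) × List (Fin n))) →
      Bool) := comp_tst hadd hmul primrec_repN.to_comp hH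
  have hc : ∀ E : List (F × (List (Fin n) × List (Fin n))),
      cM F n (cval (parN n) H E) = syW (vn R) (E.map fun x => Finsupp.single x.2 x.1).sum := by
    intro E
    induction E with
    | nil =>
      show cM F n 0 = syW (vn R) 0
      rw [map_zero, map_zero]
    | cons x E ih =>
      obtain ⟨c, P, Q⟩ := x
      rw [cval_cons, map_add, ih, List.map_cons, List.sum_cons, map_add, map_smul, syW_single]
      congr 1
      show c • cM F n (Val (parN n) (toR (shR R P Q))) = _
      rw [cM_toR, vn_shR]
  have hE : ∀ s : (List (Fin n) × List (Fin n)) →₀ F, ∃ E : List (F × (List (Fin n) ×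
      List (Fin n))), (E.map fun x => Finsupp.single x.2 x.1).sum = s := by
    intro s
    induction s using Finsupp.induction_linear with
    | zero => exact ⟨[], rfl⟩
    | add a b ha hb =>
      obtain ⟨r, rfl⟩ := ha
      obtain ⟨r', rfl⟩ := hb
      exact ⟨r ++ r', by rw [List.map_append, List.sum_append]⟩
    | single W c => exact ⟨[(c, W)], by simp⟩
  exact dec_of_tests (P := fun L : RN F n => vn L ∈ IW (vn R))
    (t1 := fun L E => tst (repN n) H (toR L) E)
    (ht.comp (primrec_toR.to_comp.comp Computable.fst) Computable.snd)
    (comp_negN hadd hmul k R) (by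
      intro L
      have h0 : ∀ E, tst (repN n) H (toR L) E = true ↔
          vn L = syW (vn R) (E.map fun x => Finsupp.single x.2 x.1).sum := by
        intro E
        rw [tst_iff parN_iff, ← hc, ← cM_toR]
        exact (cM F n).injective.eq_iff.symm
      constructor
      · rintro ⟨s, hs⟩
        obtain ⟨E, rfl⟩ := hE s
        exact ⟨E, (h0 E).mpr hs.symm⟩
      · rintro ⟨E, h1⟩
        exact ⟨_, ((h0 E).mp h1).symm⟩)
    (negN_iff k R hb)

end dec

end

end Pool.Agent.Helper120_Alt
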