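import Pool.Agent.Helper120_Alt.PrsDefs
import Pool.Agent.Helper120_Alt.WtDefs

set_option autoImplicit false

/-! Definitions: one-relator associative algebras whose relator is a polynomial in an element with
a strongly free leading component. -/

namespace Pool.Agent.Helper120_Alt

noncomputable section

variable {F X : Type} [Field F]

/-- The component of weight `D` of a noncommutative polynomial with constant term, for the weights
`wt` of the letters, as a combination of lists of letters. -/
def wcompU (wt : X → ℕ) (D : ℕ) (v : UA F X) : List X →₀ F :=
  (Finsupp.mapDomain FreeMonoid.toList v.coeff).filter fun W => wgt wt W = D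

/-- For some positive weights of the letters and some `D > 0`, all words of `v` have weight at most
`D` and the component of weight `D` of `v` is strongly free: each of its syzygies (formal sums of
pairs of words of value zero) is a linear combination of trivial ones. -/
def StrU (v : UA F X) : Prop :=
  ∃ (wt : X → ℕ) (D : ℕ), (∀ x, 0 < wt x) ∧ 0 < D ∧
    (∀ W : List X, v.coeff (FreeMonoid.ofList W) ≠ 0 → wgt wt W ≤ D) ∧
    ∀ s : (List X × List X) →₀ F, sval (wcompU wt D v) s = 0 →
      s ∈ Submodule.span F {t | ∃ P V Q : List X, t = tsyz (wcompU wt D v) P V Q}

/-- The unital associative `F`-algebra `A` with generators `X` and the relation `f = 0` is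
isomorphic to an `F`-subalgebra of the algebra `B` over an extension field `K` of `F` with finitely
many generators and one relation `p(v) = 0`, where `p` is a polynomial in one variable and `v` has a
strongly free leading component: `θ` induces an injective homomorphism from `A` to `B`. -/
def PolSub (K : Type) [Field K] [Algebra F K] (f : UA F X) : Prop :=
  ∃ (n : ℕ) (v : UA K (Fin n)) (p : Polynomial K) (θ : UA F X →ₐ[F] UA K (Fin n)),
    StrU v ∧ ∀ g, θ g ∈ idl K {Polynomial.aeval v p} ↔ g ∈ idl F {f}

/-- The word problem for the unital associative algebra with `m` generators and the relation
`f = 0` is decidable: a computable function, given the list of the coefficients and of the words of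
a noncommutative polynomial, tells whether it belongs to the ideal generated by `f`. -/
def WPDec [Primcodable F] {m : ℕ} (f : UA F (Fin m)) : Prop :=
  ∃ d : List (F × List (Fin m)) → Bool, Computable d ∧ ∀ L : List (F × List (Fin m)),
    d L = true ↔
      (L.map fun p => MonoidAlgebra.single (FreeMonoid.ofList p.2) p.1).sum ∈ idl F {f}

end

end Pool.Agent.Helper120_Alt
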