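import Pool.Agent.Helper120_Alt.Uni3
import Pool.Agent.Helper120_Alt.UniDefs

set_option autoImplicit false

/-! One-relator associative algebras whose relator is a polynomial in an element with a strongly
free leading component. -/

namespace Pool.Agent.Helper120_Alt

noncomputable section

variable {F X Y : Type} [Field F]

theorem cU_mapDomain (v : UA F X) : Finsupp.mapDomain FreeMonoid.toList v.coeff = cU F X v := by
  ext T
  rw [cU_apply]
  exact Finsupp.mapDomain_apply FreeMonoid.toList.injective v.coeff (FreeMonoid.ofList T)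

theorem idl_map {f : UA F X} {q : UA F Y} (θ : UA F X →ₐ[F] UA F Y) (h : θ f ∈ idl F {q}) :
    ∀ x ∈ idl F {f}, θ x ∈ idl F {q} := by
  intro x hx
  have : idl F {f} ≤ (idl F {q}).comap θ.toLinearMap := by
    apply idl_le
    · rintro y rfl; exact h
    · rintro c y hy
      have hy' : θ y ∈ idl F {q} := hy
      constructor
      · show θ (c * y) ∈ idl F {q}
        rw [map_mul]; exact (idl_mul _ _ hy').1
      · show θ (y * c) ∈ idl F {q}
        rw [map_mul]; exact (idl_mul _ _ hy').2
  exact this hx

theorem idl_retract {f : UA F X} {q : UA F Y} (θ : UA F X →ₐ[F] UA F Y)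
    (θ' : UA F Y →ₐ[F] UA F X) (h1 : θ f ∈ idl F {q}) (h2 : θ' q ∈ idl F {f})
    (h3 : ∀ x, θ' (θ x) - x ∈ idl F {f}) (g : UA F X) : θ g ∈ idl F {q} ↔ g ∈ idl F {f} := by
  constructor
  · intro h
    have h4 := idl_map θ' h2 _ h
    have h5 := sub_mem h4 (h3 g)
    rwa [sub_sub_cancel] at h5
  · exact idl_map θ h1 g

theorem cU_pow (v : UA F X) (j : ℕ) : cU F X (v ^ j) = vp (cU F X v) j := by
  induction j with
  | zero => rw [pow_zero, cU_one]; rfl
  | succ j ih => rw [pow_succ, cU_mul, ih]; rfl

theorem cU_aeval (v : UA F X) (p : Polynomial F) :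
    cU F X (Polynomial.aeval v p) = Wt.pz (cU F X v) p.coeff p.natDegree := by
  rw [Polynomial.aeval_eq_sum_range, map_sum]
  unfold Wt.pz
  refine Finset.sum_congr rfl fun j _ => ?_
  rw [map_smul, cU_pow]

/-- the images of the letters -/
def tK {K : Type} [Field K] [Algebra F K] (θ : UA F X →ₐ[F] UA K Y) (x : X) : List Y →₀ K :=
  cU K Y (θ (MonoidAlgebra.single (FreeMonoid.of x) 1))

theorem hw_tK {K : Type} [Field K] [Algebra F K] (θ : UA F X →ₐ[F] UA K Y) (W : List X) :
    hw (tK θ) W = cU K Y (θ (MonoidAlgebra.single (FreeMonoid.ofList W) 1)) := by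
  induction W with
  | nil =>
    have : (MonoidAlgebra.single (FreeMonoid.ofList ([] : List X)) 1 : UA F X) = 1 := rfl
    rw [this, map_one, cU_one]
    rfl
  | cons x W ih =>
    have : (MonoidAlgebra.single (FreeMonoid.ofList (x :: W)) 1 : UA F X) =
        MonoidAlgebra.single (FreeMonoid.of x) 1 *
          MonoidAlgebra.single (FreeMonoid.ofList W) 1 := by
      rw [MonoidAlgebra.single_mul_single, one_mul]
      rfl
    rw [this, map_mul, cU_mul, ← ih]
    rfl

theorem hm_tK {K : Type} [Field K] [Algebra F K] {m n : ℕ}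
    (θ : UA F (Fin m) →ₐ[F] UA K (Fin n)) (L : RN F m) :
    hm (tK θ) (vn (L.map fun p => (algebraMap F K p.1, p.2))) = cU K (Fin n)
      (θ (L.map fun p => MonoidAlgebra.single (FreeMonoid.ofList p.2) p.1).sum) := by
  induction L with
  | nil =>
    show hm (tK θ) 0 = cU K (Fin n) (θ 0)
    rw [map_zero, map_zero, map_zero]
  | cons x L ih =>
    rw [List.map_cons, List.map_cons, List.sum_cons, map_add, map_add, ← ih, vn_cons, map_add]
    congr 1
    have e1 : (Finsupp.single x.2 (algebraMap F K x.1) : List (Fin m) →₀ K) =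
        algebraMap F K x.1 • wd K x.2 := by
      unfold wd; rw [Finsupp.smul_single, smul_eq_mul, mul_one]
    have e2 : (MonoidAlgebra.single (FreeMonoid.ofList x.2) x.1 : UA F (Fin m)) =
        x.1 • MonoidAlgebra.single (FreeMonoid.ofList x.2) 1 := by
      rw [MonoidAlgebra.smul_single, smul_eq_mul, mul_one]
    have e3 : ∀ g : UA K (Fin n), x.1 • g = algebraMap F K x.1 • g := by
      intro g
      rw [algebraMap_smul]
    show hm (tK θ) (Finsupp.single x.2 (algebraMap F K x.1)) = _
    rw [e1, e2, map_smul, map_smul, hm_wd, hw_tK, e3, map_smul]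

/-- subalgebras of one-relator associative algebras whose relator is a polynomial in an element
with strongly free leading component -/
theorem wpDec_of_polSub {K : Type} [Field K] [Algebra F K] [Primcodable F] [Primcodable K]
    (hι : Computable (algebraMap F K)) (hadd : Computable₂ fun a b : K => a + b)
    (hmul : Computable₂ fun a b : K => a * b) {m : ℕ} {f : UA F (Fin m)} (h : PolSub K f) :
    WPDec f := by
  obtain ⟨n, v, p, θ, ⟨wt, D, hw, hD, hv, hs⟩, h1⟩ := h
  have hO : OT (Wt.tp wt D (cU K (Fin n) v)) := by
    have e : wcompU wt D v = Wt.tp wt D (cU K (Fin n) v) := by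
      unfold wcompU
      rw [cU_mapDomain]
      rfl
    rw [← e]
    exact fun s hs' => hs s hs'
  have hv' : ∀ W, cU K (Fin n) v W ≠ 0 → Wt.wl wt W ≤ D := by
    intro W hW
    rw [cU_apply] at hW
    exact hv W hW
  obtain ⟨k, hk⟩ := bddk_pz hw hv' hO hD p.coeff p.natDegree
  rw [← cU_aeval] at hk
  obtain ⟨d, hd, hdL⟩ := dec_of_bddk hadd hmul hk
  choose R hR using fun x => exists_rn (tK θ x)
  have hc : Computable fun L : RN F m => (L.map fun p => (algebraMap F K p.1, p.2) : RN K m) := by
    have e1 : Computable₂ (fun (_ : RN F m) (x : RN K m × (F × List (Fin m))) =>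
        x.1 ++ [(algebraMap F K x.2.1, x.2.2)]) := by
      have e2 : Computable (fun y : RN F m × (RN K m × (F × List (Fin m))) =>
          (algebraMap F K y.2.2.1, y.2.2.2)) :=
        (hι.comp (Computable.fst.comp (Computable.snd.comp Computable.snd))).pair
          (Computable.snd.comp (Computable.snd.comp Computable.snd))
      exact Computable.list_append.comp (Computable.fst.comp Computable.snd)
        (Computable.list_cons.comp e2 (Computable.const []))
    refine (R3.comp_foldl (f := fun a : RN F m => a) (g := fun _ => ([] : RN K m))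
      Computable.id (Computable.const _) e1).of_eq fun L => ?_
    have : ∀ (L : RN F m) (s : RN K m), L.foldl (fun s x => s ++ [(algebraMap F K x.1, x.2)]) s =
        s ++ L.map fun p => (algebraMap F K p.1, p.2) := by
      intro L
      induction L with
      | nil => intro s; simp
      | cons x L ih => intro s; rw [List.foldl_cons, ih]; simp
    show L.foldl (fun s x => s ++ [(algebraMap F K x.1, x.2)]) [] = _
    rw [this, List.nil_append]
  refine ⟨fun L => d (nL R (L.map fun p => (algebraMap F K p.1, p.2))),
    hd.comp ((comp_nL hmul R).comp hc), fun L => ?_⟩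
  show d (nL R (L.map fun p => (algebraMap F K p.1, p.2))) = true ↔ _
  rw [hdL, vn_nL hR, hm_tK, ← h1, mem_idlU]
  rfl

end

end Pool.Agent.Helper120_Alt
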