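import Pool.Agent.Helper120_Alt.Top3

set_option autoImplicit false

/-! Top components with respect to weights of the letters. -/

namespace Pool.Agent.Helper120_Alt.Wt

open Pool.Agent.Helper120_Alt hiding tp Hom tp_hom low_ne syW_len tp_syW tsW_len lift_TrW OT_red
  OT_of_top bdd_of_top shW_hom tsW_hom syW_filter

noncomputable section

variable {K X : Type} [Field K]

/-- the weight of a word -/
def wl (wt : X → ℕ) (W : List X) : ℕ := (W.map wt).sum

theorem wl_append (wt : X → ℕ) (A B : List X) : wl wt (A ++ B) = wl wt A + wl wt B := by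
  unfold wl
  rw [List.map_append, List.sum_append]

theorem wl_nil (wt : X → ℕ) : wl wt [] = 0 := rfl

theorem wl_cons (wt : X → ℕ) (a : X) (B : List X) : wl wt (a :: B) = wt a + wl wt B := rfl

theorem len_le_wl {wt : X → ℕ} (hw : ∀ x, 0 < wt x) (W : List X) : W.length ≤ wl wt W := by
  induction W with
  | nil => exact le_rfl
  | cons a W ih =>
    rw [wl_cons, List.length_cons]
    have := hw a
    omega

theorem wl_le {wt : X → ℕ} {M : ℕ} (hM : ∀ x, wt x ≤ M) (W : List X) :
    wl wt W ≤ M * W.length := by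
  induction W with
  | nil => exact le_rfl
  | cons a W ih =>
    rw [wl_cons, List.length_cons]
    have := hM a
    nlinarith

/-- homogeneous polynomials -/
def Hom (wt : X → ℕ) (n : ℕ) (h : List X →₀ K) : Prop := ∀ W, h W ≠ 0 → wl wt W = n

variable {wt : X → ℕ}

theorem shW_hom {m : ℕ} {f : List X →₀ K} (hf : Hom wt m f) (P Q W : List X)
    (h : shW K P Q f W ≠ 0) : (wl wt W) = (wl wt P) + (wl wt Q) + m := by
  obtain ⟨W', rfl, h'⟩ := shW_ne P Q W f h
  rw [← hf W' h']
  simp only [wl_append]
  ring

theorem tsW_hom {m : ℕ} {f : List X →₀ K} (hf : Hom wt m f) (P V Q : List X)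
    (z : List X × List X) (h : tsW f P V Q z ≠ 0) :
    (wl wt z.1) + (wl wt z.2) = (wl wt P) + (wl wt V) + (wl wt Q) + m := by
  classical
  unfold tsW at h
  rw [Finsupp.sum, Finsupp.finsetSum_apply] at h
  obtain ⟨W, hW, h1⟩ := Finset.exists_ne_zero_of_sum_ne_zero h
  have h2 := hf W (Finsupp.mem_support_iff.mp hW)
  by_contra hne
  apply h1
  rw [Finsupp.smul_apply, Finsupp.sub_apply, Finsupp.single_apply, Finsupp.single_apply,
    if_neg, if_neg]
  · simp
  · rintro rfl
    apply hne
    simp only [wl_append]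
    omega
  · rintro rfl
    apply hne
    simp only [wl_append]
    omega

theorem syW_filter {m : ℕ} {f : List X →₀ K} (hf : Hom wt m f) (q : ℕ → Prop) [DecidablePred q]
    (t : (List X × List X) →₀ K) :
    (syW f t).filter (fun W => q (wl wt W)) =
      syW f (t.filter fun y => q ((wl wt y.1) + (wl wt y.2) + m)) := by
  induction t using Finsupp.induction_linear with
  | zero => rw [map_zero, Finsupp.filter_zero, Finsupp.filter_zero, map_zero]
  | add s t hs ht => rw [map_add, Finsupp.filter_add, hs, ht, Finsupp.filter_add, map_add]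
  | single y a =>
    obtain ⟨A, B⟩ := y
    by_cases h : q ((wl wt A) + (wl wt B) + m)
    · rw [Finsupp.filter_single_of_pos (fun y : List X × List X =>
        q ((wl wt y.1) + (wl wt y.2) + m)) h, Finsupp.filter_eq_self_iff]
      intro W hW
      rw [syW_single] at hW
      have h1 : shW K A B f W ≠ 0 := by
        intro h0; apply hW; rw [Finsupp.smul_apply, h0, smul_zero]
      rw [shW_hom hf _ _ _ h1]
      exact h
    · rw [Finsupp.filter_single_of_neg (fun y : List X × List X =>
        q ((wl wt y.1) + (wl wt y.2) + m)) h, map_zero, Finsupp.filter_eq_zero_iff]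
      intro W hW
      by_contra hne
      rw [syW_single] at hne
      have h1 : shW K A B f W ≠ 0 := by
        intro h0; apply hne; rw [Finsupp.smul_apply, h0, smul_zero]
      rw [shW_hom hf _ _ _ h1] at hW
      exact h hW

/-- the component of degree `D` -/
def tp (wt : X → ℕ) (D : ℕ) (w : List X →₀ K) : List X →₀ K := w.filter fun W => (wl wt W) = D

theorem tp_hom (wt : X → ℕ) (D : ℕ) (w : List X →₀ K) : Hom wt D (tp wt D w) := by
  intro W hW
  by_contra h
  exact hW (Finsupp.filter_apply_neg (fun W : List X => (wl wt W) = D) w h)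

theorem low_ne {D : ℕ} {w : List X →₀ K} (hw : ∀ W, w W ≠ 0 → (wl wt W) ≤ D) {W : List X}
    (h : (w - tp wt D w) W ≠ 0) : (wl wt W) < D := by
  by_contra h1
  apply h
  rw [Finsupp.sub_apply]
  unfold tp
  by_cases h2 : (wl wt W) = D
  · rw [Finsupp.filter_apply_pos (fun W : List X => (wl wt W) = D) w h2, sub_self]
  · rw [Finsupp.filter_apply_neg (fun W : List X => (wl wt W) = D) w h2, sub_zero]
    by_contra h3
    exact h1 (lt_of_le_of_ne (hw W h3) h2)

theorem syW_len {m : ℕ} {w : List X →₀ K} (hw : ∀ W, w W ≠ 0 → (wl wt W) < m)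
    {s : (List X × List X) →₀ K} {n : ℕ} (hs : ∀ y, s y ≠ 0 → (wl wt y.1) + (wl wt y.2) ≤ n)
    {W : List X} (h : syW w s W ≠ 0) : (wl wt W) < n + m := by
  unfold syW at h
  rw [Finsupp.linearCombination_apply, Finsupp.sum, Finsupp.finsetSum_apply] at h
  obtain ⟨y, hy, h1⟩ := Finset.exists_ne_zero_of_sum_ne_zero h
  have h2 : shW K y.1 y.2 w W ≠ 0 := by
    intro h3; apply h1; rw [Finsupp.smul_apply, h3, smul_zero]
  obtain ⟨W', rfl, h4⟩ := shW_ne _ _ _ _ h2
  have h5 := hw W' h4
  have h6 := hs y (Finsupp.mem_support_iff.mp hy)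
  simp only [wl_append]
  omega

/-- the component of a value -/
theorem tp_syW {D : ℕ} {w : List X →₀ K} (hw : ∀ W, w W ≠ 0 → (wl wt W) ≤ D)
    {s : (List X × List X) →₀ K} {n : ℕ} (hs : ∀ y, s y ≠ 0 → (wl wt y.1) + (wl wt y.2) ≤ n) :
    (syW w s).filter (fun W => (wl wt W) = n + D) =
      syW (tp wt D w) (s.filter fun y => (wl wt y.1) + (wl wt y.2) + D = n + D) := by
  classical
  rw [← syW_filter (tp_hom wt D w) (fun k => k = n + D)]
  have h1 : w = tp wt D w + (w - tp wt D w) := by abel
  conv_lhs => rw [h1]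
  rw [syW_add_left, Finsupp.filter_add]
  have h2 : Finsupp.filter (fun W : List X => (wl wt W) = n + D) (syW (w - tp wt D w) s) = 0 := by
    rw [Finsupp.filter_eq_zero_iff]
    intro W hW
    by_contra h3
    have := syW_len (m := D) (fun W hW => low_ne hw hW) hs h3
    omega
  rw [h2, add_zero]

theorem tsW_len {m : ℕ} {w : List X →₀ K} (hw : ∀ W, w W ≠ 0 → (wl wt W) < m) (P V Q : List X)
    (z : List X × List X) (h : tsW w P V Q z ≠ 0) :
    (wl wt z.1) + (wl wt z.2) < (wl wt P) + (wl wt V) + (wl wt Q) + m := by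
  classical
  unfold tsW at h
  rw [Finsupp.sum, Finsupp.finsetSum_apply] at h
  obtain ⟨W, hW, h1⟩ := Finset.exists_ne_zero_of_sum_ne_zero h
  have h2 := hw W (Finsupp.mem_support_iff.mp hW)
  by_contra hne
  apply h1
  rw [Finsupp.smul_apply, Finsupp.sub_apply, Finsupp.single_apply, Finsupp.single_apply,
    if_neg, if_neg]
  · simp
  · rintro rfl
    apply hne
    simp only [wl_append]
    omega
  · rintro rfl
    apply hne
    simp only [wl_append]
    omega

/-- lifting trivial syzygies -/
theorem lift_TrW {D : ℕ} {w : List X →₀ K} (hw : ∀ W, w W ≠ 0 → (wl wt W) ≤ D) (n : ℕ)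
    {y : (List X × List X) →₀ K} (hy : y ∈ TrW (tp wt D w)) :
    ∃ y' ∈ TrW w, ∀ z : List X × List X,
      (y' - y.filter fun z => (wl wt z.1) + (wl wt z.2) = n) z ≠ 0 →
        (wl wt z.1) + (wl wt z.2) < n := by
  classical
  induction hy using Submodule.span_induction with
  | mem x hx =>
    obtain ⟨P, V, Q, rfl⟩ := hx
    by_cases h : (wl wt P) + (wl wt V) + (wl wt Q) + D = n
    · refine ⟨tsW w P V Q, Submodule.subset_span ⟨_, _, _, rfl⟩, ?_⟩
      intro z hz
      have h1 : (tsW (tp wt D w) P V Q).filter (fun z => (wl wt z.1) + (wl wt z.2) = n) =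
          tsW (tp wt D w) P V Q := by
        rw [Finsupp.filter_eq_self_iff]
        intro z hz
        rw [tsW_hom (tp_hom wt D w) _ _ _ _ hz, h]
      rw [h1] at hz
      have h2 : w = (w - tp wt D w) + tp wt D w := by abel
      have h3 : tsW w P V Q - tsW (tp wt D w) P V Q = tsW (w - tp wt D w) P V Q := by
        conv_lhs => rw [h2]
        rw [tsW_add_left]
        have : tp wt D (w - tp wt D w + tp wt D w) = tp wt D w := by rw [← h2]
        rw [this]; abel
      rw [h3] at hz
      rw [← h]
      exact tsW_len (fun W hW => low_ne hw hW) _ _ _ _ hz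
    · refine ⟨0, zero_mem _, ?_⟩
      intro z hz
      exfalso
      apply hz
      have h1 : (tsW (tp wt D w) P V Q).filter (fun z => (wl wt z.1) + (wl wt z.2) = n) = 0 := by
        rw [Finsupp.filter_eq_zero_iff]
        intro z hz
        by_contra hne
        rw [tsW_hom (tp_hom wt D w) _ _ _ _ hne] at hz
        exact h hz
      rw [h1, sub_zero]; rfl
  | zero =>
    refine ⟨0, zero_mem _, ?_⟩
    intro z hz
    rw [Finsupp.filter_zero, sub_zero] at hz
    exact absurd rfl hz
  | add x y _ _ hx hy =>
    obtain ⟨x', hx', h1⟩ := hx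
    obtain ⟨y', hy', h2⟩ := hy
    refine ⟨x' + y', add_mem hx' hy', ?_⟩
    intro z hz
    rw [Finsupp.filter_add, add_sub_add_comm, Finsupp.add_apply] at hz
    by_cases h3 : (x' - x.filter fun z => (wl wt z.1) + (wl wt z.2) = n) z = 0
    · rw [h3, zero_add] at hz
      exact h2 z hz
    · exact h1 z h3
  | smul a x _ hx =>
    obtain ⟨x', hx', h1⟩ := hx
    refine ⟨a • x', Submodule.smul_mem _ _ hx', ?_⟩
    intro z hz
    apply h1 z
    intro h2
    apply hz
    rw [Finsupp.filter_smul, ← smul_sub, Finsupp.smul_apply, h2, smul_zero]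

/-- reduction of the degree of a representation -/
theorem OT_red {D : ℕ} {w : List X →₀ K} (hw : ∀ W, w W ≠ 0 → (wl wt W) ≤ D)
    (hO : OT (tp wt D w)) (n : ℕ) : ∀ s : (List X × List X) →₀ K,
    (∀ y, s y ≠ 0 → (wl wt y.1) + (wl wt y.2) < n) → ∀ N, (∀ W, syW w s W ≠ 0 → (wl wt W) < N + D) →
    ∃ s', s - s' ∈ TrW w ∧ ∀ y, s' y ≠ 0 → (wl wt y.1) + (wl wt y.2) < N := by
  classical
  induction n with
  | zero =>
    intro s hs N _
    refine ⟨s, by rw [sub_self]; exact zero_mem _, ?_⟩
    intro y hy
    exact absurd (hs y hy) (by omega)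
  | succ n ih =>
    intro s hs N hN
    by_cases hnN : n < N
    · refine ⟨s, by rw [sub_self]; exact zero_mem _, ?_⟩
      intro y hy
      have := hs y hy
      omega
    · have h1 := tp_syW hw (s := s) (n := n) (fun y hy => by have := hs y hy; omega)
      have h2 : (syW w s).filter (fun W => (wl wt W) = n + D) = 0 := by
        rw [Finsupp.filter_eq_zero_iff]
        intro W hW
        by_contra h3
        have := hN W h3
        omega
      rw [h2] at h1
      have h3 := hO _ h1.symm
      obtain ⟨y', hy', hz⟩ := lift_TrW hw n h3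
      have h4 : (s.filter fun y => (wl wt y.1) + (wl wt y.2) + D = n + D).filter
          (fun z => (wl wt z.1) + (wl wt z.2) = n) =
          s.filter fun y => (wl wt y.1) + (wl wt y.2) = n := by
        ext y
        simp only [Finsupp.filter_apply]
        by_cases h : (wl wt y.1) + (wl wt y.2) = n
        · simp [h]
        · simp [h]
      rw [h4] at hz
      obtain ⟨s', hs', hb⟩ := ih (s - y') (by
        intro y hy
        by_contra h5
        have h6 : (y' - s.filter fun y => (wl wt y.1) + (wl wt y.2) = n) y = 0 := by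
          by_contra h7
          exact h5 (hz y h7)
        rw [Finsupp.sub_apply, sub_eq_zero] at h6
        apply hy
        rw [Finsupp.sub_apply, h6]
        by_cases h7 : (wl wt y.1) + (wl wt y.2) = n
        · rw [Finsupp.filter_apply_pos (fun y : List X × List X => (wl wt y.1) + (wl wt y.2) = n)
            s h7, sub_self]
        · rw [Finsupp.filter_apply_neg (fun y : List X × List X => (wl wt y.1) + (wl wt y.2) = n)
            s h7, sub_zero]
          by_contra h8
          have := hs y h8
          omega) N (by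
        intro W hW
        apply hN W
        rw [map_sub] at hW
        have h8 : syW w y' = 0 := by
          have : TrW w ≤ LinearMap.ker (syW w) := by
            unfold TrW
            rw [Submodule.span_le]
            rintro _ ⟨P, V, Q, rfl⟩
            exact syW_tsW w P V Q
          exact this hy'
        rwa [h8, sub_zero] at hW)
      refine ⟨s', ?_, hb⟩
      have : s - s' = (s - y' - s') + y' := by abel
      rw [this]
      exact add_mem hs' hy'

/-- only trivial syzygies for the whole polynomial -/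
theorem OT_of_top {D : ℕ} {w : List X →₀ K} (hw : ∀ W, w W ≠ 0 → (wl wt W) ≤ D)
    (hO : OT (tp wt D w)) : OT w := by
  intro s hs
  obtain ⟨s', h1, h2⟩ := OT_red hw hO (s.support.sup (fun x => (wl wt x.1) + (wl wt x.2) + 1)) s
    (fun x hx => Nat.lt_of_succ_le (Finset.le_sup
      (f := fun x : List X × List X => (wl wt x.1) + (wl wt x.2) + 1)
      (Finsupp.mem_support_iff.mpr hx))) 0 (by
      intro W hW
      rw [hs] at hW
      exact absurd rfl hW)
  have : s' = 0 := by
    ext y
    by_contra h
    exact absurd (h2 y h) (by omega)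
  rwa [this, sub_zero] at h1

/-- bounded representations -/
theorem bdd_of_top {D : ℕ} {w : List X →₀ K} (hw : ∀ W, w W ≠ 0 → (wl wt W) ≤ D)
    (hO : OT (tp wt D w)) {g : List X →₀ K} (hg : g ∈ IW w) {N : ℕ}
    (hN : ∀ W, g W ≠ 0 → (wl wt W) < N + D) :
    ∃ s, syW w s = g ∧ ∀ y, s y ≠ 0 → (wl wt y.1) + (wl wt y.2) < N := by
  obtain ⟨s, rfl⟩ := hg
  obtain ⟨s', h1, h2⟩ := OT_red hw hO (s.support.sup (fun x => (wl wt x.1) + (wl wt x.2) + 1)) s
    (fun x hx => Nat.lt_of_succ_le (Finset.le_sup
      (f := fun x : List X × List X => (wl wt x.1) + (wl wt x.2) + 1)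
      (Finsupp.mem_support_iff.mpr hx))) N hN
  refine ⟨s', ?_, h2⟩
  have : TrW w ≤ LinearMap.ker (syW w) := by
    unfold TrW
    rw [Submodule.span_le]
    rintro _ ⟨P, V, Q, rfl⟩
    exact syW_tsW w P V Q
  have h3 : syW w (s - s') = 0 := this h1
  rw [map_sub, sub_eq_zero] at h3
  exact h3.symm


end

end Pool.Agent.Helper120_Alt.Wt
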