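import Pool.Agent.Helper120_Alt.Wt1
import Pool.Agent.Helper120_Alt.Pow4

set_option autoImplicit false

/-! Expansions with respect to weights of the letters. -/

namespace Pool.Agent.Helper120_Alt.Wt

noncomputable section

variable {K X : Type} [Field K] {wt : X → ℕ}

section order

variable [Encodable X]

/-- an order of the words -/
def ltW (wt : X → ℕ) (W W' : List X) : Prop :=
  toLex ((wl wt W), Encodable.encode W) < toLex ((wl wt W'), Encodable.encode W')

theorem ltW_wf (wt : X → ℕ) : WellFounded (ltW wt) :=
  InvImage.wf (fun W : List X => toLex ((wl wt W), Encodable.encode W)) wellFounded_lt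

theorem ltW_len {W W' : List X} (h : ltW wt W W') : (wl wt W) ≤ (wl wt W') := by
  unfold ltW at h
  rw [Prod.Lex.toLex_lt_toLex] at h
  rcases h with h | h
  · exact h.le
  · exact h.1.le

/-- the smaller words modulo the ideal -/
def lwB (wt : X → ℕ) (v : List X →₀ K) (W : List X) : Submodule K (List X →₀ K) :=
  IW v ⊔ Submodule.span K {x | ∃ W', ltW wt W' W ∧ x = wd K W'}

/-- the basic words -/
def isB (wt : X → ℕ) (v : List X →₀ K) (W : List X) : Prop := wd K W ∉ lwB wt v W

theorem isB_indep {v g : List X →₀ K} (hg : ∀ W, g W ≠ 0 → isB wt v W) (hI : g ∈ IW v) : g = 0 := by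
  classical
  by_contra hne
  have hs : g.support.Nonempty := Finsupp.support_nonempty_iff.mpr hne
  obtain ⟨W, hW, hmax⟩ := Finset.exists_max_image g.support
    (fun W : List X => toLex ((wl wt W), Encodable.encode W)) hs
  have hW' := Finsupp.mem_support_iff.mp hW
  apply hg W hW'
  have e : wd K W = (g W)⁻¹ • g - (g W)⁻¹ • ∑ W' ∈ g.support.erase W, g W' • wd K W' := by
    rw [← smul_sub]
    have h1 : g = ∑ W' ∈ g.support, g W' • wd K W' := by
      conv_lhs => rw [← Finsupp.sum_single g]
      rw [Finsupp.sum]
      refine Finset.sum_congr rfl fun W' _ => ?_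
      unfold wd
      rw [Finsupp.smul_single, smul_eq_mul, mul_one]
    have h2 : g - ∑ W' ∈ g.support.erase W, g W' • wd K W' = g W • wd K W := by
      rw [sub_eq_iff_eq_add]
      conv_lhs => rw [h1]
      rw [← Finset.add_sum_erase _ _ hW]
    rw [h2, smul_smul, inv_mul_cancel₀ hW', one_smul]
  rw [e]
  unfold lwB
  refine Submodule.sub_mem _ (Submodule.mem_sup_left (Submodule.smul_mem _ _ hI))
    (Submodule.mem_sup_right (Submodule.smul_mem _ _ (Submodule.sum_mem _ fun W' hW'' => ?_)))
  refine Submodule.smul_mem _ _ (Submodule.subset_span ⟨W', ?_, rfl⟩)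
  rw [Finset.mem_erase] at hW''
  have h3 := hmax W' hW''.2
  unfold ltW
  refine lt_of_le_of_ne h3 fun h4 => hW''.1 ?_
  have h5 := toLex.injective h4
  rw [Prod.mk.injEq] at h5
  exact Encodable.encode_injective h5.2

theorem isB_span (wt : X → ℕ) (v : List X →₀ K) (W : List X) : wd K W ∈
    Finsupp.supported K K {W' | isB wt v W' ∧ (wl wt W') ≤ (wl wt W)} ⊔ IW v := by
  refine (ltW_wf wt).induction (C := fun W => wd K W ∈
    Finsupp.supported K K {W' | isB wt v W' ∧ (wl wt W') ≤ (wl wt W)} ⊔ IW v) W ?_
  intro W ih
  by_cases h : isB wt v W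
  · refine Submodule.mem_sup_left ?_
    exact Finsupp.single_mem_supported K 1 ⟨h, le_rfl⟩
  · unfold isB at h
    rw [not_not] at h
    unfold lwB at h
    obtain ⟨x, hx, y, hy, e⟩ := Submodule.mem_sup.mp h
    rw [← e]
    refine add_mem (Submodule.mem_sup_right hx) ?_
    refine (Submodule.span_le.mpr ?_) hy
    rintro _ ⟨W', hW', rfl⟩
    have h3 : (Finsupp.supported K K {W'' : List X | isB wt v W'' ∧ (wl wt W'') ≤ (wl wt W')}) ≤
        Finsupp.supported K K {W'' : List X | isB wt v W'' ∧ (wl wt W'') ≤ (wl wt W)} := by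
      apply Finsupp.supported_mono
      rintro W'' ⟨h1, h2⟩
      exact ⟨h1, h2.trans (ltW_len hW')⟩
    exact (sup_le_sup_right h3 (IW v)) (ih W' hW')

theorem isB_nil (hw : ∀ x, 0 < wt x) {v : List X →₀ K} (h0 : v [] = 0) : isB wt v [] := by
  intro h
  unfold lwB at h
  obtain ⟨x, hx, y, hy, e⟩ := Submodule.mem_sup.mp h
  have hy0 : y = 0 := by
    have : Submodule.span K {x | ∃ W', ltW wt W' ([] : List X) ∧ x = wd K W'} ≤ ⊥ := by
      rw [Submodule.span_le]
      rintro _ ⟨W', hW', rfl⟩
      exfalso
      have h1 := ltW_len hW'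
      have h2 : W' = [] := by
        have h3 := len_le_wl hw W'
        rw [wl_nil] at h1
        exact List.length_eq_zero_iff.mp (by omega)
      rw [h2] at hW'
      exact lt_irrefl _ hW'
    exact this hy
  rw [hy0, add_zero] at e
  rw [e] at hx
  have h3 := IW_nil h0 hx
  unfold wd at h3
  rw [Finsupp.single_eq_same] at h3
  exact one_ne_zero h3

variable [DecidableEq X] [Fintype X]

/-- uniqueness of the left factors -/
theorem star {v : List X →₀ K} (h0 : v [] = 0) (hO : OT v) (n : ℕ) :
    ∀ t : (List X × List X) →₀ K, (∀ y, t y ≠ 0 → y.1.length < n) → (∀ y, t y ≠ 0 → isB wt v y.2) →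
      syW v t = 0 → t = 0 := by
  induction n with
  | zero =>
    intro t ht _ _
    ext y
    by_contra h
    exact absurd (ht y h) (by omega)
  | succ n ih =>
    intro t ht hB h
    have hc : c0 K t = 0 := by
      apply isB_indep (v := v)
      · intro W hW
        rw [c0_apply] at hW
        exact hB ([], W) hW
      · exact c0_TrW h0 (hO t h)
    have h6 := syW_split v t
    rw [h, hc, mulL_zero, zero_add] at h6
    have h5 : ∀ x, syW v (dl K x t) = 0 := by
      intro x
      have h7 := ctr_sum v (Pi.single x 1) t
      rw [← h6, map_zero, Finset.sum_eq_single x] at h7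
      · rw [Pi.single_eq_same, one_smul] at h7
        exact h7.symm
      · intro y _ hy
        rw [Pi.single_eq_of_ne hy, zero_smul]
      · intro h; exact absurd (Finset.mem_univ _) h
    have h8 : ∀ x, dl K x t = 0 := by
      intro x
      apply ih _ _ _ (h5 x)
      · rintro ⟨P, Q⟩ hy
        rw [dl_apply] at hy
        have h10 : (x :: P).length < n + 1 := ht (x :: P, Q) hy
        rw [List.length_cons] at h10
        show P.length < n
        omega
      · rintro ⟨P, Q⟩ hy
        rw [dl_apply] at hy
        exact hB (x :: P, Q) hy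
    have h9 := split_s t
    rw [hc, map_zero, zero_add] at h9
    rw [h9]
    exact Finset.sum_eq_zero fun x _ => by rw [h8 x, map_zero]

end order

/-- the degree of an expansion, increased by `D` -/
def de (wt : X → ℕ) (D : ℕ) : List (List X) → ℕ
  | [] => 0
  | b :: ω => (wl wt b) + D + de wt D ω

theorem de_append (wt : X → ℕ) (D : ℕ) (ω' ω : List (List X)) : de wt D (ω' ++ ω) = de wt D ω' + de wt D ω := by
  induction ω' with
  | nil => simp [de]
  | cons b ω' ih =>
    show (wl wt b) + D + de wt D (ω' ++ ω) = (wl wt b) + D + de wt D ω' + de wt D ω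
    rw [ih]; ring

/-- existence of expansions -/
theorem exp_surj [Encodable X] {v : List X →₀ K} {D : ℕ} (hv : ∀ W, v W ≠ 0 → (wl wt W) ≤ D)
    (hO : OT (tp wt D v)) (hD : 0 < D) (n : ℕ) : ∀ W : List X, (wl wt W) ≤ n → wd K W ∈
      Submodule.span K {x | ∃ ω : List (List X), ω ≠ [] ∧ (∀ b ∈ ω, isB wt v b) ∧
        de wt D ω ≤ (wl wt W) + D ∧ x = Em v ω} := by
  classical
  induction n using Nat.strong_induction_on with
  | _ n ih =>
    intro W hWn
    obtain ⟨g, hg, h, hh, e⟩ := Submodule.mem_sup.mp (isB_span wt v W)
    rw [← e]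
    refine add_mem ?_ ?_
    · rw [Finsupp.supported_eq_span_single] at hg
      refine (Submodule.span_le.mpr ?_) hg
      rintro _ ⟨b, ⟨hb, hl⟩, rfl⟩
      refine Submodule.subset_span ⟨[b], by simp, by simpa using hb, ?_, ?_⟩
      · show (wl wt b) + D + 0 ≤ _
        omega
      · exact (one_mm _).symm
    · have hlen : ∀ W', h W' ≠ 0 → (wl wt W') < ((wl wt W) + 1 - D) + D := by
        intro W' hW'
        have h1 : h = wd K W - g := by rw [← e]; abel
        rw [h1, Finsupp.sub_apply] at hW'
        have h2 : (wl wt W') ≤ (wl wt W) := by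
          by_cases h3 : g W' = 0
          · rw [h3, sub_zero] at hW'
            unfold wd at hW'
            rw [Finsupp.single_apply] at hW'
            split_ifs at hW' with h4
            · rw [h4]
            · exact absurd rfl hW'
          · exact (hg (Finsupp.mem_support_iff.mpr h3)).2
        omega
      obtain ⟨s, rfl, hs⟩ := bdd_of_top hv hO hh hlen
      rw [← Finsupp.sum_single s, Finsupp.sum, map_sum]
      refine Submodule.sum_mem _ fun y hy => ?_
      obtain ⟨P, Q⟩ := y
      have h3 := hs _ (Finsupp.mem_support_iff.mp hy)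
      simp only at h3
      have e1 : syW v (Finsupp.single (P, Q) (s (P, Q))) =
          s (P, Q) • mm (wd K P) (mm v (wd K Q)) := by
        rw [syW_single, shW_eq_mm]
      rw [e1]
      refine Submodule.smul_mem _ _ ?_
      have hP := ih (wl wt P) (by omega) P le_rfl
      have hQ := ih (wl wt Q) (by omega) Q le_rfl
      generalize wd K P = p at hP ⊢
      generalize wd K Q = q at hQ ⊢
      induction hP using Submodule.span_induction with
      | mem x hx =>
        obtain ⟨ω, hω, hb, hd, rfl⟩ := hx
        induction hQ using Submodule.span_induction with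
        | mem y hy =>
          obtain ⟨ω', hω', hb', hd', rfl⟩ := hy
          refine Submodule.subset_span ⟨ω' ++ ω, by simp [hω], ?_, ?_, ?_⟩
          · intro b hb''
            rcases List.mem_append.mp hb'' with h4 | h4
            · exact hb' b h4
            · exact hb b h4
          · rw [de_append]; omega
          · rw [Em_append v hω' hω]
        | zero => rw [map_zero, map_zero]; exact zero_mem _
        | add y y' _ _ hy hy' => rw [map_add, map_add]; exact add_mem hy hy'
        | smul a y _ hy => rw [map_smul, map_smul]; exact Submodule.smul_mem _ _ hy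
      | zero => rw [map_zero, LinearMap.zero_apply]; exact zero_mem _
      | add y y' _ _ hy hy' => rw [map_add, LinearMap.add_apply]; exact add_mem hy hy'
      | smul a y _ hy => rw [map_smul, LinearMap.smul_apply]; exact Submodule.smul_mem _ _ hy

section exp

variable [Encodable X] [DecidableEq X] [Fintype X]

/-- uniqueness of expansions -/
theorem exp_inj {v : List X →₀ K} (h0 : v [] = 0) (hO : OT v) (n : ℕ) :
    ∀ c : List (List X) →₀ K, (∀ ω, c ω ≠ 0 → ω ≠ [] ∧ (∀ b ∈ ω, isB wt v b) ∧ ω.length ≤ n) →
      sE v c = 0 → c = 0 := by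
  classical
  induction n with
  | zero =>
    intro c hc _
    ext ω
    by_contra h
    obtain ⟨h1, _, h2⟩ := hc ω h
    exact h1 (List.length_eq_zero_iff.mp (by omega))
  | succ n ih =>
    intro c hc h
    rw [sE_split] at h
    have hg : gl K c = 0 := by
      apply isB_indep (v := v)
      · intro W hW
        rw [gl_apply] at hW
        exact (hc _ hW).2.1 W (by simp)
      · have : gl K c = -syW v (tl v c) := by
          rw [← sub_eq_zero, sub_neg_eq_add]; exact h
        rw [this]
        exact neg_mem ⟨_, rfl⟩
    rw [hg, zero_add] at h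
    have ht : tl v c = 0 := by
      refine star (wt := wt) h0 hO ((tl v c).support.sup (fun x => x.1.length + 1)) _ ?_ ?_ h
      · intro y hy
        exact Nat.lt_of_succ_le (Finset.le_sup (f := fun x : List X × List X => x.1.length + 1)
          (Finsupp.mem_support_iff.mpr hy))
      · rintro ⟨P, Q⟩ hy
        have h1 : rb K Q (tl v c) P ≠ 0 := by
          rw [rb_apply]; exact hy
        rw [rb_tl] at h1
        have h2 : cb K Q c ≠ 0 := by
          intro h3; rw [h3, map_zero] at h1; exact h1 rfl
        obtain ⟨ω, hω⟩ := Finsupp.ne_iff.mp h2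
        match ω, hω with
        | [], hω => exact absurd (cb_nil Q c) hω
        | c' :: ω, hω =>
          rw [cb_apply] at hω
          exact (hc _ hω).2.1 Q (by simp)
    have hcb : ∀ b, cb K b c = 0 := by
      intro b
      apply ih
      · intro ω hω
        match ω, hω with
        | [], hω => exact absurd (cb_nil b c) hω
        | c' :: ω, hω =>
          rw [cb_apply] at hω
          obtain ⟨_, h2, h3⟩ := hc _ hω
          refine ⟨by simp, fun x hx => h2 x (List.mem_cons_of_mem _ hx), ?_⟩
          simp only [List.length_cons] at h3 ⊢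
          omega
      · rw [← rb_tl, ht, map_zero]
    ext ω
    match ω with
    | [] =>
      by_contra h1
      exact (hc [] h1).1 rfl
    | [b] => rw [← gl_apply, hg]; rfl
    | b :: c' :: ω => rw [← cb_apply, hcb]; rfl

theorem exp_inj' {v : List X →₀ K} (h0 : v [] = 0) (hO : OT v) {c : List (List X) →₀ K}
    (hc : ∀ ω, c ω ≠ 0 → ω ≠ [] ∧ ∀ b ∈ ω, isB wt v b) (h : sE v c = 0) : c = 0 := by
  refine exp_inj (wt := wt) h0 hO (c.support.sup List.length) c (fun ω hω => ?_) h
  exact ⟨(hc ω hω).1, (hc ω hω).2, Finset.le_sup (f := List.length)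
    (Finsupp.mem_support_iff.mpr hω)⟩

end exp

end

end Pool.Agent.Helper120_Alt.Wt
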