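import Pool.Agent.Helper120_Alt.Wt2

set_option autoImplicit false

/-! Polynomials in an element with only trivial syzygies of its weighted top component. -/

namespace Pool.Agent.Helper120_Alt.Wt

noncomputable section

variable {K X : Type} [Field K] {wt : X → ℕ}

theorem de_rep (wt : X → ℕ) (D j : ℕ) : de wt D (List.replicate j ([] : List X)) = j * D := by
  induction j with
  | zero => simp [de]
  | succ j ih =>
    show 0 + D + de wt D (List.replicate j []) = _
    rw [ih]; ring

/-- leading terms -/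
theorem xi_lead {r : ℕ} {c : ℕ → K} (hr : c r ≠ 0) {D : ℕ} (hD : 0 < D)
    {γ : (List (List X) × List (List X)) →₀ K} (hγ : ∀ y, γ y ≠ 0 → Nrm r y.1) {M : ℕ}
    (hM : ∀ ω, xi c r γ ω ≠ 0 → de wt D ω < M) :
    ∀ y, γ y ≠ 0 → de wt D y.1 + de wt D y.2 + r * D < M := by
  classical
  intro y0 hy0
  have hs : γ.support.Nonempty := ⟨y0, Finsupp.mem_support_iff.mpr hy0⟩
  obtain ⟨y, hy, hmax⟩ := Finset.exists_max_image γ.support
    (fun y => de wt D y.1 + de wt D y.2) hs
  have h0 := hmax y0 (Finsupp.mem_support_iff.mpr hy0)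
  have hy' := Finsupp.mem_support_iff.mp hy
  have key : xi c r γ (y.2 ++ (List.replicate r [] ++ y.1)) = γ y * c r := by
    rw [xi_apply, Finset.sum_eq_single y]
    · rw [Finset.sum_eq_single r]
      · rw [if_pos rfl]
      · intro j hj hne
        rw [if_neg]
        intro h
        apply hne
        have h1 := congrArg (de wt D) h
        rw [de_append, de_append, de_append, de_append, de_rep, de_rep] at h1
        have h2 : j * D = r * D := by omega
        exact Nat.eq_of_mul_eq_mul_right hD h2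
      · intro h; exact absurd (Finset.self_mem_range_succ r) h
    · intro z hz hne
      refine Finset.sum_eq_zero fun j hj => ?_
      rw [if_neg]
      intro h
      have h1 := congrArg (de wt D) h
      rw [de_append, de_append, de_append, de_append, de_rep, de_rep] at h1
      have h2 := hmax z hz
      have h3 : r * D ≤ j * D := by omega
      have h4 : r ≤ j := Nat.le_of_mul_le_mul_right h3 hD
      have h5 : j = r := by
        rw [Finset.mem_range] at hj
        omega
      rw [h5] at h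
      obtain ⟨e1, e2⟩ := nrm_inj (hγ z (Finsupp.mem_support_iff.mp hz)) (hγ y hy') h
      exact hne (Prod.ext e1 e2)
    · intro h; exact absurd hy h
  have h1 := hM _ (by rw [key]; exact mul_ne_zero hy' hr)
  rw [de_append, de_append, de_rep] at h1
  omega

theorem mm_len {g h : List X →₀ K} {a b : ℕ} (hg : ∀ W, g W ≠ 0 → (wl wt W) ≤ a)
    (hh : ∀ W, h W ≠ 0 → (wl wt W) ≤ b) (W : List X) (hW : mm g h W ≠ 0) : (wl wt W) ≤ a + b := by
  unfold mm at hW
  rw [Finsupp.linearCombination_apply, Finsupp.sum, LinearMap.sum_apply,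
    Finsupp.finsetSum_apply] at hW
  obtain ⟨A, hA, h1⟩ := Finset.exists_ne_zero_of_sum_ne_zero hW
  have h2 : shW K A [] h W ≠ 0 := by
    intro h3; apply h1; rw [LinearMap.smul_apply, Finsupp.smul_apply, h3, smul_zero]
  obtain ⟨B, rfl, h4⟩ := shW_ne _ _ _ _ h2
  have h5 := hg A (Finsupp.mem_support_iff.mp hA)
  have h6 := hh B h4
  simp only [wl_append, wl_nil]
  omega

theorem wd_len (b W : List X) (h : wd K b W ≠ 0) : (wl wt W) ≤ (wl wt b) := by
  classical
  unfold wd at h
  rw [Finsupp.single_apply] at h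
  split_ifs at h with h1
  · rw [h1]
  · exact absurd rfl h

theorem Gm_len {v : List X →₀ K} {D : ℕ} (hv : ∀ W, v W ≠ 0 → (wl wt W) ≤ D)
    (ω : List (List X)) : ∀ W, Gm v ω W ≠ 0 → (wl wt W) ≤ de wt D ω := by
  induction ω with
  | nil => intro W hW; exact wd_len (K := K) [] W hW
  | cons b ω ih =>
    intro W hW
    have h1 := mm_len (mm_len ih (wd_len (K := K) b)) hv W hW
    show (wl wt W) ≤ (wl wt b) + D + de wt D ω
    omega

theorem Em_len {v : List X →₀ K} {D : ℕ} (hv : ∀ W, v W ≠ 0 → (wl wt W) ≤ D)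
    (ω : List (List X)) (W : List X) (hW : Em v ω W ≠ 0) : (wl wt W) + D ≤ de wt D ω := by
  match ω, hW with
  | [], hW => exact absurd rfl hW
  | b :: ω, hW =>
    have h1 := mm_len (Gm_len hv ω) (wd_len (K := K) b) W hW
    show (wl wt W) + D ≤ (wl wt b) + D + de wt D ω
    omega

variable [Encodable X]

/-- normal pairs with an arbitrary second factor -/
def NS (wt : X → ℕ) (v : List X →₀ K) (r : ℕ) : Submodule K ((List X × List X) →₀ K) :=
  Submodule.span K {x | ∃ ω Q, Nrm r ω ∧ (∀ b ∈ ω, isB wt v b) ∧ x = ten (Em v ω) Q}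

theorem red {v : List X →₀ K} {c : ℕ → K} {r : ℕ} (hr : c r ≠ 0) (n : ℕ) :
    ∀ ω : List (List X), ω.length ≤ n → ω ≠ [] → (∀ b ∈ ω, isB wt v b) → isB wt v [] →
      ∀ Q, ten (Em v ω) Q ∈ Sp v c r ⊔ NS wt v r := by
  induction n using Nat.strong_induction_on with
  | _ n ih =>
    intro ω hn hω hb he Q
    by_cases hN : Nrm r ω
    · exact Submodule.mem_sup_right (Submodule.subset_span ⟨ω, Q, hN, hb, rfl⟩)
    · by_cases h1 : ∀ ω', ω = [] :: ω' → ω' = []
      · have h2 : ¬ ∀ ω₂ ω₁, ω = ω₂ ++ (List.replicate r [] ++ ω₁) → ω₂ = [] ∨ ω₁ = [] :=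
          fun h => hN ⟨hω, h1, h⟩
        push Not at h2
        obtain ⟨ω₂, ω₁, e, hω₂, hω₁⟩ := h2
        have hlen : ω.length = ω₂.length + (r + ω₁.length) := by
          rw [e]; simp
        have hl2 : 0 < ω₂.length := List.length_pos_iff.mpr hω₂
        have hl1 : 0 < ω₁.length := List.length_pos_iff.mpr hω₁
        have hb1 : ∀ b ∈ ω₁, isB wt v b := fun b h => hb b (by rw [e]; simp [h])
        have hb2 : ∀ b ∈ ω₂, isB wt v b := fun b h => hb b (by rw [e]; simp [h])
        have e1 := Em_pu v c r hω₂ hω₁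
        rw [Finset.sum_range_succ, ← e] at e1
        have e2 : Em v ω = (c r)⁻¹ • (mm (Em v ω₁) (mm (pu v c r) (Em v ω₂)) -
            ∑ j ∈ Finset.range r, c j • Em v (ω₂ ++ (List.replicate j [] ++ ω₁))) := by
          rw [e1, add_sub_cancel_left, smul_smul, inv_mul_cancel₀ hr, one_smul]
        have e3 : ten (Em v ω) Q = (c r)⁻¹ • (ten (mm (Em v ω₁) (mm (pu v c r) (Em v ω₂))) Q -
            ∑ j ∈ Finset.range r, c j • ten (Em v (ω₂ ++ (List.replicate j [] ++ ω₁))) Q) := by
          conv_lhs => rw [e2]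
          rw [map_smul, LinearMap.smul_apply, map_sub, LinearMap.sub_apply, map_sum,
            LinearMap.sum_apply]
          simp only [map_smul, LinearMap.smul_apply]
        rw [e3]
        refine Submodule.smul_mem _ _ (Submodule.sub_mem _ ?_ (Submodule.sum_mem _ fun j hj =>
          Submodule.smul_mem _ _ ?_))
        · have h3 := ten_TrW (pu v c r) (Em v ω₁) (Em v ω₂) Q
          have h4 : ten (mm (Em v ω₁) (mm (pu v c r) (Em v ω₂))) Q =
              ten (Em v ω₁) (mm (Em v ω₂) (mm (pu v c r) Q)) -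
              (ten (Em v ω₁) (mm (Em v ω₂) (mm (pu v c r) Q)) -
                ten (mm (Em v ω₁) (mm (pu v c r) (Em v ω₂))) Q) := by abel
          rw [h4]
          refine Submodule.sub_mem _ (ih ω₁.length (by omega) ω₁ le_rfl hω₁ hb1 he _)
            (Submodule.mem_sup_left (Submodule.mem_sup_left h3))
        · rw [Finset.mem_range] at hj
          have hl : (ω₂ ++ (List.replicate j [] ++ ω₁)).length = ω₂.length + (j + ω₁.length) := by
            simp
          refine ih (ω₂.length + (j + ω₁.length)) (by omega) _ hl.le (by simp [hω₂]) ?_ he _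
          intro b hb'
          rcases List.mem_append.mp hb' with h | h
          · exact hb2 b h
          · rcases List.mem_append.mp h with h | h
            · rw [List.eq_of_mem_replicate h]; exact he
            · exact hb1 b h
      · push Not at h1
        obtain ⟨ω', rfl, hω'⟩ := h1
        have e1 : Em v ([] :: ω') = mm (Em v ω') v := by
          rw [Em_mul v hω']
          exact mm_one _
        rw [e1]
        have h3 := ten_s0 v (Em v ω') Q
        have h4 : ten (mm (Em v ω') v) Q = (ten (mm (Em v ω') v) Q - ten (Em v ω') (mm v Q)) +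
            ten (Em v ω') (mm v Q) := by abel
        rw [h4]
        refine add_mem (Submodule.mem_sup_left (Submodule.mem_sup_right h3)) ?_
        simp only [List.length_cons] at hn
        exact ih ω'.length (by omega) ω' le_rfl hω'
          (fun b h => hb b (List.mem_cons_of_mem _ h)) he _

/-- the set of normal pairs -/
def NP (wt : X → ℕ) (v : List X →₀ K) (r : ℕ) : Set (List (List X) × List (List X)) :=
  {y | Nrm r y.1 ∧ (∀ b ∈ y.1, isB wt v b) ∧ y.2 ≠ [] ∧ ∀ b ∈ y.2, isB wt v b}

theorem kap_val (v : List X →₀ K) (c : ℕ → K) (r : ℕ)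
    {γ : (List (List X) × List (List X)) →₀ K} (hγ : ∀ y, γ y ≠ 0 → y ∈ NP wt v r) :
    syW (pu v c r) (kap v γ) = sE v (xi c r γ) := by
  unfold kap xi
  rw [Finsupp.linearCombination_apply, Finsupp.linearCombination_apply, Finsupp.sum,
    Finsupp.sum, map_sum, map_sum]
  refine Finset.sum_congr rfl fun y hy => ?_
  have h1 := hγ y (Finsupp.mem_support_iff.mp hy)
  rw [map_smul, map_smul, syW_ten, Em_pu v c r h1.2.2.1 h1.1.1, map_sum]
  congr 1
  refine Finset.sum_congr rfl fun j _ => ?_
  rw [map_smul, sE_single, one_smul]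

theorem normal_form (hw : ∀ x, 0 < wt x) {v : List X →₀ K} {D : ℕ} (hv : ∀ W, v W ≠ 0 → (wl wt W) ≤ D)
    (hO : OT (tp wt D v)) (hD : 0 < D) (h0 : v [] = 0) {c : ℕ → K} {r : ℕ} (hr : c r ≠ 0)
    (s : (List X × List X) →₀ K) :
    ∃ s' ∈ Sp v c r, ∃ γ, (∀ y, γ y ≠ 0 → y ∈ NP wt v r) ∧ s = s' + kap v γ := by
  have hsp : ∀ W : List X, wd K W ∈ Submodule.span K {x | ∃ ω : List (List X), ω ≠ [] ∧
      (∀ b ∈ ω, isB wt v b) ∧ x = Em v ω} := by
    intro W
    refine (Submodule.span_mono ?_) (exp_surj hv hO hD (wl wt W) W le_rfl)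
    rintro _ ⟨ω, h1, h2, _, rfl⟩
    exact ⟨ω, h1, h2, rfl⟩
  have hk : ∀ s : (List X × List X) →₀ K, s ∈ Sp v c r ⊔
      (Finsupp.supported K K (NP wt v r)).map (kap v) := by
    have hNS : NS wt v r ≤ (Finsupp.supported K K (NP wt v r)).map (kap v) := by
      unfold NS
      rw [Submodule.span_le]
      rintro _ ⟨ω, Q, hω, hb, rfl⟩
      refine lin_ext _ (ten (Em v ω)) (fun W => ?_) Q
      have h1 := hsp W
      generalize wd K W = q at h1 ⊢
      induction h1 using Submodule.span_induction with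
      | mem x hx =>
        obtain ⟨ω', hω', hb', rfl⟩ := hx
        refine ⟨Finsupp.single (ω, ω') 1, Finsupp.single_mem_supported K 1 ⟨hω, hb, hω', hb'⟩, ?_⟩
        unfold kap
        rw [Finsupp.linearCombination_single, one_smul]
      | zero => rw [map_zero]; exact zero_mem _
      | add y y' _ _ hy hy' => rw [map_add]; exact add_mem hy hy'
      | smul a y _ hy => rw [map_smul]; exact Submodule.smul_mem _ _ hy
    intro s
    induction s using Finsupp.induction_linear with
    | zero => exact zero_mem _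
    | add s t hs ht => exact add_mem hs ht
    | single y a =>
      obtain ⟨P, Q⟩ := y
      have e : (Finsupp.single (P, Q) a : (List X × List X) →₀ K) =
          a • ten (wd K P) (wd K Q) := by
        rw [ten_wd, Finsupp.smul_single, smul_eq_mul, mul_one]
      rw [e]
      refine Submodule.smul_mem _ _ ?_
      have h1 := hsp P
      generalize wd K P = p at h1 ⊢
      induction h1 using Submodule.span_induction with
      | mem x hx =>
        obtain ⟨ω', hω', hb', rfl⟩ := hx
        exact (sup_le_sup_left hNS _) (red hr ω'.length ω' le_rfl hω' hb' (isB_nil hw h0) _)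
      | zero => rw [map_zero, LinearMap.zero_apply]; exact zero_mem _
      | add y y' _ _ hy hy' => rw [map_add, LinearMap.add_apply]; exact add_mem hy hy'
      | smul a y _ hy => rw [map_smul, LinearMap.smul_apply]; exact Submodule.smul_mem _ _ hy
  obtain ⟨s', hs', t, ht, e⟩ := Submodule.mem_sup.mp (hk s)
  obtain ⟨γ, hγ, rfl⟩ := ht
  exact ⟨s', hs', γ, fun y hy => hγ (Finsupp.mem_support_iff.mpr hy), e.symm⟩

theorem xi_supp (hw : ∀ x, 0 < wt x) {v : List X →₀ K} (h0 : v [] = 0) {c : ℕ → K} {r : ℕ}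
    {γ : (List (List X) × List (List X)) →₀ K} (hγ : ∀ y, γ y ≠ 0 → y ∈ NP wt v r) :
    ∀ ω, xi c r γ ω ≠ 0 → ω ≠ [] ∧ ∀ b ∈ ω, isB wt v b := by
  classical
  intro ω hω
  rw [xi_apply] at hω
  obtain ⟨y, hy, h1⟩ := Finset.exists_ne_zero_of_sum_ne_zero hω
  obtain ⟨j, _, h2⟩ := Finset.exists_ne_zero_of_sum_ne_zero h1
  split_ifs at h2 with h3
  · obtain ⟨h4, h5, h6, h7⟩ := hγ y (Finsupp.mem_support_iff.mp hy)
    rw [← h3]
    refine ⟨by simp [h6], fun b hb => ?_⟩
    rcases List.mem_append.mp hb with h | h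
    · exact h7 b h
    · rcases List.mem_append.mp h with h | h
      · rw [List.eq_of_mem_replicate h]; exact isB_nil hw h0
      · exact h5 b h
  · exact absurd rfl h2

variable [DecidableEq X] [Fintype X]

/-- the syzygies of a polynomial in an element with only trivial syzygies -/
theorem syz_pu (hw : ∀ x, 0 < wt x) {v : List X →₀ K} {D : ℕ} (hv : ∀ W, v W ≠ 0 → (wl wt W) ≤ D)
    (hO : OT (tp wt D v)) (hD : 0 < D) (h0 : v [] = 0) {c : ℕ → K} {r : ℕ} (hr : c r ≠ 0)
    {s : (List X × List X) →₀ K} (hs : syW (pu v c r) s = 0) : s ∈ Sp v c r := by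
  obtain ⟨s', hs', γ, hγ, rfl⟩ := normal_form hw hv hO hD h0 hr s
  rw [map_add, Sp_ker v c r hs', zero_add, kap_val v c r hγ] at hs
  have h1 : xi c r γ = 0 := exp_inj' (wt := wt) h0 (OT_of_top hv hO) (xi_supp hw h0 hγ) hs
  have h2 : γ = 0 := by
    ext y
    by_contra h
    have := xi_lead (wt := wt) hr hD (fun y hy => (hγ y hy).1) (M := 0) (fun ω hω => by
      rw [h1] at hω; exact absurd rfl hω) y h
    omega
  rw [h2, map_zero, add_zero]
  exact hs'

/-- bounded representations for a polynomial in an element with only trivial syzygies -/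
theorem bdd_pu (hw : ∀ x, 0 < wt x) {v : List X →₀ K} {D : ℕ} (hv : ∀ W, v W ≠ 0 → (wl wt W) ≤ D)
    (hO : OT (tp wt D v)) (hD : 0 < D) (h0 : v [] = 0) {c : ℕ → K} {r : ℕ} (hr : c r ≠ 0)
    {g : List X →₀ K} (hg : g ∈ IW (pu v c r)) {N : ℕ} (hN : ∀ W, g W ≠ 0 → (wl wt W) < N) :
    ∃ s, syW (pu v c r) s = g ∧ ∀ y, s y ≠ 0 → (wl wt y.1) + (wl wt y.2) < N := by
  obtain ⟨s, rfl⟩ := hg
  obtain ⟨s', hs', γ, hγ, rfl⟩ := normal_form hw hv hO hD h0 hr s
  rw [map_add, Sp_ker v c r hs', zero_add] at hN ⊢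
  refine ⟨kap v γ, rfl, ?_⟩
  rw [kap_val v c r hγ] at hN
  -- the expansion of the element
  let T : Set (List (List X)) := {ω | ω ≠ [] ∧ (∀ b ∈ ω, isB wt v b) ∧ de wt D ω < N + D}
  have h1 : sE v (xi c r γ) ∈ (Finsupp.supported K K T).map (sE v) := by
    generalize sE v (xi c r γ) = g at hN ⊢
    rw [← Finsupp.sum_single g, Finsupp.sum]
    refine Submodule.sum_mem _ fun W hW => ?_
    have h2 := hN W (Finsupp.mem_support_iff.mp hW)
    have e : (Finsupp.single W (g W) : List X →₀ K) = g W • wd K W := by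
      unfold wd
      rw [Finsupp.smul_single, smul_eq_mul, mul_one]
    rw [e]
    refine Submodule.smul_mem _ _ ?_
    refine (Submodule.span_le.mpr ?_) (exp_surj hv hO hD (wl wt W) W le_rfl)
    rintro _ ⟨ω, hω, hb, hd, rfl⟩
    refine ⟨Finsupp.single ω 1, Finsupp.single_mem_supported K 1 ⟨hω, hb, by omega⟩, ?_⟩
    rw [sE_single, one_smul]
  obtain ⟨δ, hδ, e⟩ := h1
  have h3 : xi c r γ - δ = 0 := by
    apply exp_inj' (wt := wt) h0 (OT_of_top hv hO)
    · intro ω hω
      rw [Finsupp.sub_apply] at hω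
      by_cases h4 : δ ω = 0
      · rw [h4, sub_zero] at hω
        exact xi_supp hw h0 hγ ω hω
      · have h5 : ω ∈ T := hδ (Finsupp.mem_support_iff.mpr h4)
        exact ⟨h5.1, h5.2.1⟩
    · rw [map_sub, e, sub_self]
  have h6 := xi_lead (wt := wt) hr hD (fun y hy => (hγ y hy).1) (M := N + D) (γ := γ) (fun ω hω => by
    rw [sub_eq_zero.mp h3] at hω
    have h5 : ω ∈ T := hδ (Finsupp.mem_support_iff.mpr hω)
    exact h5.2.2)
  intro z hz
  unfold kap at hz
  rw [Finsupp.linearCombination_apply, Finsupp.sum, Finsupp.finsetSum_apply] at hz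
  obtain ⟨y, hy, h7⟩ := Finset.exists_ne_zero_of_sum_ne_zero hz
  have h8 : ten (Em v y.1) (Em v y.2) z ≠ 0 := by
    intro h9; apply h7; rw [Finsupp.smul_apply, h9, smul_zero]
  obtain ⟨h9, h10⟩ := ten_ne h8
  have h11 := Em_len hv y.1 z.1 h9
  have h12 := Em_len hv y.2 z.2 h10
  have h13 := h6 y (Finsupp.mem_support_iff.mp hy)
  omega

end

end Pool.Agent.Helper120_Alt.Wt
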