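import Pool.Agent.Helper120_Alt.Wt3
import Pool.Agent.Helper120_Alt.Pow5

set_option autoImplicit false

/-! Deciding ideals with linearly bounded representations. -/

namespace Pool.Agent.Helper120_Alt

open R3

noncomputable section

section dec

variable {F : Type} [Field F]

/-- bounded representations in an ideal -/
def Bddk {X : Type} (k : ℕ) (w : List X →₀ F) : Prop :=
  ∀ g ∈ IW w, ∀ N : ℕ, (∀ W, g W ≠ 0 → W.length < N) →
    ∃ s, syW w s = g ∧ ∀ y, s y ≠ 0 → y.1.length + y.2.length < k * N

open Classical in
/-- the negative test -/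
def negk (k : ℕ) (ur L Λ : Raw F) : Bool :=
  !(decide (lamf Λ L = 0)) && ((allW (k * (bdL L + 2))).all fun P =>
    (allW (k * (bdL L + 2))).all fun Q => decide (lamf Λ (HA ur (P, Q)) = 0))

theorem neg_iff_bddk (k : ℕ) (ur : Raw F) (hb : Bddk k (cof (Val parseA ur))) (L : Raw F) :
    ¬ Val parseA L ∈ idl F {Val parseA ur} ↔ ∃ Λ, negk k ur L Λ = true := by
  classical
  constructor
  · intro h
    obtain ⟨ψ, h2, h1⟩ := Submodule.exists_le_ker_of_notMem h
    let N := k * (bdL L + 2)
    let T : Finset (FreeSemigroup (Fin 3)) := (Val parseA L).coeff.support ∪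
      (allW N).toFinset.biUnion fun P => (allW N).toFinset.biUnion fun Q =>
        (Val parseA (HA ur (P, Q))).coeff.support
    let Λ : Raw F := T.toList.map fun m => (ψ (MonoidAlgebra.single m 1), (lets m).map some)
    have hΛ : ∀ m, (Val parseA Λ).coeff m = if m ∈ T then ψ (MonoidAlgebra.single m 1) else 0 := by
      intro m
      have h3 : Val parseA Λ = ∑ m ∈ T, MonoidAlgebra.single m (ψ (MonoidAlgebra.single m 1)) := by
        unfold Val val
        rw [List.map_map, List.map_map, ← Finset.sum_map_toList]
        congr 1
        apply List.map_congr_left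
        intro m _
        show MonoidAlgebra.single (parseA ((lets m).map some)) (ψ (MonoidAlgebra.single m 1)) = _
        rw [parseA_some, ofL_lets]
      rw [h3]
      have h4 : (∑ m ∈ T, MonoidAlgebra.single m (ψ (MonoidAlgebra.single m 1)) :
          AS F (Fin 3)).coeff = ∑ m ∈ T, Finsupp.single m (ψ (MonoidAlgebra.single m 1)) := by
        have := map_sum (MonoidAlgebra.coeffLinearEquiv F :
          MonoidAlgebra F (FreeSemigroup (Fin 3)) ≃ₗ[F] _)
          (fun m => MonoidAlgebra.single m (ψ (MonoidAlgebra.single m 1))) T
        exact this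
      rw [h4, Finsupp.finsetSum_apply]
      simp only [Finsupp.single_apply]
      rw [Finset.sum_ite_eq']
    have hφ : ∀ g : AS F (Fin 3), g.coeff.support ⊆ T → phf Λ g = ψ g := by
      intro g hg
      have h5 : g = ∑ m ∈ g.coeff.support, MonoidAlgebra.single m (g.coeff m) := by
        apply MonoidAlgebra.coeff_injective
        have := map_sum (MonoidAlgebra.coeffLinearEquiv F :
          MonoidAlgebra F (FreeSemigroup (Fin 3)) ≃ₗ[F] _)
          (fun m => MonoidAlgebra.single m (g.coeff m)) g.coeff.support
        refine Eq.trans ?_ this.symm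
        conv_lhs => rw [← Finsupp.sum_single g.coeff]
        rfl
      rw [h5, map_sum, map_sum]
      refine Finset.sum_congr rfl fun m hm => ?_
      rw [phf_single, hΛ, if_pos (hg hm)]
      have : (MonoidAlgebra.single m (g.coeff m) : AS F (Fin 3)) =
          g.coeff m • MonoidAlgebra.single m 1 := by
        rw [MonoidAlgebra.smul_single, smul_eq_mul, mul_one]
      rw [this, map_smul, smul_eq_mul]
    refine ⟨Λ, ?_⟩
    unfold negk
    simp only [Bool.and_eq_true, Bool.not_eq_true', decide_eq_false_iff_not, List.all_eq_true,
      decide_eq_true_eq]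
    constructor
    · rw [lamf_eq, hφ _ Finset.subset_union_left]
      exact h2
    · intro P hP Q hQ
      rw [lamf_eq, hφ]
      · apply h1
        rw [idl_span]
        exact Submodule.subset_span ⟨(P, Q), rfl⟩
      · refine Finset.Subset.trans ?_ Finset.subset_union_right
        intro m hm
        rw [Finset.mem_biUnion]
        refine ⟨P, List.mem_toFinset.mpr hP, ?_⟩
        rw [Finset.mem_biUnion]
        exact ⟨Q, List.mem_toFinset.mpr hQ, hm⟩
  · rintro ⟨Λ, hΛ⟩ hL
    unfold negk at hΛ
    simp only [Bool.and_eq_true, Bool.not_eq_true', decide_eq_false_iff_not, List.all_eq_true,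
      decide_eq_true_eq] at hΛ
    obtain ⟨h1, h2⟩ := hΛ
    apply h1
    obtain ⟨s, hs⟩ := idl_syv hL
    have hg : cofL (Val parseA L) ∈ IW (cof (Val parseA ur)) := ⟨s, hs⟩
    obtain ⟨s', e, hs'⟩ := hb _ hg (bdL L + 2) (by
      intro W hW
      have := cofL_Val_len L hW
      omega)
    have h3 : Val parseA L = s'.sum fun x c => c • Val parseA (HA ur x) := by
      apply cof_injective
      rw [← e, Finsupp.sum, map_sum]
      unfold syW
      rw [Finsupp.linearCombination_apply, Finsupp.sum]
      refine Finset.sum_congr rfl fun x _ => ?_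
      obtain ⟨P, Q⟩ := x
      rw [map_smul, cofL_Val_HA]
      rfl
    rw [lamf_eq, h3, Finsupp.sum, map_sum]
    refine Finset.sum_eq_zero fun x hx => ?_
    have h4 := hs' x (Finsupp.mem_support_iff.mp hx)
    rw [map_smul, ← lamf_eq]
    have h5 := h2 x.1 ((mem_allW _ _).mpr (by omega)) x.2 ((mem_allW _ _).mpr (by omega))
    have h6 : (x.1, x.2) = x := rfl
    rw [h6] at h5
    rw [h5, smul_zero]

variable [Primcodable F]

theorem comp_negk (hadd : Computable₂ (fun a b : F => a + b))
    (hmul : Computable₂ (fun a b : F => a * b)) (k : ℕ) (ur : Raw F) :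
    Computable₂ (negk k ur) := by
  classical
  have hall : Computable (fun z : Raw F × Raw F => allW (k * (bdL z.1 + 2))) := by
    have h1 : Computable (fun z : Raw F × Raw F => bdL z.1 + 2) :=
      Computable.succ.comp (Computable.succ.comp (comp_bdL.comp Computable.fst))
    have h2 : Computable (fun z : Raw F × Raw F => k * (bdL z.1 + 2)) :=
      Primrec.nat_mul.to_comp.comp (Computable.const k) h1
    exact primrec_allW.to_comp.comp h2
  have e1 : Computable (fun z : Raw F × Raw F => !(decide (lamf z.2 z.1 = 0))) := by
    have h1 : Computable (fun z : Raw F × Raw F => decide (lamf z.2 z.1 = 0)) :=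
      comp_eq ((comp_lamf hadd hmul).comp Computable.snd Computable.fst) (Computable.const 0)
    exact Primrec.not.to_comp.comp h1
  have e2 : Computable (fun z : Raw F × Raw F =>
      ((allW (k * (bdL z.1 + 2))).all fun P => (allW (k * (bdL z.1 + 2))).all fun Q =>
        decide (lamf z.2 (HA ur (P, Q)) = 0))) := by
    apply comp_all hall
    apply comp_all (hall.comp Computable.fst)
    have h2 : Computable (fun y : ((Raw F × Raw F) × List (Fin 3)) × List (Fin 3) =>
        lamf y.1.1.2 (HA ur (y.1.2, y.2))) :=
      (comp_lamf hadd hmul).comp (Computable.snd.comp (Computable.fst.comp Computable.fst))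
        ((primrec_HA ur).to_comp.comp ((Computable.snd.comp Computable.fst).pair Computable.snd))
    exact comp_eq h2 (Computable.const 0)
  refine (Primrec.and.to_comp.comp e1 e2).of_eq fun z => ?_
  unfold negk
  congr!

/-- the word problem for polynomials with bounded representations -/
theorem assDecidable_of_bddk (hadd : Computable₂ (fun a b : F => a + b))
    (hmul : Computable₂ (fun a b : F => a * b)) {u : AS F (Fin 3)} {k : ℕ}
    (hb : Bddk k (cof u)) :
    AssDecidable F (Fin 3) {u} := by
  obtain ⟨ur, rfl⟩ := exists_rawA u
  have ht : Computable₂ (tst repA (HA ur) : Raw F → List (F × (List (Fin 3) × List (Fin 3))) →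
      Bool) := comp_tst hadd hmul primrec_repA.to_comp (primrec_HA ur).to_comp
  obtain ⟨d, hd, hL⟩ := dec_of_tests (P := fun L : Raw F => Val parseA L ∈ idl F {Val parseA ur})
    ht (comp_negk hadd hmul k ur) (by
      intro L
      constructor
      · intro h
        rw [idl_span] at h
        obtain ⟨E, hE⟩ := exists_cval (HA ur) h
        exact ⟨E, (tst_iff parseA_iff _ _ _).mpr hE.symm⟩
      · rintro ⟨E, hE⟩
        rw [tst_iff parseA_iff] at hE
        rw [hE, idl_span]
        clear hE
        induction E with
        | nil => rw [cval_nil]; exact zero_mem _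
        | cons x E ih =>
          rw [cval_cons]
          exact add_mem (Submodule.smul_mem _ _ (Submodule.subset_span ⟨_, rfl⟩)) ih)
    (neg_iff_bddk k ur hb)
  refine ⟨fun L => d (L.map fun p => (p.1, p.2.map some)), hd.comp ?_, fun L => ?_⟩
  · have e1 : Primrec (fun w : List (Fin 3) => w.map some) :=
      Primrec.list_map Primrec.id (Primrec.option_some.comp Primrec.snd).to₂
    exact (Primrec.list_map Primrec.id ((Primrec.fst.comp Primrec.snd).pair
      (e1.comp (Primrec.snd.comp Primrec.snd))).to₂).to_comp
  · rw [hL]
    have : Val parseA ((L.map fun p => (p.1, p.2.head :: p.2.tail)).map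
        fun p => (p.1, p.2.map some)) = val L := by
      unfold Val
      rw [List.map_map, List.map_map]
      congr 1
      conv_rhs => rw [← List.map_id L]
      apply List.map_congr_left
      intro x _
      show (x.1, parseA ((lets x.2).map some)) = x
      rw [parseA_some, ofL_lets]
    rw [this]


end dec

end

end Pool.Agent.Helper120_Alt
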